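import Pool.Agent.helper45.Cor.Defs

/-!
Module COR-O: Osgood's lemma for bounded functions.

PROOF (one possibility).  Induction on the set `s` of variables: claim:
for `z` in the product, `w ↦ f (z on sᶜ, w on s)` is complex differentiable jointly.  The step is
the following two block lemma: let `E` be a normed space, `U ⊆ E` and `V ⊆ ℂ` open, `f : E → ℂ → ℂ`
bounded by `C` on `U × V`, holomorphic in `x ∈ U` for each `t ∈ V` and in `t ∈ V` for each `x ∈ U`.
Then `(x, t) ↦ f x t` is differentiable at each `(x₀, t₀) ∈ U × V`: write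
`f x t - f x₀ t₀ = (f x t - f x₀ t) + (f x₀ t - f x₀ t₀)`.  On the complex line through `x₀` in the
direction `x - x₀` the Cauchy estimates give
`|f x t - f x₀ t - D_x f(x₀, t)(x - x₀)| ≤ C' |x - x₀|^2` with `C'` independent of `t`; and
`D_x f(x₀, t) → D_x f(x₀, t₀)` as `t → t₀` (its value on a vector `v` is the Cauchy integral of
`s ↦ f (x₀ + s v) t` over a small circle, and `f` is Lipschitz in `t` uniformly in `x`; divide the
difference of two Cauchy integrals: `|D_x f(x₀,t) v - D_x f(x₀,t₀) v| ≤ C'' |t - t₀| |v|`).
Another possibility: iterate Cauchy's formula on discs and differentiate under the integral.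
-/

noncomputable section

open Set

namespace Cor

theorem Osgood_upd {n : ℕ} {z w : Fin n → ℂ} {r : ℝ} (hr : 0 ≤ r)
    (hw : w ∈ Metric.closedBall z r) {j : Fin n} {t : ℂ} (ht : t ∈ Metric.closedBall (z j) r) :
    Function.update w j t ∈ Metric.closedBall z r := by
  rw [Metric.mem_closedBall] at hw ht ⊢
  rw [dist_pi_le_iff hr] at hw ⊢
  intro i
  by_cases h : i = j
  · subst h
    rw [Function.update_self]
    exact ht
  · rw [Function.update_of_ne h]
    exact hw i

theorem Osgood_coord {n : ℕ} {z w : Fin n → ℂ} {r : ℝ}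
    (hw : w ∈ Metric.closedBall z r) (j : Fin n) : w j ∈ Metric.closedBall (z j) r := by
  rw [Metric.mem_closedBall] at hw ⊢
  exact (dist_le_pi_dist w z j).trans hw

theorem Osgood_pw {n : ℕ} {z w w' : Fin n → ℂ} {r : ℝ} (hr : 0 ≤ r)
    (hw : w ∈ Metric.closedBall z r) (hw' : w' ∈ Metric.closedBall z r) (s : Finset (Fin n)) :
    s.piecewise w w' ∈ Metric.closedBall z r := by
  rw [Metric.mem_closedBall] at hw hw' ⊢
  rw [dist_pi_le_iff hr] at hw hw' ⊢
  intro i
  by_cases h : i ∈ s
  · rw [Finset.piecewise_eq_of_mem _ _ _ h]; exact hw i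
  · rw [Finset.piecewise_eq_of_notMem _ _ _ h]; exact hw' i

/-- the partial derivative is bounded -/
theorem Osgood_bound {n : ℕ} {O : Fin n → Set ℂ} {f : (Fin n → ℂ) → ℂ} {z : Fin n → ℂ}
    {R C : ℝ} (hR : 0 < R) (hsub : ∀ i, Metric.closedBall (z i) (3 * R) ⊆ O i)
    (hC : ∀ z ∈ Pr O, ‖f z‖ ≤ C)
    (hf : ∀ z ∈ Pr O, ∀ l, DifferentiableOn ℂ (fun t => f (Function.update z l t)) (O l))
    {w : Fin n → ℂ} (hw : w ∈ Metric.closedBall z (2 * R)) (j : Fin n) :
    ‖deriv (fun t => f (Function.update w j t)) (w j)‖ ≤ C / R := by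
  have hwO : w ∈ Pr O := fun i => hsub i (Metric.closedBall_subset_closedBall (by linarith)
    (Osgood_coord hw i))
  have hball : Metric.closedBall (w j) R ⊆ Metric.closedBall (z j) (3 * R) := by
    apply Metric.closedBall_subset_closedBall'
    have := Metric.mem_closedBall.mp (Osgood_coord hw j)
    linarith
  refine Complex.norm_deriv_le_of_forall_mem_sphere_norm_le hR
    ((hf w hwO j).diffContOnCl_ball (hball.trans (hsub j))) ?_
  intro t ht
  apply hC
  intro i
  by_cases h : i = j
  · subst h
    rw [Function.update_self]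
    exact hsub i (hball (Metric.sphere_subset_closedBall ht))
  · rw [Function.update_of_ne h]
    exact hwO i

/-- differentiability of the restriction to a coordinate line -/
theorem Osgood_diff {n : ℕ} {O : Fin n → Set ℂ} (hO : ∀ i, IsOpen (O i)) {f : (Fin n → ℂ) → ℂ}
    {z : Fin n → ℂ} {R : ℝ} (hR : 0 < R) (hsub : ∀ i, Metric.closedBall (z i) (3 * R) ⊆ O i)
    (hf : ∀ z ∈ Pr O, ∀ l, DifferentiableOn ℂ (fun t => f (Function.update z l t)) (O l))
    {w : Fin n → ℂ} (hw : w ∈ Metric.closedBall z (2 * R)) (j : Fin n) {t : ℂ}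
    (ht : t ∈ Metric.closedBall (z j) (3 * R)) :
    DifferentiableAt ℂ (fun t => f (Function.update w j t)) t := by
  have hwO : w ∈ Pr O := fun i => hsub i (Metric.closedBall_subset_closedBall (by linarith)
    (Osgood_coord hw i))
  exact (hf w hwO j).differentiableAt ((hO j).mem_nhds (hsub j ht))

theorem Osgood_lip {n : ℕ} {O : Fin n → Set ℂ} (hO : ∀ i, IsOpen (O i)) {f : (Fin n → ℂ) → ℂ}
    {z : Fin n → ℂ} {R C : ℝ} (hR : 0 < R) (hsub : ∀ i, Metric.closedBall (z i) (3 * R) ⊆ O i)
    (hC : ∀ z ∈ Pr O, ‖f z‖ ≤ C)
    (hf : ∀ z ∈ Pr O, ∀ l, DifferentiableOn ℂ (fun t => f (Function.update z l t)) (O l))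
    {w w' : Fin n → ℂ} (hw : w ∈ Metric.closedBall z (2 * R))
    (hw' : w' ∈ Metric.closedBall z (2 * R)) : ‖f w - f w'‖ ≤ n * (C / R) * ‖w - w'‖ := by
  have h2R : 0 ≤ 2 * R := by linarith
  have key : ∀ s : Finset (Fin n), ‖f (s.piecewise w w') - f w'‖ ≤ s.card * (C / R) * ‖w - w'‖ := by
    intro s
    induction s using Finset.induction_on with
    | empty => simp
    | insert j s hj ih =>
      set u := s.piecewise w w' with hu
      have hum : u ∈ Metric.closedBall z (2 * R) := Osgood_pw h2R hw hw' s
      have huj : u j = w' j := Finset.piecewise_eq_of_notMem _ _ _ hj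
      have h1 : ‖(fun t => f (Function.update u j t)) (w j) -
          (fun t => f (Function.update u j t)) (w' j)‖ ≤ C / R * ‖w j - w' j‖ := by
        refine Convex.norm_image_sub_le_of_norm_deriv_le (𝕜 := ℂ)
          (f := fun t => f (Function.update u j t)) (s := Metric.closedBall (z j) (2 * R))
          ?_ ?_ (convex_closedBall _ _) (Osgood_coord hw' j) (Osgood_coord hw j)
        · intro t ht
          exact Osgood_diff hO hR hsub hf hum j
            (Metric.closedBall_subset_closedBall (by linarith) ht)
        · intro t ht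
          have := Osgood_bound hR hsub hC hf (Osgood_upd h2R hum ht) j
          simpa only [Function.update_idem, Function.update_self] using this
      have h2 : Function.update u j (w' j) = u := by rw [← huj, Function.update_eq_self]
      have h3 : (insert j s).piecewise w w' = Function.update u j (w j) :=
        Finset.piecewise_insert _ _ _ _
      simp only [h2] at h1
      rw [h3, Finset.card_insert_of_notMem hj]
      have hCR : 0 ≤ C / R := by
        have := Osgood_bound hR hsub hC hf hw j
        exact (norm_nonneg _).trans this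
      have h4 : ‖w j - w' j‖ ≤ ‖w - w'‖ := norm_le_pi_norm (w - w') j
      calc ‖f (Function.update u j (w j)) - f w'‖
          = ‖(f (Function.update u j (w j)) - f u) + (f u - f w')‖ := by rw [sub_add_sub_cancel]
        _ ≤ ‖f (Function.update u j (w j)) - f u‖ + ‖f u - f w'‖ := norm_add_le _ _
        _ ≤ C / R * ‖w - w'‖ + s.card * (C / R) * ‖w - w'‖ :=
            add_le_add (h1.trans (mul_le_mul_of_nonneg_left h4 hCR)) ih
        _ = ((s.card + 1 : ℕ) : ℝ) * (C / R) * ‖w - w'‖ := by push_cast; ring
  have := key Finset.univ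
  rwa [Finset.piecewise_univ, Finset.card_univ, Fintype.card_fin] at this

theorem Osgood_dlip {n : ℕ} {O : Fin n → Set ℂ} (hO : ∀ i, IsOpen (O i)) {f : (Fin n → ℂ) → ℂ}
    {z : Fin n → ℂ} {R C : ℝ} (hR : 0 < R) (hsub : ∀ i, Metric.closedBall (z i) (3 * R) ⊆ O i)
    (hC : ∀ z ∈ Pr O, ‖f z‖ ≤ C)
    (hf : ∀ z ∈ Pr O, ∀ l, DifferentiableOn ℂ (fun t => f (Function.update z l t)) (O l))
    {v : Fin n → ℂ} (hv : v ∈ Metric.closedBall z R) (j : Fin n) :
    ‖deriv (fun t => f (Function.update v j t)) (v j) -
      deriv (fun t => f (Function.update z j t)) (z j)‖ ≤ n * (C / R) * ‖v - z‖ / R := by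
  have hv2 : v ∈ Metric.closedBall z (2 * R) :=
    Metric.closedBall_subset_closedBall (by linarith) hv
  have hz2 : z ∈ Metric.closedBall z (2 * R) := Metric.mem_closedBall_self (by linarith)
  have hvO : v ∈ Pr O := fun i => hsub i (Metric.closedBall_subset_closedBall (by linarith)
    (Osgood_coord hv i))
  have hzO : z ∈ Pr O := fun i => hsub i (Metric.mem_closedBall_self (by linarith))
  set D : ℂ → ℂ := fun t => f (Function.update v j (v j + t)) - f (Function.update z j (z j + t))
    with hD
  set U : Set ℂ := {t | v j + t ∈ O j} ∩ {t | z j + t ∈ O j} with hU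
  have hUsub : Metric.closedBall (0 : ℂ) R ⊆ U := by
    intro t ht
    have ht' : ‖t‖ ≤ R := by simpa using ht
    have hvj := Metric.mem_closedBall.mp (Osgood_coord hv j)
    rw [dist_eq_norm] at hvj
    refine ⟨hsub j ?_, hsub j ?_⟩
    · rw [Metric.mem_closedBall, dist_eq_norm]
      calc ‖v j + t - z j‖ = ‖(v j - z j) + t‖ := by congr 1; ring
        _ ≤ ‖v j - z j‖ + ‖t‖ := norm_add_le _ _
        _ ≤ 3 * R := by linarith
    · rw [Metric.mem_closedBall, dist_eq_norm]
      calc ‖z j + t - z j‖ = ‖t‖ := by congr 1; ring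
        _ ≤ 3 * R := by linarith
  have hDd : DifferentiableOn ℂ D U := by
    refine DifferentiableOn.sub ?_ ?_
    · refine DifferentiableOn.comp (g := fun t => f (Function.update v j t)) (t := O j)
        (hf v hvO j) (f := fun t => v j + t) (by fun_prop) ?_
      intro t ht
      exact ht.1
    · refine DifferentiableOn.comp (g := fun t => f (Function.update z j t)) (t := O j)
        (hf z hzO j) (f := fun t => z j + t) (by fun_prop) ?_
      intro t ht
      exact ht.2
  have hDderiv : deriv D 0 = deriv (fun t => f (Function.update v j t)) (v j) -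
      deriv (fun t => f (Function.update z j t)) (z j) := by
    have a1 : DifferentiableAt ℂ (fun t => f (Function.update v j t)) (v j) :=
      Osgood_diff hO hR hsub hf hv2 j (Metric.closedBall_subset_closedBall (by linarith)
        (Osgood_coord hv j))
    have a2 : DifferentiableAt ℂ (fun t => f (Function.update z j t)) (z j) :=
      Osgood_diff hO hR hsub hf hz2 j (Metric.mem_closedBall_self (by linarith))
    have b1 : HasDerivAt (fun t => f (Function.update v j (v j + t)))
        (deriv (fun t => f (Function.update v j t)) (v j)) 0 := by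
      have h0 : HasDerivAt (fun t => f (Function.update v j t))
        (deriv (fun t => f (Function.update v j t)) (v j)) (v j + 0) := by
        rw [add_zero]; exact a1.hasDerivAt
      exact HasDerivAt.comp_const_add (v j) 0 h0
    have b2 : HasDerivAt (fun t => f (Function.update z j (z j + t)))
        (deriv (fun t => f (Function.update z j t)) (z j)) 0 := by
      have h0 : HasDerivAt (fun t => f (Function.update z j t))
        (deriv (fun t => f (Function.update z j t)) (z j)) (z j + 0) := by
        rw [add_zero]; exact a2.hasDerivAt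
      exact HasDerivAt.comp_const_add (z j) 0 h0
    exact (b1.sub b2).deriv
  rw [← hDderiv]
  refine Complex.norm_deriv_le_of_forall_mem_sphere_norm_le hR
    (hDd.diffContOnCl_ball hUsub) ?_
  intro t ht
  have ht' : ‖t‖ ≤ R := by
    have := Metric.sphere_subset_closedBall ht
    simpa using this
  have hvj := Metric.mem_closedBall.mp (Osgood_coord hv j)
  rw [dist_eq_norm] at hvj
  have m1 : Function.update v j (v j + t) ∈ Metric.closedBall z (2 * R) := by
    apply Osgood_upd (by linarith) hv2
    rw [Metric.mem_closedBall, dist_eq_norm]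
    calc ‖v j + t - z j‖ = ‖(v j - z j) + t‖ := by congr 1; ring
      _ ≤ ‖v j - z j‖ + ‖t‖ := norm_add_le _ _
      _ ≤ 2 * R := by linarith
  have m2 : Function.update z j (z j + t) ∈ Metric.closedBall z (2 * R) := by
    apply Osgood_upd (by linarith) hz2
    rw [Metric.mem_closedBall, dist_eq_norm]
    calc ‖z j + t - z j‖ = ‖t‖ := by congr 1; ring
      _ ≤ 2 * R := by linarith
  refine (Osgood_lip hO hR hsub hC hf m1 m2).trans ?_
  have hCR : 0 ≤ C / R := (norm_nonneg _).trans (Osgood_bound hR hsub hC hf hz2 j)
  refine mul_le_mul_of_nonneg_left ?_ (by positivity)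
  rw [pi_norm_le_iff_of_nonneg (norm_nonneg _)]
  intro i
  rw [Pi.sub_apply]
  by_cases h : i = j
  · subst h
    rw [Function.update_self, Function.update_self]
    calc ‖v i + t - (z i + t)‖ = ‖(v - z) i‖ := by rw [Pi.sub_apply]; congr 1; ring
      _ ≤ ‖v - z‖ := norm_le_pi_norm (v - z) i
  · rw [Function.update_of_ne h, Function.update_of_ne h]
    exact norm_le_pi_norm (v - z) i

theorem osgood {n : ℕ} {O : Fin n → Set ℂ} (hO : ∀ i, IsOpen (O i)) {f : (Fin n → ℂ) → ℂ}
    (hf : SH O f) : DifferentiableOn ℂ f (Pr O) := by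
  obtain ⟨⟨C, hC⟩, hf⟩ := hf
  intro z hz
  apply DifferentiableAt.differentiableWithinAt
  obtain ⟨R, hR, hsub⟩ : ∃ R : ℝ, 0 < R ∧ ∀ i, Metric.closedBall (z i) (3 * R) ⊆ O i := by
    have h1 : ∀ i, ∀ᶠ R : ℝ in nhdsWithin 0 (Ioi 0), Metric.closedBall (z i) (3 * R) ⊆ O i := by
      intro i
      obtain ⟨ε, hε, hεs⟩ := Metric.nhds_basis_closedBall.mem_iff.mp ((hO i).mem_nhds (hz i))
      have h2 : Ioo (0 : ℝ) (ε / 3) ∈ nhdsWithin (0 : ℝ) (Ioi 0) :=
        Ioo_mem_nhdsGT (by linarith)
      filter_upwards [h2] with R hR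
      exact (Metric.closedBall_subset_closedBall (by linarith [hR.2])).trans hεs
    have h3 := (Filter.eventually_all.mpr h1).and self_mem_nhdsWithin
    obtain ⟨R, hR⟩ := h3.exists
    exact ⟨R, hR.2, hR.1⟩
  have hz2 : z ∈ Metric.closedBall z (2 * R) := Metric.mem_closedBall_self (by linarith)
  set p : Fin n → ℂ := fun j => deriv (fun t => f (Function.update z j t)) (z j) with hp
  set M : ℝ := n * (C / R) / R with hM
  -- the second order estimate
  have key : ∀ v ∈ Metric.closedBall z R, ∀ s : Finset (Fin n),
      ‖f (s.piecewise v z) - f z - ∑ i ∈ s, p i * (v i - z i)‖ ≤ s.card * (M * ‖v - z‖ ^ 2) := by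
    intro v hv s
    have hvn : ‖v - z‖ ≤ R := by rw [← dist_eq_norm]; exact hv
    have hvr : v ∈ Metric.closedBall z ‖v - z‖ := by
      rw [Metric.mem_closedBall, dist_eq_norm]
    have hzr : z ∈ Metric.closedBall z ‖v - z‖ := Metric.mem_closedBall_self (norm_nonneg _)
    have hr0 : (0 : ℝ) ≤ ‖v - z‖ := norm_nonneg _
    induction s using Finset.induction_on with
    | empty => simp
    | insert j s hj ih =>
      set u := s.piecewise v z with hu
      have hur : u ∈ Metric.closedBall z ‖v - z‖ := Osgood_pw hr0 hvr hzr s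
      have huj : u j = z j := Finset.piecewise_eq_of_notMem _ _ _ hj
      have hCR : 0 ≤ C / R := (norm_nonneg _).trans (Osgood_bound hR hsub hC hf hz2 j)
      have hM0 : 0 ≤ M := by positivity
      have hu2 : u ∈ Metric.closedBall z (2 * R) :=
        Metric.closedBall_subset_closedBall (by linarith) hur
      have dAt : ∀ t ∈ Metric.closedBall (z j) ‖v - z‖,
          DifferentiableAt ℂ (fun t => f (Function.update u j t)) t := fun t ht =>
        Osgood_diff hO hR hsub hf hu2 j (Metric.closedBall_subset_closedBall (by linarith) ht)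
      have h1 : ‖(fun t => f (Function.update u j t) - p j * t) (v j) -
          (fun t => f (Function.update u j t) - p j * t) (z j)‖ ≤ (M * ‖v - z‖) * ‖v j - z j‖ := by
        refine Convex.norm_image_sub_le_of_norm_deriv_le (𝕜 := ℂ)
          (f := fun t => f (Function.update u j t) - p j * t)
          (s := Metric.closedBall (z j) ‖v - z‖)
          ?_ ?_ (convex_closedBall _ _) (Osgood_coord hzr j) (Osgood_coord hvr j)
        · intro t ht
          exact (dAt t ht).sub ((differentiableAt_const _).mul differentiableAt_id)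
        · intro t ht
          have e1 : HasDerivAt (fun t => f (Function.update u j t) - p j * t)
              (deriv (fun t => f (Function.update u j t)) t - p j * 1) t :=
            (dAt t ht).hasDerivAt.sub ((hasDerivAt_id' t).const_mul (p j))
          rw [e1.deriv, mul_one]
          have hupd := Osgood_upd hr0 hur ht
          have := Osgood_dlip hO hR hsub hC hf
            (Metric.closedBall_subset_closedBall hvn hupd) j
          simp only [Function.update_idem, Function.update_self] at this
          refine this.trans ?_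
          have hle : ‖Function.update u j t - z‖ ≤ ‖v - z‖ := by
            rw [← dist_eq_norm]; exact hupd
          calc (n : ℝ) * (C / R) * ‖Function.update u j t - z‖ / R
              = M * ‖Function.update u j t - z‖ := by rw [hM]; ring
            _ ≤ M * ‖v - z‖ := mul_le_mul_of_nonneg_left hle hM0
      have h2 : Function.update u j (z j) = u := by rw [← huj, Function.update_eq_self]
      have h3 : (insert j s).piecewise v z = Function.update u j (v j) :=
        Finset.piecewise_insert _ _ _ _
      simp only [h2] at h1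
      rw [h3, Finset.card_insert_of_notMem hj, Finset.sum_insert hj]
      have h4 : ‖v j - z j‖ ≤ ‖v - z‖ := norm_le_pi_norm (v - z) j
      calc ‖f (Function.update u j (v j)) - f z - (p j * (v j - z j) + ∑ i ∈ s, p i * (v i - z i))‖
          = ‖(f (Function.update u j (v j)) - p j * v j - (f u - p j * z j)) +
              (f u - f z - ∑ i ∈ s, p i * (v i - z i))‖ := by congr 1; ring
        _ ≤ ‖f (Function.update u j (v j)) - p j * v j - (f u - p j * z j)‖ +
              ‖f u - f z - ∑ i ∈ s, p i * (v i - z i)‖ := norm_add_le _ _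
        _ ≤ M * ‖v - z‖ * ‖v - z‖ + s.card * (M * ‖v - z‖ ^ 2) :=
            add_le_add (h1.trans (mul_le_mul_of_nonneg_left h4 (by positivity))) ih
        _ = ((s.card + 1 : ℕ) : ℝ) * (M * ‖v - z‖ ^ 2) := by push_cast; ring
  set L : (Fin n → ℂ) →L[ℂ] ℂ := ∑ i, p i • ContinuousLinearMap.proj (R := ℂ) i with hL
  have hLa : ∀ h : Fin n → ℂ, L h = ∑ i, p i * h i := by
    intro h
    rw [hL, _root_.sum_apply]
    rfl
  have hfd : HasFDerivAt f L z := by
    rw [hasFDerivAt_iff_isLittleO_nhds_zero]
    refine Asymptotics.IsBigO.trans_isLittleO (g := fun h : Fin n → ℂ => ‖h‖ ^ 2) ?_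
      (Asymptotics.isLittleO_norm_pow_id one_lt_two)
    refine Asymptotics.IsBigO.of_bound (n * M) ?_
    have hb : Metric.closedBall (0 : Fin n → ℂ) R ∈ nhds (0 : Fin n → ℂ) :=
      Metric.closedBall_mem_nhds _ hR
    filter_upwards [hb] with h hh
    have hh' : ‖h‖ ≤ R := by simpa using hh
    have hv : z + h ∈ Metric.closedBall z R := by
      rw [Metric.mem_closedBall, dist_eq_norm, add_sub_cancel_left]; exact hh'
    have h1 := key (z + h) hv Finset.univ
    rw [Finset.piecewise_univ, Finset.card_univ, Fintype.card_fin, add_sub_cancel_left] at h1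
    rw [hLa]
    have e : ∀ i, (z + h) i - z i = h i := fun i => by rw [Pi.add_apply]; ring
    simp only [e] at h1
    rw [norm_pow, norm_norm]
    calc ‖f (z + h) - f z - ∑ i, p i * h i‖ ≤ n * (M * ‖h‖ ^ 2) := h1
      _ = n * M * ‖h‖ ^ 2 := by ring
  exact hfd.differentiableAt

theorem SH_of_diff {n : ℕ} {O : Fin n → Set ℂ} {f : (Fin n → ℂ) → ℂ}
    (hf : DifferentiableOn ℂ f (Pr O)) {C : ℝ} (hC : ∀ z ∈ Pr O, ‖f z‖ ≤ C) : SH O f := by
  refine ⟨⟨C, hC⟩, fun z hz l => ?_⟩
  refine DifferentiableOn.comp (g := f) (t := Pr O) hf (f := fun t => Function.update z l t) ?_ ?_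
  · apply Differentiable.differentiableOn
    rw [differentiable_pi]
    intro i
    by_cases h : i = l
    · subst h
      simp only [Function.update_self]
      exact differentiable_id
    · simp only [Function.update_of_ne h]
      exact differentiable_const _
  · intro t ht i
    by_cases h : i = l
    · subst h
      simp only [Function.update_self]
      exact ht
    · simp only [Function.update_of_ne h]
      exact hz i

end Cor
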