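import Pool.Agent.helper45.Cor.Loc
import Pool.Agent.helper45.Cor.Osgood

/-!
Module COR-D: transfer to the polydisc.

PROOF.  `κ t = (t - i) / (t + i)` maps `HP` onto the unit disc, with inverse
`w ↦ i (1 + w) / (1 - w)`.  For `f` on a subset of the polydisc put `f^ z = f (fun i => κ (z i))`.
The `h i q` may be scaled to be bounded by `1` (`C ≥ 1` a common bound, replace `h` by `h / C`, `ρ`
by `ρ / C`, `c` by `C c`).  Apply `loc_HP` to `F^`, `h^ i q = h i q ∘ κ`: the local solutions are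
`(A^c)^` (`SH_of_diff`, the set
`{z | z i ∈ HP, |h^ i q (z i) - c i q| < ρ}` is mapped into the set of the hypothesis).  The
solution `B j` on the product of half planes gives `g j z = B j (fun i => κ⁻¹ (z i))`, separately
holomorphic and bounded, hence holomorphic by `osgood`.
-/

noncomputable section

open Set Metric

namespace Cor

/-- the unit polydisc -/
def PD (n : ℕ) : Set (Fin n → ℂ) := {z | ∀ i, ‖z i‖ < 1}

/-- bounded and holomorphic on a set -/
def HInf {n : ℕ} (Ω : Set (Fin n → ℂ)) (f : (Fin n → ℂ) → ℂ) : Prop :=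
  DifferentiableOn ℂ f Ω ∧ ∃ C : ℝ, ∀ z ∈ Ω, ‖f z‖ ≤ C

/-- bounded and holomorphic on the unit disc -/
def H1 (h : ℂ → ℂ) : Prop := DifferentiableOn ℂ h (ball 0 1) ∧ ∃ C : ℝ, ∀ z ∈ ball (0 : ℂ) 1, ‖h z‖ ≤ C

/-- Cayley transform from the half plane to the disc -/
def Disc_k (t : ℂ) : ℂ := (t - Complex.I) / (t + Complex.I)

/-- inverse Cayley transform -/
def Disc_ki (w : ℂ) : ℂ := Complex.I * (1 + w) / (1 - w)

theorem Disc_HP_open : IsOpen HP := isOpen_lt continuous_const Complex.continuous_im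

theorem Disc_ne1 {t : ℂ} (ht : t ∈ HP) : t + Complex.I ≠ 0 := by
  intro h
  have h1 : (t + Complex.I).im = 0 := by rw [h]; simp
  have h2 : 0 < t.im := ht
  simp only [Complex.add_im, Complex.I_im] at h1
  linarith

theorem Disc_ne2 {w : ℂ} (hw : ‖w‖ < 1) : 1 - w ≠ 0 := by
  intro h
  have h1 : w = 1 := by
    have := sub_eq_zero.mp h
    exact this.symm
  rw [h1] at hw
  simp at hw

theorem Disc_k_lt {t : ℂ} (ht : t ∈ HP) : ‖Disc_k t‖ < 1 := by
  have h2 : 0 < t.im := ht
  have hpos : 0 < ‖t + Complex.I‖ := norm_pos_iff.mpr (Disc_ne1 ht)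
  unfold Disc_k
  rw [norm_div, div_lt_one hpos]
  have h3 : ‖t - Complex.I‖ ^ 2 < ‖t + Complex.I‖ ^ 2 := by
    rw [← Complex.normSq_eq_norm_sq, ← Complex.normSq_eq_norm_sq, Complex.normSq_apply,
      Complex.normSq_apply]
    simp only [Complex.sub_re, Complex.sub_im, Complex.add_re, Complex.add_im, Complex.I_re,
      Complex.I_im]
    nlinarith
  exact lt_of_pow_lt_pow_left₀ 2 hpos.le h3

theorem Disc_ki_mem {w : ℂ} (hw : ‖w‖ < 1) : Disc_ki w ∈ HP := by
  have hne := Disc_ne2 hw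
  have hpos : 0 < Complex.normSq (1 - w) := Complex.normSq_pos.mpr hne
  have h1 : w.re * w.re + w.im * w.im < 1 := by
    rw [← Complex.normSq_apply, Complex.normSq_eq_norm_sq]
    have := norm_nonneg w
    nlinarith
  show 0 < (Disc_ki w).im
  unfold Disc_ki
  rw [Complex.div_im]
  have h2 : (Complex.I * (1 + w)).im * (1 - w).re / Complex.normSq (1 - w)
      - (Complex.I * (1 + w)).re * (1 - w).im / Complex.normSq (1 - w)
      = (1 - (w.re * w.re + w.im * w.im)) / Complex.normSq (1 - w) := by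
    rw [← sub_div]
    congr 1
    simp only [Complex.mul_im, Complex.mul_re, Complex.I_re, Complex.I_im, Complex.add_re,
      Complex.add_im, Complex.one_re, Complex.one_im, Complex.sub_re, Complex.sub_im]
    ring
  rw [h2]
  exact div_pos (by linarith) hpos

theorem Disc_k_ki {w : ℂ} (hw : ‖w‖ < 1) : Disc_k (Disc_ki w) = w := by
  have hne := Disc_ne2 hw
  have h1 := Disc_ne1 (Disc_ki_mem hw)
  unfold Disc_k
  rw [div_eq_iff h1]
  unfold Disc_ki
  field_simp
  ring

theorem Disc_k_diff : DifferentiableOn ℂ Disc_k HP := by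
  intro t ht
  unfold Disc_k
  refine DifferentiableAt.differentiableWithinAt ?_
  exact DifferentiableAt.div (by fun_prop) (by fun_prop) (Disc_ne1 ht)

theorem Disc_ki_diff : DifferentiableOn ℂ Disc_ki (ball 0 1) := by
  intro t ht
  unfold Disc_ki
  refine DifferentiableAt.differentiableWithinAt ?_
  exact DifferentiableAt.div (by fun_prop) (by fun_prop) (Disc_ne2 (mem_ball_zero_iff.mp ht))

/-- coordinatewise application of a holomorphic function is holomorphic -/
theorem Disc_pi_diff {n : ℕ} {u : ℂ → ℂ} {D : Set ℂ} (hu : DifferentiableOn ℂ u D)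
    {Ω : Set (Fin n → ℂ)} (hΩ : ∀ z ∈ Ω, ∀ i, z i ∈ D) :
    DifferentiableOn ℂ (fun z : Fin n → ℂ => fun i => u (z i)) Ω := by
  rw [differentiableOn_pi]
  intro i
  exact hu.comp (differentiable_apply i).differentiableOn (fun z hz => hΩ z hz i)

/-- localisation: the corona problem on the polydisc is local over the maximal ideal space of the
algebra of functions of one variable -/
theorem loc_disc {n k r : ℕ} {F : Fin k → (Fin n → ℂ) → ℂ} (hF : ∀ j, HInf (PD n) (F j))
    {h : Fin n → Fin r → ℂ → ℂ} (hh : ∀ i q, H1 (h i q)) {ρ : ℝ} (hρ : 0 < ρ)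
    (hloc : ∀ c : Fin n → Fin r → ℂ, ∃ A : Fin k → (Fin n → ℂ) → ℂ,
      (∀ j, HInf {z | z ∈ PD n ∧ ∀ i q, ‖h i q (z i) - c i q‖ < ρ} (A j)) ∧
      ∀ z ∈ PD n, (∀ i q, ‖h i q (z i) - c i q‖ < ρ) → ∑ j, F j z * A j z = 1) :
    ∃ A : Fin k → (Fin n → ℂ) → ℂ, (∀ j, HInf (PD n) (A j)) ∧
      ∀ z ∈ PD n, ∑ j, F j z * A j z = 1 := by
  classical
  -- common bound
  choose hd C0 hC0 using hh
  set C : ℝ := 1 + ∑ i, ∑ q, |C0 i q| with hCdef
  have hsum0 : ∀ i, 0 ≤ ∑ q, |C0 i q| := fun i => Finset.sum_nonneg (fun q _ => abs_nonneg _)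
  have hC1 : 1 ≤ C := by
    have : 0 ≤ ∑ i, ∑ q, |C0 i q| := Finset.sum_nonneg (fun i _ => hsum0 i)
    linarith
  have hCpos : 0 < C := by linarith
  have hCne : (C : ℂ) ≠ 0 := by exact_mod_cast hCpos.ne'
  have hCb : ∀ i q, ∀ z ∈ ball (0 : ℂ) 1, ‖h i q z‖ ≤ C := by
    intro i q z hz
    have h1 : |C0 i q| ≤ ∑ q, |C0 i q| :=
      Finset.single_le_sum (f := fun q => |C0 i q|) (fun q _ => abs_nonneg _) (Finset.mem_univ q)
    have h2 : ∑ q, |C0 i q| ≤ ∑ i, ∑ q, |C0 i q| :=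
      Finset.single_le_sum (f := fun i => ∑ q, |C0 i q|) (fun i _ => hsum0 i) (Finset.mem_univ i)
    have h3 := hC0 i q z hz
    have h4 := le_abs_self (C0 i q)
    linarith
  -- the transferred data
  have hkball : ∀ t ∈ HP, Disc_k t ∈ ball (0 : ℂ) 1 := fun t ht =>
    mem_ball_zero_iff.mpr (Disc_k_lt ht)
  have hU : ∀ i q, Unit1 (fun t => h i q (Disc_k t) / C) := by
    intro i q
    constructor
    · exact ((hd i q).comp Disc_k_diff hkball).div_const _
    · intro t ht
      rw [norm_div, Complex.norm_real, Real.norm_eq_abs, abs_of_pos hCpos, div_le_one hCpos]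
      exact hCb i q _ (hkball t ht)
  have hkPD : ∀ z ∈ Pr (fun _ : Fin n => HP), (fun i => Disc_k (z i)) ∈ PD n :=
    fun z hz i => Disc_k_lt (hz i)
  have hF' : ∀ j, SH (fun _ : Fin n => HP) (fun z => F j (fun i => Disc_k (z i))) := by
    intro j
    obtain ⟨hd1, C1, hC1'⟩ := hF j
    refine SH_of_diff (C := C1) ?_ ?_
    · exact hd1.comp (Disc_pi_diff Disc_k_diff (fun z hz i => hz i)) hkPD
    · intro z hz
      exact hC1' _ (hkPD z hz)
  have hloc' : ∀ c : Fin n → Fin r → ℂ,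
      Solv (fun i => {t | t ∈ HP ∧ ∀ q, ‖h i q (Disc_k t) / C - c i q‖ < ρ / C})
        (fun j z => F j (fun i => Disc_k (z i))) := by
    intro c
    obtain ⟨A, hA, hA1⟩ := hloc (fun i q => C * c i q)
    have key : ∀ z ∈ Pr (fun i : Fin n =>
        {t | t ∈ HP ∧ ∀ q, ‖h i q (Disc_k t) / C - c i q‖ < ρ / C}),
        (fun i => Disc_k (z i)) ∈ PD n ∧ ∀ i q, ‖h i q (Disc_k (z i)) - C * c i q‖ < ρ := by
      intro z hz
      refine ⟨fun i => Disc_k_lt (hz i).1, fun i q => ?_⟩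
      have h1 := (hz i).2 q
      have h2 : h i q (Disc_k (z i)) - C * c i q = C * (h i q (Disc_k (z i)) / C - c i q) := by
        field_simp
      rw [h2, norm_mul, Complex.norm_real, Real.norm_eq_abs, abs_of_pos hCpos]
      calc C * ‖h i q (Disc_k (z i)) / C - c i q‖ < C * (ρ / C) :=
            mul_lt_mul_of_pos_left h1 hCpos
        _ = ρ := by field_simp
    refine ⟨fun j z => A j (fun i => Disc_k (z i)), fun j => ?_, fun z hz => ?_⟩
    · obtain ⟨hd1, C1, hC1'⟩ := hA j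
      refine SH_of_diff (C := C1) ?_ ?_
      · exact hd1.comp (Disc_pi_diff Disc_k_diff (fun z hz i => (hz i).1)) (fun z hz => key z hz)
      · intro z hz
        exact hC1' _ (key z hz)
    · exact hA1 _ (key z hz).1 (key z hz).2
  obtain ⟨B, hB, hB1⟩ := loc_HP hF' hU (div_pos hρ hCpos) hloc'
  have hkiP : ∀ z ∈ PD n, (fun i => Disc_ki (z i)) ∈ Pr (fun _ : Fin n => HP) :=
    fun z hz i => Disc_ki_mem (hz i)
  refine ⟨fun j z => B j (fun i => Disc_ki (z i)), fun j => ⟨?_, ?_⟩, fun z hz => ?_⟩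
  · have h1 : DifferentiableOn ℂ (B j) (Pr (fun _ : Fin n => HP)) :=
      osgood (fun _ => Disc_HP_open) (hB j)
    exact h1.comp (Disc_pi_diff Disc_ki_diff (fun z hz i => mem_ball_zero_iff.mpr (hz i))) hkiP
  · obtain ⟨C1, hC1'⟩ := (hB j).1
    exact ⟨C1, fun z hz => hC1' _ (hkiP z hz)⟩
  · have h1 := hB1 _ (hkiP z hz)
    have h2 : (fun i => Disc_k (Disc_ki (z i))) = z := funext (fun i => Disc_k_ki (hz i))
    simp only [h2] at h1
    exact h1

end Cor
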