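import Pool.Agent.helper45.Cor.Disc

/-!
Module COR-Z: the theorem with one arbitrary generator.

PROOF.  `OneVar.ctrl`: by induction, every `p` in the algebra generated by the functions of one
variable is controlled by finitely many of them: there are `r` and `h : Fin n → Fin r → ℂ → ℂ`,
all `H1`, such that for every `ε > 0` there is `ρ > 0` such that
`|h i q (z i) - h i q (w i)| < ρ` for all `i, q` implies `|p z - p w| < ε` (`z, w ∈ PD n`).
(Products: both factors are bounded.  Two families are merged with `Fin.append` in `q`.)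
`corona_T`: let `ε = c / (8 k)` (`k ≥ 1`).  For `j ≠ j₀` choose `p_j` with `|f_j - p_j| ≤ ε`, merge
the families of all `p_j` (finitely many `j`), `ρ` for `ε`; so `|f_j z - f_j w| ≤ 3 ε` whenever
`|h i q (z i) - h i q (w i)| < ρ`.  Apply `loc_disc` with `ρ / 2`: let `c` be given and
`W = {z ∈ PD n : |h i q (z i) - c i q| < ρ / 2}`.  Any two points of `W` are `ρ`-close.  If
`|f_j z| ≥ c₀ / (2 k)` for some `j ≠ j₀`, `z ∈ W`, then `|f_j| ≥ c₀ / (2 k) - 3 ε > 0` on `W`, local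
solution `1 / f_j` in the place `j`, `0` elsewhere.  Otherwise `|f_{j₀}| ≥ c₀ / 2` on `W`, local
solution `1 / f_{j₀}`.
-/

noncomputable section

open Set Metric

namespace Cor

/-- the algebra of functions on the polydisc generated by the constants and the bounded holomorphic
functions of one variable -/
inductive OneVar (n : ℕ) : ((Fin n → ℂ) → ℂ) → Prop
  | const (c : ℂ) : OneVar n (fun _ => c)
  | var (i : Fin n) (h : ℂ → ℂ) (hh : H1 h) : OneVar n (fun z => h (z i))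
  | add (p q : (Fin n → ℂ) → ℂ) (hp : OneVar n p) (hq : OneVar n q) : OneVar n (fun z => p z + q z)
  | mul (p q : (Fin n → ℂ) → ℂ) (hp : OneVar n p) (hq : OneVar n q) : OneVar n (fun z => p z * q z)

/-- uniform closure of `OneVar` on the polydisc -/
def InT (n : ℕ) (f : (Fin n → ℂ) → ℂ) : Prop :=
  ∀ ε > 0, ∃ p, OneVar n p ∧ ∀ z ∈ PD n, ‖f z - p z‖ ≤ ε

/-- members of the algebra are bounded on the polydisc -/
theorem Fin_bdd {n : ℕ} {p : (Fin n → ℂ) → ℂ} (hp : OneVar n p) :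
    ∃ C : ℝ, 1 ≤ C ∧ ∀ z ∈ PD n, ‖p z‖ ≤ C := by
  induction hp with
  | const c => exact ⟨max 1 ‖c‖, le_max_left _ _, fun _ _ => le_max_right _ _⟩
  | var i h hh =>
    obtain ⟨C, hC⟩ := hh.2
    exact ⟨max 1 C, le_max_left _ _, fun z hz =>
      (hC (z i) (mem_ball_zero_iff.2 (hz i))).trans (le_max_right _ _)⟩
  | add p q _ _ ihp ihq =>
    obtain ⟨C, hC1, hC⟩ := ihp
    obtain ⟨D, hD1, hD⟩ := ihq
    refine ⟨C + D, by linarith, fun z hz => ?_⟩
    exact (norm_add_le _ _).trans (add_le_add (hC z hz) (hD z hz))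
  | mul p q _ _ ihp ihq =>
    obtain ⟨C, hC1, hC⟩ := ihp
    obtain ⟨D, hD1, hD⟩ := ihq
    refine ⟨C * D, one_le_mul_of_one_le_of_one_le hC1 hD1, fun z hz => ?_⟩
    rw [norm_mul]
    exact mul_le_mul (hC z hz) (hD z hz) (norm_nonneg _) (by linarith)

/-- closeness for a merged family -/
theorem Fin_append {n r s : ℕ} (h : Fin n → Fin r → ℂ → ℂ) (h' : Fin n → Fin s → ℂ → ℂ) {ρ : ℝ}
    {z w : Fin n → ℂ} (H : ∀ i q, ‖Fin.append (h i) (h' i) q (z i) -
      Fin.append (h i) (h' i) q (w i)‖ < ρ) :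
    (∀ i q, ‖h i q (z i) - h i q (w i)‖ < ρ) ∧ ∀ i q, ‖h' i q (z i) - h' i q (w i)‖ < ρ := by
  constructor
  · intro i q
    have := H i (Fin.castAdd s q)
    rwa [Fin.append_left] at this
  · intro i q
    have := H i (Fin.natAdd r q)
    rwa [Fin.append_right] at this

theorem Fin_append_H1 {n r s : ℕ} {h : Fin n → Fin r → ℂ → ℂ} {h' : Fin n → Fin s → ℂ → ℂ}
    (hh : ∀ i q, H1 (h i q)) (hh' : ∀ i q, H1 (h' i q)) (i : Fin n) (q : Fin (r + s)) :
    H1 (Fin.append (h i) (h' i) q) := by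
  refine Fin.addCases (fun q => ?_) (fun q => ?_) q
  · rw [Fin.append_left]
    exact hh i q
  · rw [Fin.append_right]
    exact hh' i q

theorem OneVar.ctrl {n : ℕ} {p : (Fin n → ℂ) → ℂ} (hp : OneVar n p) :
    ∃ (r : ℕ) (h : Fin n → Fin r → ℂ → ℂ), (∀ i q, H1 (h i q)) ∧
      ∀ ε > 0, ∃ ρ > 0, ∀ z ∈ PD n, ∀ w ∈ PD n,
        (∀ i q, ‖h i q (z i) - h i q (w i)‖ < ρ) → ‖p z - p w‖ < ε := by
  induction hp with
  | const c =>
    refine ⟨0, fun _ q => q.elim0, fun _ q => q.elim0, fun ε hε => ⟨1, one_pos, ?_⟩⟩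
    intro z _ w _ _
    simpa using hε
  | var i h hh =>
    refine ⟨1, fun _ _ => h, fun _ _ => hh, fun ε hε => ⟨ε, hε, ?_⟩⟩
    intro z _ w _ H
    exact H i 0
  | add p q _ _ ihp ihq =>
    obtain ⟨r, h, hh, H⟩ := ihp
    obtain ⟨s, h', hh', H'⟩ := ihq
    refine ⟨r + s, fun i => Fin.append (h i) (h' i), Fin_append_H1 hh hh', fun ε hε => ?_⟩
    obtain ⟨ρ, hρ, Hρ⟩ := H (ε / 2) (by linarith)
    obtain ⟨ρ', hρ', Hρ'⟩ := H' (ε / 2) (by linarith)
    refine ⟨min ρ ρ', lt_min hρ hρ', ?_⟩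
    intro z hz w hw hzw
    obtain ⟨h1, h2⟩ := Fin_append h h' hzw
    have e1 := Hρ z hz w hw (fun i q => (h1 i q).trans_le (min_le_left _ _))
    have e2 := Hρ' z hz w hw (fun i q => (h2 i q).trans_le (min_le_right _ _))
    calc ‖p z + q z - (p w + q w)‖ = ‖(p z - p w) + (q z - q w)‖ := by congr 1; ring
      _ ≤ ‖p z - p w‖ + ‖q z - q w‖ := norm_add_le _ _
      _ < ε := by linarith
  | mul p q hp hq ihp ihq =>
    obtain ⟨r, h, hh, H⟩ := ihp
    obtain ⟨s, h', hh', H'⟩ := ihq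
    obtain ⟨C, hC1, hC⟩ := Fin_bdd hp
    obtain ⟨D, hD1, hD⟩ := Fin_bdd hq
    have hC0 : 0 < C := by linarith
    have hD0 : 0 < D := by linarith
    refine ⟨r + s, fun i => Fin.append (h i) (h' i), Fin_append_H1 hh hh', fun ε hε => ?_⟩
    obtain ⟨ρ, hρ, Hρ⟩ := H (ε / (2 * D)) (by positivity)
    obtain ⟨ρ', hρ', Hρ'⟩ := H' (ε / (2 * C)) (by positivity)
    refine ⟨min ρ ρ', lt_min hρ hρ', ?_⟩
    intro z hz w hw hzw
    obtain ⟨h1, h2⟩ := Fin_append h h' hzw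
    have e1 := Hρ z hz w hw (fun i q => (h1 i q).trans_le (min_le_left _ _))
    have e2 := Hρ' z hz w hw (fun i q => (h2 i q).trans_le (min_le_right _ _))
    have e3 : ‖p z‖ * ‖q z - q w‖ < ε / 2 := by
      calc ‖p z‖ * ‖q z - q w‖ ≤ C * ‖q z - q w‖ := by
            gcongr
            exact hC z hz
        _ < C * (ε / (2 * C)) := by gcongr
        _ = ε / 2 := by field_simp
    have e4 : ‖p z - p w‖ * ‖q w‖ < ε / 2 := by
      calc ‖p z - p w‖ * ‖q w‖ ≤ ‖p z - p w‖ * D := by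
            gcongr
            exact hD w hw
        _ < (ε / (2 * D)) * D := by gcongr
        _ = ε / 2 := by field_simp
    calc ‖p z * q z - p w * q w‖ = ‖p z * (q z - q w) + (p z - p w) * q w‖ := by congr 1; ring
      _ ≤ ‖p z * (q z - q w)‖ + ‖(p z - p w) * q w‖ := norm_add_le _ _
      _ = ‖p z‖ * ‖q z - q w‖ + ‖p z - p w‖ * ‖q w‖ := by rw [norm_mul, norm_mul]
      _ < ε := by linarith

/-- a local solution if one generator is bounded below -/
theorem Fin_loc {n k : ℕ} (f : Fin k → (Fin n → ℂ) → ℂ) (hf : ∀ j, HInf (PD n) (f j))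
    (W : Set (Fin n → ℂ)) (hW : W ⊆ PD n) (j : Fin k) {δ : ℝ} (hδ : 0 < δ)
    (hj : ∀ z ∈ W, δ ≤ ‖f j z‖) :
    ∃ A : Fin k → (Fin n → ℂ) → ℂ, (∀ i, HInf W (A i)) ∧ ∀ z ∈ W, ∑ i, f i z * A i z = 1 := by
  classical
  have hne : ∀ z ∈ W, f j z ≠ 0 := fun z hz h0 => by
    have := hj z hz
    rw [h0, norm_zero] at this
    linarith
  refine ⟨fun i z => if i = j then (f j z)⁻¹ else 0, ?_, ?_⟩
  · intro i
    by_cases hi : i = j
    · simp only [if_pos hi]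
      refine ⟨((hf j).1.mono hW).inv hne, δ⁻¹, fun z hz => ?_⟩
      rw [norm_inv]
      exact inv_anti₀ hδ (hj z hz)
    · simp only [if_neg hi]
      exact ⟨differentiableOn_const 0, 0, fun z _ => by simp⟩
  · intro z hz
    simp only [mul_ite, mul_zero]
    rw [Finset.sum_ite_eq' Finset.univ j, if_pos (Finset.mem_univ _), mul_inv_cancel₀ (hne z hz)]

/-- a common family of control functions -/
theorem Fin_merge {n k : ℕ} (f : Fin k → (Fin n → ℂ) → ℂ) (j₀ : Fin k)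
    (hT : ∀ j, j ≠ j₀ → InT n (f j)) {ε : ℝ} (hε : 0 < ε) :
    ∃ (r : ℕ) (h : Fin n → Fin r → ℂ → ℂ) (ρ : ℝ), 0 < ρ ∧ (∀ i q, H1 (h i q)) ∧
      ∀ j, j ≠ j₀ → ∀ z ∈ PD n, ∀ w ∈ PD n,
        (∀ i q, ‖h i q (z i) - h i q (w i)‖ < ρ) → ‖f j z - f j w‖ ≤ 3 * ε := by
  have key : ∀ j : Fin k, ∃ (r : ℕ) (h : Fin n → Fin r → ℂ → ℂ) (ρ : ℝ), 0 < ρ ∧
      (∀ i q, H1 (h i q)) ∧ (j ≠ j₀ → ∀ z ∈ PD n, ∀ w ∈ PD n,
        (∀ i q, ‖h i q (z i) - h i q (w i)‖ < ρ) → ‖f j z - f j w‖ ≤ 3 * ε) := by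
    intro j
    by_cases hj : j = j₀
    · exact ⟨0, fun _ q => q.elim0, 1, one_pos, fun _ q => q.elim0, fun h => absurd hj h⟩
    · obtain ⟨p, hp, hfp⟩ := hT j hj ε hε
      obtain ⟨r, h, hh, H⟩ := hp.ctrl
      obtain ⟨ρ, hρ, Hρ⟩ := H ε hε
      refine ⟨r, h, ρ, hρ, hh, fun _ z hz w hw hzw => ?_⟩
      have e1 := Hρ z hz w hw hzw
      have e2 := hfp z hz
      have e3 := hfp w hw
      rw [norm_sub_rev] at e3
      calc ‖f j z - f j w‖ = ‖(f j z - p z) + (p z - p w) + (p w - f j w)‖ := by congr 1; ring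
        _ ≤ ‖f j z - p z‖ + ‖p z - p w‖ + ‖p w - f j w‖ := norm_add₃_le
        _ ≤ 3 * ε := by linarith
  choose r h ρ hρ hh H using key
  obtain ⟨G, hG⟩ : ∃ G : (Σ j, Fin (r j)) → Fin n → ℂ → ℂ, ∀ j q i, G ⟨j, q⟩ i = h j i q :=
    ⟨fun x i => h x.1 i x.2, fun _ _ _ => rfl⟩
  have hne : (Finset.univ : Finset (Fin k)).Nonempty := ⟨j₀, Finset.mem_univ _⟩
  refine ⟨Fintype.card (Σ j, Fin (r j)), fun i q =>
    G ((Fintype.equivFin (Σ j, Fin (r j))).symm q) i, Finset.univ.inf' hne ρ, ?_, ?_, ?_⟩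
  · rw [Finset.lt_inf'_iff]
    intro j _
    exact hρ j
  · intro i q
    have hGH : ∀ x : (Σ j, Fin (r j)), H1 (G x i) := by
      rintro ⟨j, q'⟩
      rw [hG]
      exact hh _ _ _
    exact hGH _
  · intro j hj z hz w hw hzw
    refine H j hj z hz w hw fun i q => ?_
    have h1 := hzw i (Fintype.equivFin (Σ j, Fin (r j)) ⟨j, q⟩)
    simp only [Equiv.symm_apply_apply, hG] at h1
    exact h1.trans_le (Finset.inf'_le _ (Finset.mem_univ j))

theorem corona_T {n k : ℕ} (f : Fin k → (Fin n → ℂ) → ℂ) (hf : ∀ j, HInf (PD n) (f j))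
    (j₀ : Fin k) (hT : ∀ j, j ≠ j₀ → InT n (f j)) {c : ℝ} (hc : 0 < c)
    (hb : ∀ z ∈ PD n, c < ∑ j, ‖f j z‖) :
    ∃ g : Fin k → (Fin n → ℂ) → ℂ, (∀ j, HInf (PD n) (g j)) ∧
      ∀ z ∈ PD n, ∑ j, f j z * g j z = 1 := by
  have hk : 0 < k := Fin.pos j₀
  have hkr : (0 : ℝ) < k := by exact_mod_cast hk
  have hk1 : (1 : ℝ) ≤ k := by exact_mod_cast hk
  set ε : ℝ := c / (8 * k) with hεdef
  have hε : 0 < ε := by positivity
  obtain ⟨r, h, ρ, hρ, hh, H⟩ := Fin_merge f j₀ hT hε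
  refine loc_disc hf hh (half_pos hρ) ?_
  intro c'
  set W : Set (Fin n → ℂ) := {z | z ∈ PD n ∧ ∀ i q, ‖h i q (z i) - c' i q‖ < ρ / 2} with hWdef
  have hW : W ⊆ PD n := fun z hz => hz.1
  have hclose : ∀ z ∈ W, ∀ w ∈ W, ∀ j, j ≠ j₀ → ‖f j z - f j w‖ ≤ 3 * ε := by
    intro z hz w hw j hj
    refine H j hj z hz.1 w hw.1 fun i q => ?_
    have e1 := hz.2 i q
    have e2 := hw.2 i q
    rw [norm_sub_rev] at e2
    calc ‖h i q (z i) - h i q (w i)‖ = ‖(h i q (z i) - c' i q) + (c' i q - h i q (w i))‖ := by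
          congr 1; ring
      _ ≤ ‖h i q (z i) - c' i q‖ + ‖c' i q - h i q (w i)‖ := norm_add_le _ _
      _ < ρ := by linarith
  have hfin : ∃ A : Fin k → (Fin n → ℂ) → ℂ, (∀ i, HInf W (A i)) ∧
      ∀ z ∈ W, ∑ i, f i z * A i z = 1 := by
    by_cases hcase : ∃ j, j ≠ j₀ ∧ ∃ z ∈ W, c / (2 * k) ≤ ‖f j z‖
    · obtain ⟨j, hj, z₀, hz₀, hlow⟩ := hcase
      refine Fin_loc f hf W hW j hε ?_
      intro z hz
      have e1 := hclose z₀ hz₀ z hz j hj
      have e2 : ‖f j z₀‖ - ‖f j z‖ ≤ ‖f j z₀ - f j z‖ := norm_sub_norm_le _ _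
      have e3 : c / (2 * k) = 4 * ε := by
        rw [hεdef]
        field_simp
        norm_num
      linarith
    · push Not at hcase
      refine Fin_loc f hf W hW j₀ (half_pos hc) ?_
      intro z hz
      have e1 := hb z hz.1
      rw [← Finset.add_sum_erase _ _ (Finset.mem_univ j₀)] at e1
      have e2 : ∑ j ∈ Finset.univ.erase j₀, ‖f j z‖ ≤ c / 2 := by
        calc ∑ j ∈ Finset.univ.erase j₀, ‖f j z‖ ≤ ∑ j ∈ Finset.univ.erase j₀, c / (2 * k) :=
              Finset.sum_le_sum fun j hj => (hcase j (Finset.ne_of_mem_erase hj) z hz).le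
          _ = ((k - 1 : ℕ) : ℝ) * (c / (2 * k)) := by
              rw [Finset.sum_const, Finset.card_erase_of_mem (Finset.mem_univ _), Finset.card_univ,
                Fintype.card_fin, nsmul_eq_mul]
          _ ≤ (k : ℝ) * (c / (2 * k)) := by
              gcongr
              omega
          _ = c / 2 := by field_simp
      linarith
  obtain ⟨A, hA1, hA2⟩ := hfin
  exact ⟨A, hA1, fun z hz hz' => hA2 z ⟨hz, hz'⟩⟩

end Cor
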