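import Pool.Agent.helper45.Cor.HC
import Pool.Agent.helper45.Cor.Fin

/-!
The class `HC n` is an algebra, closed under uniform limits, which contains the bounded holomorphic
functions of one variable and the pairings of Hilbert space valued functions of two single variables.
-/

noncomputable section

open Set Metric

namespace Cor

theorem HC_const {n : ℕ} (c : ℂ) : HC n (fun _ => c) :=
  ⟨⟨differentiableOn_const c, ‖c‖, fun _ _ => le_rfl⟩, fun ε hε =>
    ⟨0, fun _ _ _ => 0, 0, 1, one_pos, fun _ _ => differentiableOn_const 0, fun q => q.elim0,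
      fun z _ w _ _ => by simpa using hε.le⟩⟩

/-- common control of two functions of the class -/
theorem HC_two {n : ℕ} {f g : (Fin n → ℂ) → ℂ} (hf : HC n f) (hg : HC n g) {ε : ℝ} (hε : 0 < ε) :
    ∃ (r : ℕ) (h : Fin r → Fin n → ℂ → L2) (B ρ : ℝ), 0 < ρ ∧
    (∀ q i, DifferentiableOn ℂ (h q i) (ball 0 1)) ∧
    (∀ q i, ∀ w ∈ ball (0 : ℂ) 1, ‖h q i w‖ ≤ B) ∧
    ∀ z ∈ PD n, ∀ w ∈ PD n, (∀ q i, ‖h q i (z i) - h q i (w i)‖ < ρ) →
      ‖f z - f w‖ ≤ ε ∧ ‖g z - g w‖ ≤ ε := by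
  obtain ⟨r, h, B, ρ, hρ, hd, hB, H⟩ := hf.2 ε hε
  obtain ⟨r', h', B', ρ', hρ', hd', hB', H'⟩ := hg.2 ε hε
  refine ⟨r + r', Fin.append h h', max B B', min ρ ρ', lt_min hρ hρ', ?_, ?_, ?_⟩
  · intro q i
    refine Fin.addCases (fun q => ?_) (fun q => ?_) q
    · rw [Fin.append_left]; exact hd q i
    · rw [Fin.append_right]; exact hd' q i
  · intro q i w hw
    refine Fin.addCases (fun q => ?_) (fun q => ?_) q
    · rw [Fin.append_left]; exact (hB q i w hw).trans (le_max_left _ _)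
    · rw [Fin.append_right]; exact (hB' q i w hw).trans (le_max_right _ _)
  · intro z hz w hw hzw
    constructor
    · refine H z hz w hw fun q i => ?_
      have := hzw (Fin.castAdd r' q) i
      rw [Fin.append_left] at this
      exact this.trans_le (min_le_left _ _)
    · refine H' z hz w hw fun q i => ?_
      have := hzw (Fin.natAdd r q) i
      rw [Fin.append_right] at this
      exact this.trans_le (min_le_right _ _)

theorem HC_add {n : ℕ} {f g : (Fin n → ℂ) → ℂ} (hf : HC n f) (hg : HC n g) :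
    HC n (fun z => f z + g z) := by
  obtain ⟨Cf, hCf⟩ := hf.1.2
  obtain ⟨Cg, hCg⟩ := hg.1.2
  refine ⟨⟨hf.1.1.add hg.1.1, Cf + Cg, fun z hz => (norm_add_le _ _).trans
    (add_le_add (hCf z hz) (hCg z hz))⟩, fun ε hε => ?_⟩
  obtain ⟨r, h, B, ρ, hρ, hd, hB, H⟩ := HC_two hf hg (half_pos hε)
  refine ⟨r, h, B, ρ, hρ, hd, hB, fun z hz w hw hzw => ?_⟩
  obtain ⟨h1, h2⟩ := H z hz w hw hzw
  have e : f z + g z - (f w + g w) = (f z - f w) + (g z - g w) := by ring
  rw [e]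
  have := norm_add_le (f z - f w) (g z - g w)
  linarith

theorem HC_mul {n : ℕ} {f g : (Fin n → ℂ) → ℂ} (hf : HC n f) (hg : HC n g) :
    HC n (fun z => f z * g z) := by
  obtain ⟨Cf, hCf⟩ := hf.1.2
  obtain ⟨Cg, hCg⟩ := hg.1.2
  have hCf' : ∀ z ∈ PD n, ‖f z‖ ≤ |Cf| := fun z hz => (hCf z hz).trans (le_abs_self _)
  have hCg' : ∀ z ∈ PD n, ‖g z‖ ≤ |Cg| := fun z hz => (hCg z hz).trans (le_abs_self _)
  refine ⟨⟨hf.1.1.mul hg.1.1, |Cf| * |Cg|, fun z hz => ?_⟩, fun ε hε => ?_⟩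
  · rw [norm_mul]
    exact mul_le_mul (hCf' z hz) (hCg' z hz) (norm_nonneg _) (abs_nonneg _)
  set D : ℝ := |Cf| + |Cg| + 1 with hD
  have hD0 : 0 < D := by positivity
  obtain ⟨r, h, B, ρ, hρ, hd, hB, H⟩ := HC_two hf hg (div_pos hε hD0)
  refine ⟨r, h, B, ρ, hρ, hd, hB, fun z hz w hw hzw => ?_⟩
  obtain ⟨h1, h2⟩ := H z hz w hw hzw
  have e : f z * g z - f w * g w = f z * (g z - g w) + (f z - f w) * g w := by ring
  rw [e]
  refine (norm_add_le _ _).trans ?_
  rw [norm_mul, norm_mul]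
  have h3 : ‖f z‖ * ‖g z - g w‖ ≤ |Cf| * (ε / D) :=
    mul_le_mul (hCf' z hz) h2 (norm_nonneg _) (abs_nonneg _)
  have h4 : ‖f z - f w‖ * ‖g w‖ ≤ (ε / D) * |Cg| :=
    mul_le_mul h1 (hCg' w hw) (norm_nonneg _) (div_pos hε hD0).le
  have h5 : D * (ε / D) = ε := by field_simp
  have h6 : 0 < ε / D := div_pos hε hD0
  rw [hD] at h5
  nlinarith

theorem HC_var {n : ℕ} (i : Fin n) {h : ℂ → ℂ} (hh : H1 h) : HC n (fun z => h (z i)) := by
  obtain ⟨C, hC⟩ := hh.2
  set e : L2 := lp.single 2 0 (1 : ℂ) with he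
  have hen : ‖e‖ = 1 := by
    rw [he, lp.norm_single (by norm_num)]
    simp
  refine ⟨⟨?_, C, fun z hz => hC _ (mem_ball_zero_iff.2 (hz i))⟩, fun ε hε => ?_⟩
  · exact hh.1.comp (differentiable_apply i).differentiableOn (fun z hz => mem_ball_zero_iff.2 (hz i))
  · refine ⟨1, fun _ _ w => h w • e, C, ε, hε, fun _ _ => hh.1.smul_const e, ?_, ?_⟩
    · intro _ _ w hw
      rw [norm_smul, hen, mul_one]
      exact hC w hw
    · intro z _ w _ hzw
      have h1 := hzw 0 i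
      have h2 : ‖h (z i) • e - h (w i) • e‖ = ‖h (z i) - h (w i)‖ := by
        rw [← sub_smul, norm_smul, hen, mul_one]
      rw [h2] at h1
      exact h1.le

theorem HC_lim {n : ℕ} {f : (Fin n → ℂ) → ℂ} (hd : HInf (PD n) f)
    (hf : ∀ ε : ℝ, 0 < ε → ∃ g, HC n g ∧ ∀ z ∈ PD n, ‖f z - g z‖ ≤ ε) : HC n f := by
  refine ⟨hd, fun ε hε => ?_⟩
  obtain ⟨g, hg, hfg⟩ := hf (ε / 3) (by positivity)
  obtain ⟨r, h, B, ρ, hρ, hd, hB, H⟩ := hg.2 (ε / 3) (by positivity)
  refine ⟨r, h, B, ρ, hρ, hd, hB, fun z hz w hw hzw => ?_⟩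
  have h1 := H z hz w hw hzw
  have h2 := hfg z hz
  have h3 := hfg w hw
  have e : f z - f w = (f z - g z) + (g z - g w) - (f w - g w) := by ring
  rw [e]
  have := norm_sub_le ((f z - g z) + (g z - g w)) (f w - g w)
  have := norm_add_le (f z - g z) (g z - g w)
  linarith

/-- the bilinear pairing of `L2` -/
def pairL : L2 →L[ℂ] L2 →L[ℂ] ℂ :=
  LinearMap.mkContinuous₂ (LinearMap.mk₂ ℂ (fun x y : L2 => inner ℂ (star x) y)
    (fun x x' y => by simp [inner_add_left]) (fun c x y => by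
      rw [star_smul, inner_smul_left]; simp)
    (fun x y y' => inner_add_right _ _ _) (fun c x y => by
      rw [inner_smul_right]; rfl)) 1 (fun x y => by
    rw [one_mul, LinearMap.mk₂_apply]
    have := norm_inner_le_norm (𝕜 := ℂ) (star x) y
    rwa [norm_star] at this)

theorem pairL_apply (x y : L2) : pairL x y = ∑' q, (x : ℕ → ℂ) q * (y : ℕ → ℂ) q := by
  show inner ℂ (star x) y = _
  rw [lp.inner_eq_tsum]
  refine tsum_congr fun q => ?_
  rw [lp.star_apply]
  simp [mul_comm]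

theorem pairL_le (x y : L2) : ‖pairL x y‖ ≤ ‖x‖ * ‖y‖ := by
  have := norm_inner_le_norm (𝕜 := ℂ) (star x) y
  rwa [norm_star] at this

theorem HC_pair {n : ℕ} (i i' : Fin n) {a b : ℂ → L2} (ha : DifferentiableOn ℂ a (ball 0 1))
    (hb : DifferentiableOn ℂ b (ball 0 1)) {B : ℝ} (haB : ∀ w ∈ ball (0 : ℂ) 1, ‖a w‖ ≤ B)
    (hbB : ∀ w ∈ ball (0 : ℂ) 1, ‖b w‖ ≤ B) :
    HC n (fun z => ∑' q, (a (z i) : ℕ → ℂ) q * (b (z i') : ℕ → ℂ) q) := by
  have hB0 : 0 ≤ B := (norm_nonneg _).trans (haB 0 (mem_ball_self one_pos))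
  have e : (fun z : Fin n → ℂ => ∑' q, (a (z i) : ℕ → ℂ) q * (b (z i') : ℕ → ℂ) q) =
      fun z => pairL (a (z i)) (b (z i')) := funext fun z => (pairL_apply _ _).symm
  rw [e]
  have hmem : ∀ (i : Fin n), ∀ z ∈ PD n, z i ∈ ball (0 : ℂ) 1 := fun i z hz =>
    mem_ball_zero_iff.2 (hz i)
  have hda : DifferentiableOn ℂ (fun z : Fin n → ℂ => a (z i)) (PD n) :=
    ha.comp (differentiable_apply i).differentiableOn (hmem i)
  have hdb : DifferentiableOn ℂ (fun z : Fin n → ℂ => b (z i')) (PD n) :=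
    hb.comp (differentiable_apply i').differentiableOn (hmem i')
  refine ⟨⟨?_, B * B, fun z hz => ?_⟩, fun ε hε => ?_⟩
  · exact (pairL.differentiable.comp_differentiableOn hda).clm_apply hdb
  · exact (pairL_le _ _).trans (mul_le_mul (haB _ (hmem i z hz)) (hbB _ (hmem i' z hz))
      (norm_nonneg _) hB0)
  · refine ⟨2, ![fun _ => a, fun _ => b], B, ε / (2 * B + 1), by positivity, ?_, ?_, ?_⟩
    · intro q _
      fin_cases q
      · exact ha
      · exact hb
    · intro q _ w hw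
      fin_cases q
      · exact haB w hw
      · exact hbB w hw
    · intro z hz w hw hzw
      have h1 : ‖a (z i) - a (w i)‖ < ε / (2 * B + 1) := hzw 0 i
      have h2 : ‖b (z i') - b (w i')‖ < ε / (2 * B + 1) := hzw 1 i'
      have e : pairL (a (z i)) (b (z i')) - pairL (a (w i)) (b (w i')) =
          pairL (a (z i) - a (w i)) (b (z i')) + pairL (a (w i)) (b (z i') - b (w i')) := by
        simp
      rw [e]
      refine (norm_add_le _ _).trans ?_
      have h3 := pairL_le (a (z i) - a (w i)) (b (z i'))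
      have h4 := pairL_le (a (w i)) (b (z i') - b (w i'))
      have h5 := hbB _ (hmem i' z hz)
      have h6 := haB _ (hmem i w hw)
      have h7 : ‖a (z i) - a (w i)‖ * ‖b (z i')‖ ≤ ε / (2 * B + 1) * B :=
        mul_le_mul h1.le h5 (norm_nonneg _) (by positivity)
      have h8 : ‖a (w i)‖ * ‖b (z i') - b (w i')‖ ≤ B * (ε / (2 * B + 1)) :=
        mul_le_mul h6 h2.le (norm_nonneg _) hB0
      have h9 : (2 * B + 1) * (ε / (2 * B + 1)) = ε := by field_simp
      have h10 : 0 < ε / (2 * B + 1) := by positivity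
      nlinarith

/-- `T_n` is contained in the class -/
theorem OneVar.HC {n : ℕ} {p : (Fin n → ℂ) → ℂ} (hp : OneVar n p) : HC n p := by
  induction hp with
  | const c => exact HC_const c
  | var i h hh => exact HC_var i hh
  | add p q _ _ ihp ihq => exact HC_add ihp ihq
  | mul p q _ _ ihp ihq => exact HC_mul ihp ihq

end Cor
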