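import Pool.Agent.helper30.Cor.ContourH

/-!
Interface of the Hilbert valued contour theorem (helper30).
-/
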