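import Pool.Agent.helper45.Cor.GP

/-!
Quantitative form of `gp`.
-/

noncomputable section

open Set Filter Topology

namespace Cor

/-- the Bezout equation is solvable with separately holomorphic functions bounded by `K` -/
def SolvK {ι : Type*} [DecidableEq ι] {k : ℕ} (K : ℝ) (O : ι → Set ℂ)
    (F : Fin k → (ι → ℂ) → ℂ) : Prop :=
  ∃ A : Fin k → (ι → ℂ) → ℂ, (∀ j, SH O (A j)) ∧ (∀ j, ∀ z ∈ Pr O, ‖A j z‖ ≤ K) ∧
    ∀ z ∈ Pr O, ∑ j, F j z * A j z = 1

theorem gpK {ι : Type*} [DecidableEq ι] (k r : ℕ) {ρ : ℝ} (hρ : 0 < ρ) {K : ℝ} (hK0 : 0 ≤ K) :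
    ∃ C : ℝ, 0 ≤ C ∧ ∀ (l : ι) (O : ι → Set ℂ), (∀ i, IsOpen (O i)) → O l = HP →
      ∀ F : Fin k → (ι → ℂ) → ℂ, (∀ j, SH O (F j)) → (∀ j, ∀ z ∈ Pr O, ‖F j z‖ ≤ 1) →
      ∀ h : Fin r → ℂ → ℂ, (∀ i, Unit1 (h i)) →
      (∀ c : Fin r → ℂ,
        SolvK K (Function.update O l {t | t ∈ HP ∧ ∀ i, ‖h i t - c i‖ < ρ}) F) →
      SolvK C O F := by
  classical
  obtain ⟨m, M, L, hM, hcont⟩ := contour_multi r hρ
  refine ⟨K + 400 * k * K ^ 2 * (8 * 4 ^ m : ℕ) * Real.exp (5 / 3 * (40 * M)), by positivity, ?_⟩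
  intro l O hO hl F hF hF1 h hh hloc
  set V : (Fin r → ℂ) → Set ℂ := fun c => {t | t ∈ HP ∧ ∀ i, ‖h i t - c i‖ < ρ} with hV
  have hVo : ∀ c, IsOpen (V c) := fun c => GP_V_open (fun i => (hh i).1) c ρ
  choose A hA hKB hA1 using hloc
  have : CompleteSpace (XA l O) := complete l hO
  have hupd : Function.update O l HP = O := by rw [← hl, Function.update_eq_self]
  -- lifts of F
  have hlF : ∀ j, ∃ f : ℂ → XA l O, DifferentiableOn ℂ f HP ∧
      (∀ t ∈ HP, ∀ z : ι → ℂ, (∀ i, i ≠ l → z i ∈ O i) →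
        ev (f t) z = F j (Function.update z l t)) ∧
      ∀ C : ℝ, 0 ≤ C → (∀ z ∈ Pr (Function.update O l HP), ‖F j z‖ ≤ C) → ∀ t ∈ HP, ‖f t‖ ≤ C := by
    intro j
    exact lift hO GP_HP_open (by rw [hupd]; exact hF j)
  choose Fl hFld hFle hFln using hlF
  have hlA : ∀ c j, ∃ f : ℂ → XA l O, DifferentiableOn ℂ f (V c) ∧
      (∀ t ∈ V c, ∀ z : ι → ℂ, (∀ i, i ≠ l → z i ∈ O i) →
        ev (f t) z = A c j (Function.update z l t)) ∧
      ∀ C : ℝ, 0 ≤ C → (∀ z ∈ Pr (Function.update O l (V c)), ‖A c j z‖ ≤ C) →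
        ∀ t ∈ V c, ‖f t‖ ≤ C := fun c j => lift hO (hVo c) (hA c j)
  choose Sl hSld hSle hSln using hlA
  have hPrU : ∀ (W : Set ℂ) (t : ℂ), t ∈ W → ∀ z : ι → ℂ, (∀ i, i ≠ l → z i ∈ O i) →
      Function.update z l t ∈ Pr (Function.update O l W) := by
    intro W t ht z hz i
    by_cases hi : i = l
    · subst hi; simpa using ht
    · simpa [Function.update_of_ne hi] using hz i hi
  -- Bezout in XA
  have hbez : ∀ c, ∀ t ∈ V c, ∑ j, Fl j t * Sl c j t = 1 := by
    intro c t ht
    apply ev_ext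
    intro z hz
    rw [ev_sum, ev_one hz]
    rw [← hA1 c _ (hPrU (V c) t ht z hz)]
    refine Finset.sum_congr rfl fun j _ => ?_
    rw [ev_mul, hFle j t ht.1 z hz, hSle c j t ht z hz]
  -- the solutions of level N
  set C0 : ℝ := K + 400 * k * K ^ 2 * (8 * 4 ^ m : ℕ) * Real.exp (5 / 3 * (40 * M)) with hC0
  have hN : ∀ N : ℕ, ∃ AN : Fin k → ℂ → XA l O, (∀ j, DifferentiableOn ℂ (AN j) (DN (2 * N))) ∧
      (∀ j, ∀ z ∈ DN (2 * N), ‖AN j z‖ ≤ C0) ∧
      ∀ z ∈ DN (2 * N), ∑ j, Fl j (GP_sig N z) * AN j z = 1 := by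
    intro N
    obtain ⟨lab, G, hG, hadj, hlab⟩ := hcont (fun i t => h i (GP_sig N t)) (fun i =>
      ⟨(hh i).1.comp (GP_sig_diff N).differentiableOn (fun t ht => GP_sig_mem ht),
        fun t ht => (hh i).2 _ (GP_sig_mem ht)⟩) (2 * N)
    refine trunc (m := m) (N := 2 * N) (T := 40 * M) (K := K) hK0 (G := G)
      (fun z hz => test_of_pack hM hG hz) (lab := lab) hadj
      (F := fun j t => Fl j (GP_sig N t)) ?_ ?_ (S := fun c j t => Sl c j (GP_sig N t)) ?_
    · intro j
      exact (hFld j).comp (GP_sig_diff N).differentiableOn (fun t ht => GP_sig_mem ht)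
    · intro j z hz
      exact hFln j 1 zero_le_one (by rw [hupd]; exact hF1 j) _ (GP_sig_mem hz)
    · intro n hn a ha b hb
      obtain ⟨hL, hcell⟩ := hlab n hn a ha b hb
      have hcHP : cell m n a b ⊆ HP := (cell_sub_box hb).trans (box_sub_HP _)
      have hmem : ∀ z ∈ cell m n a b, GP_sig N z ∈ V (lab n a b) := fun z hz =>
        ⟨GP_sig_mem (hcHP hz), fun i => hcell z hz i⟩
      refine ⟨GP_sig N ⁻¹' V (lab n a b), (hVo _).preimage (GP_sig_diff N).continuous,
        fun z hz => hmem z hz, ?_, ?_⟩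
      · intro j
        exact (hSld (lab n a b) j).comp (GP_sig_diff N).differentiableOn (fun t ht => ht)
      · intro z hz
        refine ⟨fun j => ?_, hbez _ _ (hmem z hz)⟩
        exact hSln (lab n a b) j K hK0
          (hKB _ j) _ (hmem z hz)
  choose AN hANd hANb hAN1 using hN
  -- the limit
  have hdom : ∀ z ∈ Pr O, ∀ i, i ≠ l → Function.update z l 0 i ∈ O i := by
    intro z hz i hi
    rw [Function.update_of_ne hi]
    exact hz i
  have hzl : ∀ z ∈ Pr O, z l ∈ HP := fun z hz => hl ▸ hz l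
  refine ⟨fun j z => ulim (fun N => ev (AN N j (GP_tau N (z l))) (Function.update z l 0)),
    fun j => ⟨⟨C0, ?_⟩, ?_⟩, fun j => ?_, ?_⟩
  · intro z hz
    refine ulim_norm ?_
    obtain ⟨r', hr', hev⟩ := GP_ev (hzl z hz)
    filter_upwards [hev] with N hN
    exact (norm_ev_le _ _).trans (hANb N j _ (hN _ (Metric.mem_ball_self hr')))
  rotate_left
  · intro z hz
    refine ulim_norm ?_
    obtain ⟨r', hr', hev⟩ := GP_ev (hzl z hz)
    filter_upwards [hev] with N hN
    exact (norm_ev_le _ _).trans (hANb N j _ (hN _ (Metric.mem_ball_self hr')))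
  rotate_left
  · intro z hz i
    by_cases hi : i = l
    · subst hi
      have hfun : (fun t => ulim (fun N => ev (AN N j (GP_tau N ((Function.update z i t) i)))
          (Function.update (Function.update z i t) i 0))) =
          fun t => ulim (fun N => ev (AN N j (GP_tau N t)) (Function.update z i 0)) := by
        funext t
        simp
      rw [hfun, hl]
      refine ulim_diff (C := C0) fun w hw => ?_
      obtain ⟨r', hr', hev⟩ := GP_ev hw
      refine ⟨r', hr', ?_⟩
      filter_upwards [hev] with N hN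
      refine ⟨?_, ?_⟩
      · have h1 : DifferentiableOn ℂ (fun t => AN N j (GP_tau N t)) (Metric.ball w r') :=
          (hANd N j).comp (GP_tau_diff N).differentiableOn hN
        exact ev_diff h1 _
      · intro t ht
        exact (norm_ev_le _ _).trans (hANb N j _ (hN t ht))
    · have hfun : (fun t => ulim (fun N => ev (AN N j (GP_tau N ((Function.update z i t) l)))
          (Function.update (Function.update z i t) l 0))) =
          fun t => ulim (fun N => ev (AN N j (GP_tau N (z l)))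
            (Function.update (Function.update z l 0) i t)) := by
        funext t
        rw [Function.update_of_ne (Ne.symm hi), Function.update_comm hi]
      rw [hfun]
      refine ulim_diff (C := C0) fun w hw => ?_
      obtain ⟨r', hr', hball⟩ := Metric.isOpen_iff.1 (hO i) w hw
      refine ⟨r', hr', ?_⟩
      obtain ⟨r'', hr'', hev⟩ := GP_ev (hzl z hz)
      filter_upwards [hev] with N hN
      refine ⟨(ev_sep _ (hdom z hz) hi).mono hball, ?_⟩
      intro t ht
      exact (norm_ev_le _ _).trans (hANb N j _ (hN _ (Metric.mem_ball_self hr'')))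
  · intro z hz
    obtain ⟨r', hr', hev⟩ := GP_ev (hzl z hz)
    refine ulim_sum (C := C0) (fun j => ?_) ?_
    · filter_upwards [hev] with N hN
      exact (norm_ev_le _ _).trans (hANb N j _ (hN _ (Metric.mem_ball_self hr')))
    · filter_upwards [hev] with N hN
      have h1 := hAN1 N _ (hN _ (Metric.mem_ball_self hr'))
      rw [GP_sig_tau] at h1
      have h2 := congrArg (fun x => ev x (Function.update z l 0)) h1
      simp only [ev_sum, ev_mul, ev_one (hdom z hz)] at h2
      rw [← h2]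
      refine Finset.sum_congr rfl fun j _ => ?_
      rw [hFle j _ (hzl z hz) _ (hdom z hz)]
      simp


end Cor
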