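import Pool.Agent.helper45.Cor.DiscK

/-!
Module COR-TH: no restriction on the generators if `n - 1` of the variables carry a thin generator.

`pd z a` is the pseudohyperbolic distance in the unit disc.  `Thin g c Z`: the set `Z` is
`c`-separated and `|g z| ≥ c * pd z a'` for some `a' ∈ Z`, for every `z` with `|g z| < c`
(interpolating Blaschke products have this property, `Z` = the zeros).

PROOF of `thin_corona`.  Scale so that `|f j| ≤ 1` (divide all `f j` by `Cf ≥ 1`, also the thin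
functions; `Thin g c Z` gives `Thin (g / Cf) (c / Cf) Z`); let `c₁ ∈ (0, 1)` be a common constant
for the thin functions and let `δ` be the lower bound of `∑ |f j|`.  Let `C₁` be the constant of
`carlesonK k (δ / 4)`.  Choose `η > 0` with `η ≤ c₁ / 4`, `2 n k η ≤ δ / 4` and
`2 n k η C₁ ≤ 1 / 2`, put `ε = min (c₁ η) (δ / 4)`.
Apply `discK` with `r = 1`, `h i 0 = g i` for `i ≠ i₀` and `0` for `i = i₀`, `ρ = ε / 4`,
`K = max (4 / ε) (2 C₁)`.
Let `c` be given, `W` the set of the `z ∈ PD n` with `|h i 0 (z i) - c i 0| < ρ` for all `i`.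
If `|c i 0| ≥ ε / 2` for some `i ≠ i₀` then `|g i (z i)| ≥ ε / 4` on `W`: local solution
`1 / f (j i)` in the place `j i`, `0` elsewhere (`f (j i) z = g i (z i)`).
Otherwise `|g i (z i)| < ε` for all `i ≠ i₀` on `W`, so there is exactly one `a i ∈ Z i` with
`pd (z i) (a i) < η` (existence: `c₁ pd ≤ |g| < ε ≤ c₁ η`; uniqueness: the points of `Z i` are
`c₁`-separated, `2 η < c₁`, triangle inequality for `pd`), and `a i` is locally constant in `z`.
For `z ∈ W` let `z'` be the point with `z' i = a i` (`i ≠ i₀`) and `z' i₀ = w` arbitrary.  By the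
Schwarz-Pick lemma, one variable after the other, `|f j (z'' ) - f j z'| ≤ 2 (n - 1) η` where `z''`
is `z` with the coordinate `i₀` replaced by `w`.  So for `φ j w = f j z'` we get
`∑_j |φ j w| ≥ δ - 2 n k η ≥ δ / 4`: let `ψ^a j` be the solutions of `carlesonK`, chosen for each
family `a = (a i)_{i ≠ i₀}`.  Put `A j z = ψ^a j (z i₀) / E z`,
`E z = ∑ j, f j z * ψ^a j (z i₀)`, `|E z - 1| ≤ 2 n k η C₁ ≤ 1 / 2`.
-/

noncomputable section

open Set Metric

namespace Cor

/-- pseudohyperbolic distance of the unit disc -/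
def pd (z a : ℂ) : ℝ := ‖z - a‖ / ‖1 - (starRingEnd ℂ) a * z‖

/-- thin functions, for instance interpolating Blaschke products (with `Z` the set of zeros) -/
def Thin (g : ℂ → ℂ) (c : ℝ) (Z : Set ℂ) : Prop :=
  H1 g ∧ 0 < c ∧ Z ⊆ ball 0 1 ∧ (∀ a ∈ Z, ∀ b ∈ Z, a ≠ b → c ≤ pd a b) ∧
    ∀ z ∈ ball (0 : ℂ) 1, ‖g z‖ < c → ∃ a ∈ Z, c * pd z a ≤ ‖g z‖

theorem Thin_den {a z : ℂ} (ha : ‖a‖ < 1) (hz : ‖z‖ < 1) : 1 - (starRingEnd ℂ) a * z ≠ 0 := by
  intro h
  have h1 : (starRingEnd ℂ) a * z = 1 := (sub_eq_zero.mp h).symm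
  have h2 : ‖(starRingEnd ℂ) a * z‖ = 1 := by rw [h1]; simp
  rw [norm_mul, RCLike.norm_conj] at h2
  nlinarith [norm_nonneg a, norm_nonneg z]

theorem Thin_sq (a z : ℂ) : ‖1 - (starRingEnd ℂ) a * z‖ ^ 2 - ‖z - a‖ ^ 2 =
    (1 - ‖a‖ ^ 2) * (1 - ‖z‖ ^ 2) := by
  rw [← Complex.normSq_eq_norm_sq, ← Complex.normSq_eq_norm_sq, ← Complex.normSq_eq_norm_sq,
    ← Complex.normSq_eq_norm_sq, Complex.normSq_apply, Complex.normSq_apply, Complex.normSq_apply,
    Complex.normSq_apply]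
  simp only [Complex.sub_re, Complex.sub_im, Complex.mul_re, Complex.mul_im, Complex.conj_re,
    Complex.conj_im, Complex.one_re, Complex.one_im]
  ring

theorem Thin_lt {a z : ℂ} (ha : ‖a‖ < 1) (hz : ‖z‖ < 1) : pd z a < 1 := by
  unfold pd
  have hpos : 0 < ‖1 - (starRingEnd ℂ) a * z‖ := norm_pos_iff.mpr (Thin_den ha hz)
  rw [div_lt_one hpos]
  have h1 := Thin_sq a z
  have h2 : 0 < (1 - ‖a‖ ^ 2) * (1 - ‖z‖ ^ 2) := by
    apply mul_pos
    · nlinarith [norm_nonneg a]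
    · nlinarith [norm_nonneg z]
  exact lt_of_pow_lt_pow_left₀ 2 hpos.le (by linarith)

theorem Thin_nonneg (z a : ℂ) : 0 ≤ pd z a := by
  unfold pd
  positivity

/-- Schwarz-Pick lemma with constant 2 -/
theorem Thin_sp {φ : ℂ → ℂ} (hφ : DifferentiableOn ℂ φ (ball 0 1))
    (hb : ∀ w ∈ ball (0 : ℂ) 1, ‖φ w‖ ≤ 1) {z a : ℂ} (hz : ‖z‖ < 1) (ha : ‖a‖ < 1) :
    ‖φ z - φ a‖ ≤ 2 * pd z a := by
  have hna : ‖-a‖ < 1 := by rwa [norm_neg]
  have hden : ∀ ζ ∈ ball (0 : ℂ) 1, 1 + (starRingEnd ℂ) a * ζ ≠ 0 := by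
    intro ζ hζ
    have := Thin_den hna (mem_ball_zero_iff.mp hζ)
    simpa using this
  have hmaps : ∀ ζ ∈ ball (0 : ℂ) 1, (ζ + a) / (1 + (starRingEnd ℂ) a * ζ) ∈ ball (0 : ℂ) 1 := by
    intro ζ hζ
    have := Thin_lt hna (mem_ball_zero_iff.mp hζ)
    unfold pd at this
    rw [mem_ball_zero_iff, norm_div]
    simpa using this
  have hd : DifferentiableOn ℂ (fun ζ => φ ((ζ + a) / (1 + (starRingEnd ℂ) a * ζ))) (ball 0 1) := by
    apply hφ.comp _ hmaps
    apply DifferentiableOn.div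
    · fun_prop
    · fun_prop
    · exact hden
  have hm : MapsTo (fun ζ => φ ((ζ + a) / (1 + (starRingEnd ℂ) a * ζ))) (ball 0 1)
      (closedBall ((fun ζ => φ ((ζ + a) / (1 + (starRingEnd ℂ) a * ζ))) 0) 2) := by
    intro ζ hζ
    rw [mem_closedBall, dist_eq_norm]
    have h1 := hb _ (hmaps ζ hζ)
    have h2 := hb _ (hmaps 0 (mem_ball_self one_pos))
    exact (norm_sub_le _ _).trans (by linarith)
  have hζ : (z - a) / (1 - (starRingEnd ℂ) a * z) ∈ ball (0 : ℂ) 1 := by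
    rw [mem_ball_zero_iff, norm_div]
    exact Thin_lt ha hz
  have key := Complex.dist_le_div_mul_dist_of_mapsTo_ball hd hm hζ
  have hne := Thin_den ha hz
  have e1 : ((z - a) / (1 - (starRingEnd ℂ) a * z) + a) /
      (1 + (starRingEnd ℂ) a * ((z - a) / (1 - (starRingEnd ℂ) a * z))) = z := by
    have h3 : 1 + (starRingEnd ℂ) a * ((z - a) / (1 - (starRingEnd ℂ) a * z)) ≠ 0 := hden _ hζ
    rw [div_eq_iff h3]
    have h4 : (z - a) / (1 - (starRingEnd ℂ) a * z) * (1 - (starRingEnd ℂ) a * z) = z - a :=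
      div_mul_cancel₀ _ hne
    linear_combination h4
  simp only [e1, mul_zero, add_zero, zero_add, div_one] at key
  rw [dist_eq_norm, dist_zero_right, norm_div] at key
  unfold pd
  exact key

/-- a weak triangle inequality -/
theorem Thin_tri {z a b : ℂ} (hz : ‖z‖ < 1) (ha : ‖a‖ < 1) (hb : ‖b‖ < 1) :
    pd a b ≤ pd z b + 2 * pd z a := by
  have hd : DifferentiableOn ℂ (fun w => (w - b) / (1 - (starRingEnd ℂ) b * w)) (ball 0 1) := by
    apply DifferentiableOn.div
    · fun_prop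
    · fun_prop
    · intro w hw
      exact Thin_den hb (mem_ball_zero_iff.mp hw)
  have hb1 : ∀ w ∈ ball (0 : ℂ) 1, ‖(w - b) / (1 - (starRingEnd ℂ) b * w)‖ ≤ 1 := by
    intro w hw
    rw [norm_div]
    exact (Thin_lt hb (mem_ball_zero_iff.mp hw)).le
  have h := Thin_sp hd hb1 hz ha
  have e1 : pd a b = ‖(a - b) / (1 - (starRingEnd ℂ) b * a)‖ := by rw [norm_div]; rfl
  have e2 : pd z b = ‖(z - b) / (1 - (starRingEnd ℂ) b * z)‖ := by rw [norm_div]; rfl
  rw [e1, e2]
  have h3 := norm_sub_norm_le ((a - b) / (1 - (starRingEnd ℂ) b * a))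
    ((z - b) / (1 - (starRingEnd ℂ) b * z))
  rw [norm_sub_rev] at h
  linarith

/-- Schwarz-Pick in several variables -/
theorem Thin_multi {n : ℕ} {F : (Fin n → ℂ) → ℂ} (hF : DifferentiableOn ℂ F (PD n))
    (hb : ∀ z ∈ PD n, ‖F z‖ ≤ 1) {x y : Fin n → ℂ} (hx : x ∈ PD n) (hy : y ∈ PD n)
    (S : Finset (Fin n)) : ‖F x - F (S.piecewise y x)‖ ≤ ∑ i ∈ S, 2 * pd (x i) (y i) := by
  classical
  induction S using Finset.induction_on with
  | empty => simp
  | insert i S hi ih =>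
    rw [Finset.sum_insert hi, Finset.piecewise_insert]
    have hu : S.piecewise y x ∈ PD n := by
      intro l
      by_cases hl : l ∈ S
      · rw [Finset.piecewise_eq_of_mem _ _ _ hl]; exact hy l
      · rw [Finset.piecewise_eq_of_notMem _ _ _ hl]; exact hx l
    have hup : ∀ t ∈ ball (0 : ℂ) 1, Function.update (S.piecewise y x) i t ∈ PD n := by
      intro t ht l
      by_cases hl : l = i
      · subst hl; rw [Function.update_self]; exact mem_ball_zero_iff.mp ht
      · rw [Function.update_of_ne hl]; exact hu l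
    have hd : DifferentiableOn ℂ (fun t => F (Function.update (S.piecewise y x) i t))
        (ball 0 1) := by
      apply hF.comp _ hup
      apply Differentiable.differentiableOn
      rw [differentiable_pi]
      intro l
      by_cases hl : l = i
      · subst hl
        simp only [Function.update_self]
        exact differentiable_id
      · simp only [Function.update_of_ne hl]
        exact differentiable_const _
    have h1 := Thin_sp hd (fun t ht => hb _ (hup t ht)) (hx i) (hy i)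
    have e1 : Function.update (S.piecewise y x) i (x i) = S.piecewise y x := by
      rw [Function.update_eq_self_iff, Finset.piecewise_eq_of_notMem _ _ _ hi]
    rw [e1] at h1
    calc ‖F x - F (Function.update (S.piecewise y x) i (y i))‖
        ≤ ‖F x - F (S.piecewise y x)‖ +
          ‖F (S.piecewise y x) - F (Function.update (S.piecewise y x) i (y i))‖ := by
          have := norm_add_le (F x - F (S.piecewise y x))
            (F (S.piecewise y x) - F (Function.update (S.piecewise y x) i (y i)))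
          rwa [sub_add_sub_cancel] at this
      _ ≤ 2 * pd (x i) (y i) + ∑ i ∈ S, 2 * pd (x i) (y i) := by linarith

theorem Thin_multi' {n : ℕ} {F : (Fin n → ℂ) → ℂ} (hF : DifferentiableOn ℂ F (PD n))
    (hb : ∀ z ∈ PD n, ‖F z‖ ≤ 1) {x y : Fin n → ℂ} (hx : x ∈ PD n) (hy : y ∈ PD n)
    {η : ℝ} (hη : ∀ i, pd (x i) (y i) ≤ η) : ‖F x - F y‖ ≤ 2 * n * η := by
  classical
  have h := Thin_multi hF hb hx hy Finset.univ
  rw [Finset.piecewise_univ] at h
  refine h.trans ?_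
  calc ∑ i, 2 * pd (x i) (y i) ≤ ∑ _i : Fin n, 2 * η :=
        Finset.sum_le_sum fun i _ => by linarith [hη i]
    _ = 2 * n * η := by
        rw [Finset.sum_const, Finset.card_univ, Fintype.card_fin, nsmul_eq_mul]
        ring

theorem Thin_self (a : ℂ) : pd a a = 0 := by
  unfold pd
  simp

theorem Thin_cont {a z : ℂ} (ha : ‖a‖ < 1) (hz : ‖z‖ < 1) : ContinuousAt (fun w => pd w a) z := by
  unfold pd
  apply ContinuousAt.div
  · fun_prop
  · fun_prop
  · exact norm_ne_zero_iff.mpr (Thin_den ha hz)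

/-- the local solutions near the zeros of the thin functions -/
theorem Thin_local {n k : ℕ} (f : Fin k → (Fin n → ℂ) → ℂ) (hf : ∀ j, HInf (PD n) (f j))
    (hf1 : ∀ j, ∀ z ∈ PD n, ‖f j z‖ ≤ 1) (i₀ : Fin n) {c η δ C₁ : ℝ} (hη0 : 0 < η)
    (hηc : 4 * η ≤ c) (hηd : 2 * n * η * k ≤ δ / 4) (hηC : 2 * n * η * C₁ * k ≤ 1 / 2)
    (hC1 : 0 ≤ C₁)
    (hC : ∀ φ : Fin k → ℂ → ℂ, (∀ j, DifferentiableOn ℂ (φ j) (ball 0 1)) →
      (∀ j, ∀ w ∈ ball (0 : ℂ) 1, ‖φ j w‖ ≤ 1) →
      (∀ w ∈ ball (0 : ℂ) 1, δ / 4 ≤ ∑ j, ‖φ j w‖) →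
      ∃ ψ : Fin k → ℂ → ℂ, (∀ j, DifferentiableOn ℂ (ψ j) (ball 0 1)) ∧
        ∀ w ∈ ball (0 : ℂ) 1, (∀ j, ‖ψ j w‖ ≤ C₁) ∧ ∑ j, φ j w * ψ j w = 1)
    (Z : Fin n → Set ℂ) (hZ : ∀ i, i ≠ i₀ → Z i ⊆ ball 0 1)
    (hsep : ∀ i, i ≠ i₀ → ∀ a ∈ Z i, ∀ b ∈ Z i, a ≠ b → c ≤ pd a b)
    (W : Set (Fin n → ℂ)) (hW : W ⊆ PD n)
    (hWZ : ∀ z ∈ W, ∀ i, i ≠ i₀ → ∃ a ∈ Z i, pd (z i) a < η)
    (hδ : 0 < δ) (hb : ∀ z ∈ PD n, δ ≤ ∑ j, ‖f j z‖) :
    ∃ A : Fin k → (Fin n → ℂ) → ℂ, (∀ j, DifferentiableOn ℂ (A j) W) ∧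
      ∀ z ∈ W, (∀ j, ‖A j z‖ ≤ 2 * C₁) ∧ ∑ j, f j z * A j z = 1 := by
  classical
  -- the nearest points
  let α : (Fin n → ℂ) → Fin n → ℂ := fun z i =>
    if h : i ≠ i₀ ∧ ∃ a ∈ Z i, pd (z i) a < η then h.2.choose else 0
  have hα : ∀ z ∈ W, ∀ i, i ≠ i₀ → α z i ∈ Z i ∧ pd (z i) (α z i) < η := by
    intro z hz i hi
    have h : i ≠ i₀ ∧ ∃ a ∈ Z i, pd (z i) a < η := ⟨hi, hWZ z hz i hi⟩
    have e : α z i = h.2.choose := dif_pos h
    rw [e]
    exact h.2.choose_spec
  have hα0 : ∀ z, α z i₀ = 0 := fun z => dif_neg (fun h => h.1 rfl)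
  have hαball : ∀ z ∈ W, ∀ i, ‖α z i‖ < 1 := by
    intro z hz i
    by_cases hi : i = i₀
    · rw [hi, hα0]; simp
    · exact mem_ball_zero_iff.mp (hZ i hi (hα z hz i hi).1)
  have huniq : ∀ z ∈ PD n, ∀ i, i ≠ i₀ → ∀ a ∈ Z i, ∀ b ∈ Z i, pd (z i) a < η → pd (z i) b < η →
      a = b := by
    intro z hz i hi a ha b hb' h1 h2
    by_contra hab
    have h3 := hsep i hi a ha b hb' hab
    have h4 := Thin_tri (hz i) (mem_ball_zero_iff.mp (hZ i hi ha))
      (mem_ball_zero_iff.mp (hZ i hi hb'))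
    linarith
  -- one variable problems
  have hupd : ∀ a : Fin n → ℂ, (∀ i, ‖a i‖ < 1) → ∀ w ∈ ball (0 : ℂ) 1,
      Function.update a i₀ w ∈ PD n := by
    intro a ha w hw l
    by_cases hl : l = i₀
    · subst hl; rw [Function.update_self]; exact mem_ball_zero_iff.mp hw
    · rw [Function.update_of_ne hl]; exact ha l
  have hupdd : ∀ a : Fin n → ℂ, Differentiable ℂ (fun w : ℂ => Function.update a i₀ w) := by
    intro a
    rw [differentiable_pi]
    intro l
    by_cases hl : l = i₀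
    · subst hl
      simp only [Function.update_self]
      exact differentiable_id
    · simp only [Function.update_of_ne hl]
      exact differentiable_const _
  have hex : ∀ a : Fin n → ℂ, ∃ ψ : Fin k → ℂ → ℂ, ((∀ i, ‖a i‖ < 1) ∧
      (∀ w ∈ ball (0 : ℂ) 1, δ / 4 ≤ ∑ j, ‖f j (Function.update a i₀ w)‖)) →
      (∀ j, DifferentiableOn ℂ (ψ j) (ball 0 1)) ∧
        ∀ w ∈ ball (0 : ℂ) 1, (∀ j, ‖ψ j w‖ ≤ C₁) ∧
          ∑ j, f j (Function.update a i₀ w) * ψ j w = 1 := by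
    intro a
    by_cases ha : (∀ i, ‖a i‖ < 1) ∧
      (∀ w ∈ ball (0 : ℂ) 1, δ / 4 ≤ ∑ j, ‖f j (Function.update a i₀ w)‖)
    · obtain ⟨ψ, h1, h2⟩ := hC (fun j w => f j (Function.update a i₀ w))
        (fun j => (hf j).1.comp (hupdd a).differentiableOn (hupd a ha.1))
        (fun j w hw => hf1 j _ (hupd a ha.1 w hw)) ha.2
      exact ⟨ψ, fun _ => ⟨h1, h2⟩⟩
    · exact ⟨fun _ _ => 0, fun h => absurd h ha⟩
  choose ψ hψ using hex
  -- the closeness
  have hclose : ∀ z ∈ W, ∀ w ∈ ball (0 : ℂ) 1, ∀ j,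
      ‖f j (Function.update z i₀ w) - f j (Function.update (α z) i₀ w)‖ ≤ 2 * n * η := by
    intro z hz w hw j
    apply Thin_multi' (hf j).1 (hf1 j) (hupd z (hW hz) w hw) (hupd _ (hαball z hz) w hw)
    intro i
    by_cases hi : i = i₀
    · subst hi
      rw [Function.update_self, Function.update_self, Thin_self]
      exact hη0.le
    · rw [Function.update_of_ne hi, Function.update_of_ne hi]
      exact (hα z hz i hi).2.le
  have hcond : ∀ z ∈ W, (∀ i, ‖α z i‖ < 1) ∧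
      (∀ w ∈ ball (0 : ℂ) 1, δ / 4 ≤ ∑ j, ‖f j (Function.update (α z) i₀ w)‖) := by
    intro z hz
    refine ⟨hαball z hz, ?_⟩
    intro w hw
    have h1 := hb _ (hupd z (hW hz) w hw)
    have h2 : ∑ j, ‖f j (Function.update z i₀ w)‖ ≤
        ∑ j, (‖f j (Function.update (α z) i₀ w)‖ + 2 * n * η) := by
      apply Finset.sum_le_sum
      intro j _
      have h3 := hclose z hz w hw j
      have h4 := norm_sub_norm_le (f j (Function.update z i₀ w))
        (f j (Function.update (α z) i₀ w))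
      linarith
    rw [Finset.sum_add_distrib, Finset.sum_const, Finset.card_univ, Fintype.card_fin,
      nsmul_eq_mul] at h2
    have h5 : (k : ℝ) * (2 * n * η) ≤ δ / 4 := by linarith
    linarith
  have hψW : ∀ z ∈ W, (∀ j, DifferentiableOn ℂ (ψ (α z) j) (ball 0 1)) ∧
        ∀ w ∈ ball (0 : ℂ) 1, (∀ j, ‖ψ (α z) j w‖ ≤ C₁) ∧
          ∑ j, f j (Function.update (α z) i₀ w) * ψ (α z) j w = 1 :=
    fun z hz => hψ (α z) (hcond z hz)
  let E : (Fin n → ℂ) → (Fin n → ℂ) → ℂ := fun a z => ∑ j, f j z * ψ a j (z i₀)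
  have hE : ∀ z ∈ W, ‖E (α z) z - 1‖ ≤ 1 / 2 := by
    intro z hz
    have hzi : z i₀ ∈ ball (0 : ℂ) 1 := mem_ball_zero_iff.mpr (hW hz i₀)
    have h1 := ((hψW z hz).2 (z i₀) hzi).2
    have h2 : E (α z) z - 1 = ∑ j, (f j z - f j (Function.update (α z) i₀ (z i₀))) *
        ψ (α z) j (z i₀) := by
      rw [← h1, ← Finset.sum_sub_distrib]
      apply Finset.sum_congr rfl
      intro j _
      ring
    rw [h2]
    refine (norm_sum_le _ _).trans ?_
    have h3 : ∀ j ∈ (Finset.univ : Finset (Fin k)),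
        ‖(f j z - f j (Function.update (α z) i₀ (z i₀))) * ψ (α z) j (z i₀)‖ ≤
          2 * n * η * C₁ := by
      intro j _
      rw [norm_mul]
      have h4 := hclose z hz (z i₀) hzi j
      rw [Function.update_eq_self] at h4
      exact mul_le_mul h4 (((hψW z hz).2 (z i₀) hzi).1 j) (norm_nonneg _) (by positivity)
    refine (Finset.sum_le_sum h3).trans ?_
    rw [Finset.sum_const, Finset.card_univ, Fintype.card_fin, nsmul_eq_mul]
    linarith
  have hE2 : ∀ z ∈ W, 1 / 2 ≤ ‖E (α z) z‖ := by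
    intro z hz
    have h1 := hE z hz
    have h2 := norm_sub_norm_le (1 : ℂ) (E (α z) z)
    rw [norm_sub_rev, norm_one] at h2
    linarith
  refine ⟨fun j z => ψ (α z) j (z i₀) / E (α z) z, ?_, ?_⟩
  · intro j z hz
    have hconst : ∀ᶠ y in nhdsWithin z W, α y = α z := by
      have h1 : ∀ i, i ≠ i₀ → ∀ᶠ y in nhds z, pd (y i) (α z i) < η := by
        intro i hi
        have h2 : ContinuousAt (fun y : Fin n → ℂ => pd (y i) (α z i)) z :=
          ContinuousAt.comp (f := fun y : Fin n → ℂ => y i) (g := fun w => pd w (α z i))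
            (Thin_cont (hαball z hz i) (hW hz i)) (continuous_apply i).continuousAt
        exact h2.eventually_lt continuousAt_const (hα z hz i hi).2
      have h3 : ∀ᶠ y in nhds z, ∀ i, i ≠ i₀ → pd (y i) (α z i) < η := by
        rw [Filter.eventually_all]
        intro i
        by_cases hi : i = i₀
        · exact Filter.Eventually.of_forall fun y h => absurd hi h
        · filter_upwards [h1 i hi] with y hy _
          exact hy
      filter_upwards [nhdsWithin_le_nhds h3, self_mem_nhdsWithin] with y hy hyW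
      funext i
      by_cases hi : i = i₀
      · rw [hi, hα0, hα0]
      · exact huniq y (hW hyW) i hi _ (hα y hyW i hi).1 _ (hα z hz i hi).1 (hα y hyW i hi).2
          (hy i hi)
    have hd1 : ∀ j, DifferentiableWithinAt ℂ (fun y : Fin n → ℂ => ψ (α z) j (y i₀)) W z := by
      intro j
      have h1 : DifferentiableOn ℂ (fun y : Fin n → ℂ => ψ (α z) j (y i₀)) W :=
        ((hψW z hz).1 j).comp (differentiable_apply i₀).differentiableOn
          (fun y hy => mem_ball_zero_iff.mpr (hW hy i₀))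
      exact h1 z hz
    have hd2 : DifferentiableWithinAt ℂ (fun y => E (α z) y) W z := by
      apply DifferentiableWithinAt.fun_sum
      intro j _
      exact (((hf j).1.mono hW) z hz).mul (hd1 j)
    have hEne : E (α z) z ≠ 0 := by
      have := hE2 z hz
      intro h
      rw [h, norm_zero] at this
      linarith
    have hd3 := (hd1 j).mul (hd2.inv hEne)
    refine hd3.congr_of_eventuallyEq ?_ ?_
    · filter_upwards [hconst] with y hy
      simp only [hy]
      rw [div_eq_mul_inv]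
      rfl
    · simp only [div_eq_mul_inv]
      rfl
  · intro z hz
    have hzi : z i₀ ∈ ball (0 : ℂ) 1 := mem_ball_zero_iff.mpr (hW hz i₀)
    have h2 := hE2 z hz
    have hEne : E (α z) z ≠ 0 := by
      intro h
      rw [h, norm_zero] at h2
      linarith
    constructor
    · intro j
      have h1 := ((hψW z hz).2 (z i₀) hzi).1 j
      simp only [norm_div]
      rw [div_le_iff₀ (by linarith)]
      nlinarith
    · have h3 : ∑ j, f j z * (ψ (α z) j (z i₀) / E (α z) z) = E (α z) z / E (α z) z := by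
        rw [Finset.sum_div]
        apply Finset.sum_congr rfl
        intro j _
        ring
      rw [h3, div_self hEne]

theorem Thin_dc {n : ℕ} {F : (Fin n → ℂ) → ℂ} {S : Set (Fin n → ℂ)} (h : DifferentiableOn ℂ F S)
    (M : ℂ) : DifferentiableOn ℂ (fun z => F z / M) S := by
  simp only [div_eq_mul_inv]
  exact h.mul_const _

theorem Thin_scaled {n k : ℕ} (f : Fin k → (Fin n → ℂ) → ℂ) (hf : ∀ j, HInf (PD n) (f j))
    (hf1 : ∀ j, ∀ z ∈ PD n, ‖f j z‖ ≤ 1) (i₀ : Fin n) (j : Fin n → Fin k) (g : Fin n → ℂ → ℂ)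
    {c : ℝ} (hc : 0 < c) (Z : Fin n → Set ℂ)
    (hg : ∀ i, i ≠ i₀ → Thin (g i) c (Z i) ∧ ∀ z ∈ PD n, f (j i) z = g i (z i)) {δ : ℝ}
    (hδ : 0 < δ) (hb : ∀ z ∈ PD n, δ ≤ ∑ j, ‖f j z‖) :
    ∃ A : Fin k → (Fin n → ℂ) → ℂ, (∀ j, HInf (PD n) (A j)) ∧
      ∀ z ∈ PD n, ∑ j, f j z * A j z = 1 := by
  classical
  obtain ⟨C₁, hC1, hC⟩ := carlesonK k (δ := δ / 4) (by positivity)
  obtain ⟨η, hη0, hηc, hη1, hηd, hηC⟩ : ∃ η : ℝ, 0 < η ∧ 4 * η ≤ c ∧ η ≤ 1 ∧
      2 * n * η * k ≤ δ / 4 ∧ 2 * n * η * C₁ * k ≤ 1 / 2 := by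
    refine ⟨min (min (c / 4) 1) (min (δ / (8 * n * k + 1)) (1 / (4 * n * C₁ * k + 1))), ?_, ?_,
      ?_, ?_, ?_⟩
    · positivity
    · have h1 : min (min (c / 4) 1) (min (δ / (8 * n * k + 1)) (1 / (4 * n * C₁ * k + 1))) ≤ c / 4 :=
        (min_le_left _ _).trans (min_le_left _ _)
      linarith
    · exact (min_le_left _ _).trans (min_le_right _ _)
    · have h1 : min (min (c / 4) 1) (min (δ / (8 * n * k + 1)) (1 / (4 * n * C₁ * k + 1))) ≤
          δ / (8 * n * k + 1) := (min_le_right _ _).trans (min_le_left _ _)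
      have h2 : (0 : ℝ) ≤ 8 * n * k := by positivity
      rw [le_div_iff₀ (by linarith)] at h1
      have h3 : 0 ≤ min (min (c / 4) 1) (min (δ / (8 * n * k + 1)) (1 / (4 * n * C₁ * k + 1))) := by
        positivity
      linarith
    · have h1 : min (min (c / 4) 1) (min (δ / (8 * n * k + 1)) (1 / (4 * n * C₁ * k + 1))) ≤
          1 / (4 * n * C₁ * k + 1) := (min_le_right _ _).trans (min_le_right _ _)
      have h2 : (0 : ℝ) ≤ 4 * n * C₁ * k := by positivity
      rw [le_div_iff₀ (by linarith)] at h1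
      have h3 : 0 ≤ min (min (c / 4) 1) (min (δ / (8 * n * k + 1)) (1 / (4 * n * C₁ * k + 1))) := by
        positivity
      linarith
  obtain ⟨ε, hε⟩ : ∃ ε : ℝ, ε = c * η := ⟨_, rfl⟩
  have hε0 : 0 < ε := by rw [hε]; positivity
  have hεc : ε ≤ c := by
    rw [hε]
    nlinarith
  obtain ⟨C, hC0, hCK⟩ := discK n k 1 (ρ := ε / 4) (by positivity) (K := max (ε / 4)⁻¹ (2 * C₁))
    (le_max_of_le_left (by positivity))
  have hgb : ∀ i, i ≠ i₀ → ∀ w ∈ ball (0 : ℂ) 1, ‖g i w‖ ≤ 1 := by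
    intro i hi w hw
    have hmem : Function.update (0 : Fin n → ℂ) i w ∈ PD n := by
      intro l
      by_cases hl : l = i
      · subst hl; rw [Function.update_self]; exact mem_ball_zero_iff.mp hw
      · rw [Function.update_of_ne hl]; simp
    have h1 := (hg i hi).2 _ hmem
    rw [Function.update_self] at h1
    rw [← h1]
    exact hf1 _ _ hmem
  obtain ⟨A, hA1, hA2⟩ := hCK f hf hf1 (fun i _ => if i ≠ i₀ then g i else fun _ => 0) (by
    intro i _
    by_cases hi : i ≠ i₀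
    · simp only [if_pos hi]
      exact (hg i hi).1.1
    · simp only [if_neg hi]
      exact ⟨differentiableOn_const 0, 0, fun w _ => by simp⟩) (by
    intro i _ w hw
    by_cases hi : i ≠ i₀
    · simp only [if_pos hi]
      exact hgb i hi w hw
    · simp only [if_neg hi, norm_zero]
      exact zero_le_one) (by
    intro d
    obtain ⟨W, hW⟩ : ∃ W : Set (Fin n → ℂ), W = {z | z ∈ PD n ∧ ∀ (i : Fin n) (q : Fin 1),
      ‖(if i ≠ i₀ then g i else fun _ => 0) (z i) - d i q‖ < ε / 4} := ⟨_, rfl⟩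
    have hWPD : W ⊆ PD n := by
      intro z hz
      rw [hW] at hz
      exact hz.1
    have hWg : ∀ z ∈ W, ∀ i, i ≠ i₀ → ‖g i (z i) - d i 0‖ < ε / 4 := by
      intro z hz i hi
      rw [hW] at hz
      have := hz.2 i 0
      rwa [if_pos hi] at this
    have hfin : ∃ A : Fin k → (Fin n → ℂ) → ℂ, (∀ i, DifferentiableOn ℂ (A i) W) ∧
        ∀ z ∈ W, (∀ i, ‖A i z‖ ≤ max (ε / 4)⁻¹ (2 * C₁)) ∧ ∑ i, f i z * A i z = 1 := by
      by_cases hcase : ∃ i, i ≠ i₀ ∧ ε / 2 ≤ ‖d i 0‖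
      · obtain ⟨i, hi, hlow⟩ := hcase
        obtain ⟨A, h1, h2⟩ := DiscK_loc f hf W hWPD (j i) (ε := ε / 4) (by positivity) (by
          intro z hz
          rw [(hg i hi).2 z (hWPD hz)]
          have e1 := hWg z hz i hi
          rw [norm_sub_rev] at e1
          have e2 := norm_sub_norm_le (d i 0) (g i (z i))
          linarith)
        exact ⟨A, h1, fun z hz => ⟨fun i => ((h2 z hz).1 i).trans (le_max_left _ _), (h2 z hz).2⟩⟩
      · push Not at hcase
        obtain ⟨A, h1, h2⟩ := Thin_local f hf hf1 i₀ hη0 hηc hηd hηC hC1 hC Z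
          (fun i hi => (hg i hi).1.2.2.1) (fun i hi => (hg i hi).1.2.2.2.1) W hWPD (by
            intro z hz i hi
            have e1 := hWg z hz i hi
            have e2 := hcase i hi
            have e3 := norm_sub_norm_le (g i (z i)) (d i 0)
            have e4 : ‖g i (z i)‖ < ε := by linarith
            obtain ⟨a, ha, hpa⟩ := (hg i hi).1.2.2.2.2 (z i)
              (mem_ball_zero_iff.mpr (hWPD hz i)) (by linarith)
            refine ⟨a, ha, ?_⟩
            have e5 : c * pd (z i) a < c * η := by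
              rw [← hε]
              linarith
            exact lt_of_mul_lt_mul_left e5 hc.le) hδ hb
        exact ⟨A, h1, fun z hz => ⟨fun i => ((h2 z hz).1 i).trans (le_max_right _ _),
          (h2 z hz).2⟩⟩
    obtain ⟨A, h1, h2⟩ := hfin
    refine ⟨A, ?_, ?_⟩
    · rw [hW] at h1
      exact h1
    · intro z hz hz2
      exact h2 z (by rw [hW]; exact ⟨hz, hz2⟩))
  exact ⟨A, fun j => ⟨hA1 j, C, fun z hz => (hA2 z hz).1 j⟩, fun z hz => (hA2 z hz).2⟩

theorem thin_corona {n k : ℕ} (f : Fin k → (Fin n → ℂ) → ℂ) (hf : ∀ j, HInf (PD n) (f j))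
    (i₀ : Fin n) (j : Fin n → Fin k) (g : Fin n → ℂ → ℂ) (c : ℝ) (Z : Fin n → Set ℂ)
    (hg : ∀ i, i ≠ i₀ → Thin (g i) c (Z i) ∧ ∀ z ∈ PD n, f (j i) z = g i (z i)) {δ : ℝ}
    (hδ : 0 < δ) (hb : ∀ z ∈ PD n, δ ≤ ∑ j, ‖f j z‖) :
    ∃ A : Fin k → (Fin n → ℂ) → ℂ, (∀ j, HInf (PD n) (A j)) ∧
      ∀ z ∈ PD n, ∑ j, f j z * A j z = 1 := by
  classical
  -- scaling
  obtain ⟨M, hM1, hM⟩ : ∃ M : ℝ, 1 ≤ M ∧ ∀ j, ∀ z ∈ PD n, ‖f j z‖ ≤ M := by
    choose C hC using fun j => (hf j).2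
    refine ⟨1 + ∑ j, |C j|, ?_, ?_⟩
    · have : 0 ≤ ∑ j, |C j| := Finset.sum_nonneg fun j _ => abs_nonneg _
      linarith
    · intro j z hz
      have h1 := hC j z hz
      have h2 : |C j| ≤ ∑ j, |C j| :=
        Finset.single_le_sum (f := fun j => |C j|) (fun i _ => abs_nonneg _) (Finset.mem_univ j)
      have h3 := le_abs_self (C j)
      linarith
  have hM0 : 0 < M := by linarith
  have hMc : (M : ℂ) ≠ 0 := by exact_mod_cast hM0.ne'
  have hnM : ‖(M : ℂ)‖ = M := by rw [Complex.norm_real, Real.norm_of_nonneg hM0.le]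
  obtain ⟨c₀, hc0, hcc⟩ : ∃ c₀ : ℝ, 0 < c₀ ∧ ∀ i, i ≠ i₀ → c₀ = c := by
    by_cases h : 0 < c
    · exact ⟨c, h, fun _ _ => rfl⟩
    · exact ⟨1, one_pos, fun i hi => absurd (hg i hi).1.2.1 h⟩
  obtain ⟨A, hA1, hA2⟩ := Thin_scaled (fun l z => f l z / M)
    (fun l => ⟨Thin_dc (hf l).1 _, 1, fun z hz => by
      rw [norm_div, hnM, div_le_one hM0]; exact hM l z hz⟩)
    (fun l z hz => by
      rw [norm_div, hnM, div_le_one hM0]; exact hM l z hz) i₀ j (fun i w => g i w / M)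
    (c := c₀ / M) (by positivity) Z (by
      intro i hi
      have e := hcc i hi
      obtain ⟨⟨hH, _, hZ, hsep, hthin⟩, heq⟩ := hg i hi
      refine ⟨⟨⟨hH.1.div_const _, ?_⟩, by positivity, hZ, ?_, ?_⟩, ?_⟩
      · obtain ⟨C, hC⟩ := hH.2
        refine ⟨C / M, fun w hw => ?_⟩
        rw [norm_div, hnM]
        exact div_le_div_of_nonneg_right (hC w hw) hM0.le
      · intro a ha b hb' hab
        refine le_trans ?_ (hsep a ha b hb' hab)
        rw [← e]
        exact div_le_self hc0.le hM1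
      · intro z hz hlt
        rw [norm_div, hnM, div_lt_div_iff_of_pos_right hM0] at hlt
        rw [e] at hlt
        obtain ⟨a, ha, h1⟩ := hthin z hz hlt
        refine ⟨a, ha, ?_⟩
        rw [norm_div, hnM, div_mul_eq_mul_div, e]
        exact div_le_div_of_nonneg_right h1 hM0.le
      · intro z hz
        rw [heq z hz]) (δ := δ / M) (by positivity) (by
      intro z hz
      have h1 := hb z hz
      have h2 : ∑ j, ‖f j z / M‖ = (∑ j, ‖f j z‖) / M := by
        rw [Finset.sum_div]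
        apply Finset.sum_congr rfl
        intro l _
        rw [norm_div, hnM]
      rw [h2]
      exact div_le_div_of_nonneg_right h1 hM0.le)
  refine ⟨fun l z => A l z / M, ?_, ?_⟩
  · intro l
    obtain ⟨hd, C, hC⟩ := hA1 l
    refine ⟨Thin_dc hd _, C / M, fun z hz => ?_⟩
    rw [norm_div, hnM]
    exact div_le_div_of_nonneg_right (hC z hz) hM0.le
  · intro z hz
    rw [← hA2 z hz]
    apply Finset.sum_congr rfl
    intro l _
    ring

end Cor
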