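import Pool.Agent.helper30.Cor.Contour
import Pool.Agent.helper30.Cor.Test

/-!
Part 1 (helper30, helper51, helper31): Carleson contours.  The theorems `test_of_pack` and
`contour_multi` are proved in `Pool/Agent/helper30/Cor`.
-/
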