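import Pool.Agent.helper45.Cor.Defs

/-!
Module COR-J: Jones' functions.

`test_of_pack` (a hypothesis here: it is proved in part 1) says that for a family with the packing
property `∑ p ∈ G, om z (cen p) ≤ 40 M` for all `z` in the half plane.

PROOFS.
`phi_diff`, `phi_ne`: for `z ∈ HP` and `c = cen p`, `z - conj c` has positive imaginary part.
`th_re`: `(th p z).re = len p * (z.im + 3/2 * len p) / ‖z - conj (cen p)‖ ^ 2`.
`phi_inv`: for `ζ ∈ box I` and `p ∈ G` with `I.1 ≤ p.1`: `len p ≤ len I ≤ ζ.im`, so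
`(th p ζ).re ≤ len p * (5/2) * ζ.im / ‖..‖^2 = (5/3) * om ζ (cen p)`
(`om ζ (cen p) = ζ.im * (3/2) * len p / ‖..‖^2`), the sum is at most `(5/3) * T`; and
`‖ζ - conj (cen I)‖ ≤ 5 * len I`.
`phi_le`: for `dist z z₀ ≤ z₀.im / 4` and `c` with positive imaginary part
`‖z₀ - conj c‖ ≥ z₀.im`, so `3/4 ‖z₀ - conj c‖ ≤ ‖z - conj c‖ ≤ 5/4 ‖z₀ - conj c‖`, and
`z.im ≥ 3/4 z₀.im`, therefore `(th p z).re ≥ (3/4) / (25/16) * (th p z₀).re = 12/25 * ..`.
`jones_sum`: put `x p = 12/25 * (th p z₀).re ≥ 0`; then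
`len p ^ 2 / ‖z₀ - conj (cen p)‖ ^ 2 ≤ x p / 0.72`, and
`∑_{I ∈ G} x I * exp (-∑_{p ∈ G, I.1 ≤ p.1} x p) ≤ 1 - exp (-∑_G x) ≤ 1` for any nonnegative `x`:
induction on the cardinality, remove from `G` an element `p₀` of minimal level: the terms of the
other elements increase, and
`x p₀ * exp (-X) + (1 - exp (-(X - x p₀))) ≤ 1 - exp (-X)` because `1 + x ≤ exp x`.
-/

noncomputable section

open Set

namespace Cor

theorem Jones_len_pos (p : Nd) : 0 < len p := by
  unfold len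
  positivity

theorem Jones_sub_im (p : Nd) (z : ℂ) :
    (z - (starRingEnd ℂ) (cen p)).im = z.im + 3 / 2 * len p := by
  simp [cen]

theorem Jones_sub_re (p : Nd) (z : ℂ) :
    (z - (starRingEnd ℂ) (cen p)).re = z.re - ((p.2 : ℝ) + 1 / 2) * len p := by
  simp [cen]

theorem Jones_im_le (p : Nd) (z : ℂ) :
    z.im + 3 / 2 * len p ≤ ‖z - (starRingEnd ℂ) (cen p)‖ := by
  have h := Complex.abs_im_le_norm (z - (starRingEnd ℂ) (cen p))
  rw [Jones_sub_im] at h
  exact (le_abs_self _).trans h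

theorem Jones_norm_pos (p : Nd) {z : ℂ} (hz : z ∈ HP) :
    0 < ‖z - (starRingEnd ℂ) (cen p)‖ := by
  have h1 := Jones_im_le p z
  have h2 := Jones_len_pos p
  have h3 : 0 < z.im := hz
  linarith

theorem th_re (p : Nd) {z : ℂ} (hz : z ∈ HP) :
    (th p z).re = len p * (z.im + 3 / 2 * len p) / ‖z - (starRingEnd ℂ) (cen p)‖ ^ 2 := by
  have hne : ‖z - (starRingEnd ℂ) (cen p)‖ ^ 2 ≠ 0 := by
    have := Jones_norm_pos p hz
    positivity
  unfold th
  rw [Complex.div_re, ← Complex.normSq_eq_norm_sq]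
  rw [← Complex.normSq_eq_norm_sq] at hne
  have h1 : (Complex.I * (len p : ℂ)).re = 0 := by simp
  have h2 : (Complex.I * (len p : ℂ)).im = len p := by simp
  rw [h1, h2, Jones_sub_im]
  field_simp
  ring

theorem Jones_th_nonneg (p : Nd) {z : ℂ} (hz : z ∈ HP) : 0 ≤ (th p z).re := by
  rw [th_re p hz]
  have h1 := Jones_len_pos p
  have h2 : 0 < z.im := hz
  positivity

theorem phi_diff (G : Finset Nd) (I : Nd) : DifferentiableOn ℂ (Phi G I) HP := by
  have h : ∀ (p : Nd), ∀ z ∈ HP, z - (starRingEnd ℂ) (cen p) ≠ 0 := by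
    intro p z hz h0
    have := Jones_norm_pos p hz
    rw [h0, norm_zero] at this
    exact lt_irrefl _ this
  have h1 : ∀ p : Nd, DifferentiableOn ℂ (th p) HP := by
    intro p
    unfold th
    apply DifferentiableOn.div
    · exact differentiableOn_const _
    · exact (differentiableOn_id).sub (differentiableOn_const _)
    · exact h p
  unfold Phi
  apply DifferentiableOn.div
  · apply DifferentiableOn.cexp
    apply DifferentiableOn.neg
    apply DifferentiableOn.fun_sum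
    intro p _
    exact h1 p
  · exact (differentiableOn_id).sub (differentiableOn_const _)
  · exact h I

theorem phi_ne (G : Finset Nd) (I : Nd) {z : ℂ} (hz : z ∈ HP) : Phi G I z ≠ 0 := by
  unfold Phi
  apply div_ne_zero (Complex.exp_ne_zero _)
  intro h0
  have := Jones_norm_pos I hz
  rw [h0, norm_zero] at this
  exact lt_irrefl _ this

theorem Jones_norm_Phi (G : Finset Nd) (I : Nd) (z : ℂ) :
    ‖Phi G I z‖ = Real.exp (-∑ p ∈ G.filter (fun p => I.1 ≤ p.1), (th p z).re) /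
      ‖z - (starRingEnd ℂ) (cen I)‖ := by
  unfold Phi
  rw [norm_div, Complex.norm_exp, Complex.neg_re, Complex.re_sum]

theorem phi_inv {G : Finset Nd} {T : ℝ} (hT : ∀ z ∈ HP, ∑ p ∈ G, om z (cen p) ≤ T) {I : Nd}
    {ζ : ℂ} (hζ : ζ ∈ box I) : ‖(Phi G I ζ)⁻¹‖ ≤ 5 * Real.exp (5 / 3 * T) * len I := by
  have hlI := Jones_len_pos I
  obtain ⟨hr1, hr2, hi1, hi2⟩ := hζ
  have hζH : ζ ∈ HP := lt_of_lt_of_le hlI hi1
  have hsum : ∑ p ∈ G.filter (fun p => I.1 ≤ p.1), (th p ζ).re ≤ 5 / 3 * T := by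
    have h1 : ∑ p ∈ G.filter (fun p => I.1 ≤ p.1), (th p ζ).re ≤
        ∑ p ∈ G.filter (fun p => I.1 ≤ p.1), 5 / 3 * om ζ (cen p) := by
      apply Finset.sum_le_sum
      intro p hp
      rw [Finset.mem_filter] at hp
      have hlp := Jones_len_pos p
      have hle : len p ≤ len I := by
        unfold len
        exact pow_le_pow_of_le_one (by norm_num) (by norm_num) hp.2
      rw [th_re p hζH]
      unfold om
      have hN := Jones_norm_pos p hζH
      have hci : (cen p).im = 3 / 2 * len p := rfl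
      rw [hci, ← mul_div_assoc]
      apply div_le_div_of_nonneg_right _ (by positivity)
      nlinarith
    have h2 : ∑ p ∈ G.filter (fun p => I.1 ≤ p.1), 5 / 3 * om ζ (cen p) ≤
        ∑ p ∈ G, 5 / 3 * om ζ (cen p) := by
      apply Finset.sum_le_sum_of_subset_of_nonneg (Finset.filter_subset _ _)
      intro p _ _
      have hci : (cen p).im = 3 / 2 * len p := rfl
      have hlp := Jones_len_pos p
      have h3 : 0 < ζ.im := hζH
      unfold om
      rw [hci]
      positivity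
    rw [← Finset.mul_sum (s := G)] at h2
    have h3 := hT ζ hζH
    linarith
  have hnorm : ‖ζ - (starRingEnd ℂ) (cen I)‖ ≤ 5 * len I := by
    have h1 := Complex.norm_le_abs_re_add_abs_im (ζ - (starRingEnd ℂ) (cen I))
    rw [Jones_sub_re, Jones_sub_im] at h1
    have h2 : |ζ.re - ((I.2 : ℝ) + 1 / 2) * len I| ≤ len I := by
      rw [abs_le]
      constructor <;> nlinarith
    have h3 : |ζ.im + 3 / 2 * len I| ≤ 7 / 2 * len I := by
      rw [abs_le]
      constructor <;> nlinarith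
    linarith
  rw [norm_inv, Jones_norm_Phi, inv_div, Real.exp_neg, div_inv_eq_mul]
  have h4 : Real.exp (∑ p ∈ G.filter (fun p => I.1 ≤ p.1), (th p ζ).re) ≤
      Real.exp (5 / 3 * T) := Real.exp_le_exp.mpr hsum
  calc ‖ζ - (starRingEnd ℂ) (cen I)‖ *
        Real.exp (∑ p ∈ G.filter (fun p => I.1 ≤ p.1), (th p ζ).re)
      ≤ (5 * len I) * Real.exp (5 / 3 * T) := by
        apply mul_le_mul hnorm h4 (Real.exp_pos _).le (by positivity)
    _ = 5 * Real.exp (5 / 3 * T) * len I := by ring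

theorem phi_le (G : Finset Nd) (I : Nd) {z z₀ : ℂ} (hz₀ : z₀ ∈ HP)
    (hz : dist z z₀ ≤ z₀.im / 4) : ‖Phi G I z‖ ≤ 4 / 3 * PB G I z₀ := by
  have hz0 : 0 < z₀.im := hz₀
  have him : 3 / 4 * z₀.im ≤ z.im := by
    have h1 := Complex.abs_im_le_norm (z - z₀)
    rw [← dist_eq_norm, Complex.sub_im] at h1
    have h2 := neg_abs_le (z.im - z₀.im)
    linarith
  have hzH : z ∈ HP := by
    show 0 < z.im
    linarith
  have hup : ∀ p : Nd, ‖z - (starRingEnd ℂ) (cen p)‖ ≤
      5 / 4 * ‖z₀ - (starRingEnd ℂ) (cen p)‖ := by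
    intro p
    have h1 : ‖z - (starRingEnd ℂ) (cen p)‖ ≤ ‖z - z₀‖ + ‖z₀ - (starRingEnd ℂ) (cen p)‖ := by
      have := norm_add_le (z - z₀) (z₀ - (starRingEnd ℂ) (cen p))
      rwa [sub_add_sub_cancel] at this
    rw [dist_eq_norm] at hz
    have h2 := Jones_im_le p z₀
    have h3 := Jones_len_pos p
    linarith
  have hlo : ∀ p : Nd, 3 / 4 * ‖z₀ - (starRingEnd ℂ) (cen p)‖ ≤
      ‖z - (starRingEnd ℂ) (cen p)‖ := by
    intro p
    have h1 : ‖z₀ - (starRingEnd ℂ) (cen p)‖ ≤ ‖z₀ - z‖ + ‖z - (starRingEnd ℂ) (cen p)‖ := by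
      have := norm_add_le (z₀ - z) (z - (starRingEnd ℂ) (cen p))
      rwa [sub_add_sub_cancel] at this
    rw [dist_comm, dist_eq_norm] at hz
    have h2 := Jones_im_le p z₀
    have h3 := Jones_len_pos p
    linarith
  have hth : ∀ p : Nd, 12 / 25 * (th p z₀).re ≤ (th p z).re := by
    intro p
    rw [th_re p hz₀, th_re p hzH]
    have hl := Jones_len_pos p
    have hN0 := Jones_norm_pos p hz₀
    have hN := Jones_norm_pos p hzH
    have hsq : ‖z - (starRingEnd ℂ) (cen p)‖ ^ 2 ≤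
        25 / 16 * ‖z₀ - (starRingEnd ℂ) (cen p)‖ ^ 2 := by
      have := hup p
      nlinarith
    rw [← mul_div_assoc, div_le_div_iff₀ (by positivity) (by positivity)]
    have h1 : 3 / 4 * (z₀.im + 3 / 2 * len p) ≤ z.im + 3 / 2 * len p := by linarith
    calc 12 / 25 * (len p * (z₀.im + 3 / 2 * len p)) * ‖z - (starRingEnd ℂ) (cen p)‖ ^ 2
        ≤ 12 / 25 * (len p * (z₀.im + 3 / 2 * len p)) *
            (25 / 16 * ‖z₀ - (starRingEnd ℂ) (cen p)‖ ^ 2) := by
          apply mul_le_mul_of_nonneg_left hsq (by positivity)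
      _ = len p * (3 / 4 * (z₀.im + 3 / 2 * len p)) *
            ‖z₀ - (starRingEnd ℂ) (cen p)‖ ^ 2 := by ring
      _ ≤ len p * (z.im + 3 / 2 * len p) * ‖z₀ - (starRingEnd ℂ) (cen p)‖ ^ 2 := by
          apply mul_le_mul_of_nonneg_right _ (by positivity)
          apply mul_le_mul_of_nonneg_left h1 hl.le
  rw [Jones_norm_Phi]
  unfold PB
  have hs : 12 / 25 * ∑ p ∈ G.filter (fun p => I.1 ≤ p.1), (th p z₀).re ≤
      ∑ p ∈ G.filter (fun p => I.1 ≤ p.1), (th p z).re := by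
    rw [Finset.mul_sum]
    exact Finset.sum_le_sum fun p _ => hth p
  have hN0 := Jones_norm_pos I hz₀
  have hN := Jones_norm_pos I hzH
  have he : Real.exp (-∑ p ∈ G.filter (fun p => I.1 ≤ p.1), (th p z).re) ≤
      Real.exp (-(12 / 25) * ∑ p ∈ G.filter (fun p => I.1 ≤ p.1), (th p z₀).re) := by
    apply Real.exp_le_exp.mpr
    linarith
  rw [← mul_div_assoc, div_le_div_iff₀ hN hN0]
  have hp := Real.exp_pos (-(12 / 25) * ∑ p ∈ G.filter (fun p => I.1 ≤ p.1), (th p z₀).re)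
  have hloI := hlo I
  calc Real.exp (-∑ p ∈ G.filter (fun p => I.1 ≤ p.1), (th p z).re) *
        ‖z₀ - (starRingEnd ℂ) (cen I)‖
      ≤ Real.exp (-(12 / 25) * ∑ p ∈ G.filter (fun p => I.1 ≤ p.1), (th p z₀).re) *
        ‖z₀ - (starRingEnd ℂ) (cen I)‖ := mul_le_mul_of_nonneg_right he hN0.le
    _ ≤ Real.exp (-(12 / 25) * ∑ p ∈ G.filter (fun p => I.1 ≤ p.1), (th p z₀).re) *
        (4 / 3 * ‖z - (starRingEnd ℂ) (cen I)‖) := by
        apply mul_le_mul_of_nonneg_left _ hp.le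
        linarith
    _ = 4 / 3 * Real.exp (-(12 / 25) * ∑ p ∈ G.filter (fun p => I.1 ≤ p.1), (th p z₀).re) *
        ‖z - (starRingEnd ℂ) (cen I)‖ := by ring

theorem Jones_exp_sum (x : Nd → ℝ) (hx : ∀ p, 0 ≤ x p) (n : ℕ) :
    ∀ G : Finset Nd, G.card = n →
      ∑ I ∈ G, x I * Real.exp (-∑ p ∈ G.filter (fun p => I.1 ≤ p.1), x p) ≤
        1 - Real.exp (-∑ p ∈ G, x p) := by
  induction n with
  | zero =>
    intro G hG
    rw [Finset.card_eq_zero] at hG
    subst hG
    simp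
  | succ n ih =>
    intro G hG
    have hne : G.Nonempty := by
      rw [← Finset.card_pos, hG]
      exact Nat.succ_pos n
    obtain ⟨p₀, hp₀, hmin⟩ := Finset.exists_min_image G (fun p => p.1) hne
    have hcard : (G.erase p₀).card = n := by
      rw [Finset.card_erase_of_mem hp₀, hG]
      rfl
    have h1 := ih (G.erase p₀) hcard
    have hX : x p₀ + ∑ p ∈ G.erase p₀, x p = ∑ p ∈ G, x p := Finset.add_sum_erase _ _ hp₀
    rw [← Finset.add_sum_erase _ _ hp₀]
    have h2 : G.filter (fun p => p₀.1 ≤ p.1) = G := by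
      rw [Finset.filter_eq_self]
      exact hmin
    rw [h2]
    have h3 : ∑ I ∈ G.erase p₀, x I * Real.exp (-∑ p ∈ G.filter (fun p => I.1 ≤ p.1), x p) ≤
        ∑ I ∈ G.erase p₀, x I *
          Real.exp (-∑ p ∈ (G.erase p₀).filter (fun p => I.1 ≤ p.1), x p) := by
      apply Finset.sum_le_sum
      intro I _
      apply mul_le_mul_of_nonneg_left _ (hx I)
      apply Real.exp_le_exp.mpr
      apply neg_le_neg
      apply Finset.sum_le_sum_of_subset_of_nonneg
      · exact Finset.filter_subset_filter _ (Finset.erase_subset _ _)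
      · intro p _ _
        exact hx p
    have h4 : Real.exp (-∑ p ∈ G.erase p₀, x p) =
        Real.exp (-∑ p ∈ G, x p) * Real.exp (x p₀) := by
      rw [← Real.exp_add]
      congr 1
      linarith
    have h5 := Real.add_one_le_exp (x p₀)
    have h6 := Real.exp_pos (-∑ p ∈ G, x p)
    have h7 : Real.exp (-∑ p ∈ G, x p) * (x p₀ + 1) ≤
        Real.exp (-∑ p ∈ G, x p) * Real.exp (x p₀) := mul_le_mul_of_nonneg_left h5 h6.le
    rw [← h4] at h7
    nlinarith

theorem jones_sum (G : Finset Nd) {z₀ : ℂ} (hz₀ : z₀ ∈ HP) :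
    ∑ I ∈ G, len I ^ 2 / ‖z₀ - (starRingEnd ℂ) (cen I)‖ * PB G I z₀ ≤ 2 := by
  have hz0 : 0 < z₀.im := hz₀
  have key := Jones_exp_sum (fun p => 12 / 25 * (th p z₀).re)
    (fun p => mul_nonneg (by norm_num) (Jones_th_nonneg p hz₀)) G.card G rfl
  have h1 : ∑ I ∈ G, len I ^ 2 / ‖z₀ - (starRingEnd ℂ) (cen I)‖ * PB G I z₀ ≤
      ∑ I ∈ G, 2 * ((12 / 25 * (th I z₀).re) *
        Real.exp (-∑ p ∈ G.filter (fun p => I.1 ≤ p.1), 12 / 25 * (th p z₀).re)) := by
    apply Finset.sum_le_sum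
    intro I _
    unfold PB
    rw [← Finset.mul_sum, th_re I hz₀]
    have hl := Jones_len_pos I
    have hN := Jones_norm_pos I hz₀
    have he : Real.exp (-(12 / 25) * ∑ p ∈ G.filter (fun p => I.1 ≤ p.1), (th p z₀).re) =
        Real.exp (-(12 / 25 * ∑ p ∈ G.filter (fun p => I.1 ≤ p.1), (th p z₀).re)) := by
      rw [neg_mul]
    rw [he]
    set E := Real.exp (-(12 / 25 * ∑ p ∈ G.filter (fun p => I.1 ≤ p.1), (th p z₀).re)) with hE
    have hEp : 0 < E := Real.exp_pos _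
    set N := ‖z₀ - (starRingEnd ℂ) (cen I)‖ with hNdef
    have e1 : len I ^ 2 / N * (E / N) = len I ^ 2 * E / N ^ 2 := by
      field_simp
    have e2 : 2 * (12 / 25 * (len I * (z₀.im + 3 / 2 * len I) / N ^ 2) * E) =
        (24 / 25 * (len I * (z₀.im + 3 / 2 * len I))) * E / N ^ 2 := by
      ring
    rw [e1, e2]
    apply div_le_div_of_nonneg_right _ (by positivity)
    apply mul_le_mul_of_nonneg_right _ hEp.le
    nlinarith [mul_pos hl hz0]
  rw [← Finset.mul_sum] at h1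
  have h2 := Real.exp_pos (-∑ p ∈ G, 12 / 25 * (th p z₀).re)
  linarith

end Cor
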