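import Pool.Agent.helper45.Cor.Defs

/-!
Module COR-F: the Banach algebra of bounded functions, separately holomorphic in all variables
except the `l`-th one (which is a dummy variable).

`FD l O` is the domain: `z i ∈ O i` for `i ≠ l`.  `XA l O` is the subalgebra of
`lp (fun _ : FD l O => ℂ) ⊤` of the functions `x` which have an extension `g` to `ι → ℂ` such that
`t ↦ g (update z i t)` is holomorphic on `O i` for `z` in the domain and `i ≠ l`.

PROOFS.
`complete`: the subalgebra is closed: if `x_n → x` in norm then `t ↦ x_n (update z i t)` converges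
uniformly on `O i`, so the limit is holomorphic
(`TendstoLocallyUniformlyOn.differentiableOn`); extend by `0` outside of the domain.
`lift`: for `t ∈ V` the function `z ↦ F (update z l t)` is in `XA l O`; `f t` is this element, `0`
for `t ∉ V`.  Differentiability at `t₀ ∈ V`: let `closedBall t₀ (2 r) ⊆ V` and `|F| ≤ C`; by the
Cauchy estimates (uniform in the other variables) `f` is Lipschitz on `ball t₀ r`, so continuous on
`V`; then for `|t - t₀| < r` the Bochner circle integral
`(2 π i)⁻¹ • ∮ ζ in C(t₀, r), (ζ - t)⁻¹ • f ζ` equals `f t`, as one sees by evaluating at each point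
of the domain (evaluation is a continuous linear map, it commutes with the circle integral) and the
scalar Cauchy formula; the circle integral is a holomorphic function of `t`
(`hasFPowerSeriesOn_cauchy_integral`, `CircleIntegrable` from continuity).
Alternative: show directly that the difference quotients are Cauchy in norm.
-/

noncomputable section

open Set Filter Topology

namespace Cor

variable {ι : Type*} [DecidableEq ι]

/-- domain of the functions: the `l`-th coordinate is arbitrary -/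
def FD (l : ι) (O : ι → Set ℂ) : Type _ := {z : ι → ℂ // ∀ i, i ≠ l → z i ∈ O i}

/-- the algebra -/
def XA (l : ι) (O : ι → Set ℂ) : Subalgebra ℂ (lp (fun _ : FD l O => ℂ) ⊤) where
  carrier := {x | ∃ g : (ι → ℂ) → ℂ, (∀ z : FD l O, x z = g z.1) ∧
    ∀ z : ι → ℂ, (∀ i, i ≠ l → z i ∈ O i) → ∀ i, i ≠ l →
      DifferentiableOn ℂ (fun t => g (Function.update z i t)) (O i)}
  mul_mem' := by
    rintro x y ⟨g, hg1, hg2⟩ ⟨g', hg1', hg2'⟩
    refine ⟨fun z => g z * g' z, fun z => ?_, fun z hz i hi =>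
      (hg2 z hz i hi).mul (hg2' z hz i hi)⟩
    rw [lp.infty_coeFn_mul, Pi.mul_apply, hg1, hg1']
  add_mem' := by
    rintro x y ⟨g, hg1, hg2⟩ ⟨g', hg1', hg2'⟩
    refine ⟨fun z => g z + g' z, fun z => ?_, fun z hz i hi =>
      (hg2 z hz i hi).add (hg2' z hz i hi)⟩
    rw [lp.coeFn_add, Pi.add_apply, hg1, hg1']
  algebraMap_mem' := by
    intro r
    refine ⟨fun _ => r, fun z => ?_, fun z hz i hi => differentiableOn_const _⟩
    rw [Algebra.algebraMap_eq_smul_one, lp.coeFn_smul, Pi.smul_apply, lp.infty_coeFn_one]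
    simp

open Classical in
/-- evaluation (zero outside of the domain) -/
def ev {l : ι} {O : ι → Set ℂ} (x : XA l O) (z : ι → ℂ) : ℂ :=
  if h : ∀ i, i ≠ l → z i ∈ O i then (x : lp (fun _ : FD l O => ℂ) ⊤) ⟨z, h⟩ else 0

theorem FunAlg_upd {l : ι} {O : ι → Set ℂ} {z : ι → ℂ} (hz : ∀ i, i ≠ l → z i ∈ O i) {i : ι}
    {t : ℂ} (ht : t ∈ O i) : ∀ j, j ≠ l → Function.update z i t j ∈ O j := by
  intro j hj
  by_cases hji : j = i
  · subst hji
    simpa using ht
  · rw [Function.update_of_ne hji]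
    exact hz j hj

theorem complete (l : ι) {O : ι → Set ℂ} (hO : ∀ i, IsOpen (O i)) : CompleteSpace (XA l O) := by
  classical
  have hcl : IsClosed ((XA l O : Subalgebra ℂ (lp (fun _ : FD l O => ℂ) ⊤)) :
      Set (lp (fun _ : FD l O => ℂ) ⊤)) := by
    apply IsSeqClosed.isClosed
    intro x y hx hxy
    refine ⟨fun z => if h : ∀ i, i ≠ l → z i ∈ O i then y ⟨z, h⟩ else 0, fun z => ?_,
      fun z hz i hi => ?_⟩
    · have hz : ∀ i, i ≠ l → z.1 i ∈ O i := z.2
      simp only [dif_pos hz]
      rfl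
    · choose g hg1 hg2 using hx
      have hunif : TendstoUniformlyOn (fun n t => g n (Function.update z i t))
          (fun t => if h : ∀ j, j ≠ l → Function.update z i t j ∈ O j then
            y ⟨Function.update z i t, h⟩ else 0) atTop (O i) := by
        rw [Metric.tendstoUniformlyOn_iff]
        intro ε hε
        filter_upwards [(Metric.tendsto_atTop'.1 hxy ε hε).elim fun N hN =>
          Filter.eventually_atTop.2 ⟨N + 1, fun n hn => hN n (by omega)⟩] with n hn
        intro t ht
        have hd := FunAlg_upd hz ht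
        simp only [dif_pos hd]
        have e : g n (Function.update z i t) = x n ⟨Function.update z i t, hd⟩ :=
          (hg1 n ⟨Function.update z i t, hd⟩).symm
        rw [e, dist_comm, dist_eq_norm]
        have h1 := lp.norm_apply_le_norm (p := ⊤) (by simp) (x n - y)
          (⟨Function.update z i t, hd⟩ : FD l O)
        rw [dist_eq_norm] at hn
        have e2 : (x n - y) (⟨Function.update z i t, hd⟩ : FD l O) =
            x n ⟨Function.update z i t, hd⟩ - y ⟨Function.update z i t, hd⟩ := rfl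
        rw [e2] at h1
        exact lt_of_le_of_lt h1 hn
      exact hunif.tendstoLocallyUniformlyOn.differentiableOn
        (Filter.Eventually.of_forall fun n => hg2 n z hz i hi) (hO i)
  exact hcl.completeSpace_coe

variable {l : ι} {O : ι → Set ℂ}

theorem ev_add (x y : XA l O) (z : ι → ℂ) : ev (x + y) z = ev x z + ev y z := by
  unfold ev
  split_ifs with h
  · rfl
  · simp

theorem ev_mul (x y : XA l O) (z : ι → ℂ) : ev (x * y) z = ev x z * ev y z := by
  unfold ev
  split_ifs with h
  · rfl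
  · simp

theorem FunAlg_ev_smul (c : ℂ) (x : XA l O) (z : ι → ℂ) : ev (c • x) z = c * ev x z := by
  unfold ev
  split_ifs with h
  · rfl
  · simp

theorem norm_ev_le (x : XA l O) (z : ι → ℂ) : ‖ev x z‖ ≤ ‖x‖ := by
  unfold ev
  split_ifs with h
  · exact lp.norm_apply_le_norm (p := ⊤) (by simp) (x : lp (fun _ : FD l O => ℂ) ⊤) _
  · rw [norm_zero]
    exact norm_nonneg _

/-- evaluation as a continuous linear map -/
def FunAlg_evL (z : ι → ℂ) : XA l O →L[ℂ] ℂ :=
  LinearMap.mkContinuous
    { toFun := fun x => ev x z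
      map_add' := fun x y => ev_add x y z
      map_smul' := fun c x => by simp [FunAlg_ev_smul] } 1
    (fun x => by rw [one_mul]; exact norm_ev_le x z)

theorem FunAlg_evL_apply (z : ι → ℂ) (x : XA l O) : FunAlg_evL z x = ev x z := rfl

theorem FunAlg_ev_zero (z : ι → ℂ) : ev (0 : XA l O) z = 0 := by
  unfold ev
  split_ifs with h
  · rfl
  · rfl

theorem ev_sum {κ : Type*} (s : Finset κ) (x : κ → XA l O) (z : ι → ℂ) :
    ev (∑ j ∈ s, x j) z = ∑ j ∈ s, ev (x j) z := by
  classical
  induction s using Finset.induction_on with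
  | empty =>
    rw [Finset.sum_empty, Finset.sum_empty]
    exact FunAlg_ev_zero z
  | insert a s ha ih =>
    rw [Finset.sum_insert ha, Finset.sum_insert ha, ev_add, ih]

theorem ev_one {z : ι → ℂ} (hz : ∀ i, i ≠ l → z i ∈ O i) : ev (1 : XA l O) z = 1 := by
  unfold ev
  rw [dif_pos hz]
  rfl

theorem ev_ext {x y : XA l O} (h : ∀ z : ι → ℂ, (∀ i, i ≠ l → z i ∈ O i) → ev x z = ev y z) :
    x = y := by
  apply Subtype.ext
  apply lp.ext
  funext z
  have h1 := h z.1 z.2
  unfold ev at h1
  rw [dif_pos z.2, dif_pos z.2] at h1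
  exact h1

theorem norm_le_of_ev {x : XA l O} {C : ℝ} (hC : 0 ≤ C) (h : ∀ z, ‖ev x z‖ ≤ C) : ‖x‖ ≤ C := by
  apply lp.norm_le_of_forall_le hC (f := (x : lp (fun _ : FD l O => ℂ) ⊤))
  intro z
  have h1 := h z.1
  unfold ev at h1
  rw [dif_pos z.2] at h1
  exact h1

theorem ev_diff {D : Set ℂ} {f : ℂ → XA l O} (hf : DifferentiableOn ℂ f D) (z : ι → ℂ) :
    DifferentiableOn ℂ (fun t => ev (f t) z) D :=
  (FunAlg_evL (l := l) (O := O) z).differentiable.comp_differentiableOn hf

theorem ev_sep (x : XA l O) {z : ι → ℂ} (hz : ∀ i, i ≠ l → z i ∈ O i) {i : ι} (hi : i ≠ l) :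
    DifferentiableOn ℂ (fun t => ev x (Function.update z i t)) (O i) := by
  obtain ⟨g, hg1, hg2⟩ := x.2
  refine (hg2 z hz i hi).congr fun t ht => ?_
  have hd := FunAlg_upd hz ht
  unfold ev
  rw [dif_pos hd]
  exact hg1 ⟨_, hd⟩

theorem FunAlg_memPr {V : Set ℂ} {z : ι → ℂ} (hz : ∀ i, i ≠ l → z i ∈ O i) {t : ℂ} (ht : t ∈ V) :
    Function.update z l t ∈ Pr (Function.update O l V) := by
  intro j
  by_cases hj : j = l
  · subst hj
    simpa using ht
  · rw [Function.update_of_ne hj, Function.update_of_ne hj]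
    exact hz j hj

theorem FunAlg_mem {V : Set ℂ} {F : (ι → ℂ) → ℂ} (hF : SH (Function.update O l V) F) {t : ℂ}
    (ht : t ∈ V) : ∃ x : XA l O, ∀ z : ι → ℂ, (∀ i, i ≠ l → z i ∈ O i) →
      ev x z = F (Function.update z l t) := by
  obtain ⟨⟨C, hC⟩, hs⟩ := hF
  have hm : Memℓp (fun z : FD l O => F (Function.update z.1 l t)) ⊤ := by
    apply memℓp_infty
    refine ⟨C, ?_⟩
    rintro _ ⟨z, rfl⟩
    exact hC _ (FunAlg_memPr z.2 ht)
  refine ⟨⟨⟨fun z : FD l O => F (Function.update z.1 l t), hm⟩,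
    fun z => F (Function.update z l t), fun z => rfl, fun z hz i hi => ?_⟩, fun z hz => ?_⟩
  · have h1 := hs (Function.update z l t) (FunAlg_memPr hz ht) i
    rw [Function.update_of_ne hi] at h1
    refine h1.congr fun s _ => ?_
    change F (Function.update (Function.update z i s) l t) = _
    rw [Function.update_comm hi]
  · unfold ev
    rw [dif_pos hz]

theorem FunAlg_clm {E : Type*} [NormedAddCommGroup E] [NormedSpace ℂ E] [CompleteSpace E]
    (L : E →L[ℂ] ℂ) {f : ℂ → E} {c : ℂ} {R : ℝ} (hR : 0 ≤ R)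
    (hf : ContinuousOn f (Metric.sphere c R)) {w : ℂ} (hw : w ∈ Metric.ball c R) :
    L ((2 * (Real.pi : ℂ) * Complex.I : ℂ)⁻¹ • ∮ ζ in C(c, R), (ζ - w)⁻¹ • f ζ) =
      (2 * (Real.pi : ℂ) * Complex.I : ℂ)⁻¹ • ∮ ζ in C(c, R), (ζ - w)⁻¹ • L (f ζ) := by
  have hinv : ContinuousOn (fun ζ : ℂ => (ζ - w)⁻¹) (Metric.sphere c R) := by
    refine ContinuousOn.inv₀ (by fun_prop) ?_
    intro ζ hζ h0
    rw [sub_eq_zero] at h0
    subst h0
    rw [Metric.mem_sphere] at hζ
    rw [Metric.mem_ball] at hw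
    linarith
  have hcont : ContinuousOn (fun ζ => (ζ - w)⁻¹ • f ζ) (Metric.sphere c R) := hinv.smul hf
  have hci := hcont.circleIntegrable hR
  rw [map_smul]
  congr 1
  have h1 := L.intervalIntegral_comp_comm (hci.out)
  refine h1.symm.trans ?_
  apply intervalIntegral.integral_congr
  intro θ _
  simp only [map_smul]

/-- a bounded separately holomorphic function as a holomorphic function of the `l`-th variable with
values in `XA l O` -/
theorem lift (hO : ∀ i, IsOpen (O i)) {V : Set ℂ} (hV : IsOpen V) {F : (ι → ℂ) → ℂ}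
    (hF : SH (Function.update O l V) F) :
    ∃ f : ℂ → XA l O, DifferentiableOn ℂ f V ∧
      (∀ t ∈ V, ∀ z : ι → ℂ, (∀ i, i ≠ l → z i ∈ O i) →
        ev (f t) z = F (Function.update z l t)) ∧
      ∀ C : ℝ, 0 ≤ C → (∀ z ∈ Pr (Function.update O l V), ‖F z‖ ≤ C) → ∀ t ∈ V, ‖f t‖ ≤ C := by
  classical
  have hcs : CompleteSpace (XA l O) := complete l hO
  let f : ℂ → XA l O := fun t => if ht : t ∈ V then (FunAlg_mem hF ht).choose else 0
  have hfev : ∀ t ∈ V, ∀ z : ι → ℂ, (∀ i, i ≠ l → z i ∈ O i) →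
      ev (f t) z = F (Function.update z l t) := by
    intro t ht z hz
    have e : f t = (FunAlg_mem hF ht).choose := dif_pos ht
    rw [e]
    exact (FunAlg_mem hF ht).choose_spec z hz
  have hev0 : ∀ (x : XA l O) (z : ι → ℂ), ¬ (∀ i, i ≠ l → z i ∈ O i) → ev x z = 0 := by
    intro x z hz
    unfold ev
    rw [dif_neg hz]
  have hFd : ∀ z : ι → ℂ, (∀ i, i ≠ l → z i ∈ O i) →
      DifferentiableOn ℂ (fun t => F (Function.update z l t)) V := by
    intro z hz t ht
    have h1 := hF.2 (Function.update z l t) (FunAlg_memPr hz ht) l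
    rw [Function.update_self] at h1
    simp only [Function.update_idem] at h1
    exact h1 t ht
  have hbd : ∀ C : ℝ, 0 ≤ C → (∀ z ∈ Pr (Function.update O l V), ‖F z‖ ≤ C) →
      ∀ t ∈ V, ‖f t‖ ≤ C := by
    intro C hC hb t ht
    apply norm_le_of_ev hC
    intro z
    by_cases hz : ∀ i, i ≠ l → z i ∈ O i
    · rw [hfev t ht z hz]
      exact hb _ (FunAlg_memPr hz ht)
    · rw [hev0 _ _ hz, norm_zero]
      exact hC
  refine ⟨f, ?_, hfev, hbd⟩
  obtain ⟨C₀, hC₀⟩ := hF.1
  obtain ⟨C, hC, hCb⟩ : ∃ C : ℝ, 0 ≤ C ∧ ∀ z ∈ Pr (Function.update O l V), ‖F z‖ ≤ C :=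
    ⟨max C₀ 0, le_max_right _ _, fun z hz => (hC₀ z hz).trans (le_max_left _ _)⟩
  -- continuity
  have hcont : ContinuousOn f V := by
    intro t₁ ht₁
    apply ContinuousAt.continuousWithinAt
    obtain ⟨ρ, hρ, hball⟩ := Metric.isOpen_iff.1 hV t₁ ht₁
    have hlip : ∀ t ∈ Metric.ball t₁ ρ, ‖f t - f t₁‖ ≤ 2 * C / ρ * dist t t₁ := by
      intro t ht
      apply norm_le_of_ev (by positivity)
      intro z
      by_cases hz : ∀ i, i ≠ l → z i ∈ O i
      · have e : ev (f t - f t₁) z = F (Function.update z l t) - F (Function.update z l t₁) := by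
          rw [← hfev t (hball ht) z hz, ← hfev t₁ ht₁ z hz, eq_sub_iff_add_eq, ← ev_add,
            sub_add_cancel]
        rw [e, ← dist_eq_norm]
        apply Complex.dist_le_div_mul_dist_of_mapsTo_ball ((hFd z hz).mono hball) ?_ ht
        intro s hs
        rw [Metric.mem_closedBall, dist_eq_norm]
        have h1 := hCb _ (FunAlg_memPr (V := V) hz (hball hs))
        have h2 := hCb _ (FunAlg_memPr (V := V) hz ht₁)
        have h3 := norm_sub_le (F (Function.update z l s)) (F (Function.update z l t₁))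
        linarith
      · rw [hev0 _ _ hz, norm_zero]
        positivity
    rw [ContinuousAt, tendsto_iff_norm_sub_tendsto_zero]
    have h0 : Tendsto (fun t => 2 * C / ρ * dist t t₁) (𝓝 t₁) (𝓝 0) := by
      have : Tendsto (fun t => 2 * C / ρ * dist t t₁) (𝓝 t₁) (𝓝 (2 * C / ρ * dist t₁ t₁)) :=
        Continuous.tendsto (by fun_prop) _
      simpa using this
    refine squeeze_zero' (Filter.Eventually.of_forall fun t => norm_nonneg _) ?_ h0
    filter_upwards [Metric.ball_mem_nhds t₁ hρ] with t ht using hlip t ht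
  -- differentiability
  intro t₀ ht₀
  apply DifferentiableAt.differentiableWithinAt
  obtain ⟨ρ, hρ, hball⟩ := Metric.isOpen_iff.1 hV t₀ ht₀
  obtain ⟨R, hR0, hRρ⟩ := exists_between hρ
  have hcb : Metric.closedBall t₀ R ⊆ V := (Metric.closedBall_subset_ball hRρ).trans hball
  have hci : CircleIntegrable f t₀ R :=
    (hcont.mono (Metric.sphere_subset_closedBall.trans hcb)).circleIntegrable hR0.le
  lift R to NNReal using hR0.le
  have hps := hasFPowerSeriesOn_cauchy_integral hci (by exact_mod_cast hR0)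
  have hd := hps.differentiableOn
  have heq : ∀ w ∈ Metric.ball t₀ (R : ℝ),
      (2 * (Real.pi : ℂ) * Complex.I : ℂ)⁻¹ • (∮ ζ in C(t₀, R), (ζ - w)⁻¹ • f ζ) = f w := by
    intro w hw
    apply ev_ext
    intro z hz
    rw [hfev w (hcb (Metric.ball_subset_closedBall hw)) z hz]
    refine (FunAlg_clm (FunAlg_evL z) R.2
      (hcont.mono (Metric.sphere_subset_closedBall.trans hcb)) hw).trans ?_
    have hdc : DiffContOnCl ℂ (fun t => F (Function.update z l t)) (Metric.ball t₀ (R : ℝ)) :=
      DifferentiableOn.diffContOnCl_ball ((hFd z hz)) hcb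
    rw [← hdc.two_pi_i_inv_smul_circleIntegral_sub_inv_smul hw]
    congr 1
    apply circleIntegral.integral_congr R.2
    intro ζ hζ
    simp only [FunAlg_evL_apply]
    rw [hfev ζ (hcb (Metric.sphere_subset_closedBall hζ)) z hz]
  have hd2 : DifferentiableAt ℂ (fun w => (2 * (Real.pi : ℂ) * Complex.I : ℂ)⁻¹ •
      (∮ ζ in C(t₀, R), (ζ - w)⁻¹ • f ζ)) t₀ := by
    have h1 := hps.hasFPowerSeriesAt.differentiableAt
    exact h1
  refine hd2.congr_of_eventuallyEq ?_
  filter_upwards [Metric.ball_mem_nhds t₀ (show (0 : ℝ) < R from hR0)] with w hw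
  exact (heq w hw).symm

end Cor
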