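import Pool.Agent.helper45.Cor.Defs

/-!
Module COR-U: limits along an ultrafilter of bounded holomorphic functions.

PROOFS.
`ulim_tendsto`: the closed ball is compact (`IsCompact.ultrafilter_le_nhds`), the hyperfilter is
finer than `atTop` (`Filter.Nat.hyperfilter_le_atTop` or `hyperfilter_le_cofinite`), and
`tendsto_nhds_limUnder`.
`ulim_diff`: fix `z₀ ∈ V` and `r`.  By the Cauchy estimates, for `n` large, `z ∈ ball z₀ (r/2)`:
`‖a n z - a n z₀ - deriv (a n) z₀ * (z - z₀)‖ ≤ C' * ‖z - z₀‖ ^ 2` with `C' = 8 C / r ^ 2` (or any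
constant independent of `n`; e.g. apply the Schwarz lemma twice, to `dslope (a n) z₀`), and
`‖deriv (a n) z₀‖ ≤ C / r`.  Let `L = ulim (deriv (a n) z₀)`, pass to the limit:
`‖A z - A z₀ - L (z - z₀)‖ ≤ C' ‖z - z₀‖ ^ 2`, so `A` is differentiable at `z₀`.
-/

noncomputable section

open Set Filter Topology Metric

namespace Cor

/-- limit along the hyperfilter -/
def ulim (a : ℕ → ℂ) : ℂ := limUnder (hyperfilter ℕ : Filter ℕ) a

theorem ulim_ev {p : ℕ → Prop} (h : ∀ᶠ n in atTop, p n) :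
    ∀ᶠ n in (hyperfilter ℕ : Filter ℕ), p n :=
  Nat.hyperfilter_le_atTop h

theorem ulim_tendsto {a : ℕ → ℂ} {C : ℝ} (h : ∀ᶠ n in atTop, ‖a n‖ ≤ C) :
    Tendsto a (hyperfilter ℕ) (𝓝 (ulim a)) := by
  have h1 : ∀ᶠ n in (hyperfilter ℕ : Filter ℕ), a n ∈ closedBall (0 : ℂ) C := by
    filter_upwards [ulim_ev h] with n hn
    simpa using hn
  obtain ⟨x, _, hx2⟩ := (isCompact_closedBall (0 : ℂ) C).ultrafilter_le_nhds
    ((hyperfilter ℕ).map a) (by
      rw [le_principal_iff]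
      exact h1)
  exact tendsto_nhds_limUnder ⟨x, hx2⟩

theorem ulim_norm {a : ℕ → ℂ} {C : ℝ} (h : ∀ᶠ n in atTop, ‖a n‖ ≤ C) : ‖ulim a‖ ≤ C :=
  le_of_tendsto (ulim_tendsto h).norm (ulim_ev h)

theorem ulim_congr {a b : ℕ → ℂ} (h : ∀ᶠ n in atTop, a n = b n) : ulim a = ulim b := by
  have h1 : a =ᶠ[(hyperfilter ℕ : Filter ℕ)] b := ulim_ev h
  unfold ulim limUnder
  rw [Filter.map_congr h1]

/-- linear combinations with fixed coefficients -/
theorem ulim_sum {k : ℕ} {a : Fin k → ℕ → ℂ} {c : Fin k → ℂ} {C : ℝ} {s : ℂ}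
    (h : ∀ j, ∀ᶠ n in atTop, ‖a j n‖ ≤ C) (hs : ∀ᶠ n in atTop, ∑ j, c j * a j n = s) :
    ∑ j, c j * ulim (a j) = s := by
  have h1 : Tendsto (fun n => ∑ j, c j * a j n) (hyperfilter ℕ)
      (𝓝 (∑ j, c j * ulim (a j))) :=
    tendsto_finsetSum _ fun j _ => (ulim_tendsto (h j)).const_mul (c j)
  have h2 : Tendsto (fun n => ∑ j, c j * a j n) (hyperfilter ℕ) (𝓝 s) :=
    tendsto_const_nhds.congr' ((ulim_ev hs).mono fun n hn => hn.symm)
  exact tendsto_nhds_unique h1 h2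

/-- second order Taylor estimate -/
theorem ulim_taylor {f : ℂ → ℂ} {z₀ : ℂ} {r C : ℝ} (hr : 0 < r)
    (hf : DifferentiableOn ℂ f (ball z₀ r)) (hC : ∀ w ∈ ball z₀ r, ‖f w‖ ≤ C) :
    ‖deriv f z₀‖ ≤ 2 * C / r ∧ ∀ z ∈ ball z₀ r,
      ‖f z - f z₀ - deriv f z₀ * (z - z₀)‖ ≤ 2 * (2 * C / r) / r * ‖z - z₀‖ ^ 2 := by
  have hz0 : z₀ ∈ ball z₀ r := mem_ball_self hr
  have h1 : ∀ z ∈ ball z₀ r, ‖dslope f z₀ z‖ ≤ 2 * C / r := by
    intro z hz
    refine Complex.norm_dslope_le_div_of_mapsTo_ball hf ?_ hz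
    intro w hw
    rw [mem_closedBall, dist_eq_norm]
    have := norm_sub_le (f w) (f z₀)
    have := hC w hw
    have := hC z₀ hz0
    linarith
  have hd : DifferentiableOn ℂ (dslope f z₀) (ball z₀ r) :=
    (Complex.differentiableOn_dslope (isOpen_ball.mem_nhds hz0)).2 hf
  have h2 : ∀ z ∈ ball z₀ r, ‖dslope (dslope f z₀) z₀ z‖ ≤ 2 * (2 * C / r) / r := by
    intro z hz
    refine Complex.norm_dslope_le_div_of_mapsTo_ball hd ?_ hz
    intro w hw
    rw [mem_closedBall, dist_eq_norm]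
    have := norm_sub_le (dslope f z₀ w) (dslope f z₀ z₀)
    have := h1 w hw
    have := h1 z₀ hz0
    linarith
  refine ⟨?_, fun z hz => ?_⟩
  · have := h1 z₀ hz0
    rwa [dslope_same] at this
  · have e1 : (z - z₀) • dslope f z₀ z = f z - f z₀ := sub_smul_dslope f z₀ z
    have e2 : (z - z₀) • dslope (dslope f z₀) z₀ z = dslope f z₀ z - dslope f z₀ z₀ :=
      sub_smul_dslope _ z₀ z
    rw [dslope_same] at e2
    simp only [smul_eq_mul] at e1 e2
    have e3 : f z - f z₀ - deriv f z₀ * (z - z₀)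
        = (z - z₀) * ((z - z₀) * dslope (dslope f z₀) z₀ z) := by
      rw [e2, ← e1]; ring
    rw [e3, norm_mul, norm_mul]
    have := h2 z hz
    nlinarith [norm_nonneg (z - z₀), mul_le_mul_of_nonneg_left this (sq_nonneg ‖z - z₀‖)]

theorem ulim_diff {V : Set ℂ} {a : ℕ → ℂ → ℂ} {C : ℝ}
    (h : ∀ z ∈ V, ∃ r > 0, ∀ᶠ n in atTop, DifferentiableOn ℂ (a n) (ball z r) ∧
      ∀ w ∈ ball z r, ‖a n w‖ ≤ C) :
    DifferentiableOn ℂ (fun z => ulim (fun n => a n z)) V := by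
  intro z₀ hz₀
  obtain ⟨r, hr, hn⟩ := h z₀ hz₀
  have hd : ∀ᶠ n in atTop, ‖deriv (a n) z₀‖ ≤ 2 * C / r :=
    hn.mono fun n hn => (ulim_taylor hr hn.1 hn.2).1
  set L := ulim (fun n => deriv (a n) z₀) with hL
  set K := 2 * (2 * C / r) / r with hK
  have hz0 : z₀ ∈ ball z₀ r := mem_ball_self hr
  have key : ∀ z ∈ ball z₀ r, ‖ulim (fun n => a n z) - ulim (fun n => a n z₀) - L * (z - z₀)‖
      ≤ K * ‖z - z₀‖ ^ 2 := by
    intro z hz
    have t1 := ulim_tendsto (a := fun n => a n z) (C := C) (hn.mono fun n hn => hn.2 z hz)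
    have t2 := ulim_tendsto (a := fun n => a n z₀) (C := C) (hn.mono fun n hn => hn.2 z₀ hz0)
    have t3 := (ulim_tendsto hd).mul_const (z - z₀)
    exact le_of_tendsto ((t1.sub t2).sub t3).norm
      (ulim_ev (hn.mono fun n hn => (ulim_taylor hr hn.1 hn.2).2 z hz))
  have hder : HasDerivAt (fun z => ulim (fun n => a n z)) L z₀ := by
    rw [hasDerivAt_iff_isLittleO]
    have hb : (fun z => ulim (fun n => a n z) - ulim (fun n => a n z₀) - (z - z₀) • L)
        =O[𝓝 z₀] fun z => ‖z - z₀‖ ^ 2 := by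
      refine Asymptotics.IsBigO.of_bound K ?_
      filter_upwards [isOpen_ball.mem_nhds hz0] with z hz
      have := key z hz
      rw [Real.norm_eq_abs, abs_of_nonneg (sq_nonneg _), smul_eq_mul, mul_comm (z - z₀) L]
      exact this
    refine hb.trans_isLittleO ?_
    rw [← Asymptotics.isLittleO_norm_right]
    have : (fun z => ‖z - z₀‖ ^ 2) =o[𝓝 z₀] fun z => ‖z - z₀‖ ^ 1 := by
      have h0 : Tendsto (fun z => ‖z - z₀‖) (𝓝 z₀) (𝓝 0) := by
        have : Tendsto (fun z => z - z₀) (𝓝 z₀) (𝓝 (z₀ - z₀)) :=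
          (continuous_id.sub continuous_const).tendsto z₀
        rw [sub_self] at this
        simpa using this.norm
      exact (Asymptotics.isLittleO_pow_pow (by norm_num : 1 < 2)).comp_tendsto h0
    simpa using this
  exact hder.differentiableAt.differentiableWithinAt

end Cor
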