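import Pool.Agent.helper45.Cor.Trunc
import Pool.Agent.helper45.Cor.Contour
import Pool.Agent.helper45.Cor.ULim
import Pool.Agent.helper45.Cor.FunAlg

/-!
Module COR-GP: patching in one of the variables.

PROOF.  Dividing `F` by a constant `≥ 1` we may assume `|F j| ≤ 1` on `Pr O` (a solution `A` for
`F / C` gives the solution `A / C` for `F`).  Take `m, M, L` from `contour_multi r hρ`.  For `c ∈ L`
let `A^c` be a solution on `Pr (update O l V_c)`, `V_c = {t ∈ HP : ∀ i, |h i t - c i| < ρ}` (open),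
`K ≥ 0` a bound for all of them (`L` is finite).  Let `X = XA l O` (complete), `F~ j : ℂ → X` and
`S c j : ℂ → X` the lifts (`lift`, `update O l HP = O`).  For `N : ℕ` let `σ_N t = 2^N (t - 1/2)`, a
bijection of `HP`; apply `contour_multi` to the functions `h i ∘ σ_N` at level `2 N`, and `trunc` to
`F~ j ∘ σ_N`, `S c j ∘ σ_N` (holomorphic on the open set `{t ∈ HP : σ_N t ∈ V_c} ⊇ cell`; the Bezout
equation holds on `V_c` by `ev_ext`), `T = 40 M` (`test_of_pack`).  One gets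
`A^N j : ℂ → X` on `DN (2 N)`, bounded by a constant `C` independent of `N`.  Put
`B j z = ulim (fun N => ev (A^N j (z l / 2^N + 1/2)) (update z l 0))`.
For `w ∈ HP` the point `w / 2^N + 1/2` is in `DN (2 N)` for all large `N`, uniformly for `w` in a
small ball.  So `B j` is bounded by `C`, holomorphic in the variable `l` (`ulim_diff`, `ev_diff`)
and in the variables `i ≠ l` (`ulim_diff`, `ev_sep`;
`update (update z i t) l 0 = update (update z l 0) i t`), and `∑ F j z B j z = 1` by `ulim_sum`.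
-/

noncomputable section

open Set Filter Topology

namespace Cor

lemma GP_HP_open : IsOpen HP := isOpen_lt continuous_const Complex.continuous_im

lemma GP_V_open {r : ℕ} {h : Fin r → ℂ → ℂ} (hh : ∀ i, DifferentiableOn ℂ (h i) HP)
    (c : Fin r → ℂ) (ρ : ℝ) : IsOpen {t | t ∈ HP ∧ ∀ i, ‖h i t - c i‖ < ρ} := by
  have h1 : {t | t ∈ HP ∧ ∀ i, ‖h i t - c i‖ < ρ} =
      HP ∩ ⋂ i, (HP ∩ (fun t => ‖h i t - c i‖) ⁻¹' Iio ρ) := by
    ext t
    constructor
    · rintro ⟨h1, h2⟩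
      exact ⟨h1, mem_iInter.2 fun i => ⟨h1, h2 i⟩⟩
    · rintro ⟨h1, h2⟩
      exact ⟨h1, fun i => (mem_iInter.1 h2 i).2⟩
  rw [h1]
  refine GP_HP_open.inter (isOpen_iInter_of_finite fun i => ?_)
  exact ContinuousOn.isOpen_inter_preimage (((hh i).continuousOn.sub continuousOn_const).norm)
    GP_HP_open isOpen_Iio

/-- the scaling -/
def GP_sig (N : ℕ) (t : ℂ) : ℂ := 2 ^ N * (t - 1 / 2)

lemma GP_sig_im (N : ℕ) (t : ℂ) : (GP_sig N t).im = 2 ^ N * t.im := by
  unfold GP_sig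
  have h1 : ((2 : ℂ) ^ N) = (((2 : ℝ) ^ N : ℝ) : ℂ) := by push_cast; rfl
  rw [h1, Complex.im_ofReal_mul]
  congr 1
  have h2 : (1 / 2 : ℂ) = ((1 / 2 : ℝ) : ℂ) := by push_cast; rfl
  rw [Complex.sub_im, h2, Complex.ofReal_im, sub_zero]

lemma GP_sig_mem {N : ℕ} {t : ℂ} (ht : t ∈ HP) : GP_sig N t ∈ HP := by
  show 0 < (GP_sig N t).im
  rw [GP_sig_im]
  exact mul_pos (by positivity) ht

lemma GP_sig_diff (N : ℕ) : Differentiable ℂ (GP_sig N) := by
  unfold GP_sig
  fun_prop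

/-- the inverse scaling -/
def GP_tau (N : ℕ) (t : ℂ) : ℂ := t / 2 ^ N + 1 / 2

lemma GP_sig_tau (N : ℕ) (t : ℂ) : GP_sig N (GP_tau N t) = t := by
  unfold GP_sig GP_tau
  have h1 : (2 : ℂ) ^ N ≠ 0 := pow_ne_zero _ two_ne_zero
  field_simp
  ring

lemma GP_tau_diff (N : ℕ) : Differentiable ℂ (GP_tau N) := by
  unfold GP_tau
  fun_prop

lemma GP_tau_re (N : ℕ) (t : ℂ) : (GP_tau N t).re = t.re / 2 ^ N + 1 / 2 := by
  unfold GP_tau
  have h1 : ((2 : ℂ) ^ N) = (((2 : ℝ) ^ N : ℝ) : ℂ) := by push_cast; rfl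
  have h2 : (1 / 2 : ℂ) = ((1 / 2 : ℝ) : ℂ) := by push_cast; rfl
  rw [h1, h2, Complex.add_re, Complex.div_ofReal_re, Complex.ofReal_re]

lemma GP_tau_im (N : ℕ) (t : ℂ) : (GP_tau N t).im = t.im / 2 ^ N := by
  unfold GP_tau
  have h1 : ((2 : ℂ) ^ N) = (((2 : ℝ) ^ N : ℝ) : ℂ) := by push_cast; rfl
  have h2 : (1 / 2 : ℂ) = ((1 / 2 : ℝ) : ℂ) := by push_cast; rfl
  rw [h1, h2, Complex.add_im, Complex.div_ofReal_im, Complex.ofReal_im, add_zero]

lemma GP_DN_open (N : ℕ) : IsOpen (DN N) := by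
  have h1 : DN N = ({z : ℂ | 1 / 4 < z.re} ∩ {z | z.re < 3 / 4}) ∩
      ({z | 2 * (1 / 2) ^ N < z.im} ∩ {z | z.im < 1}) := by
    ext z
    simp only [DN, mem_ofPred_eq, mem_inter_iff]
    tauto
  rw [h1]
  exact ((isOpen_lt continuous_const Complex.continuous_re).inter
    (isOpen_lt Complex.continuous_re continuous_const)).inter
    ((isOpen_lt continuous_const Complex.continuous_im).inter
    (isOpen_lt Complex.continuous_im continuous_const))

lemma GP_ev {w : ℂ} (hw : w ∈ HP) : ∃ r > 0, ∀ᶠ N in atTop, ∀ t ∈ Metric.ball w r,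
    GP_tau N t ∈ DN (2 * N) := by
  have hy : 0 < w.im := hw
  refine ⟨w.im / 2, by positivity, ?_⟩
  have ht : Tendsto (fun N : ℕ => (2 : ℝ) ^ N) atTop atTop :=
    tendsto_pow_atTop_atTop_of_one_lt (by norm_num)
  filter_upwards [ht.eventually_gt_atTop (4 * (|w.re| + w.im)),
    ht.eventually_gt_atTop (2 * w.im), ht.eventually_gt_atTop (4 / w.im)] with N h1 h2 h3 t ht
  have hd : ‖t - w‖ < w.im / 2 := by rwa [Metric.mem_ball, dist_eq_norm] at ht
  have hre := (Complex.abs_re_le_norm (t - w)).trans_lt hd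
  have him := (Complex.abs_im_le_norm (t - w)).trans_lt hd
  rw [Complex.sub_re] at hre
  rw [Complex.sub_im] at him
  rw [abs_lt] at hre him
  have hP : (0 : ℝ) < 2 ^ N := by positivity
  have hR := abs_le.1 (le_refl |w.re|)
  refine ⟨?_, ?_, ?_, ?_⟩
  · rw [GP_tau_re]
    have : -(1 / 4) < t.re / 2 ^ N := by
      rw [lt_div_iff₀ hP]
      linarith [neg_abs_le w.re]
    linarith
  · rw [GP_tau_re]
    have : t.re / 2 ^ N < 1 / 4 := by
      rw [div_lt_iff₀ hP]
      linarith [le_abs_self w.re]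
    linarith
  · rw [GP_tau_im, lt_div_iff₀ hP, pow_mul]
    have h4 : (4 : ℝ) < w.im * 2 ^ N := by
      rw [div_lt_iff₀ hy] at h3
      linarith
    have h5 : (2 : ℝ) * ((1 / 2) ^ 2) ^ N * 2 ^ N = 2 * (1 / 2) ^ N := by
      rw [mul_assoc, ← mul_pow]
      norm_num
    rw [h5]
    have h6 : (1 / 2 : ℝ) ^ N * 2 ^ N = 1 := by rw [← mul_pow]; norm_num
    have h7 : (0 : ℝ) < (1 / 2) ^ N := by positivity
    have h8 : 4 * (1 / 2 : ℝ) ^ N < w.im := by
      have := mul_lt_mul_of_pos_left h4 h7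
      calc 4 * (1 / 2 : ℝ) ^ N = (1 / 2) ^ N * 4 := by ring
        _ < (1 / 2) ^ N * (w.im * 2 ^ N) := this
        _ = w.im * ((1 / 2) ^ N * 2 ^ N) := by ring
        _ = w.im := by rw [h6, mul_one]
    linarith
  · rw [GP_tau_im, div_lt_one hP]
    linarith

theorem GP_norm {ι : Type*} [DecidableEq ι] {l : ι} {O : ι → Set ℂ} (hO : ∀ i, IsOpen (O i))
    (hl : O l = HP) {k : ℕ} {F : Fin k → (ι → ℂ) → ℂ} (hF : ∀ j, SH O (F j))
    (hF1 : ∀ j, ∀ z ∈ Pr O, ‖F j z‖ ≤ 1) {r : ℕ}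
    {h : Fin r → ℂ → ℂ} (hh : ∀ i, Unit1 (h i)) {ρ : ℝ} (hρ : 0 < ρ)
    (hloc : ∀ c : Fin r → ℂ,
      Solv (Function.update O l {t | t ∈ HP ∧ ∀ i, ‖h i t - c i‖ < ρ}) F) :
    Solv O F := by
  classical
  obtain ⟨m, M, L, hM, hcont⟩ := contour_multi r hρ
  set V : (Fin r → ℂ) → Set ℂ := fun c => {t | t ∈ HP ∧ ∀ i, ‖h i t - c i‖ < ρ} with hV
  have hVo : ∀ c, IsOpen (V c) := fun c => GP_V_open (fun i => (hh i).1) c ρ
  choose A hA hA1 using hloc
  have hbd : ∀ c, ∀ j, ∃ C : ℝ, ∀ z ∈ Pr (Function.update O l (V c)), ‖A c j z‖ ≤ C :=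
    fun c j => (hA c j).1
  choose KB hKB using hbd
  set K : ℝ := ∑ c ∈ L, ∑ j, |KB c j| with hKdef
  have hK0 : 0 ≤ K := Finset.sum_nonneg fun c _ => Finset.sum_nonneg fun j _ => abs_nonneg _
  have hKle : ∀ c ∈ L, ∀ j, KB c j ≤ K := by
    intro c hc j
    calc KB c j ≤ |KB c j| := le_abs_self _
      _ ≤ ∑ j, |KB c j| := Finset.single_le_sum (f := fun j => |KB c j|)
          (fun _ _ => abs_nonneg _) (Finset.mem_univ j)
      _ ≤ K := Finset.single_le_sum (f := fun c => ∑ j, |KB c j|)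
          (fun _ _ => Finset.sum_nonneg fun _ _ => abs_nonneg _) hc
  have : CompleteSpace (XA l O) := complete l hO
  have hupd : Function.update O l HP = O := by rw [← hl, Function.update_eq_self]
  -- lifts of F
  have hlF : ∀ j, ∃ f : ℂ → XA l O, DifferentiableOn ℂ f HP ∧
      (∀ t ∈ HP, ∀ z : ι → ℂ, (∀ i, i ≠ l → z i ∈ O i) →
        ev (f t) z = F j (Function.update z l t)) ∧
      ∀ C : ℝ, 0 ≤ C → (∀ z ∈ Pr (Function.update O l HP), ‖F j z‖ ≤ C) → ∀ t ∈ HP, ‖f t‖ ≤ C := by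
    intro j
    exact lift hO GP_HP_open (by rw [hupd]; exact hF j)
  choose Fl hFld hFle hFln using hlF
  have hlA : ∀ c j, ∃ f : ℂ → XA l O, DifferentiableOn ℂ f (V c) ∧
      (∀ t ∈ V c, ∀ z : ι → ℂ, (∀ i, i ≠ l → z i ∈ O i) →
        ev (f t) z = A c j (Function.update z l t)) ∧
      ∀ C : ℝ, 0 ≤ C → (∀ z ∈ Pr (Function.update O l (V c)), ‖A c j z‖ ≤ C) →
        ∀ t ∈ V c, ‖f t‖ ≤ C := fun c j => lift hO (hVo c) (hA c j)
  choose Sl hSld hSle hSln using hlA
  have hPrU : ∀ (W : Set ℂ) (t : ℂ), t ∈ W → ∀ z : ι → ℂ, (∀ i, i ≠ l → z i ∈ O i) →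
      Function.update z l t ∈ Pr (Function.update O l W) := by
    intro W t ht z hz i
    by_cases hi : i = l
    · subst hi; simpa using ht
    · simpa [Function.update_of_ne hi] using hz i hi
  -- Bezout in XA
  have hbez : ∀ c, ∀ t ∈ V c, ∑ j, Fl j t * Sl c j t = 1 := by
    intro c t ht
    apply ev_ext
    intro z hz
    rw [ev_sum, ev_one hz]
    rw [← hA1 c _ (hPrU (V c) t ht z hz)]
    refine Finset.sum_congr rfl fun j _ => ?_
    rw [ev_mul, hFle j t ht.1 z hz, hSle c j t ht z hz]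
  -- the solutions of level N
  set C0 : ℝ := K + 400 * k * K ^ 2 * (8 * 4 ^ m : ℕ) * Real.exp (5 / 3 * (40 * M)) with hC0
  have hN : ∀ N : ℕ, ∃ AN : Fin k → ℂ → XA l O, (∀ j, DifferentiableOn ℂ (AN j) (DN (2 * N))) ∧
      (∀ j, ∀ z ∈ DN (2 * N), ‖AN j z‖ ≤ C0) ∧
      ∀ z ∈ DN (2 * N), ∑ j, Fl j (GP_sig N z) * AN j z = 1 := by
    intro N
    obtain ⟨lab, G, hG, hadj, hlab⟩ := hcont (fun i t => h i (GP_sig N t)) (fun i =>
      ⟨(hh i).1.comp (GP_sig_diff N).differentiableOn (fun t ht => GP_sig_mem ht),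
        fun t ht => (hh i).2 _ (GP_sig_mem ht)⟩) (2 * N)
    refine trunc (m := m) (N := 2 * N) (T := 40 * M) (K := K) hK0 (G := G)
      (fun z hz => test_of_pack hM hG hz) (lab := lab) hadj
      (F := fun j t => Fl j (GP_sig N t)) ?_ ?_ (S := fun c j t => Sl c j (GP_sig N t)) ?_
    · intro j
      exact (hFld j).comp (GP_sig_diff N).differentiableOn (fun t ht => GP_sig_mem ht)
    · intro j z hz
      exact hFln j 1 zero_le_one (by rw [hupd]; exact hF1 j) _ (GP_sig_mem hz)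
    · intro n hn a ha b hb
      obtain ⟨hL, hcell⟩ := hlab n hn a ha b hb
      have hcHP : cell m n a b ⊆ HP := (cell_sub_box hb).trans (box_sub_HP _)
      have hmem : ∀ z ∈ cell m n a b, GP_sig N z ∈ V (lab n a b) := fun z hz =>
        ⟨GP_sig_mem (hcHP hz), fun i => hcell z hz i⟩
      refine ⟨GP_sig N ⁻¹' V (lab n a b), (hVo _).preimage (GP_sig_diff N).continuous,
        fun z hz => hmem z hz, ?_, ?_⟩
      · intro j
        exact (hSld (lab n a b) j).comp (GP_sig_diff N).differentiableOn (fun t ht => ht)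
      · intro z hz
        refine ⟨fun j => ?_, hbez _ _ (hmem z hz)⟩
        exact hSln (lab n a b) j K hK0
          (fun w hw => (hKB _ j w hw).trans (hKle _ hL j)) _ (hmem z hz)
  choose AN hANd hANb hAN1 using hN
  -- the limit
  have hdom : ∀ z ∈ Pr O, ∀ i, i ≠ l → Function.update z l 0 i ∈ O i := by
    intro z hz i hi
    rw [Function.update_of_ne hi]
    exact hz i
  have hzl : ∀ z ∈ Pr O, z l ∈ HP := fun z hz => hl ▸ hz l
  refine ⟨fun j z => ulim (fun N => ev (AN N j (GP_tau N (z l))) (Function.update z l 0)),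
    fun j => ⟨⟨C0, ?_⟩, ?_⟩, ?_⟩
  · intro z hz
    refine ulim_norm ?_
    obtain ⟨r', hr', hev⟩ := GP_ev (hzl z hz)
    filter_upwards [hev] with N hN
    exact (norm_ev_le _ _).trans (hANb N j _ (hN _ (Metric.mem_ball_self hr')))
  · intro z hz i
    by_cases hi : i = l
    · subst hi
      have hfun : (fun t => ulim (fun N => ev (AN N j (GP_tau N ((Function.update z i t) i)))
          (Function.update (Function.update z i t) i 0))) =
          fun t => ulim (fun N => ev (AN N j (GP_tau N t)) (Function.update z i 0)) := by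
        funext t
        simp
      rw [hfun, hl]
      refine ulim_diff (C := C0) fun w hw => ?_
      obtain ⟨r', hr', hev⟩ := GP_ev hw
      refine ⟨r', hr', ?_⟩
      filter_upwards [hev] with N hN
      refine ⟨?_, ?_⟩
      · have h1 : DifferentiableOn ℂ (fun t => AN N j (GP_tau N t)) (Metric.ball w r') :=
          (hANd N j).comp (GP_tau_diff N).differentiableOn hN
        exact ev_diff h1 _
      · intro t ht
        exact (norm_ev_le _ _).trans (hANb N j _ (hN t ht))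
    · have hfun : (fun t => ulim (fun N => ev (AN N j (GP_tau N ((Function.update z i t) l)))
          (Function.update (Function.update z i t) l 0))) =
          fun t => ulim (fun N => ev (AN N j (GP_tau N (z l)))
            (Function.update (Function.update z l 0) i t)) := by
        funext t
        rw [Function.update_of_ne (Ne.symm hi), Function.update_comm hi]
      rw [hfun]
      refine ulim_diff (C := C0) fun w hw => ?_
      obtain ⟨r', hr', hball⟩ := Metric.isOpen_iff.1 (hO i) w hw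
      refine ⟨r', hr', ?_⟩
      obtain ⟨r'', hr'', hev⟩ := GP_ev (hzl z hz)
      filter_upwards [hev] with N hN
      refine ⟨(ev_sep _ (hdom z hz) hi).mono hball, ?_⟩
      intro t ht
      exact (norm_ev_le _ _).trans (hANb N j _ (hN _ (Metric.mem_ball_self hr'')))
  · intro z hz
    obtain ⟨r', hr', hev⟩ := GP_ev (hzl z hz)
    refine ulim_sum (C := C0) (fun j => ?_) ?_
    · filter_upwards [hev] with N hN
      exact (norm_ev_le _ _).trans (hANb N j _ (hN _ (Metric.mem_ball_self hr')))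
    · filter_upwards [hev] with N hN
      have h1 := hAN1 N _ (hN _ (Metric.mem_ball_self hr'))
      rw [GP_sig_tau] at h1
      have h2 := congrArg (fun x => ev x (Function.update z l 0)) h1
      simp only [ev_sum, ev_mul, ev_one (hdom z hz)] at h2
      rw [← h2]
      refine Finset.sum_congr rfl fun j _ => ?_
      rw [hFle j _ (hzl z hz) _ (hdom z hz)]
      simp

theorem gp {ι : Type*} [DecidableEq ι] {l : ι} {O : ι → Set ℂ} (hO : ∀ i, IsOpen (O i))
    (hl : O l = HP) {k : ℕ} {F : Fin k → (ι → ℂ) → ℂ} (hF : ∀ j, SH O (F j)) {r : ℕ}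
    {h : Fin r → ℂ → ℂ} (hh : ∀ i, Unit1 (h i)) {ρ : ℝ} (hρ : 0 < ρ)
    (hloc : ∀ c : Fin r → ℂ,
      Solv (Function.update O l {t | t ∈ HP ∧ ∀ i, ‖h i t - c i‖ < ρ}) F) :
    Solv O F := by
  classical
  have hb : ∀ j, ∃ C : ℝ, ∀ z ∈ Pr O, ‖F j z‖ ≤ C := fun j => (hF j).1
  choose CB hCB using hb
  set C : ℝ := 1 + ∑ j, |CB j| with hC
  have hC1 : 1 ≤ C := by
    have := Finset.sum_nonneg (s := Finset.univ) (f := fun j : Fin k => |CB j|)
      (fun _ _ => abs_nonneg _)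
    linarith
  have hC0 : 0 < C := by linarith
  have hCle : ∀ j, CB j ≤ C := by
    intro j
    have h1 : |CB j| ≤ ∑ j, |CB j| := Finset.single_le_sum (s := Finset.univ)
      (f := fun j : Fin k => |CB j|) (fun _ _ => abs_nonneg _) (Finset.mem_univ j)
    have h2 := le_abs_self (CB j)
    linarith
  have hCne : (C : ℂ) ≠ 0 := by exact_mod_cast hC0.ne'
  have hsm : ∀ (O' : ι → Set ℂ) (f : (ι → ℂ) → ℂ) (a : ℂ), SH O' f → SH O' (fun z => a * f z) := by
    intro O' f a hf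
    obtain ⟨⟨B, hB⟩, hd⟩ := hf
    refine ⟨⟨‖a‖ * B, fun z hz => ?_⟩, fun z hz i => (hd z hz i).const_mul a⟩
    rw [norm_mul]
    exact mul_le_mul_of_nonneg_left (hB z hz) (norm_nonneg _)
  have hsol := GP_norm (l := l) hO hl (F := fun j z => (C : ℂ)⁻¹ * F j z)
    (fun j => hsm _ _ _ (hF j)) ?_ hh hρ ?_
  · obtain ⟨A, hA, hA1⟩ := hsol
    refine ⟨fun j z => (C : ℂ)⁻¹ * A j z, fun j => hsm _ _ _ (hA j), fun z hz => ?_⟩
    rw [← hA1 z hz]
    refine Finset.sum_congr rfl fun j _ => ?_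
    ring
  · intro j z hz
    rw [norm_mul, norm_inv, Complex.norm_real, Real.norm_of_nonneg hC0.le,
      inv_mul_le_iff₀ hC0, mul_one]
    exact (hCB j z hz).trans (hCle j)
  · intro c
    obtain ⟨A, hA, hA1⟩ := hloc c
    refine ⟨fun j z => (C : ℂ) * A j z, fun j => hsm _ _ _ (hA j), fun z hz => ?_⟩
    rw [← hA1 z hz]
    refine Finset.sum_congr rfl fun j _ => ?_
    field_simp

end Cor
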