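import Pool.Agent.helper45.Cor.Defs

/-!
Module COR-R: Cauchy's formula on rectangles, for vector valued functions.

PROOF. `rInt_zero`: the integrand is holomorphic near the closed rectangle (shrink `O` to the open
set `O ∩ {z}ᶜ`, which contains the closed rectangle), use
`Complex.integral_boundary_rect_eq_zero_of_differentiableOn` (translate `eInt p 1 w f` etc. into the
interval integrals of Mathlib by the substitution `x = p.re + t`; note `rInt p w h f` is
bottom + right - top - left, exactly the combination in Mathlib).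
`rInt_cauchy`: `dslope f z` is holomorphic on `O`, so its boundary integral is `0`; on the boundary
`dslope f z ζ = (ζ - z)⁻¹ • (f ζ - f z)`, hence the claim follows from the scalar case `f = 1`:
`rInt p w h (fun ζ => (ζ - z)⁻¹) = 2 π i`.  For the scalar case the primitive of `1 / (t + i c)` is
`log (t ^ 2 + c ^ 2) / 2 - i arctan (t / c)`; the logarithms telescope, the angles add up to `2 π`.
-/

noncomputable section

open Set

namespace Cor

variable {X : Type*} [NormedAddCommGroup X] [NormedSpace ℂ X] [CompleteSpace X]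

/-- primitive of `1 / (t + i c)` -/
def Rect_F (c t : ℝ) : ℂ :=
  ((Real.log (t ^ 2 + c ^ 2) / 2 : ℝ) : ℂ) - Complex.I * ((Real.arctan (t / c) : ℝ) : ℂ)

theorem Rect_F_deriv {c : ℝ} (hc : c ≠ 0) (t : ℝ) :
    HasDerivAt (Rect_F c) (((t : ℂ) + Complex.I * c)⁻¹) t := by
  have hpos : 0 < t ^ 2 + c ^ 2 := by positivity
  have h1 : HasDerivAt (fun t : ℝ => Real.log (t ^ 2 + c ^ 2) / 2)
      ((2 * t) / (t ^ 2 + c ^ 2) / 2) t := by
    have h0 : HasDerivAt (fun t : ℝ => t ^ 2 + c ^ 2) (2 * t) t := by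
      simpa using (hasDerivAt_pow 2 t).add_const (c ^ 2)
    exact (h0.log hpos.ne').div_const 2
  have h2 : HasDerivAt (fun t : ℝ => Real.arctan (t / c))
      (1 / (1 + (t / c) ^ 2) * (1 / c)) t := by
    exact ((hasDerivAt_id t).div_const c).arctan
  have h3 := (h1.ofReal_comp).sub ((h2.ofReal_comp).const_mul Complex.I)
  have e : (((2 * t) / (t ^ 2 + c ^ 2) / 2 : ℝ) : ℂ) -
      Complex.I * ((1 / (1 + (t / c) ^ 2) * (1 / c) : ℝ) : ℂ) = ((t : ℂ) + Complex.I * c)⁻¹ := by
    have hr : (1 / (1 + (t / c) ^ 2) * (1 / c) : ℝ) = c / (t ^ 2 + c ^ 2) := by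
      field_simp
      ring
    rw [hr]
    have hne : ((t : ℂ) + Complex.I * c) ≠ 0 := by
      intro h
      apply hc
      have := congrArg Complex.im h
      simpa using this
    have hne2 : ((t : ℂ) ^ 2 + (c : ℂ) ^ 2) ≠ 0 := by
      exact_mod_cast hpos.ne'
    rw [eq_comm, inv_eq_of_mul_eq_one_right]
    push_cast
    field_simp
    ring_nf
    rw [Complex.I_sq]
    ring
  rw [← e]
  exact h3

theorem Rect_int {c : ℝ} (hc : c ≠ 0) (a s : ℝ) :
    ∫ t in (0 : ℝ)..s, (((a + t : ℝ) : ℂ) + Complex.I * c)⁻¹ = Rect_F c (a + s) - Rect_F c a := by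
  have h := intervalIntegral.integral_eq_sub_of_hasDerivAt
    (f := fun t : ℝ => Rect_F c (a + t)) (f' := fun t : ℝ => (((a + t : ℝ) : ℂ) + Complex.I * c)⁻¹)
    (a := 0) (b := s) ?_ ?_
  · rw [h]
    simp
  · intro t _
    have := (Rect_F_deriv hc (a + t)).comp_const_add a t
    exact this
  · apply Continuous.intervalIntegrable
    apply Continuous.inv₀
    · fun_prop
    · intro t h
      apply hc
      have := congrArg Complex.im h
      simpa using this

/-- the scalar case -/
theorem rInt_inv {p : ℂ} {w h : ℝ} {z : ℂ}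
    (hz : p.re < z.re ∧ z.re < p.re + w ∧ p.im < z.im ∧ z.im < p.im + h) :
    rInt p w h (fun ζ => (ζ - z)⁻¹) = 2 * Real.pi * Complex.I := by
  obtain ⟨h1, h2, h3, h4⟩ := hz
  obtain ⟨a, ha⟩ : ∃ a, a = p.re - z.re := ⟨_, rfl⟩
  obtain ⟨b, hb⟩ : ∃ b, b = p.re + w - z.re := ⟨_, rfl⟩
  obtain ⟨c, hc⟩ : ∃ c, c = p.im - z.im := ⟨_, rfl⟩
  obtain ⟨d, hd⟩ : ∃ d, d = p.im + h - z.im := ⟨_, rfl⟩
  have ha0 : a < 0 := by linarith
  have hb0 : 0 < b := by linarith
  have hc0 : c < 0 := by linarith
  have hd0 : 0 < d := by linarith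
  have e1 : eInt p 1 w (fun ζ => (ζ - z)⁻¹) = Rect_F c b - Rect_F c a := by
    have := Rect_int hc0.ne a w
    have hab : a + w = b := by rw [ha, hb]; ring
    rw [hab] at this
    rw [← this]
    unfold eInt
    rw [one_smul]
    congr 1
    funext t
    have : p + 1 * (t : ℂ) - z = ((a + t : ℝ) : ℂ) + Complex.I * c := by
      apply Complex.ext
      · simp [ha]; ring
      · simp [hc]
    beta_reduce
    rw [this]
  have e3 : eInt (p + Complex.I * h) 1 w (fun ζ => (ζ - z)⁻¹) = Rect_F d b - Rect_F d a := by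
    have := Rect_int hd0.ne' a w
    have hab : a + w = b := by rw [ha, hb]; ring
    rw [hab] at this
    rw [← this]
    unfold eInt
    rw [one_smul]
    congr 1
    funext t
    have : p + Complex.I * h + 1 * (t : ℂ) - z = ((a + t : ℝ) : ℂ) + Complex.I * d := by
      apply Complex.ext
      · simp [ha]; ring
      · simp [hd]
    beta_reduce
    rw [this]
  have e2 : eInt (p + w) Complex.I h (fun ζ => (ζ - z)⁻¹) = Rect_F (-b) d - Rect_F (-b) c := by
    have := Rect_int (neg_ne_zero.mpr hb0.ne') c h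
    have hab : c + h = d := by rw [hc, hd]; ring
    rw [hab] at this
    rw [← this]
    unfold eInt
    rw [smul_eq_mul, ← intervalIntegral.integral_const_mul]
    congr 1
    funext t
    have : p + w + Complex.I * t - z = Complex.I * (((c + t : ℝ) : ℂ) + Complex.I * ((-b : ℝ) : ℂ)) := by
      apply Complex.ext
      · simp [hb]
      · simp [hc]; ring
    beta_reduce
    rw [this, mul_inv, ← mul_assoc, mul_inv_cancel₀ Complex.I_ne_zero, one_mul]
  have e4 : eInt p Complex.I h (fun ζ => (ζ - z)⁻¹) = Rect_F (-a) d - Rect_F (-a) c := by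
    have := Rect_int (neg_ne_zero.mpr ha0.ne) c h
    have hab : c + h = d := by rw [hc, hd]; ring
    rw [hab] at this
    rw [← this]
    unfold eInt
    rw [smul_eq_mul, ← intervalIntegral.integral_const_mul]
    congr 1
    funext t
    have : p + Complex.I * t - z = Complex.I * (((c + t : ℝ) : ℂ) + Complex.I * ((-a : ℝ) : ℂ)) := by
      apply Complex.ext
      · simp [ha]
      · simp [hc]; ring
    beta_reduce
    rw [this, mul_inv, ← mul_assoc, mul_inv_cancel₀ Complex.I_ne_zero, one_mul]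
  unfold rInt
  rw [e1, e2, e3, e4]
  have k1 : Real.arctan (b / d) = Real.pi / 2 - Real.arctan (d / b) := by
    rw [← Real.arctan_inv_of_pos (div_pos hd0 hb0), inv_div]
  have k2 : Real.arctan (b / c) = -(Real.pi / 2) - Real.arctan (c / b) := by
    rw [← Real.arctan_inv_of_neg (div_neg_of_neg_of_pos hc0 hb0), inv_div]
  have k3 : Real.arctan (a / c) = Real.pi / 2 - Real.arctan (c / a) := by
    rw [← Real.arctan_inv_of_pos (div_pos_of_neg_of_neg hc0 ha0), inv_div]
  have k4 : Real.arctan (a / d) = -(Real.pi / 2) - Real.arctan (d / a) := by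
    rw [← Real.arctan_inv_of_neg (div_neg_of_pos_of_neg hd0 ha0), inv_div]
  unfold Rect_F
  rw [k1, k2, k3, k4, div_neg, div_neg, div_neg, div_neg, Real.arctan_neg, Real.arctan_neg,
    Real.arctan_neg, Real.arctan_neg]
  apply Complex.ext
  · simp
    ring_nf
  · simp
    ring

/-- `rInt` in terms of the combination of Mathlib -/
theorem Rect_eq (p : ℂ) (w h : ℝ) (f : ℂ → X) :
    rInt p w h f =
      (∫ x : ℝ in p.re..(p.re + w), f (x + p.im * Complex.I)) -
        (∫ x : ℝ in p.re..(p.re + w), f (x + (p.im + h : ℝ) * Complex.I)) +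
      Complex.I • (∫ y : ℝ in p.im..(p.im + h), f ((p.re + w : ℝ) + y * Complex.I)) -
      Complex.I • ∫ y : ℝ in p.im..(p.im + h), f (p.re + y * Complex.I) := by
  have e1 : eInt p 1 w f = ∫ x : ℝ in p.re..(p.re + w), f (x + p.im * Complex.I) := by
    unfold eInt
    have := intervalIntegral.integral_comp_add_left (a := 0) (b := w)
      (fun x : ℝ => f (x + p.im * Complex.I)) p.re
    rw [add_zero] at this
    rw [one_smul, ← this]
    congr 1
    funext t
    congr 1
    apply Complex.ext <;> simp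
  have e3 : eInt (p + Complex.I * h) 1 w f =
      ∫ x : ℝ in p.re..(p.re + w), f (x + (p.im + h : ℝ) * Complex.I) := by
    unfold eInt
    have := intervalIntegral.integral_comp_add_left (a := 0) (b := w)
      (fun x : ℝ => f (x + (p.im + h : ℝ) * Complex.I)) p.re
    rw [add_zero] at this
    rw [one_smul, ← this]
    congr 1
    funext t
    congr 1
    apply Complex.ext <;> simp
  have e2 : eInt (p + w) Complex.I h f =
      Complex.I • ∫ y : ℝ in p.im..(p.im + h), f ((p.re + w : ℝ) + y * Complex.I) := by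
    unfold eInt
    have := intervalIntegral.integral_comp_add_left (a := 0) (b := h)
      (fun y : ℝ => f ((p.re + w : ℝ) + y * Complex.I)) p.im
    rw [add_zero] at this
    rw [← this]
    congr 2
    funext t
    congr 1
    apply Complex.ext <;> simp
  have e4 : eInt p Complex.I h f =
      Complex.I • ∫ y : ℝ in p.im..(p.im + h), f (p.re + y * Complex.I) := by
    unfold eInt
    have := intervalIntegral.integral_comp_add_left (a := 0) (b := h)
      (fun y : ℝ => f (p.re + y * Complex.I)) p.im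
    rw [add_zero] at this
    rw [← this]
    congr 2
    funext t
    congr 1
    apply Complex.ext <;> simp
  unfold rInt
  rw [e1, e2, e3, e4]
  abel

/-- Cauchy's theorem for a rectangle -/
theorem Rect_goursat {p : ℂ} {w h : ℝ} (hw : 0 ≤ w) (hh : 0 ≤ h) {f : ℂ → X}
    (hf : DifferentiableOn ℂ f
      {ζ : ℂ | p.re ≤ ζ.re ∧ ζ.re ≤ p.re + w ∧ p.im ≤ ζ.im ∧ ζ.im ≤ p.im + h}) :
    rInt p w h f = 0 := by
  rw [Rect_eq]
  have := Complex.integral_boundary_rect_eq_zero_of_differentiableOn f p ⟨p.re + w, p.im + h⟩ ?_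
  · exact this
  · apply hf.mono
    intro ζ hζ
    rw [Complex.mem_reProdIm] at hζ
    simp only at hζ
    rw [uIcc_of_le (by linarith), uIcc_of_le (by linarith)] at hζ
    exact ⟨hζ.1.1, hζ.1.2, hζ.2.1, hζ.2.2⟩

theorem Rect_eInt_add {p d : ℂ} {s : ℝ} (hs : 0 ≤ s) {f g : ℂ → X}
    (hf : ContinuousOn (fun t : ℝ => f (p + d * t)) (Icc 0 s))
    (hg : ContinuousOn (fun t : ℝ => g (p + d * t)) (Icc 0 s)) :
    eInt p d s (fun ζ => f ζ + g ζ) = eInt p d s f + eInt p d s g := by
  unfold eInt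
  rw [← smul_add, intervalIntegral.integral_add]
  · exact ContinuousOn.intervalIntegrable_of_Icc hs hf
  · exact ContinuousOn.intervalIntegrable_of_Icc hs hg

theorem Rect_eInt_congr {p d : ℂ} {s : ℝ} (hs : 0 ≤ s) {f g : ℂ → X}
    (hfg : ∀ t ∈ Icc 0 s, f (p + d * t) = g (p + d * t)) :
    eInt p d s f = eInt p d s g := by
  unfold eInt
  congr 1
  apply intervalIntegral.integral_congr
  intro t ht
  rw [uIcc_of_le hs] at ht
  exact hfg t ht

theorem Rect_eInt_smul (p d : ℂ) (s : ℝ) (f : ℂ → ℂ) (x : X) :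
    eInt p d s (fun ζ => f ζ • x) = eInt p d s f • x := by
  unfold eInt
  rw [intervalIntegral.integral_smul_const, smul_eq_mul, mul_smul]

theorem Rect_rInt_smul (p : ℂ) (w h : ℝ) (f : ℂ → ℂ) (x : X) :
    rInt p w h (fun ζ => f ζ • x) = rInt p w h f • x := by
  unfold rInt
  rw [Rect_eInt_smul, Rect_eInt_smul, Rect_eInt_smul, Rect_eInt_smul, sub_smul, sub_smul, add_smul]

theorem rInt_cauchy {p : ℂ} {w h : ℝ} {f : ℂ → X} {O : Set ℂ} (hO : IsOpen O)
    (hsub : {ζ : ℂ | p.re ≤ ζ.re ∧ ζ.re ≤ p.re + w ∧ p.im ≤ ζ.im ∧ ζ.im ≤ p.im + h} ⊆ O)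
    (hf : DifferentiableOn ℂ f O) {z : ℂ}
    (hz : p.re < z.re ∧ z.re < p.re + w ∧ p.im < z.im ∧ z.im < p.im + h) :
    rInt p w h (fun ζ => (ζ - z)⁻¹ • f ζ) = (2 * Real.pi * Complex.I : ℂ) • f z := by
  obtain ⟨h1, h2, h3, h4⟩ := hz
  have hw : 0 ≤ w := by linarith
  have hh : 0 ≤ h := by linarith
  have hzO : z ∈ O := hsub ⟨h1.le, h2.le, h3.le, h4.le⟩
  have hds : DifferentiableOn ℂ (dslope f z) O :=
    (Complex.differentiableOn_dslope (hO.mem_nhds hzO)).mpr hf
  have key : ∀ ζ, ζ ≠ z → (ζ - z)⁻¹ • f ζ = dslope f z ζ + (ζ - z)⁻¹ • f z := by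
    intro ζ hζ
    rw [dslope_of_ne _ hζ, slope_def_module, smul_sub]
    abel
  have edge : ∀ q d : ℂ, ∀ s : ℝ, 0 ≤ s → (∀ t ∈ Icc (0 : ℝ) s, q + d * t ≠ z ∧ q + d * t ∈ O) →
      eInt q d s (fun ζ => (ζ - z)⁻¹ • f ζ) =
        eInt q d s (dslope f z) + eInt q d s (fun ζ => (ζ - z)⁻¹ • f z) := by
    intro q d s hs hq
    have hcont : Continuous (fun t : ℝ => q + d * (t : ℂ)) := by fun_prop
    rw [← Rect_eInt_add hs]
    · apply Rect_eInt_congr hs
      intro t ht
      exact key _ (hq t ht).1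
    · apply ContinuousOn.comp (t := O) hds.continuousOn hcont.continuousOn
      intro t ht
      exact (hq t ht).2
    · apply ContinuousOn.smul _ continuousOn_const
      apply ContinuousOn.inv₀
      · exact (hcont.sub continuous_const).continuousOn
      · intro t ht
        exact sub_ne_zero.mpr (hq t ht).1
  have E1 := edge p 1 w hw (fun t ht => by
    constructor
    · intro e
      have := congrArg Complex.im e
      simp at this
      linarith
    · apply hsub
      simp only [mem_setOf_eq]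
      simp
      refine ⟨ht.1, ht.2, hh⟩)
  have E2 := edge (p + w) Complex.I h hh (fun t ht => by
    constructor
    · intro e
      have := congrArg Complex.re e
      simp at this
      linarith
    · apply hsub
      simp only [mem_setOf_eq]
      simp
      refine ⟨hw, ht.1, ht.2⟩)
  have E3 := edge (p + Complex.I * h) 1 w hw (fun t ht => by
    constructor
    · intro e
      have := congrArg Complex.im e
      simp at this
      linarith
    · apply hsub
      simp only [mem_setOf_eq]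
      simp
      refine ⟨ht.1, ht.2, hh⟩)
  have E4 := edge p Complex.I h hh (fun t ht => by
    constructor
    · intro e
      have := congrArg Complex.re e
      simp at this
      linarith
    · apply hsub
      simp only [mem_setOf_eq]
      simp
      refine ⟨hw, ht.1, ht.2⟩)
  have G : rInt p w h (dslope f z) = 0 := Rect_goursat hw hh (hds.mono hsub)
  have H : rInt p w h (fun ζ => (ζ - z)⁻¹ • f ζ) =
      rInt p w h (dslope f z) + rInt p w h (fun ζ => (ζ - z)⁻¹ • f z) := by
    unfold rInt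
    rw [E1, E2, E3, E4]
    abel
  rw [H, G, zero_add, Rect_rInt_smul, rInt_inv ⟨h1, h2, h3, h4⟩]

theorem rInt_zero {p : ℂ} {w h : ℝ} (hw : 0 ≤ w) (hh : 0 ≤ h) {f : ℂ → X} {O : Set ℂ}
    (hO : IsOpen O)
    (hsub : {ζ : ℂ | p.re ≤ ζ.re ∧ ζ.re ≤ p.re + w ∧ p.im ≤ ζ.im ∧ ζ.im ≤ p.im + h} ⊆ O)
    (hf : DifferentiableOn ℂ f O) {z : ℂ}
    (hz : z.re < p.re ∨ p.re + w < z.re ∨ z.im < p.im ∨ p.im + h < z.im) :
    rInt p w h (fun ζ => (ζ - z)⁻¹ • f ζ) = 0 := by
  apply Rect_goursat hw hh
  have hne : ∀ ζ ∈ {ζ : ℂ | p.re ≤ ζ.re ∧ ζ.re ≤ p.re + w ∧ p.im ≤ ζ.im ∧ ζ.im ≤ p.im + h},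
      ζ - z ≠ 0 := by
    rintro ζ ⟨h1, h2, h3, h4⟩ e
    rw [sub_eq_zero] at e
    rw [e] at h1 h2 h3 h4
    rcases hz with h | h | h | h <;> linarith
  apply DifferentiableOn.smul _ (hf.mono hsub)
  apply DifferentiableOn.inv _ hne
  exact (differentiable_id.sub_const z).differentiableOn

end Cor
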