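import Pool.Agent.helper45.Cor.Defs

/-!
Module COR-A: area averages.

PROOFS.
`submean`: for `0 < r < b` (or `≤`) `‖f z₀‖ ≤ (1/2π) ∫_0^{2π} ‖f (z₀ + r e^{iθ})‖ dθ`
(mean value property, `DiffContOnCl.circleAverage` or `circleIntegral` version); multiply by `r` and
integrate over `r ∈ (0, b)`; polar coordinates (`Complex.lintegral_comp_polarCoord_symm`,
`Complex.integral_comp_polarCoord_symm`).
`avg_inv`: the part of the disc with `‖ζ - z‖ ≥ b` contributes at most `π b² / b`, the rest is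
contained in `ball ζ b`, where `∫ ‖ζ - z‖⁻¹ = 2 π b` (radial function,
`MeasureTheory.integral_fun_norm_addHaar` or polar coordinates).
`avg_box`: put `y = z₀.im = 4 b`, `D = ‖z₀ - conj (cen I)‖`, `e = ‖z₀ - ζ‖`.  As `ζ ∈ box I`,
`len I ≤ ζ.im ≤ y + e` and `D ≤ e + ‖ζ - cen I‖ + 3 len I ≤ e + 4 len I`.
If `e ≥ y / 2 = 2 b`: `‖ζ - z‖ ≥ e / 2` on the disc, `D ≤ 13 e`, the integral is at most
`π b² 2 / e ≤ 26 π b² / D`.  If `e < y / 2`: `D ≤ 6.5 y = 26 b` and the integral is at most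
`3 π b ≤ 78 π b² / D`; `78 π < 250`.
-/

noncomputable section

open Set MeasureTheory Metric

namespace Cor

open scoped ENNReal

theorem Avg_symm (z₀ : ℂ) (p : ℝ × ℝ) :
    z₀ + Complex.polarCoord.symm p = circleMap z₀ p.1 p.2 := by
  rw [Complex.polarCoord_symm_apply, circleMap, Complex.exp_mul_I]
  push_cast
  ring

theorem Avg_polar (z₀ : ℂ) (g : ℂ → ℝ≥0∞) :
    ∫⁻ z, g z = ∫⁻ p in polarCoord.target,
      ENNReal.ofReal p.1 * g (circleMap z₀ p.1 p.2) := by
  rw [← lintegral_add_left_eq_self g z₀,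
    ← Complex.lintegral_comp_polarCoord_symm (fun x => g (z₀ + x))]
  simp only [smul_eq_mul, Avg_symm]

/-- the mean value property on one circle -/
theorem Avg_circle {X : Type*} [NormedAddCommGroup X] [NormedSpace ℂ X] [CompleteSpace X]
    {f : ℂ → X} {z₀ : ℂ} {r : ℝ} (hr : 0 < r) {O : Set ℂ}
    (hsub : closedBall z₀ r ⊆ O) (hf : DifferentiableOn ℂ f O) :
    ENNReal.ofReal (2 * Real.pi * ‖f z₀‖) ≤
      ∫⁻ θ in Ioo (-Real.pi) Real.pi, ‖f (circleMap z₀ r θ)‖ₑ := by
  have h1 : DiffContOnCl ℂ f (ball z₀ |r|) := by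
    rw [abs_of_pos hr]
    exact hf.diffContOnCl_ball hsub
  have h2 := h1.circleAverage
  rw [Real.circleAverage_def] at h2
  have hpi := Real.pi_pos
  have h3 : ∫ θ in (0 : ℝ)..2 * Real.pi, f (circleMap z₀ r θ) = (2 * Real.pi) • f z₀ := by
    rw [← h2, smul_smul, mul_inv_cancel₀ (by positivity), one_smul]
  have hper : Function.Periodic (fun θ => f (circleMap z₀ r θ)) (2 * Real.pi) := by
    intro θ
    simp only [periodic_circleMap z₀ r θ]
  have h4 := hper.intervalIntegral_add_eq 0 (-Real.pi)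
  rw [zero_add, h3, show -Real.pi + 2 * Real.pi = Real.pi by ring,
    intervalIntegral.integral_of_le (by linarith), integral_Ioc_eq_integral_Ioo] at h4
  have h5 := enorm_integral_le_lintegral_enorm
    (μ := volume.restrict (Ioo (-Real.pi) Real.pi)) (fun θ => f (circleMap z₀ r θ))
  rw [← h4] at h5
  refine le_trans (le_of_eq ?_) h5
  rw [← ofReal_norm, norm_smul, Real.norm_of_nonneg (by positivity)]

theorem Avg_measSet (b : ℝ) : MeasurableSet (Ioo (0 : ℝ) b ×ˢ Ioo (-Real.pi) Real.pi) :=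
  measurableSet_Ioo.prod measurableSet_Ioo

theorem Avg_radial (b c : ℝ) (hb : 0 ≤ b) :
    ∫⁻ r in Ioo (0 : ℝ) b, ENNReal.ofReal r * ENNReal.ofReal c =
      ENNReal.ofReal (b ^ 2 / 2 * c) := by
  rw [lintegral_mul_const' _ _ ENNReal.ofReal_ne_top]
  have h1 : ∫⁻ r in Ioo (0 : ℝ) b, ENNReal.ofReal r = ENNReal.ofReal (b ^ 2 / 2) := by
    rw [← ofReal_integral_eq_lintegral_ofReal]
    · rw [← integral_Ioc_eq_integral_Ioo, ← intervalIntegral.integral_of_le hb, integral_id]
      congr 1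
      ring
    · exact (continuous_id.integrableOn_Icc (a := 0) (b := b)).mono_set Ioo_subset_Icc_self
    · filter_upwards [self_mem_ae_restrict measurableSet_Ioo] with r hr
      exact hr.1.le
  rw [h1, ← ENNReal.ofReal_mul (by positivity)]

theorem Avg_submean_l {X : Type*} [NormedAddCommGroup X] [NormedSpace ℂ X] [CompleteSpace X]
    {f : ℂ → X} {z₀ : ℂ} {b : ℝ} (hb : 0 < b) {O : Set ℂ}
    (hsub : closedBall z₀ b ⊆ O) (hf : DifferentiableOn ℂ f O) :
    ENNReal.ofReal (‖f z₀‖ * (Real.pi * b ^ 2)) ≤ ∫⁻ z in ball z₀ b, ‖f z‖ₑ := by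
  rw [← lintegral_indicator measurableSet_ball, Avg_polar z₀]
  have hpi := Real.pi_pos
  have hsub2 : Ioo (0 : ℝ) b ×ˢ Ioo (-Real.pi) Real.pi ⊆ polarCoord.target := by
    rw [polarCoord_target]
    exact prod_mono Ioo_subset_Ioi_self le_rfl
  have hmem : ∀ p ∈ Ioo (0 : ℝ) b ×ˢ Ioo (-Real.pi) Real.pi, circleMap z₀ p.1 p.2 ∈ ball z₀ b := by
    rintro ⟨r, θ⟩ ⟨hr, -⟩
    rw [mem_ball, dist_eq_norm, circleMap_sub_center, norm_circleMap_zero, abs_of_pos hr.1]
    exact hr.2
  have hcm : Continuous (fun p : ℝ × ℝ => circleMap z₀ p.1 p.2) := by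
    unfold circleMap
    fun_prop
  calc ENNReal.ofReal (‖f z₀‖ * (Real.pi * b ^ 2))
      = ∫⁻ r in Ioo (0 : ℝ) b, ENNReal.ofReal r * ENNReal.ofReal (2 * Real.pi * ‖f z₀‖) := by
        rw [Avg_radial b _ hb.le]
        congr 1
        ring
    _ ≤ ∫⁻ r in Ioo (0 : ℝ) b, ∫⁻ θ in Ioo (-Real.pi) Real.pi,
          ENNReal.ofReal r * ‖f (circleMap z₀ r θ)‖ₑ := by
        apply setLIntegral_mono' measurableSet_Ioo
        intro r hr
        rw [lintegral_const_mul' _ _ ENNReal.ofReal_ne_top]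
        gcongr
        exact Avg_circle hr.1 ((closedBall_subset_closedBall hr.2.le).trans hsub) hf
    _ = ∫⁻ p in Ioo (0 : ℝ) b ×ˢ Ioo (-Real.pi) Real.pi,
          ENNReal.ofReal p.1 * ‖f (circleMap z₀ p.1 p.2)‖ₑ := by
        rw [Measure.volume_eq_prod, ← Measure.prod_restrict]
        rw [lintegral_prod]
        rw [Measure.prod_restrict]
        apply AEMeasurable.fun_mul
        · exact (ENNReal.continuous_ofReal.comp continuous_fst).measurable.aemeasurable
        · apply ContinuousOn.aemeasurable _ (Avg_measSet b)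
          apply ContinuousOn.enorm
          exact hf.continuousOn.comp hcm.continuousOn
            (fun p hp => hsub (ball_subset_closedBall (hmem p hp)))
    _ = ∫⁻ p in Ioo (0 : ℝ) b ×ˢ Ioo (-Real.pi) Real.pi,
          ENNReal.ofReal p.1 * (ball z₀ b).indicator (fun z => ‖f z‖ₑ)
            (circleMap z₀ p.1 p.2) := by
        apply setLIntegral_congr_fun (Avg_measSet b)
        intro p hp
        simp only
        rw [indicator_of_mem (hmem p hp)]
    _ ≤ _ := lintegral_mono_set hsub2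

theorem submean {X : Type*} [NormedAddCommGroup X] [NormedSpace ℂ X] [CompleteSpace X]
    {f : ℂ → X} {z₀ : ℂ} {b : ℝ} (hb : 0 < b) {O : Set ℂ} (hO : IsOpen O)
    (hsub : closedBall z₀ b ⊆ O) (hf : DifferentiableOn ℂ f O) :
    ‖f z₀‖ * (Real.pi * b ^ 2) ≤ ∫ z in ball z₀ b, ‖f z‖ := by
  have hint : IntegrableOn f (ball z₀ b) := by
    apply IntegrableOn.mono_set _ ball_subset_closedBall
    exact (hf.continuousOn.mono hsub).integrableOn_compact (isCompact_closedBall z₀ b)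
  have h1 := Avg_submean_l hb hsub hf
  rw [← ofReal_integral_norm_eq_lintegral_enorm hint] at h1
  exact (ENNReal.ofReal_le_ofReal_iff (integral_nonneg fun _ => norm_nonneg _)).1 h1

/-- the integral of `1 / |z - ζ|` over a disc with centre `ζ` -/
theorem Avg_inv_ball (ζ : ℂ) {R : ℝ} (hR : 0 ≤ R) :
    ∫⁻ z in ball ζ R, ENNReal.ofReal ‖ζ - z‖⁻¹ ≤ ENNReal.ofReal (2 * Real.pi * R) := by
  rw [← lintegral_indicator measurableSet_ball, Avg_polar ζ]
  have hpi := Real.pi_pos
  calc ∫⁻ p in polarCoord.target, ENNReal.ofReal p.1 *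
        (ball ζ R).indicator (fun z => ENNReal.ofReal ‖ζ - z‖⁻¹) (circleMap ζ p.1 p.2)
      ≤ ∫⁻ p in polarCoord.target, (Ioo (0 : ℝ) R ×ˢ Ioo (-Real.pi) Real.pi).indicator
          (fun _ => (1 : ℝ≥0∞)) p := by
        apply setLIntegral_mono' polarCoord.open_target.measurableSet
        rintro ⟨r, θ⟩ hp
        rw [polarCoord_target] at hp
        have hr : 0 < r := hp.1
        have hn : ‖ζ - circleMap ζ r θ‖ = r := by
          rw [← norm_neg, neg_sub, circleMap_sub_center, norm_circleMap_zero, abs_of_pos hr]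
        by_cases hb : circleMap ζ r θ ∈ ball ζ R
        · rw [indicator_of_mem hb]
          simp only
          rw [hn, ← ENNReal.ofReal_mul hr.le, mul_inv_cancel₀ hr.ne']
          have hrR : r < R := by
            rw [mem_ball, dist_eq_norm, circleMap_sub_center, norm_circleMap_zero,
              abs_of_pos hr] at hb
            exact hb
          rw [indicator_of_mem (show (r, θ) ∈ Ioo (0 : ℝ) R ×ˢ Ioo (-Real.pi) Real.pi from
            ⟨⟨hr, hrR⟩, hp.2⟩)]
          simp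
        · rw [indicator_of_notMem hb]
          simp
    _ ≤ ∫⁻ p, (Ioo (0 : ℝ) R ×ˢ Ioo (-Real.pi) Real.pi).indicator (fun _ => (1 : ℝ≥0∞)) p :=
        setLIntegral_le_lintegral _ _
    _ = ENNReal.ofReal (2 * Real.pi * R) := by
        rw [lintegral_indicator (Avg_measSet R), setLIntegral_one, Measure.volume_eq_prod,
          Measure.prod_prod, Real.volume_Ioo, Real.volume_Ioo,
          ← ENNReal.ofReal_mul (by linarith)]
        congr 1
        ring

theorem Avg_meas (ζ : ℂ) : Measurable (fun z : ℂ => ‖ζ - z‖⁻¹) := by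
  fun_prop

/-- the lintegral form of `avg_inv` -/
theorem Avg_inv_l (z₀ ζ : ℂ) {b : ℝ} (hb : 0 < b) :
    ∫⁻ z in ball z₀ b, ENNReal.ofReal ‖ζ - z‖⁻¹ ≤ ENNReal.ofReal (3 * Real.pi * b) := by
  have hpi := Real.pi_pos
  have hsub : ball z₀ b ⊆ ball ζ b ∪ (ball z₀ b \ ball ζ b) := by
    intro z hz
    by_cases h : z ∈ ball ζ b
    · exact Or.inl h
    · exact Or.inr ⟨hz, h⟩
  calc ∫⁻ z in ball z₀ b, ENNReal.ofReal ‖ζ - z‖⁻¹
      ≤ ∫⁻ z in ball ζ b ∪ (ball z₀ b \ ball ζ b), ENNReal.ofReal ‖ζ - z‖⁻¹ :=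
        lintegral_mono_set hsub
    _ ≤ (∫⁻ z in ball ζ b, ENNReal.ofReal ‖ζ - z‖⁻¹) +
          ∫⁻ z in ball z₀ b \ ball ζ b, ENNReal.ofReal ‖ζ - z‖⁻¹ := lintegral_union_le _ _ _
    _ ≤ ENNReal.ofReal (2 * Real.pi * b) + ENNReal.ofReal (Real.pi * b) := by
        gcongr
        · exact Avg_inv_ball ζ hb.le
        · calc ∫⁻ z in ball z₀ b \ ball ζ b, ENNReal.ofReal ‖ζ - z‖⁻¹
              ≤ ∫⁻ _ in ball z₀ b \ ball ζ b, ENNReal.ofReal b⁻¹ := by
                apply setLIntegral_mono' (measurableSet_ball.diff measurableSet_ball)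
                intro z hz
                have h1 : b ≤ ‖ζ - z‖ := by
                  have := hz.2
                  rw [mem_ball, not_lt, dist_comm, dist_eq_norm] at this
                  exact this
                gcongr
            _ ≤ ∫⁻ _ in ball z₀ b, ENNReal.ofReal b⁻¹ := lintegral_mono_set sdiff_subset
            _ = ENNReal.ofReal (Real.pi * b) := by
                rw [setLIntegral_const, Complex.volume_ball, ← ENNReal.ofReal_pow hb.le,
                  ← ENNReal.ofReal_coe_nnreal, NNReal.coe_real_pi,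
                  ← ENNReal.ofReal_mul (by positivity), ← ENNReal.ofReal_mul (by positivity)]
                congr 1
                field_simp
    _ = ENNReal.ofReal (3 * Real.pi * b) := by
        rw [← ENNReal.ofReal_add (by positivity) (by positivity)]
        congr 1
        ring

theorem inv_integrable (z₀ ζ : ℂ) (b : ℝ) :
    IntegrableOn (fun z : ℂ => ‖ζ - z‖⁻¹) (ball z₀ b) := by
  rcases le_or_gt b 0 with hb | hb
  · rw [ball_eq_empty.mpr hb]
    exact integrableOn_empty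
  · refine ⟨(Avg_meas ζ).aestronglyMeasurable, ?_⟩
    rw [hasFiniteIntegral_iff_ofReal (Filter.Eventually.of_forall fun z => by positivity)]
    exact (Avg_inv_l z₀ ζ hb).trans_lt ENNReal.ofReal_lt_top

theorem Avg_to_real (z₀ ζ : ℂ) {b C : ℝ} (hC : 0 ≤ C)
    (h : ∫⁻ z in ball z₀ b, ENNReal.ofReal ‖ζ - z‖⁻¹ ≤ ENNReal.ofReal C) :
    ∫ z in ball z₀ b, ‖ζ - z‖⁻¹ ≤ C := by
  rw [← ofReal_integral_eq_lintegral_ofReal (inv_integrable z₀ ζ b)
    (Filter.Eventually.of_forall fun z => by positivity)] at h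
  exact (ENNReal.ofReal_le_ofReal_iff hC).1 h

theorem avg_inv (z₀ ζ : ℂ) {b : ℝ} (hb : 0 < b) :
    ∫ z in ball z₀ b, ‖ζ - z‖⁻¹ ≤ 3 * Real.pi * b :=
  Avg_to_real z₀ ζ (by positivity) (Avg_inv_l z₀ ζ hb)

/-- the case of a point far away -/
theorem Avg_far (z₀ ζ : ℂ) {b c : ℝ} (hb : 0 < b) (hc : 0 < c)
    (h : ∀ z ∈ ball z₀ b, c ≤ ‖ζ - z‖) :
    ∫ z in ball z₀ b, ‖ζ - z‖⁻¹ ≤ Real.pi * b ^ 2 / c := by
  apply Avg_to_real z₀ ζ (by positivity)
  calc ∫⁻ z in ball z₀ b, ENNReal.ofReal ‖ζ - z‖⁻¹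
      ≤ ∫⁻ _ in ball z₀ b, ENNReal.ofReal c⁻¹ := by
        apply setLIntegral_mono' measurableSet_ball
        intro z hz
        have := h z hz
        gcongr
    _ = ENNReal.ofReal (Real.pi * b ^ 2 / c) := by
        rw [setLIntegral_const, Complex.volume_ball, ← ENNReal.ofReal_pow hb.le,
          ← ENNReal.ofReal_coe_nnreal, NNReal.coe_real_pi,
          ← ENNReal.ofReal_mul (by positivity), ← ENNReal.ofReal_mul (by positivity)]
        congr 1
        field_simp

theorem avg_box {z₀ : ℂ} (hz₀ : z₀ ∈ HP) {I : Nd} {ζ : ℂ} (hζ : ζ ∈ box I) :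
    ∫ z in ball z₀ (z₀.im / 4), ‖ζ - z‖⁻¹ ≤
      250 * (z₀.im / 4) ^ 2 / ‖z₀ - (starRingEnd ℂ) (cen I)‖ := by
  have hy : 0 < z₀.im := hz₀
  set b : ℝ := z₀.im / 4 with hb
  have hbpos : 0 < b := by positivity
  have hl : 0 < len I := by unfold len; positivity
  obtain ⟨hx1, hx2, hy1, hy2⟩ := hζ
  set D : ℝ := ‖z₀ - (starRingEnd ℂ) (cen I)‖ with hD
  set e : ℝ := ‖z₀ - ζ‖ with he
  have he0 : 0 ≤ e := norm_nonneg _
  have hcim : (cen I).im = 3 / 2 * len I := rfl
  have hcre : (cen I).re = ((I.2 : ℝ) + 1 / 2) * len I := rfl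
  -- D is positive
  have hDpos : 0 < D := by
    have h1 : (z₀ - (starRingEnd ℂ) (cen I)).im = z₀.im + 3 / 2 * len I := by
      simp [hcim]
    have h2 := Complex.abs_im_le_norm (z₀ - (starRingEnd ℂ) (cen I))
    rw [h1, abs_of_pos (by positivity)] at h2
    have : 0 < z₀.im + 3 / 2 * len I := by positivity
    linarith
  -- len I ≤ y + e
  have hle : len I ≤ z₀.im + e := by
    have h1 := Complex.abs_im_le_norm (z₀ - ζ)
    rw [Complex.sub_im] at h1
    have h2 := (abs_le.mp h1).1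
    linarith
  -- D ≤ e + 4 len I
  have hDle : D ≤ e + 4 * len I := by
    have h1 : z₀ - (starRingEnd ℂ) (cen I) = (z₀ - ζ) + (ζ - (starRingEnd ℂ) (cen I)) := by ring
    have h2 : ‖ζ - (starRingEnd ℂ) (cen I)‖ ≤ 4 * len I := by
      have h3 := Complex.norm_le_abs_re_add_abs_im (ζ - (starRingEnd ℂ) (cen I))
      have h4 : (ζ - (starRingEnd ℂ) (cen I)).re = ζ.re - ((I.2 : ℝ) + 1 / 2) * len I := by
        simp [hcre]
      have h5 : (ζ - (starRingEnd ℂ) (cen I)).im = ζ.im + 3 / 2 * len I := by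
        simp [hcim]
      rw [h4, h5] at h3
      have h6 : |ζ.re - ((I.2 : ℝ) + 1 / 2) * len I| ≤ 1 / 2 * len I := by
        rw [abs_le]
        constructor <;> nlinarith
      have h7 : |ζ.im + 3 / 2 * len I| ≤ 7 / 2 * len I := by
        rw [abs_le]
        constructor <;> linarith
      linarith
    calc D = ‖(z₀ - ζ) + (ζ - (starRingEnd ℂ) (cen I))‖ := by rw [hD, h1]
      _ ≤ e + ‖ζ - (starRingEnd ℂ) (cen I)‖ := norm_add_le _ _
      _ ≤ e + 4 * len I := by linarith
  have hpi := Real.pi_lt_d2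
  have hpi0 := Real.pi_pos
  rcases le_or_gt (z₀.im / 2) e with hcase | hcase
  · have h1 : D ≤ 13 * e := by linarith
    have hepos : 0 < e := by linarith
    have h2 : ∀ z ∈ ball z₀ b, e / 2 ≤ ‖ζ - z‖ := by
      intro z hz
      rw [mem_ball, dist_eq_norm] at hz
      have h3 : e ≤ ‖z - z₀‖ + ‖ζ - z‖ := by
        have : z₀ - ζ = -((z - z₀) + (ζ - z)) := by ring
        rw [he, this, norm_neg]
        exact norm_add_le _ _
      linarith
    refine (Avg_far z₀ ζ hbpos (by linarith) h2).trans ?_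
    rw [div_le_div_iff₀ (by linarith) hDpos]
    have h4 : Real.pi * D ≤ 250 * (e / 2) := by nlinarith
    have := mul_le_mul_of_nonneg_left h4 (sq_nonneg b)
    nlinarith
  · have h1 : D ≤ 26 * b := by
      rw [hb]
      linarith
    refine (avg_inv z₀ ζ hbpos).trans ?_
    rw [le_div_iff₀ hDpos]
    have h4 : 3 * Real.pi * D ≤ 250 * b := by nlinarith
    nlinarith [mul_le_mul_of_nonneg_left h4 hbpos.le]

end Cor
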