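import Pool.Agent.helper45.Cor.Defs

/-!
Module COR-K: two integrals along a segment that depend holomorphically on a parameter.

PROOF.  `edge_cauchy`: differentiate under the integral sign
(`hasDerivAt_integral_of_dominated_loc_of_deriv_le` on `[0, s]`, the edge is compact and disjoint
from the open set `Ω`, so `|γ t - z|` is bounded below for `z` near `z₀`), or: it is a special case
of Mathlib's results on Cauchy type integrals.
`edge_dslope`: for fixed `ζ ∈ O` the function `dslope Ψ ζ` is holomorphic on `O`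
(`DifferentiableOn.dslope`-type lemmas: `differentiableOn_dslope`); it is jointly continuous in
`(ζ, z)` on `O × O` (locally it is the integral of `deriv Ψ` over the segment from `ζ` to `z`, or
use the Cauchy integral over a circle around `z₀`); then for a small closed disc around `z₀`
contained in `O` and `z` in a smaller disc, the values are bounded and the derivative in `z` is
bounded (Cauchy estimate), uniformly in `ζ` on the edge, so one may differentiate under the
integral sign.  Alternatively: the function is continuous in `z` and its integrals over boundaries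
of rectangles vanish (Fubini), use Morera (`IsConservativeOn`).
-/

noncomputable section

open Set

namespace Cor

open MeasureTheory Filter Topology Metric in
/-- an integral over `[0, s]` of a jointly continuous function, holomorphic in the parameter -/
theorem Ker_hol_param {X : Type*} [NormedAddCommGroup X] [NormedSpace ℂ X] [CompleteSpace X]
    {s : ℝ} (hs : 0 ≤ s) {g : ℝ → ℂ → X} {O : Set ℂ} (hO : IsOpen O)
    (hg : ContinuousOn (fun q : ℝ × ℂ => g q.1 q.2) (Icc (0 : ℝ) s ×ˢ O))
    (hd : ∀ t ∈ Icc (0 : ℝ) s, DifferentiableOn ℂ (g t) O) :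
    DifferentiableOn ℂ (fun z => ∫ t in (0 : ℝ)..s, g t z) O := by
  intro z₀ hz₀
  obtain ⟨R, hR, hball⟩ := Metric.isOpen_iff.1 hO z₀ hz₀
  set r : ℝ := R / 3 with hr
  have hr0 : 0 < r := by positivity
  have hcb : closedBall z₀ (2 * r) ⊆ O := by
    intro z hz
    apply hball
    rw [mem_closedBall] at hz
    rw [mem_ball]
    linarith
  -- bound
  obtain ⟨M, hM⟩ : ∃ M, ∀ q ∈ Icc (0 : ℝ) s ×ˢ closedBall z₀ (2 * r), ‖g q.1 q.2‖ ≤ M := by
    have hc : IsCompact (Icc (0 : ℝ) s ×ˢ closedBall z₀ (2 * r)) :=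
      isCompact_Icc.prod (isCompact_closedBall _ _)
    exact hc.exists_bound_of_continuousOn (hg.mono (Set.prod_mono le_rfl hcb))
  have hct : ∀ z ∈ O, ContinuousOn (fun t => g t z) (Icc (0 : ℝ) s) := by
    intro z hz
    exact hg.comp (f := fun t : ℝ => (t, z)) (by fun_prop) (fun t ht => ⟨ht, hz⟩)
  have hmeas : ∀ z ∈ O, AEStronglyMeasurable (fun t => g t z) (volume.restrict (Set.uIoc (0 : ℝ) s)) := by
    intro z hz
    have h1 : AEStronglyMeasurable (fun t => g t z) (volume.restrict (Icc (0 : ℝ) s)) :=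
      (hct z hz).aestronglyMeasurable measurableSet_Icc
    refine h1.mono_set ?_
    rw [uIoc_of_le hs]
    exact Ioc_subset_Icc_self
  have hderiv : ∀ t ∈ Icc (0 : ℝ) s, ∀ z ∈ ball z₀ r, HasDerivAt (g t) (deriv (g t) z) z := by
    intro t ht z hz
    have hzO : z ∈ O := hcb (by
      rw [mem_ball] at hz; rw [mem_closedBall]; linarith)
    exact ((hd t ht).differentiableAt (hO.mem_nhds hzO)).hasDerivAt
  have key := intervalIntegral.hasDerivAt_integral_of_dominated_loc_of_deriv_le
    (μ := volume) (a := (0 : ℝ)) (b := s) (𝕜 := ℂ) (F := fun z t => g t z)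
    (F' := fun z t => deriv (g t) z) (x₀ := z₀) (s := ball z₀ r) (bound := fun _ => M / r)
    (ball_mem_nhds z₀ hr0)
    (by
      filter_upwards [hO.mem_nhds hz₀] with z hz
      exact hmeas z hz)
    (by
      have h1 := hct z₀ hz₀
      rw [← uIcc_of_le hs] at h1
      exact h1.intervalIntegrable)
    (by
      have hu : Tendsto (fun n : ℕ => z₀ + ((r / ((n : ℝ) + 2) : ℝ) : ℂ)) atTop (𝓝[≠] z₀) := by
        rw [tendsto_nhdsWithin_iff]
        constructor
        · have h1 : Tendsto (fun n : ℕ => r / ((n : ℝ) + 2)) atTop (𝓝 0) := by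
            refine Tendsto.div_atTop tendsto_const_nhds ?_
            exact tendsto_atTop_add_const_right _ _ tendsto_natCast_atTop_atTop
          have h2 : Tendsto (fun n : ℕ => ((r / ((n : ℝ) + 2) : ℝ) : ℂ)) atTop (𝓝 ((0 : ℝ) : ℂ)) :=
            (Complex.continuous_ofReal.tendsto 0).comp h1
          have h3 := h2.const_add z₀
          simpa using h3
        · refine Eventually.of_forall fun n => ?_
          rw [Set.mem_compl_iff, Set.mem_singleton_iff]
          intro h
          have h1 : ((r / ((n : ℝ) + 2) : ℝ) : ℂ) = 0 := by simpa using h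
          have h2 : r / ((n : ℝ) + 2) = 0 := by exact_mod_cast h1
          have h3 : 0 < r / ((n : ℝ) + 2) := by positivity
          linarith
      refine aestronglyMeasurable_of_tendsto_ae atTop
        (f := fun (n : ℕ) (t : ℝ) => slope (g t) z₀ (z₀ + ((r / ((n : ℝ) + 2) : ℝ) : ℂ)))
        (fun n => ?_) ?_
      · have hz1 : z₀ + ((r / ((n : ℝ) + 2) : ℝ) : ℂ) ∈ O := by
          apply hcb
          rw [mem_closedBall, dist_eq_norm, add_sub_cancel_left, Complex.norm_real, Real.norm_eq_abs,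
            abs_of_nonneg (by positivity)]
          rw [div_le_iff₀ (by positivity)]
          nlinarith [hr0, (Nat.cast_nonneg n : (0 : ℝ) ≤ (n : ℝ))]
        have h1 : (fun t : ℝ => slope (g t) z₀ (z₀ + ((r / ((n : ℝ) + 2) : ℝ) : ℂ)))
            = fun t : ℝ => (z₀ + ((r / ((n : ℝ) + 2) : ℝ) : ℂ) - z₀)⁻¹ •
              (g t (z₀ + ((r / ((n : ℝ) + 2) : ℝ) : ℂ)) - g t z₀) := by
          funext t
          rw [slope_def_module]
        rw [h1]
        exact ((hmeas _ hz1).sub (hmeas _ hz₀)).const_smul _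
      · rw [ae_restrict_iff' measurableSet_uIoc]
        refine Eventually.of_forall fun t ht => ?_
        rw [uIoc_of_le hs] at ht
        have h1 := (hderiv t (Ioc_subset_Icc_self ht) z₀ (mem_ball_self hr0)).tendsto_slope
        exact h1.comp hu)
    (by
      refine Eventually.of_forall fun t ht z hz => ?_
      rw [uIoc_of_le hs] at ht
      have ht' := Ioc_subset_Icc_self ht
      have hsub : closedBall z r ⊆ closedBall z₀ (2 * r) := by
        intro x hx
        rw [mem_closedBall] at hx ⊢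
        rw [mem_ball] at hz
        have := dist_triangle x z z₀
        linarith
      refine Complex.norm_deriv_le_of_forall_mem_sphere_norm_le hr0 ?_ ?_
      · refine DifferentiableOn.diffContOnCl ?_
        rw [closure_ball z hr0.ne']
        exact (hd t ht').mono (hsub.trans hcb)
      · intro x hx
        exact hM (t, x) ⟨ht', hsub (sphere_subset_closedBall hx)⟩)
    intervalIntegrable_const
    (by
      refine Eventually.of_forall fun t ht z hz => ?_
      rw [uIoc_of_le hs] at ht
      exact hderiv t (Ioc_subset_Icc_self ht) z hz)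
  exact key.2.differentiableAt.differentiableWithinAt

open Filter Topology in
/-- joint continuity of the difference quotient -/
theorem Ker_dslope_cont {X : Type*} [NormedAddCommGroup X] [NormedSpace ℂ X] [CompleteSpace X]
    {Ψ : ℂ → X} {O : Set ℂ} (hO : IsOpen O) (hΨ : DifferentiableOn ℂ Ψ O) :
    ContinuousOn (fun q : ℂ × ℂ => dslope Ψ q.1 q.2) (O ×ˢ O) := by
  rintro ⟨a, b⟩ ⟨ha, hb⟩
  have ha : a ∈ O := ha
  have hb : b ∈ O := hb
  refine ContinuousAt.continuousWithinAt ?_
  have hcont : ∀ x ∈ O, ContinuousAt Ψ x := fun x hx =>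
    (hΨ.differentiableAt (hO.mem_nhds hx)).continuousAt
  by_cases hab : b = a
  · subst hab
    have han : AnalyticAt ℂ Ψ b := hΨ.analyticAt (hO.mem_nhds hb)
    have hst : HasStrictDerivAt Ψ (deriv Ψ b) b := han.hasStrictDerivAt
    have hdc : ContinuousAt (deriv Ψ) b := han.deriv.continuousAt
    rw [ContinuousAt, Metric.tendsto_nhds]
    intro ε hε
    have h1 : ∀ᶠ q : ℂ × ℂ in 𝓝 (b, b),
        ‖Ψ q.1 - Ψ q.2 - (q.1 - q.2) • deriv Ψ b‖ ≤ ε / 2 * ‖q.1 - q.2‖ := by
      have h0 := (hst.hasStrictFDerivAt.isLittleO).def (half_pos hε)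
      simpa using h0
    have h2 : ∀ᶠ q : ℂ × ℂ in 𝓝 (b, b), dist (deriv Ψ q.1) (deriv Ψ b) < ε := by
      have h3 : Tendsto (fun q : ℂ × ℂ => deriv Ψ q.1) (𝓝 (b, b)) (𝓝 (deriv Ψ b)) :=
        hdc.tendsto.comp continuous_fst.continuousAt
      exact (Metric.tendsto_nhds.1 h3) ε hε
    filter_upwards [h1, h2] with q hq1 hq2
    show dist (dslope Ψ q.1 q.2) (dslope Ψ b b) < ε
    rw [dslope_same]
    by_cases hq : q.2 = q.1
    · rw [hq, dslope_same]
      exact hq2
    · rw [dslope_of_ne _ hq, slope_def_module, dist_eq_norm]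
      have hne : q.1 - q.2 ≠ 0 := sub_ne_zero.2 (Ne.symm hq)
      have hne' : q.2 - q.1 ≠ 0 := sub_ne_zero.2 hq
      have h3 : (q.2 - q.1)⁻¹ • (Ψ q.2 - Ψ q.1) - deriv Ψ b
          = (q.1 - q.2)⁻¹ • (Ψ q.1 - Ψ q.2 - (q.1 - q.2) • deriv Ψ b) := by
        rw [smul_sub (q.1 - q.2)⁻¹ (Ψ q.1 - Ψ q.2), smul_smul, inv_mul_cancel₀ hne, one_smul,
          ← neg_sub (q.1) (q.2), ← neg_sub (Ψ q.1) (Ψ q.2), inv_neg, neg_smul, smul_neg, neg_neg]
      rw [h3, norm_smul, norm_inv]
      have hpos : 0 < ‖q.1 - q.2‖ := norm_pos_iff.2 hne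
      have h4 : ‖q.1 - q.2‖⁻¹ * ‖Ψ q.1 - Ψ q.2 - (q.1 - q.2) • deriv Ψ b‖ ≤ ε / 2 := by
        rw [inv_mul_le_iff₀ hpos, mul_comm]
        exact hq1
      linarith
  · have hev : ∀ᶠ q : ℂ × ℂ in 𝓝 (a, b), q.2 ≠ q.1 := by
      have h1 : IsOpen {q : ℂ × ℂ | q.2 ≠ q.1} := isOpen_ne_fun continuous_snd continuous_fst
      exact h1.mem_nhds hab
    have h2 : ContinuousAt (fun q : ℂ × ℂ => (q.2 - q.1)⁻¹ • (Ψ q.2 - Ψ q.1)) (a, b) := by
      refine ContinuousAt.smul ?_ ?_
      · refine ContinuousAt.inv₀ (by fun_prop) ?_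
        exact sub_ne_zero.2 hab
      · refine ContinuousAt.sub ?_ ?_
        · exact ContinuousAt.comp (f := fun q : ℂ × ℂ => q.2) (g := Ψ) (hcont b hb)
            continuous_snd.continuousAt
        · exact ContinuousAt.comp (f := fun q : ℂ × ℂ => q.1) (g := Ψ) (hcont a ha)
            continuous_fst.continuousAt
    refine h2.congr ?_
    filter_upwards [hev] with q hq
    rw [dslope_of_ne _ hq, slope_def_module]

theorem edge_cauchy {X : Type*} [NormedAddCommGroup X] [NormedSpace ℂ X] [CompleteSpace X]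
    {p d : ℂ} {s : ℝ} (hs : 0 ≤ s) {f : ℂ → X}
    (hf : ContinuousOn (fun t : ℝ => f (p + d * t)) (Icc 0 s)) {Ω : Set ℂ} (hΩ : IsOpen Ω)
    (hd : ∀ t ∈ Icc (0 : ℝ) s, p + d * t ∉ Ω) :
    DifferentiableOn ℂ (fun z => eInt p d s (fun ζ => (ζ - z)⁻¹ • f ζ)) Ω := by
  have hne : ∀ t ∈ Icc (0 : ℝ) s, ∀ z ∈ Ω, p + d * t - z ≠ 0 := by
    intro t ht z hz h
    exact hd t ht (by rw [sub_eq_zero.1 h]; exact hz)
  have key := Ker_hol_param (X := X) hs hΩ
    (g := fun t z => (p + d * t - z)⁻¹ • f (p + d * t)) (by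
      refine ContinuousOn.smul ?_ ?_
      · refine ContinuousOn.inv₀ (by fun_prop) ?_
        rintro ⟨t, z⟩ ⟨ht, hz⟩
        exact hne t ht z hz
      · exact hf.comp (f := fun q : ℝ × ℂ => q.1) (by fun_prop) (fun q hq => hq.1))
    (by
      intro t ht
      refine DifferentiableOn.smul_const ?_ _
      refine DifferentiableOn.inv (by fun_prop) ?_
      intro z hz
      exact hne t ht z hz)
  exact key.const_smul d

theorem edge_dslope {X : Type*} [NormedCommRing X] [NormedAlgebra ℂ X] [CompleteSpace X]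
    {p d : ℂ} {s : ℝ} (hs : 0 ≤ s) {w Ψ : ℂ → X}
    (hw : ContinuousOn (fun t : ℝ => w (p + d * t)) (Icc 0 s)) {O : Set ℂ} (hO : IsOpen O)
    (hΨ : DifferentiableOn ℂ Ψ O) (hd : ∀ t ∈ Icc (0 : ℝ) s, p + d * t ∈ O) :
    DifferentiableOn ℂ (fun z => eInt p d s (fun ζ => w ζ * dslope Ψ ζ z)) O := by
  have key := Ker_hol_param (X := X) hs hO
    (g := fun t z => w (p + d * t) * dslope Ψ (p + d * t) z) (by
      refine ContinuousOn.mul ?_ ?_
      · exact hw.comp (f := fun q : ℝ × ℂ => q.1) (by fun_prop) (fun q hq => hq.1)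
      · exact (Ker_dslope_cont hO hΨ).comp (f := fun q : ℝ × ℂ => ((p + d * (q.1 : ℂ), q.2) : ℂ × ℂ))
          (by fun_prop) (fun q hq => ⟨hd q.1 hq.1, hq.2⟩))
    (by
      intro t ht
      refine DifferentiableOn.const_mul ?_ _
      exact (Complex.differentiableOn_dslope (hO.mem_nhds (hd t ht))).2 hΨ)
  exact key.const_smul d

/-- integrability of the integrand of `edge_dslope` along the edge -/
theorem edge_dslope_cont {X : Type*} [NormedCommRing X] [NormedAlgebra ℂ X] [CompleteSpace X]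
    {p d : ℂ} {s : ℝ} {w Ψ : ℂ → X}
    (hw : ContinuousOn (fun t : ℝ => w (p + d * t)) (Icc 0 s)) {O : Set ℂ} (hO : IsOpen O)
    (hΨ : DifferentiableOn ℂ Ψ O) (hd : ∀ t ∈ Icc (0 : ℝ) s, p + d * t ∈ O) {z : ℂ} (hz : z ∈ O) :
    ContinuousOn (fun t : ℝ => w (p + d * t) * dslope Ψ (p + d * t) z) (Icc 0 s) := by
  refine ContinuousOn.mul hw ?_
  exact (Ker_dslope_cont hO hΨ).comp (f := fun t : ℝ => ((p + d * (t : ℂ), z) : ℂ × ℂ))
    (by fun_prop) (fun t ht => ⟨hd t ht, hz⟩)

end Cor
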