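import Pool.Agent.helper45.Cor.CoreD
import Pool.Agent.helper45.Cor.Ker
import Pool.Agent.helper45.Cor.Jones

/-!
Module COR-C1: algebra of the kernels.

PROOFS.
`Aker_diff`: finite sum over `i` of `edge_dslope` with
`w ζ = (Phi G e.I ζ)⁻¹ • WW S e.lp e.lm j i ζ` and `Ψ z = Phi G e.I z • F i z` (holomorphic on `HP`
by `phi_diff`); `box I ⊆ HP`.
`Aker_eq`: for `z` not on the edge `dslope Ψ ζ z = (z - ζ)⁻¹ • (Ψ z - Ψ ζ)` (`dslope_of_ne`,
`slope`), so the integrand of `Aker` is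
`-(∑ i, WW * ((Φ ζ)⁻¹ (ζ - z)⁻¹) • Ψ_i z) + (ζ - z)⁻¹ • ∑ i, WW S lp lm j i ζ * F i ζ`, and
`∑ i, WW S lp lm j i ζ * F i ζ = S lp j ζ * 1 - S lm j ζ * 1`.
`Vker_sum`: put the sum over `j` inside the integral; the integrand is
`c ζ • ∑ j, ∑ i, F j z * WW S lp lm j i ζ * F i z = 0` because `WW .. j i = - WW .. i j`.
-/

noncomputable section

open Set

namespace Cor

variable {X : Type*} [NormedCommRing X] [NormedAlgebra ℂ X] [CompleteSpace X]
variable {Λ : Type*} {k : ℕ}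

theorem box_sub_HP (I : Nd) : box I ⊆ HP := by
  intro z hz
  exact lt_of_lt_of_le (Jones_len_pos I) hz.2.2.1

theorem Core1_HP_open : IsOpen HP := isOpen_lt continuous_const Complex.continuous_im

theorem Core1_hp {G : Finset Nd} {e : Edge Λ} (he : e.Good G) {t : ℝ} (ht : t ∈ Icc (0 : ℝ) e.s) :
    e.pt t ∈ HP := box_sub_HP _ (he.sub t ht)

theorem Core1_pt_cont (e : Edge Λ) : Continuous e.pt := by
  unfold Edge.pt
  fun_prop

theorem Core1_phi_cont {G : Finset Nd} {e : Edge Λ} (he : e.Good G) :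
    ContinuousOn (fun t : ℝ => (Phi G e.I (e.pt t))⁻¹) (Icc 0 e.s) := by
  refine ContinuousOn.inv₀ ?_ (fun t ht => phi_ne G e.I (Core1_hp he ht))
  exact (phi_diff G e.I).continuousOn.comp (Core1_pt_cont e).continuousOn
    (fun t ht => Core1_hp he ht)

theorem Core1_WW_cont {K : ℝ} {F : Fin k → ℂ → X} {S : Λ → Fin k → ℂ → X} {e : Edge Λ}
    (hS : EdgeSol K F S e) (j i : Fin k) :
    ContinuousOn (fun t : ℝ => WW S e.lp e.lm j i (e.pt t)) (Icc 0 e.s) := by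
  unfold WW
  exact ((hS.cp j).mul (hS.cm i)).sub ((hS.cm j).mul (hS.cp i))

theorem Core1_psi {G : Finset Nd} {F : Fin k → ℂ → X}
    (hF : ∀ j, DifferentiableOn ℂ (F j) HP) (I : Nd) (i : Fin k) :
    DifferentiableOn ℂ (fun z => Phi G I z • F i z) HP := (phi_diff G I).smul (hF i)

theorem Aker_diff {G : Finset Nd} {K : ℝ} {F : Fin k → ℂ → X}
    (hF : ∀ j, DifferentiableOn ℂ (F j) HP) {S : Λ → Fin k → ℂ → X} {e : Edge Λ}
    (he : e.Good G) (hS : EdgeSol K F S e) (j : Fin k) :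
    DifferentiableOn ℂ (Aker G F S e j) HP := by
  have key := Ker_hol_param (X := X) he.s0 Core1_HP_open
    (g := fun t z => ∑ i, WW S e.lp e.lm j i (e.pt t) *
      ((Phi G e.I (e.pt t))⁻¹ • dslope (fun z => Phi G e.I z • F i z) (e.pt t) z)) (by
      refine continuousOn_finsetSum _ fun i _ => ?_
      refine ContinuousOn.mul ?_ (ContinuousOn.smul ?_ ?_)
      · exact (Core1_WW_cont hS j i).comp (f := fun q : ℝ × ℂ => q.1) (by fun_prop)
          (fun q hq => hq.1)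
      · exact (Core1_phi_cont he).comp (f := fun q : ℝ × ℂ => q.1) (by fun_prop)
          (fun q hq => hq.1)
      · exact (Ker_dslope_cont Core1_HP_open (Core1_psi hF e.I i)).comp
          (f := fun q : ℝ × ℂ => ((e.pt q.1, q.2) : ℂ × ℂ))
          (((Core1_pt_cont e).comp continuous_fst).prodMk continuous_snd).continuousOn
          (fun q hq => ⟨Core1_hp he hq.1, hq.2⟩))
    (by
      intro t ht
      refine DifferentiableOn.fun_sum fun i _ => ?_
      refine DifferentiableOn.const_mul (DifferentiableOn.fun_const_smul ?_ _) _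
      exact (Complex.differentiableOn_dslope
        (Core1_HP_open.mem_nhds (Core1_hp he ht))).2 (Core1_psi hF e.I i))
  exact key.const_smul e.d

theorem Core1_inv_cont {e : Edge Λ} {z : ℂ} (hne : ∀ t ∈ Icc (0 : ℝ) e.s, e.pt t ≠ z) :
    ContinuousOn (fun t : ℝ => (e.pt t - z)⁻¹) (Icc 0 e.s) := by
  refine ContinuousOn.inv₀ ((Core1_pt_cont e).continuousOn.sub continuousOn_const) ?_
  intro t ht
  exact sub_ne_zero.2 (hne t ht)

theorem Core1_V_cont {G : Finset Nd} {K : ℝ} {F : Fin k → ℂ → X}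
    {S : Λ → Fin k → ℂ → X} {e : Edge Λ}
    (he : e.Good G) (hS : EdgeSol K F S e) (j : Fin k) {z : ℂ}
    (hne : ∀ t ∈ Icc (0 : ℝ) e.s, e.pt t ≠ z) :
    ContinuousOn (fun t : ℝ => ∑ i, WW S e.lp e.lm j i (e.pt t) *
      (((Phi G e.I (e.pt t))⁻¹ * (e.pt t - z)⁻¹) • (Phi G e.I z • F i z))) (Icc 0 e.s) := by
  refine continuousOn_finsetSum _ fun i _ => ?_
  exact (Core1_WW_cont hS j i).mul
    (((Core1_phi_cont he).mul (Core1_inv_cont hne)).smul continuousOn_const)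

theorem Core1_II {E : Type*} [NormedAddCommGroup E] {s : ℝ} (hs : 0 ≤ s) {f : ℝ → E}
    (hf : ContinuousOn f (Icc 0 s)) : IntervalIntegrable f MeasureTheory.volume 0 s := by
  rw [← uIcc_of_le hs] at hf
  exact hf.intervalIntegrable

theorem Core1_pw {G : Finset Nd} {K : ℝ} {F : Fin k → ℂ → X} {S : Λ → Fin k → ℂ → X}
    {e : Edge Λ} (he : e.Good G) (hS : EdgeSol K F S e) (j : Fin k) {z : ℂ}
    {t : ℝ} (ht : t ∈ Icc (0 : ℝ) e.s) (hne : e.pt t ≠ z) :
    (∑ i, WW S e.lp e.lm j i (e.pt t) *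
      ((Phi G e.I (e.pt t))⁻¹ • dslope (fun z => Phi G e.I z • F i z) (e.pt t) z)) =
    (e.pt t - z)⁻¹ • (S e.lp j (e.pt t) - S e.lm j (e.pt t)) -
      ∑ i, WW S e.lp e.lm j i (e.pt t) *
        (((Phi G e.I (e.pt t))⁻¹ * (e.pt t - z)⁻¹) • (Phi G e.I z • F i z)) := by
  have hΦ : Phi G e.I (e.pt t) ≠ 0 := phi_ne G e.I (Core1_hp he ht)
  obtain ⟨ζ, hζ⟩ : ∃ ζ, ζ = e.pt t := ⟨_, rfl⟩
  have h1 := hS.sp t ht
  have h2 := hS.sm t ht
  rw [← hζ] at h1 h2 hΦ hne ⊢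
  have hw : ∑ i, WW S e.lp e.lm j i ζ * F i ζ = S e.lp j ζ - S e.lm j ζ := by
    unfold WW
    have a : ∀ i, (S e.lp j ζ * S e.lm i ζ - S e.lm j ζ * S e.lp i ζ) * F i ζ =
        S e.lp j ζ * (F i ζ * S e.lm i ζ) - S e.lm j ζ * (F i ζ * S e.lp i ζ) := by
      intro i
      ring
    rw [Finset.sum_congr rfl fun i _ => a i, Finset.sum_sub_distrib, ← Finset.mul_sum,
      ← Finset.mul_sum, h1, h2, mul_one, mul_one]
  rw [← hw, Finset.smul_sum, ← Finset.sum_sub_distrib]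
  refine Finset.sum_congr rfl fun i _ => ?_
  rw [dslope_of_ne _ (Ne.symm hne), slope_def_module]
  have hn1 : (z - ζ)⁻¹ = -(ζ - z)⁻¹ := by rw [← neg_sub ζ z, inv_neg]
  have hcore : (Phi G e.I ζ)⁻¹ • (z - ζ)⁻¹ • (Phi G e.I z • F i z - Phi G e.I ζ • F i ζ) =
      (ζ - z)⁻¹ • F i ζ - ((Phi G e.I ζ)⁻¹ * (ζ - z)⁻¹) • (Phi G e.I z • F i z) := by
    rw [hn1, smul_sub, smul_sub, smul_smul (-(ζ - z)⁻¹) (Phi G e.I ζ), smul_smul, smul_smul,
      smul_smul]
    have a : (Phi G e.I ζ)⁻¹ * (-(ζ - z)⁻¹ * Phi G e.I ζ) = -(ζ - z)⁻¹ := by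
      field_simp
    have b : (Phi G e.I ζ)⁻¹ * -(ζ - z)⁻¹ = -((Phi G e.I ζ)⁻¹ * (ζ - z)⁻¹) := by ring
    rw [a, smul_smul, b]
    simp only [neg_mul, neg_smul, smul_smul]
    abel
  rw [hcore, mul_sub, mul_smul_comm]

theorem Aker_eq {G : Finset Nd} {K : ℝ} {F : Fin k → ℂ → X}
    (hF : ∀ j, DifferentiableOn ℂ (F j) HP) {S : Λ → Fin k → ℂ → X} {e : Edge Λ}
    (he : e.Good G) (hS : EdgeSol K F S e) (j : Fin k) {z : ℂ} (hz : z ∈ HP)
    (hne : ∀ t ∈ Icc (0 : ℝ) e.s, e.pt t ≠ z) :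
    Aker G F S e j z =
      eInt e.p e.d e.s (fun ζ => (ζ - z)⁻¹ • (S e.lp j ζ - S e.lm j ζ)) -
        Vker G F S e j z := by
  have c1 : ContinuousOn (fun t : ℝ => (e.pt t - z)⁻¹ •
      (S e.lp j (e.pt t) - S e.lm j (e.pt t))) (Icc 0 e.s) :=
    (Core1_inv_cont hne).smul ((hS.cp j).sub (hS.cm j))
  have c2 := Core1_V_cont he hS j hne
  have e1 : ∫ t in (0 : ℝ)..e.s, (∑ i, WW S e.lp e.lm j i (e.pt t) *
      ((Phi G e.I (e.pt t))⁻¹ • dslope (fun z => Phi G e.I z • F i z) (e.pt t) z)) =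
      ∫ t in (0 : ℝ)..e.s, ((e.pt t - z)⁻¹ • (S e.lp j (e.pt t) - S e.lm j (e.pt t)) -
        ∑ i, WW S e.lp e.lm j i (e.pt t) *
          (((Phi G e.I (e.pt t))⁻¹ * (e.pt t - z)⁻¹) • (Phi G e.I z • F i z))) := by
    apply intervalIntegral.integral_congr
    intro t ht
    rw [uIcc_of_le he.s0] at ht
    exact Core1_pw he hS j ht (hne t ht)
  rw [intervalIntegral.integral_sub (Core1_II he.s0 c1) (Core1_II he.s0 c2)] at e1
  unfold Aker Vker eInt
  rw [← smul_sub]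
  exact congrArg (fun v => e.d • v) e1

theorem Vker_sum {G : Finset Nd} {K : ℝ} {F : Fin k → ℂ → X}
    (hF : ∀ j, DifferentiableOn ℂ (F j) HP) {S : Λ → Fin k → ℂ → X} {e : Edge Λ}
    (he : e.Good G) (hS : EdgeSol K F S e) {z : ℂ} (hz : z ∈ HP)
    (hne : ∀ t ∈ Icc (0 : ℝ) e.s, e.pt t ≠ z) :
    ∑ j, F j z * Vker G F S e j z = 0 := by
  have h1 : ∀ j, F j z * Vker G F S e j z = e.d • ∫ t in (0 : ℝ)..e.s, F j z *
      ∑ i, WW S e.lp e.lm j i (e.pt t) *
        (((Phi G e.I (e.pt t))⁻¹ * (e.pt t - z)⁻¹) • (Phi G e.I z • F i z)) := by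
    intro j
    have c2 := Core1_II he.s0 (Core1_V_cont he hS j hne)
    have a := (ContinuousLinearMap.mul ℂ X (F j z)).intervalIntegral_comp_comm c2
    simp only [ContinuousLinearMap.mul_apply'] at a
    rw [a]
    unfold Vker eInt
    rw [mul_smul_comm]
    rfl
  rw [Finset.sum_congr rfl fun j _ => h1 j, ← Finset.smul_sum,
    ← intervalIntegral.integral_finsetSum]
  · have h2 : ∀ t : ℝ, ∑ j, F j z * ∑ i, WW S e.lp e.lm j i (e.pt t) *
        (((Phi G e.I (e.pt t))⁻¹ * (e.pt t - z)⁻¹) • (Phi G e.I z • F i z)) = 0 := by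
      intro t
      obtain ⟨ζ, hζ⟩ : ∃ ζ, ζ = e.pt t := ⟨_, rfl⟩
      obtain ⟨c, hc⟩ : ∃ c, c = (Phi G e.I ζ)⁻¹ * (ζ - z)⁻¹ * Phi G e.I z := ⟨_, rfl⟩
      rw [← hζ]
      have h3 : ∀ j, F j z * ∑ i, WW S e.lp e.lm j i ζ *
          (((Phi G e.I ζ)⁻¹ * (ζ - z)⁻¹) • (Phi G e.I z • F i z)) =
          c • ∑ i, F j z * WW S e.lp e.lm j i ζ * F i z := by
        intro j
        rw [Finset.mul_sum, Finset.smul_sum]
        refine Finset.sum_congr rfl fun i _ => ?_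
        rw [smul_smul, ← hc, mul_smul_comm, mul_smul_comm, mul_assoc]
      rw [Finset.sum_congr rfl fun j _ => h3 j, ← Finset.smul_sum]
      have h4 : ∑ j, ∑ i, F j z * WW S e.lp e.lm j i ζ * F i z =
          -∑ j, ∑ i, F j z * WW S e.lp e.lm j i ζ * F i z := by
        conv_lhs => rw [Finset.sum_comm]
        rw [← Finset.sum_neg_distrib]
        refine Finset.sum_congr rfl fun j _ => ?_
        rw [← Finset.sum_neg_distrib]
        refine Finset.sum_congr rfl fun i _ => ?_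
        unfold WW
        ring
      have h5 : ∑ j, ∑ i, F j z * WW S e.lp e.lm j i ζ * F i z = 0 := by
        have h6 : (2 : ℂ) • ∑ j, ∑ i, F j z * WW S e.lp e.lm j i ζ * F i z = 0 := by
          rw [two_smul]
          nth_rewrite 1 [h4]
          exact neg_add_cancel _
        rcases smul_eq_zero.1 h6 with h | h
        · norm_num at h
        · exact h
      rw [h5, smul_zero]
    rw [intervalIntegral.integral_congr (g := fun _ => (0 : X)) (fun t _ => h2 t)]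
    simp
  · intro j _
    apply Core1_II he.s0
    exact continuousOn_const.mul (Core1_V_cont he hS j hne)

end Cor
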