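import Pool.Agent.helper45.Cor.CoreD
import Pool.Agent.helper45.Cor.Jones
import Pool.Agent.helper45.Cor.Avg

/-!
Module COR-C2: the area average of the correction terms.

PROOF.  `Vker_le`: for `z` not on the edge with `dist z z₀ ≤ z₀.im / 4` (so `z ∈ HP`):
`‖WW‖ ≤ 2 K²`, `‖(Phi ζ)⁻¹‖ ≤ 5 exp (5/3 T) len I` (`phi_inv`), `‖Phi z‖ ≤ 4/3 PB` (`phi_le`),
`‖F i z‖ ≤ 1`, the length element has norm one: the bound follows from
`norm_integral_le` on `[0, s]`.
`Vker_avg`: integrate `Vker_le` over the disc, Fubini (Tonelli for the nonnegative function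
`(t, z) ↦ ‖pt t - z‖⁻¹` on `[0, s] × ball`; it is integrable there by `inv_integrable`/`avg_inv`
uniformly in `t`) and `avg_box`; `s ≤ len I`.
It is stated as an integral of an upper bound function `U e z₀ z` so that the measurability of
`Vker` is not needed.
-/

noncomputable section

open Set MeasureTheory Metric

namespace Cor

variable {X : Type*} [NormedCommRing X] [NormedAlgebra ℂ X] [CompleteSpace X]
variable {Λ : Type*} {k : ℕ}

/-- the bound function: constant times `∫_0^s ‖pt t - z‖⁻¹ dt` -/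
def UU (k : ℕ) (K T : ℝ) (G : Finset Nd) (e : Edge Λ) (z₀ z : ℂ) : ℝ :=
  (k * (2 * K ^ 2) * (5 * Real.exp (5 / 3 * T) * len e.I) * (4 / 3 * PB G e.I z₀)) *
    ∫ t in (0 : ℝ)..e.s, ‖e.pt t - z‖⁻¹

theorem Core2_PB_nonneg (G : Finset Nd) (I : Nd) (z : ℂ) : 0 ≤ PB G I z := by
  unfold PB
  positivity

theorem Core2_len_nonneg (I : Nd) : 0 ≤ len I := by
  unfold len
  positivity

theorem Core2_pt_continuous (e : Edge Λ) : Continuous e.pt := by
  unfold Edge.pt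
  fun_prop

theorem Vker_le {G : Finset Nd} {T K : ℝ} (hK : 0 ≤ K)
    (hT : ∀ z ∈ HP, ∑ p ∈ G, om z (cen p) ≤ T) {F : Fin k → ℂ → X}
    (hF : ∀ j, DifferentiableOn ℂ (F j) HP) (hF1 : ∀ j, ∀ z ∈ HP, ‖F j z‖ ≤ 1)
    {S : Λ → Fin k → ℂ → X} {e : Edge Λ} (he : e.Good G) (hS : EdgeSol K F S e) (j : Fin k)
    {z z₀ : ℂ} (hz₀ : z₀ ∈ HP) (hz : dist z z₀ ≤ z₀.im / 4)
    (hne : ∀ t ∈ Icc (0 : ℝ) e.s, e.pt t ≠ z) :
    ‖Vker G F S e j z‖ ≤ UU k K T G e z₀ z := by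
  have hz₀' : 0 < z₀.im := hz₀
  have hzHP : z ∈ HP := by
    have h1 : |(z - z₀).im| ≤ ‖z - z₀‖ := Complex.abs_im_le_norm _
    rw [dist_eq_norm] at hz
    have h2 := neg_abs_le (z - z₀).im
    rw [Complex.sub_im] at h1 h2
    show 0 < z.im
    linarith
  have hd : ‖e.d‖ = 1 := by
    rcases he.dir with h | h <;> rw [h] <;> simp
  set C : ℝ := k * (2 * K ^ 2) * (5 * Real.exp (5 / 3 * T) * len e.I) * (4 / 3 * PB G e.I z₀)
    with hC
  have hPB := Core2_PB_nonneg G e.I z₀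
  have hlen := Core2_len_nonneg e.I
  have hbound : ∀ t ∈ Icc (0 : ℝ) e.s,
      ‖∑ i, WW S e.lp e.lm j i (e.pt t) *
        (((Phi G e.I (e.pt t))⁻¹ * (e.pt t - z)⁻¹) • (Phi G e.I z • F i z))‖ ≤
        C * ‖e.pt t - z‖⁻¹ := by
    intro t ht
    have hterm : ∀ i : Fin k, ‖WW S e.lp e.lm j i (e.pt t) *
        (((Phi G e.I (e.pt t))⁻¹ * (e.pt t - z)⁻¹) • (Phi G e.I z • F i z))‖ ≤
        (2 * K ^ 2) * ((5 * Real.exp (5 / 3 * T) * len e.I) * ‖e.pt t - z‖⁻¹ *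
          ((4 / 3 * PB G e.I z₀) * 1)) := by
      intro i
      have h1 : ‖WW S e.lp e.lm j i (e.pt t)‖ ≤ 2 * K ^ 2 := by
        unfold WW
        calc ‖S e.lp j (e.pt t) * S e.lm i (e.pt t) - S e.lm j (e.pt t) * S e.lp i (e.pt t)‖
            ≤ ‖S e.lp j (e.pt t) * S e.lm i (e.pt t)‖ +
              ‖S e.lm j (e.pt t) * S e.lp i (e.pt t)‖ := norm_sub_le _ _
          _ ≤ ‖S e.lp j (e.pt t)‖ * ‖S e.lm i (e.pt t)‖ +
              ‖S e.lm j (e.pt t)‖ * ‖S e.lp i (e.pt t)‖ :=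
            add_le_add (norm_mul_le _ _) (norm_mul_le _ _)
          _ ≤ K * K + K * K := by
            apply add_le_add
            · exact mul_le_mul (hS.bp j t ht) (hS.bm i t ht) (norm_nonneg _) hK
            · exact mul_le_mul (hS.bm j t ht) (hS.bp i t ht) (norm_nonneg _) hK
          _ = 2 * K ^ 2 := by ring
      have h2 : ‖(Phi G e.I (e.pt t))⁻¹‖ ≤ 5 * Real.exp (5 / 3 * T) * len e.I :=
        phi_inv hT (he.sub t ht)
      have h3 : ‖Phi G e.I z‖ ≤ 4 / 3 * PB G e.I z₀ := phi_le G e.I hz₀ hz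
      have h4 : ‖F i z‖ ≤ 1 := hF1 i z hzHP
      refine (norm_mul_le _ _).trans ?_
      refine mul_le_mul h1 ?_ (norm_nonneg _) (by positivity)
      rw [norm_smul, norm_smul, norm_mul, norm_inv (e.pt t - z)]
      refine mul_le_mul ?_ ?_ (by positivity) (by positivity)
      · exact mul_le_mul_of_nonneg_right h2 (by positivity)
      · exact mul_le_mul h3 h4 (norm_nonneg _) (by positivity)
    refine (norm_sum_le _ _).trans ?_
    refine (Finset.sum_le_sum fun i _ => hterm i).trans ?_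
    rw [Finset.sum_const, Finset.card_univ, Fintype.card_fin, nsmul_eq_mul, hC]
    apply le_of_eq
    ring
  have hcont : ContinuousOn (fun t : ℝ => C * ‖e.pt t - z‖⁻¹) (Icc 0 e.s) := by
    apply ContinuousOn.mul continuousOn_const
    apply ContinuousOn.inv₀
    · exact ((Core2_pt_continuous e).sub continuous_const).norm.continuousOn
    · intro t ht h
      exact hne t ht (sub_eq_zero.mp (norm_eq_zero.mp h))
  have hii : IntervalIntegrable (fun t : ℝ => C * ‖e.pt t - z‖⁻¹) volume 0 e.s :=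
    hcont.intervalIntegrable_of_Icc he.s0
  have hmain : ‖∫ t in (0 : ℝ)..e.s, ∑ i, WW S e.lp e.lm j i (e.pt t) *
        (((Phi G e.I (e.pt t))⁻¹ * (e.pt t - z)⁻¹) • (Phi G e.I z • F i z))‖ ≤
      ∫ t in (0 : ℝ)..e.s, C * ‖e.pt t - z‖⁻¹ := by
    apply intervalIntegral.norm_integral_le_of_norm_le he.s0
    · exact Filter.Eventually.of_forall fun t ht => hbound t (Ioc_subset_Icc_self ht)
    · exact hii
  have hV : Vker G F S e j z = e.d • ∫ t in (0 : ℝ)..e.s, ∑ i, WW S e.lp e.lm j i (e.pt t) *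
        (((Phi G e.I (e.pt t))⁻¹ * (e.pt t - z)⁻¹) • (Phi G e.I z • F i z)) := rfl
  rw [hV, norm_smul, hd, one_mul]
  refine hmain.trans ?_
  rw [intervalIntegral.integral_const_mul]
  exact le_rfl

theorem Core2_meas (e : Edge Λ) :
    Measurable (fun x : ℝ × ℂ => ‖e.pt x.1 - x.2‖⁻¹) := by
  have h : Continuous (fun x : ℝ × ℂ => ‖e.pt x.1 - x.2‖) :=
    (((Core2_pt_continuous e).comp continuous_fst).sub continuous_snd).norm
  exact h.measurable.inv

theorem Core2_prod (e : Edge Λ) (z₀ : ℂ) {b : ℝ} (hb : 0 < b) :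
    Integrable (fun x : ℝ × ℂ => ‖e.pt x.1 - x.2‖⁻¹)
      ((volume.restrict (Ioc (0 : ℝ) e.s)).prod (volume.restrict (ball z₀ b))) := by
  rw [integrable_prod_iff (Core2_meas e).aestronglyMeasurable]
  refine ⟨Filter.Eventually.of_forall fun t => inv_integrable z₀ (e.pt t) b, ?_⟩
  have hm : AEStronglyMeasurable
      (fun t : ℝ => ∫ z, ‖‖e.pt t - z‖⁻¹‖ ∂(volume.restrict (ball z₀ b)))
      (volume.restrict (Ioc (0 : ℝ) e.s)) := by
    have h1 : StronglyMeasurable (fun x : ℝ × ℂ => ‖‖e.pt x.1 - x.2‖⁻¹‖) :=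
      (Core2_meas e).norm.stronglyMeasurable
    exact h1.integral_prod_right.aestronglyMeasurable
  refine Integrable.of_bound hm (3 * Real.pi * b) (Filter.Eventually.of_forall fun t => ?_)
  have h2 : ∀ z, ‖‖e.pt t - z‖⁻¹‖ = ‖e.pt t - z‖⁻¹ := fun z => by
    rw [norm_inv, norm_norm]
  simp only [h2]
  rw [Real.norm_of_nonneg (integral_nonneg fun z => by positivity)]
  exact avg_inv z₀ (e.pt t) hb

theorem UU_int {G : Finset Nd} {T K : ℝ} (hK : 0 ≤ K) {e : Edge Λ} (he : e.Good G) {z₀ : ℂ}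
    (hz₀ : z₀ ∈ HP) :
    IntegrableOn (UU k K T G e z₀) (ball z₀ (z₀.im / 4)) ∧
    ∫ z in ball z₀ (z₀.im / 4), UU k K T G e z₀ z ≤
      (10000 / 3) * k * K ^ 2 * Real.exp (5 / 3 * T) * (z₀.im / 4) ^ 2 *
        (len e.I ^ 2 / ‖z₀ - (starRingEnd ℂ) (cen e.I)‖ * PB G e.I z₀) := by
  have hz₀' : 0 < z₀.im := hz₀
  have hb : 0 < z₀.im / 4 := by positivity
  have hPB := Core2_PB_nonneg G e.I z₀
  have hlen := Core2_len_nonneg e.I
  set C : ℝ := k * (2 * K ^ 2) * (5 * Real.exp (5 / 3 * T) * len e.I) * (4 / 3 * PB G e.I z₀)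
    with hC
  have hC0 : 0 ≤ C := by positivity
  have hprod := Core2_prod e z₀ hb
  have hUU : UU k K T G e z₀ = fun z => C * ∫ t in Ioc (0 : ℝ) e.s, ‖e.pt t - z‖⁻¹ := by
    funext z
    unfold UU
    rw [intervalIntegral.integral_of_le he.s0]
  have hint : IntegrableOn (fun z => ∫ t in Ioc (0 : ℝ) e.s, ‖e.pt t - z‖⁻¹)
      (ball z₀ (z₀.im / 4)) := hprod.integral_prod_right
  refine ⟨?_, ?_⟩
  · rw [hUU]
    exact hint.const_mul C
  · rw [hUU]
    rw [integral_const_mul]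
    have hswap : ∫ z in ball z₀ (z₀.im / 4), ∫ t in Ioc (0 : ℝ) e.s, ‖e.pt t - z‖⁻¹ =
        ∫ t in Ioc (0 : ℝ) e.s, ∫ z in ball z₀ (z₀.im / 4), ‖e.pt t - z‖⁻¹ :=
      (integral_integral_swap (f := fun (t : ℝ) (z : ℂ) => ‖e.pt t - z‖⁻¹) hprod).symm
    have hD : 0 ≤ ‖z₀ - (starRingEnd ℂ) (cen e.I)‖ := norm_nonneg _
    have hle : ∫ t in Ioc (0 : ℝ) e.s, ∫ z in ball z₀ (z₀.im / 4), ‖e.pt t - z‖⁻¹ ≤
        ∫ t in Ioc (0 : ℝ) e.s,
          250 * (z₀.im / 4) ^ 2 / ‖z₀ - (starRingEnd ℂ) (cen e.I)‖ := by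
      apply setIntegral_mono_on hprod.integral_prod_left
      · exact integrableOn_const (by simp)
      · exact measurableSet_Ioc
      · intro t ht
        exact avg_box hz₀ (he.sub t (Ioc_subset_Icc_self ht))
    rw [hswap]
    refine (mul_le_mul_of_nonneg_left hle hC0).trans ?_
    rw [setIntegral_const, smul_eq_mul]
    have hvol : (volume : Measure ℝ).real (Ioc (0 : ℝ) e.s) = e.s := by
      rw [Real.volume_real_Ioc_of_le he.s0, sub_zero]
    rw [hvol]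
    have h1 : e.s * (250 * (z₀.im / 4) ^ 2 / ‖z₀ - (starRingEnd ℂ) (cen e.I)‖) ≤
        len e.I * (250 * (z₀.im / 4) ^ 2 / ‖z₀ - (starRingEnd ℂ) (cen e.I)‖) :=
      mul_le_mul_of_nonneg_right he.s1 (by positivity)
    refine (mul_le_mul_of_nonneg_left h1 hC0).trans ?_
    rw [hC]
    apply le_of_eq
    ring

end Cor
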