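import Pool.Agent.helper45.Cor.Core1
import Pool.Agent.helper45.Cor.Core2

/-!
Module COR-C3: the patching theorem, without geometry.

PROOF.  Put `A j z = (2 π i)⁻¹ • (Out j z + ∑ e ∈ E, Aker G F S (ed e) j z)`, holomorphic on `Ω` by
`Aker_diff`.  For `z ∈ Ω \ Bad`, by `Aker_eq` and the hypothesis `hlam`,
`A j z = S (lam z) j z - (2 π i)⁻¹ • ∑ e ∈ E, Vker G F S (ed e) j z`, so `∑ j, F j z * A j z = 1`
there by `Vker_sum`; `Bad` is a null set, so `Ω \ Bad` is dense in `Ω`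
(`MeasureTheory.Measure.dense_of_ae`), and both sides are continuous on `Ω`.
Bound: by `submean` on the disc `B` of radius `b = z₀.im / 4` and `Vker_le`, `UU_int`,
`‖A j z₀‖ π b² ≤ ∫_B ‖A j‖ ≤ K π b² + (2 π)⁻¹ ∑ e ∫_B UU ≤
K π b² + (2 π)⁻¹ (10000/3) k K² exp (5/3 T) b² ∑_{e ∈ E} (len I_e² / ‖..‖ * PB)`; grouping the
edges by their node (at most `Cn` edges for each `I ∈ G`) and `jones_sum` the last sum is at most
`2 Cn`.  `(10000/3) / π² ≤ 400`.
-/

noncomputable section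

open Set MeasureTheory Metric

namespace Cor

variable {X : Type*} [NormedCommRing X] [NormedAlgebra ℂ X] [CompleteSpace X]

/-- the weight of a node -/
theorem Core3_w_nonneg (G : Finset Nd) (z₀ : ℂ) (I : Nd) :
    0 ≤ len I ^ 2 / ‖z₀ - (starRingEnd ℂ) (cen I)‖ * PB G I z₀ := by
  unfold PB
  positivity

/-- grouping the edges by their node -/
theorem Core3_group {G : Finset Nd} {κ Λ : Type*} (E : Finset κ) (ed : κ → Edge Λ) {Cn : ℕ}
    (hmem : ∀ e ∈ E, (ed e).I ∈ G)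
    (hcard : ∀ I ∈ G, Nat.card {e // e ∈ E ∧ (ed e).I = I} ≤ Cn)
    (w : Nd → ℝ) (hw : ∀ I, 0 ≤ w I) (hsum : ∑ I ∈ G, w I ≤ 2) :
    ∑ e ∈ E, w (ed e).I ≤ 2 * Cn := by
  classical
  rw [← Finset.sum_fiberwise_of_maps_to hmem]
  calc ∑ I ∈ G, ∑ e ∈ E with (ed e).I = I, w (ed e).I
      ≤ ∑ I ∈ G, Cn * w I := by
        apply Finset.sum_le_sum
        intro I hI
        have h1 : ∑ e ∈ E with (ed e).I = I, w (ed e).I
            = ((E.filter (fun e => (ed e).I = I)).card : ℝ) * w I := by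
          rw [Finset.sum_congr rfl (g := fun _ => w I)]
          · rw [Finset.sum_const, nsmul_eq_mul]
          · intro e he
            rw [(Finset.mem_filter.mp he).2]
        rw [h1]
        have h2 : Nat.card {e // e ∈ E ∧ (ed e).I = I} =
            (E.filter (fun e => (ed e).I = I)).card :=
          Nat.subtype_card _ (by intro x; simp)
        have h3 := hcard I hI
        rw [h2] at h3
        have h4 : ((E.filter (fun e => (ed e).I = I)).card : ℝ) ≤ Cn := by exact_mod_cast h3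
        exact mul_le_mul_of_nonneg_right h4 (hw I)
    _ = Cn * ∑ I ∈ G, w I := by rw [Finset.mul_sum]
    _ ≤ Cn * 2 := by gcongr
    _ = 2 * Cn := by ring

theorem core {k : ℕ} {T K : ℝ} {Cn : ℕ} (hK : 0 ≤ K) {G : Finset Nd}
    (hT : ∀ z ∈ HP, ∑ p ∈ G, om z (cen p) ≤ T) {κ Λ : Type*} (E : Finset κ) (ed : κ → Edge Λ)
    (hed : ∀ e ∈ E, (ed e).Good G)
    (hcard : ∀ I ∈ G, Nat.card {e // e ∈ E ∧ (ed e).I = I} ≤ Cn)
    {F : Fin k → ℂ → X} (hF : ∀ j, DifferentiableOn ℂ (F j) HP)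
    (hF1 : ∀ j, ∀ z ∈ HP, ‖F j z‖ ≤ 1) {S : Λ → Fin k → ℂ → X}
    (hS : ∀ e ∈ E, EdgeSol K F S (ed e)) {Ω : Set ℂ} (hΩ : IsOpen Ω) (hΩH : Ω ⊆ HP)
    {Out : Fin k → ℂ → X} (hOut : ∀ j, DifferentiableOn ℂ (Out j) Ω) {Bad : Set ℂ}
    (hBad : volume Bad = 0) {lam : ℂ → Λ}
    (hlam : ∀ z ∈ Ω \ Bad, (∀ e ∈ E, ∀ t ∈ Icc (0 : ℝ) (ed e).s, (ed e).pt t ≠ z) ∧
      (∀ j, ‖S (lam z) j z‖ ≤ K) ∧ ∑ j, F j z * S (lam z) j z = 1 ∧
      ∀ j, (2 * Real.pi * Complex.I : ℂ) • S (lam z) j z = Out j z +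
        ∑ e ∈ E, eInt (ed e).p (ed e).d (ed e).s
          (fun ζ => (ζ - z)⁻¹ • (S (ed e).lp j ζ - S (ed e).lm j ζ))) :
    ∃ A : Fin k → ℂ → X, (∀ j, DifferentiableOn ℂ (A j) Ω) ∧
      (∀ z ∈ Ω, ∑ j, F j z * A j z = 1) ∧
      ∀ z₀ ∈ Ω, closedBall z₀ (z₀.im / 4) ⊆ Ω → ∀ j,
        ‖A j z₀‖ ≤ K + 400 * k * K ^ 2 * Cn * Real.exp (5 / 3 * T) := by
  classical
  set c : ℂ := (2 * Real.pi * Complex.I : ℂ) with hc
  have hc0 : c ≠ 0 := by
    rw [hc]
    simp [Real.pi_ne_zero]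
  have hcn : ‖c⁻¹‖ = (2 * Real.pi)⁻¹ := by
    rw [norm_inv, hc]
    simp [abs_of_pos Real.pi_pos]
  set A : Fin k → ℂ → X := fun j z =>
    c⁻¹ • (Out j z + ∑ e ∈ E, Aker G F S (ed e) j z) with hA
  have hAd : ∀ j, DifferentiableOn ℂ (A j) Ω := by
    intro j
    have h1 : DifferentiableOn ℂ (fun z => Out j z + ∑ e ∈ E, Aker G F S (ed e) j z) Ω := by
      apply (hOut j).add
      apply DifferentiableOn.fun_sum
      intro e he
      exact (Aker_diff hF (hed e he) (hS e he) j).mono hΩH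
    exact h1.const_smul c⁻¹
  -- the formula off the bad set
  have hform : ∀ z ∈ Ω \ Bad, ∀ j, A j z =
      S (lam z) j z - c⁻¹ • ∑ e ∈ E, Vker G F S (ed e) j z := by
    intro z hz j
    obtain ⟨h1, h2, h3, h4⟩ := hlam z hz
    have h5 : ∑ e ∈ E, Aker G F S (ed e) j z =
        ∑ e ∈ E, eInt (ed e).p (ed e).d (ed e).s
          (fun ζ => (ζ - z)⁻¹ • (S (ed e).lp j ζ - S (ed e).lm j ζ)) -
        ∑ e ∈ E, Vker G F S (ed e) j z := by
      rw [← Finset.sum_sub_distrib]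
      apply Finset.sum_congr rfl
      intro e he
      exact Aker_eq hF (hed e he) (hS e he) j (hΩH hz.1) (h1 e he)
    simp only [hA]
    rw [h5, ← add_sub_assoc, ← h4 j, smul_sub, smul_smul, inv_mul_cancel₀ hc0, one_smul]
  have heqn : ∀ z ∈ Ω \ Bad, ∑ j, F j z * A j z = 1 := by
    intro z hz
    obtain ⟨h1, h2, h3, h4⟩ := hlam z hz
    have h5 : ∑ j, F j z * A j z = ∑ j, F j z * S (lam z) j z -
        c⁻¹ • ∑ e ∈ E, ∑ j, F j z * Vker G F S (ed e) j z := by
      rw [Finset.sum_comm, Finset.smul_sum, ← Finset.sum_sub_distrib]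
      apply Finset.sum_congr rfl
      intro j _
      rw [hform z hz j, mul_sub, mul_smul_comm, Finset.mul_sum]
    rw [h5, h3]
    have h6 : ∑ e ∈ E, ∑ j, F j z * Vker G F S (ed e) j z = 0 := by
      apply Finset.sum_eq_zero
      intro e he
      exact Vker_sum hF (hed e he) (hS e he) (hΩH hz.1) (h1 e he)
    rw [h6, smul_zero, sub_zero]
  refine ⟨A, hAd, ?_, ?_⟩
  · -- the equation by density
    intro z hz
    by_contra hne
    have hcont : ContinuousOn (fun z => ∑ j, F j z * A j z) Ω := by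
      apply continuousOn_finsetSum
      intro j _
      exact ((hF j).continuousOn.mono hΩH).mul (hAd j).continuousOn
    have hopen : IsOpen (Ω ∩ (fun z => ∑ j, F j z * A j z) ⁻¹' {1}ᶜ) :=
      hcont.isOpen_inter_preimage hΩ isOpen_compl_singleton
    have hpos := hopen.measure_pos volume ⟨z, hz, hne⟩
    have hsub : Ω ∩ (fun z => ∑ j, F j z * A j z) ⁻¹' {1}ᶜ ⊆ Bad := by
      rintro w ⟨hw, hw'⟩
      by_contra hwb
      exact hw' (heqn w ⟨hw, hwb⟩)
    have := measure_mono_null hsub hBad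
    exact hpos.ne' this
  · intro z₀ hz₀ hball j
    have hz₀H : z₀ ∈ HP := hΩH hz₀
    have him : 0 < z₀.im := hz₀H
    set b : ℝ := z₀.im / 4 with hb
    have hbpos : 0 < b := by positivity
    have hsm := submean hbpos hΩ hball (hAd j)
    set UE : ℂ → ℝ := fun z => K + (2 * Real.pi)⁻¹ * ∑ e ∈ E, UU k K T G (ed e) z₀ z with hUE
    have hUi : ∀ e ∈ E, IntegrableOn (UU k K T G (ed e) z₀) (ball z₀ b) := fun e he =>
      (UU_int (T := T) hK (hed e he) hz₀H).1
    have hfin : volume (ball z₀ b) ≠ ⊤ := measure_ball_lt_top.ne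
    have hIc : IntegrableOn (fun _ : ℂ => K) (ball z₀ b) := integrableOn_const hfin
    have hIs : IntegrableOn (fun z => (2 * Real.pi)⁻¹ * ∑ e ∈ E, UU k K T G (ed e) z₀ z)
        (ball z₀ b) := by
      apply Integrable.const_mul
      exact integrable_finsetSum _ hUi
    have hae : ∀ᵐ z ∂(volume.restrict (ball z₀ b)), ‖A j z‖ ≤ UE z := by
      rw [ae_restrict_iff' measurableSet_ball]
      have hb0 : ∀ᵐ z ∂(volume : Measure ℂ), z ∉ Bad := by
        rw [ae_iff]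
        simpa using hBad
      filter_upwards [hb0] with z hzb hz
      have hzΩ : z ∈ Ω := hball (ball_subset_closedBall hz)
      obtain ⟨h1, h2, h3, h4⟩ := hlam z ⟨hzΩ, hzb⟩
      rw [hform z ⟨hzΩ, hzb⟩ j]
      calc ‖S (lam z) j z - c⁻¹ • ∑ e ∈ E, Vker G F S (ed e) j z‖
          ≤ ‖S (lam z) j z‖ + ‖c⁻¹ • ∑ e ∈ E, Vker G F S (ed e) j z‖ := norm_sub_le _ _
        _ ≤ K + (2 * Real.pi)⁻¹ * ∑ e ∈ E, UU k K T G (ed e) z₀ z := by
          gcongr
          · exact h2 j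
          · rw [norm_smul, hcn]
            gcongr
            refine (norm_sum_le _ _).trans ?_
            apply Finset.sum_le_sum
            intro e he
            exact Vker_le hK hT hF hF1 (hed e he) (hS e he) j hz₀H (mem_ball.mp hz).le (h1 e he)
    have hint : ∫ z in ball z₀ b, ‖A j z‖ ≤ ∫ z in ball z₀ b, UE z :=
      integral_mono_of_nonneg (Filter.Eventually.of_forall fun z => norm_nonneg _)
        (hIc.add hIs) hae
    have hvol : (volume : Measure ℂ).real (ball z₀ b) = Real.pi * b ^ 2 := by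
      rw [measureReal_def, Complex.volume_ball]
      simp [ENNReal.toReal_ofReal hbpos.le]
      ring
    have hUEint : ∫ z in ball z₀ b, UE z = Real.pi * b ^ 2 * K +
        (2 * Real.pi)⁻¹ * ∑ e ∈ E, ∫ z in ball z₀ b, UU k K T G (ed e) z₀ z := by
      simp only [hUE]
      rw [integral_add hIc hIs, setIntegral_const, hvol, integral_const_mul,
        integral_finsetSum _ hUi, smul_eq_mul]
    set w : Nd → ℝ := fun I => len I ^ 2 / ‖z₀ - (starRingEnd ℂ) (cen I)‖ * PB G I z₀ with hw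
    set Q : ℝ := (10000 / 3) * k * K ^ 2 * Real.exp (5 / 3 * T) * b ^ 2 with hQ
    have hQ0 : 0 ≤ Q := by positivity
    have hsumU : ∑ e ∈ E, ∫ z in ball z₀ b, UU k K T G (ed e) z₀ z ≤ Q * (2 * Cn) := by
      calc ∑ e ∈ E, ∫ z in ball z₀ b, UU k K T G (ed e) z₀ z
          ≤ ∑ e ∈ E, Q * w (ed e).I := by
            apply Finset.sum_le_sum
            intro e he
            exact (UU_int hK (hed e he) hz₀H).2
        _ = Q * ∑ e ∈ E, w (ed e).I := by rw [Finset.mul_sum]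
        _ ≤ Q * (2 * Cn) := by
            gcongr
            exact Core3_group E ed (fun e he => (hed e he).mem) hcard w
              (Core3_w_nonneg G z₀) (jones_sum G hz₀H)
    have hpi := Real.pi_gt_three
    have hpi0 : 0 < Real.pi := Real.pi_pos
    have hmain : ‖A j z₀‖ * (Real.pi * b ^ 2) ≤ Real.pi * b ^ 2 * K +
        (2 * Real.pi)⁻¹ * (Q * (2 * Cn)) := by
      refine (hsm.trans hint).trans ?_
      rw [hUEint]
      gcongr
    have hb2 : 0 < Real.pi * b ^ 2 := by positivity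
    rw [← le_div_iff₀ hb2] at hmain
    refine hmain.trans ?_
    have hval : (Real.pi * b ^ 2 * K + (2 * Real.pi)⁻¹ * (Q * (2 * Cn))) / (Real.pi * b ^ 2) =
        K + (10000 / 3 / Real.pi ^ 2) * (k * K ^ 2 * Cn * Real.exp (5 / 3 * T)) := by
      rw [hQ]
      field_simp
    rw [hval]
    have h400 : 10000 / 3 / Real.pi ^ 2 ≤ 400 := by
      rw [div_le_iff₀ (by positivity)]
      nlinarith
    have hR0 : 0 ≤ (k : ℝ) * K ^ 2 * Cn * Real.exp (5 / 3 * T) := by positivity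
    have := mul_le_mul_of_nonneg_right h400 hR0
    linarith

end Cor
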