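import Pool.Agent.helper45.Cor.Defs

/-!
Definitions for the patching core: edges, Koszul matrix, kernels.
-/

noncomputable section

open Set

namespace Cor

/-- an oriented edge (start `p`, direction `d`, length `s`) between two cells with labels `lp`, `lm`,
with a node `I` whose box contains the edge -/
structure Edge (Λ : Type*) where
  p : ℂ
  d : ℂ
  s : ℝ
  lp : Λ
  lm : Λ
  I : Nd

/-- points of an edge -/
def Edge.pt {Λ : Type*} (e : Edge Λ) (t : ℝ) : ℂ := e.p + e.d * t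

/-- admissible edges -/
structure Edge.Good {Λ : Type*} (G : Finset Nd) (e : Edge Λ) : Prop where
  dir : e.d = 1 ∨ e.d = Complex.I
  s0 : 0 ≤ e.s
  s1 : e.s ≤ len e.I
  mem : e.I ∈ G
  sub : ∀ t ∈ Icc (0 : ℝ) e.s, e.pt t ∈ box e.I

variable {X : Type*} [NormedCommRing X] [NormedAlgebra ℂ X] [CompleteSpace X]
variable {Λ : Type*} {k : ℕ}

/-- Koszul matrix of two local solutions -/
def WW (S : Λ → Fin k → ℂ → X) (a b : Λ) (j i : Fin k) (ζ : ℂ) : X :=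
  S a j ζ * S b i ζ - S b j ζ * S a i ζ

/-- the holomorphic kernel of an edge -/
def Aker (G : Finset Nd) (F : Fin k → ℂ → X) (S : Λ → Fin k → ℂ → X) (e : Edge Λ) (j : Fin k)
    (z : ℂ) : X :=
  eInt e.p e.d e.s (fun ζ => ∑ i, WW S e.lp e.lm j i ζ *
    ((Phi G e.I ζ)⁻¹ • dslope (fun z => Phi G e.I z • F i z) ζ z))

/-- the correction term of an edge (it jumps across the edge) -/
def Vker (G : Finset Nd) (F : Fin k → ℂ → X) (S : Λ → Fin k → ℂ → X) (e : Edge Λ) (j : Fin k)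
    (z : ℂ) : X :=
  eInt e.p e.d e.s (fun ζ => ∑ i, WW S e.lp e.lm j i ζ *
    (((Phi G e.I ζ)⁻¹ * (ζ - z)⁻¹) • (Phi G e.I z • F i z)))

/-- the local solutions along an edge: continuous, bounded, solve the Bezout equation -/
structure EdgeSol (K : ℝ) (F : Fin k → ℂ → X) (S : Λ → Fin k → ℂ → X) (e : Edge Λ) : Prop where
  cp : ∀ j, ContinuousOn (fun t : ℝ => S e.lp j (e.pt t)) (Icc 0 e.s)
  cm : ∀ j, ContinuousOn (fun t : ℝ => S e.lm j (e.pt t)) (Icc 0 e.s)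
  bp : ∀ j, ∀ t ∈ Icc (0 : ℝ) e.s, ‖S e.lp j (e.pt t)‖ ≤ K
  bm : ∀ j, ∀ t ∈ Icc (0 : ℝ) e.s, ‖S e.lm j (e.pt t)‖ ≤ K
  sp : ∀ t ∈ Icc (0 : ℝ) e.s, ∑ j, F j (e.pt t) * S e.lp j (e.pt t) = 1
  sm : ∀ t ∈ Icc (0 : ℝ) e.s, ∑ j, F j (e.pt t) * S e.lm j (e.pt t) = 1

end Cor
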