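import Mathlib

/-!
Corona localisation on the polydisc (MP_a78379_an).  Definitions.

Everything takes place on the upper half plane `HP`.  Dyadic nodes `(n, j)`, `j < 2 ^ n`, stand for
the intervals `[j 2^-n, (j+1) 2^-n)` of `[0, 1)`; over each of them there is a Whitney box `box`.
-/

noncomputable section

open Set

namespace Cor

/-- the upper half plane, as a set -/
def HP : Set ℂ := {z | 0 < z.im}

/-- `om z c = Im z Im c / |z - conj c| ^ 2`, a quarter of `1 - (pseudohyperbolic distance)^2` -/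
def om (z c : ℂ) : ℝ := z.im * c.im / ‖z - (starRingEnd ℂ) c‖ ^ 2

/-- dyadic nodes -/
abbrev Nd := ℕ × ℕ

/-- length of a node -/
def len (p : Nd) : ℝ := (1 / 2) ^ p.1

/-- the point above the middle of the interval, at height `3/2` times the length:
the centre of `box p` -/
def cen (p : Nd) : ℂ := ⟨((p.2 : ℝ) + 1 / 2) * len p, 3 / 2 * len p⟩

/-- valid nodes: subintervals of `[0, 1)` -/
def nd (p : Nd) : Prop := p.2 < 2 ^ p.1

/-- `anc q p`: the node `q` is an ancestor of `p`, or `q = p` -/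
def anc (q p : Nd) : Prop := q.1 ≤ p.1 ∧ p.2 / 2 ^ (p.1 - q.1) = q.2

/-- the closed Whitney box over a node (a square) -/
def box (p : Nd) : Set ℂ :=
  {z | (p.2 : ℝ) * len p ≤ z.re ∧ z.re ≤ ((p.2 : ℝ) + 1) * len p ∧ len p ≤ z.im ∧
    z.im ≤ 2 * len p}

open Classical in
/-- Carleson packing condition with constant `M` for a finite set of nodes -/
def Pack (M : ℝ) (J : Finset Nd) : Prop :=
  (∀ p ∈ J, nd p) ∧ ∀ q : Nd, nd q → ∑ p ∈ J.filter (fun p => anc q p), len p ≤ M * len q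

/-- no node of `J` is a strict ancestor of another one -/
def Anti (J : Finset Nd) : Prop := ∀ p ∈ J, ∀ q ∈ J, anc p q → p = q

/-- all nodes of level at most `N` -/
def nodes (N : ℕ) : Finset Nd :=
  (Finset.range (N + 1) ×ˢ Finset.range (2 ^ N)).filter (fun p => p.2 < 2 ^ p.1)

/-- the side of the cells of level `n`: each box is divided into `4 ^ m` cells -/
def cs (m n : ℕ) : ℝ := (1 / 2) ^ (n + m)

/-- the closed cell `(n, a, b)`, `a < 2 ^ (n + m)`, `b < 2 ^ m`; it lies in `box (n, a / 2 ^ m)` -/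
def cell (m n a b : ℕ) : Set ℂ :=
  {z | (a : ℝ) * cs m n ≤ z.re ∧ z.re ≤ ((a : ℝ) + 1) * cs m n ∧
    (1 / 2) ^ n + (b : ℝ) * cs m n ≤ z.im ∧ z.im ≤ (1 / 2) ^ n + ((b : ℝ) + 1) * cs m n}

/-- the function `t` on cells is constant across each edge of the grid, except near boxes in `G`:
if two adjacent cells have different values then one of their boxes is in `G`.
`V`: horizontal neighbours; `H1`: vertical neighbours in the same box; `H2`: a cell in the top row
of level `n + 1` and the cell above it (of level `n`). -/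
structure AdjG {T : Type*} (m N : ℕ) (t : ℕ → ℕ → ℕ → T) (G : Finset Nd) : Prop where
  V : ∀ n ≤ N, ∀ a b : ℕ, a + 1 < 2 ^ (n + m) → b < 2 ^ m → t n a b ≠ t n (a + 1) b →
    (n, a / 2 ^ m) ∈ G ∨ (n, (a + 1) / 2 ^ m) ∈ G
  H1 : ∀ n ≤ N, ∀ a b : ℕ, a < 2 ^ (n + m) → b + 1 < 2 ^ m → t n a b ≠ t n a (b + 1) →
    (n, a / 2 ^ m) ∈ G
  H2 : ∀ n, n + 1 ≤ N → ∀ a : ℕ, a < 2 ^ (n + 1 + m) →
    t (n + 1) a (2 ^ m - 1) ≠ t n (a / 2) 0 →
    (n + 1, a / 2 ^ m) ∈ G ∨ (n, a / 2 / 2 ^ m) ∈ G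

/-- a bounded holomorphic function on the half plane, with bound `1` -/
def Unit1 (g : ℂ → ℂ) : Prop := DifferentiableOn ℂ g HP ∧ ∀ z ∈ HP, ‖g z‖ ≤ 1

/-! ### Edges -/

/-- integral along the segment starting at `p`, direction `d`, length `s`:
`∫_0^s f (p + d t) d dt` -/
def eInt {X : Type*} [NormedAddCommGroup X] [NormedSpace ℂ X] (p d : ℂ) (s : ℝ) (f : ℂ → X) : X :=
  d • ∫ t in (0 : ℝ)..s, f (p + d * t)

/-- the integral along the boundary of the rectangle with lower left corner `p`, width `w`,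
height `h` -/
def rInt {X : Type*} [NormedAddCommGroup X] [NormedSpace ℂ X] (p : ℂ) (w h : ℝ) (f : ℂ → X) : X :=
  eInt p 1 w f + eInt (p + w) Complex.I h f - eInt (p + Complex.I * h) 1 w f -
    eInt p Complex.I h f

/-- lower left corner of a cell -/
def cc (m n a b : ℕ) : ℂ := ⟨(a : ℝ) * cs m n, (1 / 2) ^ n + (b : ℝ) * cs m n⟩

/-! ### Jones' functions -/

/-- `i len / (z - conj cen)`, real part positive on the half plane -/
def th (p : Nd) (z : ℂ) : ℂ := Complex.I * (len p : ℂ) / (z - (starRingEnd ℂ) (cen p))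

/-- Jones' function of the node `I` relative to the family `G` -/
def Phi (G : Finset Nd) (I : Nd) (z : ℂ) : ℂ :=
  Complex.exp (-∑ p ∈ G.filter (fun p => I.1 ≤ p.1), th p z) / (z - (starRingEnd ℂ) (cen I))

/-- the bound for `Phi` on the disc of centre `z` and radius `Im z / 4` -/
def PB (G : Finset Nd) (I : Nd) (z : ℂ) : ℝ :=
  Real.exp (-(12 / 25) * ∑ p ∈ G.filter (fun p => I.1 ≤ p.1), (th p z).re) /
    ‖z - (starRingEnd ℂ) (cen I)‖

/-! ### Several variables -/

variable {ι : Type*}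

/-- product of plane sets -/
def Pr (O : ι → Set ℂ) : Set (ι → ℂ) := {z | ∀ i, z i ∈ O i}

/-- bounded and separately holomorphic on a product of plane sets -/
def SH [DecidableEq ι] (O : ι → Set ℂ) (f : (ι → ℂ) → ℂ) : Prop :=
  (∃ C : ℝ, ∀ z ∈ Pr O, ‖f z‖ ≤ C) ∧
    ∀ z ∈ Pr O, ∀ l, DifferentiableOn ℂ (fun t => f (Function.update z l t)) (O l)

/-- the Bezout equation is solvable with bounded separately holomorphic functions on `Pr O` -/
def Solv [DecidableEq ι] {k : ℕ} (O : ι → Set ℂ) (F : Fin k → (ι → ℂ) → ℂ) : Prop :=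
  ∃ A : Fin k → (ι → ℂ) → ℂ, (∀ j, SH O (A j)) ∧ ∀ z ∈ Pr O, ∑ j, F j z * A j z = 1

end Cor
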