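import Pool.Agent.helper45.Cor.DiscK1

/-!
Module COR-DK: quantitative localisation on the polydisc, and two corollaries.

PROOF.  `discK`: exactly as `loc_disc` (Cayley transform), with `locK` in the place of `loc_HP`; no
rescaling is needed because everything is bounded by `1`.

`oneK`: let `f j z = φ j (z (i j))` for `j ≠ j₀`, `f j₀` arbitrary.  Apply `discK` with `r = k`,
`h i q = φ q` if `q ≠ j₀` and `i q = i`, and `h i q = 0` otherwise, `ρ = δ / (4 k)`,
`K = 4 k / δ` (we may assume `k ≥ 1`; if `k = 0` there is no `j₀`).  Let `c` be given and `W` the set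
where all `|h i q (z i) - c i q| < ρ`; so `|f q z - c (i q) q| < ρ` on `W` for `q ≠ j₀`.  If
`|c (i q) q| ≥ δ / (2 k)` for some `q ≠ j₀`, then `|f q| ≥ δ / (4 k)` on `W`, local solution
`1 / f q` in the place `q`, `0` elsewhere.  Otherwise `|f q| < δ / (2k) + δ / (4k) = 3 δ / (4 k)`
for all `q ≠ j₀`, so `|f j₀| > δ - 3 δ / 4 = δ / 4 ≥ δ / (4 k)`, local solution `1 / f j₀`.

`carlesonK` (Carleson's corona theorem with a bound): the case `n = 1` of `oneK`: apply it to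
`f j z = φ j (z 0)`, `j₀` any index (for `k = 0` the hypothesis is contradictory), and put
`ψ j w = g j (fun _ => w)`.
-/

noncomputable section

open Set Metric

namespace Cor

/-- a bounded local solution if one generator is bounded below -/
theorem DiscK_loc {n k : ℕ} (f : Fin k → (Fin n → ℂ) → ℂ) (hf : ∀ j, HInf (PD n) (f j))
    (W : Set (Fin n → ℂ)) (hW : W ⊆ PD n) (j : Fin k) {ε : ℝ} (hε : 0 < ε)
    (hj : ∀ z ∈ W, ε ≤ ‖f j z‖) :
    ∃ A : Fin k → (Fin n → ℂ) → ℂ, (∀ i, DifferentiableOn ℂ (A i) W) ∧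
      ∀ z ∈ W, (∀ i, ‖A i z‖ ≤ ε⁻¹) ∧ ∑ i, f i z * A i z = 1 := by
  classical
  have hne : ∀ z ∈ W, f j z ≠ 0 := fun z hz h0 => by
    have := hj z hz
    rw [h0, norm_zero] at this
    linarith
  refine ⟨fun i z => if i = j then (f j z)⁻¹ else 0, ?_, ?_⟩
  · intro i
    by_cases hi : i = j
    · simp only [if_pos hi]
      exact ((hf j).1.mono hW).inv hne
    · simp only [if_neg hi]
      exact differentiableOn_const 0
  · intro z hz
    constructor
    · intro i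
      by_cases hi : i = j
      · simp only [if_pos hi]
        rw [norm_inv]
        exact inv_anti₀ hε (hj z hz)
      · simp only [if_neg hi, norm_zero]
        positivity
    · simp only [mul_ite, mul_zero]
      rw [Finset.sum_ite_eq' Finset.univ j, if_pos (Finset.mem_univ _), mul_inv_cancel₀ (hne z hz)]

/-- corona theorem with bounds: one arbitrary generator, the others depend on one variable each -/
theorem oneK (n k : ℕ) {δ : ℝ} (hδ : 0 < δ) :
    ∃ C : ℝ, 0 ≤ C ∧ ∀ (f : Fin k → (Fin n → ℂ) → ℂ) (j₀ : Fin k) (i : Fin k → Fin n)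
      (φ : Fin k → ℂ → ℂ), (∀ j, HInf (PD n) (f j)) → (∀ j, ∀ z ∈ PD n, ‖f j z‖ ≤ 1) →
      (∀ j, j ≠ j₀ → DifferentiableOn ℂ (φ j) (ball 0 1) ∧
        (∀ w ∈ ball (0 : ℂ) 1, ‖φ j w‖ ≤ 1) ∧ ∀ z ∈ PD n, f j z = φ j (z (i j))) →
      (∀ z ∈ PD n, δ ≤ ∑ j, ‖f j z‖) →
      ∃ g : Fin k → (Fin n → ℂ) → ℂ, (∀ j, DifferentiableOn ℂ (g j) (PD n)) ∧
        ∀ z ∈ PD n, (∀ j, ‖g j z‖ ≤ C) ∧ ∑ j, f j z * g j z = 1 := by
  rcases Nat.eq_zero_or_pos k with hk0 | hk
  · subst hk0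
    exact ⟨0, le_refl _, fun f j₀ => j₀.elim0⟩
  have hkr : (0 : ℝ) < k := by exact_mod_cast hk
  have hk1 : (1 : ℝ) ≤ k := by exact_mod_cast hk
  have hρ : 0 < δ / (4 * k) := by positivity
  obtain ⟨C, hC0, hC⟩ := discK n k k hρ (K := (δ / (4 * k))⁻¹) (by positivity)
  refine ⟨C, hC0, ?_⟩
  intro f j₀ i φ hf hf1 hφ hb
  classical
  refine hC f hf hf1 (fun i' q => if q ≠ j₀ ∧ i q = i' then φ q else fun _ => 0) ?_ ?_ ?_
  · intro i' q
    by_cases h : q ≠ j₀ ∧ i q = i'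
    · simp only [if_pos h]
      exact ⟨(hφ q h.1).1, 1, (hφ q h.1).2.1⟩
    · simp only [if_neg h]
      exact ⟨differentiableOn_const 0, 0, fun w _ => by simp⟩
  · intro i' q w hw
    by_cases h : q ≠ j₀ ∧ i q = i'
    · simp only [if_pos h]
      exact (hφ q h.1).2.1 w hw
    · simp only [if_neg h, norm_zero]
      exact zero_le_one
  · intro c
    set h : Fin n → Fin k → ℂ → ℂ :=
      fun i' q => if q ≠ j₀ ∧ i q = i' then φ q else fun _ => 0 with hh
    set W : Set (Fin n → ℂ) :=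
      {z | z ∈ PD n ∧ ∀ i' q, ‖h i' q (z i') - c i' q‖ < δ / (4 * k)} with hWdef
    have hW : W ⊆ PD n := fun z hz => hz.1
    have hclose : ∀ z ∈ W, ∀ q, q ≠ j₀ → ‖f q z - c (i q) q‖ < δ / (4 * k) := by
      intro z hz q hq
      have h1 := hz.2 (i q) q
      have h2 : h (i q) q = φ q := by
        rw [hh]
        exact if_pos ⟨hq, rfl⟩
      rw [h2] at h1
      rw [(hφ q hq).2.2 z hz.1]
      exact h1
    have e0 : δ / (2 * k) = 2 * (δ / (4 * k)) := by field_simp; norm_num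
    have hfin : ∃ A : Fin k → (Fin n → ℂ) → ℂ, (∀ i, DifferentiableOn ℂ (A i) W) ∧
        ∀ z ∈ W, (∀ i, ‖A i z‖ ≤ (δ / (4 * k))⁻¹) ∧ ∑ i, f i z * A i z = 1 := by
      by_cases hcase : ∃ q, q ≠ j₀ ∧ δ / (2 * k) ≤ ‖c (i q) q‖
      · obtain ⟨q, hq, hlow⟩ := hcase
        refine DiscK_loc f hf W hW q hρ ?_
        intro z hz
        have e1 := hclose z hz q hq
        rw [norm_sub_rev] at e1
        have e2 : ‖c (i q) q‖ - ‖f q z‖ ≤ ‖c (i q) q - f q z‖ := norm_sub_norm_le _ _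
        linarith
      · push Not at hcase
        refine DiscK_loc f hf W hW j₀ hρ ?_
        intro z hz
        have e1 := hb z hz.1
        rw [← Finset.add_sum_erase _ _ (Finset.mem_univ j₀)] at e1
        have e2 : ∑ j ∈ Finset.univ.erase j₀, ‖f j z‖ ≤ 3 * δ / 4 := by
          calc ∑ j ∈ Finset.univ.erase j₀, ‖f j z‖
              ≤ ∑ j ∈ Finset.univ.erase j₀, 3 * (δ / (4 * k)) := by
                apply Finset.sum_le_sum
                intro q hq
                have hq' := Finset.ne_of_mem_erase hq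
                have e3 := hclose z hz q hq'
                have e4 := hcase q hq'
                have e5 : ‖f q z‖ - ‖c (i q) q‖ ≤ ‖f q z - c (i q) q‖ := norm_sub_norm_le _ _
                linarith
            _ = ((k - 1 : ℕ) : ℝ) * (3 * (δ / (4 * k))) := by
                rw [Finset.sum_const, Finset.card_erase_of_mem (Finset.mem_univ _),
                  Finset.card_univ, Fintype.card_fin, nsmul_eq_mul]
            _ ≤ (k : ℝ) * (3 * (δ / (4 * k))) := by
                gcongr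
                omega
            _ = 3 * δ / 4 := by field_simp
        have e6 : δ / (4 * k) ≤ δ / 4 := by
          apply div_le_div_of_nonneg_left hδ.le (by norm_num)
          linarith
        linarith
    obtain ⟨A, hA1, hA2⟩ := hfin
    exact ⟨A, hA1, fun z hz hz' => hA2 z ⟨hz, hz'⟩⟩

/-- Carleson's corona theorem, with a bound -/
theorem carlesonK (k : ℕ) {δ : ℝ} (hδ : 0 < δ) :
    ∃ C : ℝ, 0 ≤ C ∧ ∀ φ : Fin k → ℂ → ℂ, (∀ j, DifferentiableOn ℂ (φ j) (ball 0 1)) →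
      (∀ j, ∀ w ∈ ball (0 : ℂ) 1, ‖φ j w‖ ≤ 1) → (∀ w ∈ ball (0 : ℂ) 1, δ ≤ ∑ j, ‖φ j w‖) →
      ∃ ψ : Fin k → ℂ → ℂ, (∀ j, DifferentiableOn ℂ (ψ j) (ball 0 1)) ∧
        ∀ w ∈ ball (0 : ℂ) 1, (∀ j, ‖ψ j w‖ ≤ C) ∧ ∑ j, φ j w * ψ j w = 1 := by
  rcases Nat.eq_zero_or_pos k with hk0 | hk
  · subst hk0
    refine ⟨0, le_refl _, fun φ _ _ hb => ?_⟩
    exfalso
    have h := hb 0 (mem_ball_self one_pos)
    rw [Finset.univ_eq_empty, Finset.sum_empty] at h
    linarith
  obtain ⟨C, hC0, hC⟩ := oneK 1 k hδ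
  refine ⟨C, hC0, ?_⟩
  intro φ hφ hφ1 hb
  have hmem : ∀ z ∈ PD 1, z 0 ∈ ball (0 : ℂ) 1 := fun z hz => mem_ball_zero_iff.2 (hz 0)
  obtain ⟨g, hg1, hg2⟩ := hC (fun j z => φ j (z 0)) ⟨0, hk⟩ (fun _ => 0) φ
    (fun j => ⟨(hφ j).comp ((differentiable_apply (0 : Fin 1)).differentiableOn)
      (fun z hz => hmem z hz), 1, fun z hz => hφ1 j _ (hmem z hz)⟩)
    (fun j z hz => hφ1 j _ (hmem z hz))
    (fun j _ => ⟨hφ j, hφ1 j, fun _ _ => rfl⟩)
    (fun z hz => hb _ (hmem z hz))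
  have hc : ∀ w ∈ ball (0 : ℂ) 1, (fun _ : Fin 1 => w) ∈ PD 1 :=
    fun w hw _ => mem_ball_zero_iff.1 hw
  have hdc : Differentiable ℂ (fun (w : ℂ) (_ : Fin 1) => w) :=
    differentiable_pi.2 fun _ => differentiable_id
  refine ⟨fun j w => g j (fun _ => w), fun j => (hg1 j).comp hdc.differentiableOn hc, ?_⟩
  intro w hw
  exact hg2 _ (hc w hw)

end Cor
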