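import Pool.Agent.helper45.Cor.LocK
import Pool.Agent.helper45.Cor.Disc

/-!
Module COR-DK1: quantitative localisation on the polydisc.

PROOF.  `discK`: exactly as `loc_disc` (Cayley transform), with `locK` in the place of `loc_HP`; no
rescaling is needed because everything is bounded by `1`.
-/

noncomputable section

open Set Metric

namespace Cor

theorem discK (n k r : ℕ) {ρ : ℝ} (hρ : 0 < ρ) {K : ℝ} (hK : 0 ≤ K) :
    ∃ C : ℝ, 0 ≤ C ∧ ∀ F : Fin k → (Fin n → ℂ) → ℂ, (∀ j, HInf (PD n) (F j)) →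
      (∀ j, ∀ z ∈ PD n, ‖F j z‖ ≤ 1) →
      ∀ h : Fin n → Fin r → ℂ → ℂ, (∀ i q, H1 (h i q)) →
      (∀ i q, ∀ w ∈ ball (0 : ℂ) 1, ‖h i q w‖ ≤ 1) →
      (∀ c : Fin n → Fin r → ℂ, ∃ A : Fin k → (Fin n → ℂ) → ℂ,
        (∀ j, DifferentiableOn ℂ (A j) {z | z ∈ PD n ∧ ∀ i q, ‖h i q (z i) - c i q‖ < ρ}) ∧
        ∀ z ∈ PD n, (∀ i q, ‖h i q (z i) - c i q‖ < ρ) →
          (∀ j, ‖A j z‖ ≤ K) ∧ ∑ j, F j z * A j z = 1) →
      ∃ A : Fin k → (Fin n → ℂ) → ℂ, (∀ j, DifferentiableOn ℂ (A j) (PD n)) ∧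
        ∀ z ∈ PD n, (∀ j, ‖A j z‖ ≤ C) ∧ ∑ j, F j z * A j z = 1 := by
  obtain ⟨C, hC0, hCK⟩ := locK (ι := Fin n) k r hρ hK
  refine ⟨C, hC0, ?_⟩
  intro F hF hF1 h hh hh1 hloc
  have hkball : ∀ t ∈ HP, Disc_k t ∈ ball (0 : ℂ) 1 := fun t ht =>
    mem_ball_zero_iff.mpr (Disc_k_lt ht)
  have hkPD : ∀ z ∈ Pr (fun _ : Fin n => HP), (fun i => Disc_k (z i)) ∈ PD n :=
    fun z hz i => Disc_k_lt (hz i)
  have hU : ∀ i q, Unit1 (fun t => h i q (Disc_k t)) := fun i q =>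
    ⟨(hh i q).1.comp Disc_k_diff hkball, fun t ht => hh1 i q _ (hkball t ht)⟩
  have hF' : ∀ j, SH (fun _ : Fin n => HP) (fun z => F j (fun i => Disc_k (z i))) := by
    intro j
    refine SH_of_diff (C := 1) ?_ ?_
    · exact (hF j).1.comp (Disc_pi_diff Disc_k_diff (fun z hz i => hz i)) hkPD
    · intro z hz
      exact hF1 j _ (hkPD z hz)
  have hloc' : ∀ c : Fin n → Fin r → ℂ,
      SolvK K (fun i => {t | t ∈ HP ∧ ∀ q, ‖h i q (Disc_k t) - c i q‖ < ρ})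
        (fun j z => F j (fun i => Disc_k (z i))) := by
    intro c
    obtain ⟨A, hA, hA1⟩ := hloc c
    have key : ∀ z ∈ Pr (fun i : Fin n =>
        {t | t ∈ HP ∧ ∀ q, ‖h i q (Disc_k t) - c i q‖ < ρ}),
        (fun i => Disc_k (z i)) ∈ PD n ∧ ∀ i q, ‖h i q (Disc_k (z i)) - c i q‖ < ρ :=
      fun z hz => ⟨fun i => Disc_k_lt (hz i).1, fun i q => (hz i).2 q⟩
    refine ⟨fun j z => A j (fun i => Disc_k (z i)), fun j => ?_, fun j z hz => ?_, fun z hz => ?_⟩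
    · refine SH_of_diff (C := K) ?_ ?_
      · exact (hA j).comp (Disc_pi_diff Disc_k_diff (fun z hz i => (hz i).1))
          (fun z hz => key z hz)
      · intro z hz
        exact (hA1 _ (key z hz).1 (key z hz).2).1 j
    · exact (hA1 _ (key z hz).1 (key z hz).2).1 j
    · exact (hA1 _ (key z hz).1 (key z hz).2).2
  obtain ⟨B, hB, hBC, hB1⟩ := hCK _ hF' (fun j z hz => hF1 j _ (hkPD z hz)) _ hU hloc'
  have hkiP : ∀ z ∈ PD n, (fun i => Disc_ki (z i)) ∈ Pr (fun _ : Fin n => HP) :=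
    fun z hz i => Disc_ki_mem (hz i)
  refine ⟨fun j z => B j (fun i => Disc_ki (z i)), fun j => ?_, fun z hz => ⟨fun j => ?_, ?_⟩⟩
  · have h1 : DifferentiableOn ℂ (B j) (Pr (fun _ : Fin n => HP)) :=
      osgood (fun _ => Disc_HP_open) (hB j)
    exact h1.comp (Disc_pi_diff Disc_ki_diff (fun z hz i => mem_ball_zero_iff.mpr (hz i))) hkiP
  · exact hBC j _ (hkiP z hz)
  · have h1 := hB1 _ (hkiP z hz)
    have h2 : (fun i => Disc_k (Disc_ki (z i))) = z := funext (fun i => Disc_k_ki (hz i))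
    simp only [h2] at h1
    exact h1

end Cor
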