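import Pool.Agent.helper45.Cor.GeoD

/-!
Module COR-G1: geometry of the cells.  Elementary (`cs m n = 2 ^ (-n-m)`).

`find_cell`: `z.im` lies in exactly one of the bands `((1/2)^n, 2 (1/2)^n)` (the end points are
excluded since `z ∉ Bad`), then take floors of `z.re / cs m n` and `(z.im - (1/2)^n) / cs m n`; two
different cells have disjoint interiors and `z` is on no grid line, so `z` is strictly outside of
all other closed cells: if `z` is in another closed cell `(n', a', b')` then, not being on a grid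
line, it is in its interior, and interiors of different cells are disjoint.
`bad_null`: finite union of lines (`Complex.volume_preserving_equiv_real_prod`, or
`MeasureTheory.Measure.addHaar_affineSubspace`).
-/

noncomputable section

open Set Finset MeasureTheory

namespace Cor

theorem cs_pos (m n : ℕ) : 0 < cs m n := by
  unfold cs
  positivity

theorem Geo1_cs_mul (m n : ℕ) : (2 : ℝ) ^ m * cs m n = (1 / 2) ^ n := by
  unfold cs
  rw [pow_add, mul_comm, mul_assoc, ← mul_pow]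
  norm_num

theorem Geo1_cs_mul' (m n : ℕ) : (2 : ℝ) ^ (n + m) * cs m n = 1 := by
  unfold cs
  rw [← mul_pow]
  norm_num

theorem cell_sub_box {m n a b : ℕ} (hb : b < 2 ^ m) : cell m n a b ⊆ box (n, a / 2 ^ m) := by
  rintro z ⟨h1, h2, h3, h4⟩
  have hc := cs_pos m n
  have hlen : len (n, a / 2 ^ m) = (2 : ℝ) ^ m * cs m n := by
    rw [Geo1_cs_mul]
    rfl
  have hlen' : len (n, a / 2 ^ m) = (1 / 2 : ℝ) ^ n := rfl
  have hpos : 0 < 2 ^ m := by positivity
  have hdiv1 : a / 2 ^ m * 2 ^ m ≤ a := Nat.div_mul_le_self a (2 ^ m)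
  have hdiv2 : a + 1 ≤ (a / 2 ^ m + 1) * 2 ^ m := by
    have := Nat.lt_div_mul_add hpos (a := a)
    nlinarith
  have hdiv1' : ((a / 2 ^ m : ℕ) : ℝ) * 2 ^ m ≤ a := by exact_mod_cast hdiv1
  have hdiv2' : (a : ℝ) + 1 ≤ (((a / 2 ^ m : ℕ) : ℝ) + 1) * 2 ^ m := by exact_mod_cast hdiv2
  have hb' : (b : ℝ) + 1 ≤ 2 ^ m := by exact_mod_cast hb
  refine ⟨?_, ?_, ?_, ?_⟩
  · rw [hlen]
    calc (((n, a / 2 ^ m) : Nd).2 : ℝ) * ((2 : ℝ) ^ m * cs m n)
        = (((a / 2 ^ m : ℕ) : ℝ) * 2 ^ m) * cs m n := by ring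
      _ ≤ a * cs m n := mul_le_mul_of_nonneg_right hdiv1' hc.le
      _ ≤ z.re := h1
  · rw [hlen]
    calc z.re ≤ ((a : ℝ) + 1) * cs m n := h2
      _ ≤ ((((a / 2 ^ m : ℕ) : ℝ) + 1) * 2 ^ m) * cs m n :=
          mul_le_mul_of_nonneg_right hdiv2' hc.le
      _ = ((((n, a / 2 ^ m) : Nd).2 : ℝ) + 1) * ((2 : ℝ) ^ m * cs m n) := by ring
  · rw [hlen']
    have : 0 ≤ (b : ℝ) * cs m n := by positivity
    linarith
  · have h5 : ((b : ℝ) + 1) * cs m n ≤ 2 ^ m * cs m n := mul_le_mul_of_nonneg_right hb' hc.le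
    rw [Geo1_cs_mul] at h5
    rw [hlen']
    linarith

theorem cell_eq (m n a b : ℕ) : cell m n a b =
    {ζ : ℂ | (cc m n a b).re ≤ ζ.re ∧ ζ.re ≤ (cc m n a b).re + cs m n ∧
      (cc m n a b).im ≤ ζ.im ∧ ζ.im ≤ (cc m n a b).im + cs m n} := by
  ext ζ
  have h1 : (cc m n a b).re = (a : ℝ) * cs m n := rfl
  have h2 : (cc m n a b).im = (1 / 2) ^ n + (b : ℝ) * cs m n := rfl
  unfold cell
  simp only [Set.mem_ofPred_eq]
  rw [h1, h2]
  have h3 : ((a : ℝ) + 1) * cs m n = (a : ℝ) * cs m n + cs m n := by ring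
  have h4 : (1 / 2 : ℝ) ^ n + ((b : ℝ) + 1) * cs m n =
      (1 / 2) ^ n + (b : ℝ) * cs m n + cs m n := by ring
  rw [h3, h4]

/-- two bands which share an interior point are equal -/
theorem Geo1_band {n n' : ℕ} {y : ℝ} (h1 : (1 / 2 : ℝ) ^ n < y) (h2 : y < 2 * (1 / 2) ^ n)
    (h3 : (1 / 2 : ℝ) ^ n' < y) (h4 : y < 2 * (1 / 2) ^ n') : n = n' := by
  have key : ∀ {a b : ℕ}, (1 / 2 : ℝ) ^ a < y → y < 2 * (1 / 2 : ℝ) ^ b → b ≤ a := by
    intro a b ha hb
    by_contra hlt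
    push Not at hlt
    have h : (1 / 2 : ℝ) ^ b ≤ (1 / 2 : ℝ) ^ (a + 1) :=
      pow_le_pow_of_le_one (by norm_num) (by norm_num) hlt
    rw [pow_succ] at h
    linarith
  exact le_antisymm (key h3 h2) (key h1 h4)

/-- two intervals of a grid which share an interior point are equal -/
theorem Geo1_floor {a a' : ℕ} {c x : ℝ} (hc : 0 < c) (h1 : (a : ℝ) * c < x)
    (h2 : x < ((a : ℝ) + 1) * c) (h3 : (a' : ℝ) * c < x) (h4 : x < ((a' : ℝ) + 1) * c) :
    a = a' := by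
  have h5 : (a : ℝ) < a' + 1 := lt_of_mul_lt_mul_right (h1.trans h4) hc.le
  have h6 : (a' : ℝ) < a + 1 := lt_of_mul_lt_mul_right (h3.trans h2) hc.le
  have h5' : a < a' + 1 := by exact_mod_cast h5
  have h6' : a' < a + 1 := by exact_mod_cast h6
  omega

theorem find_cell {m N : ℕ} {z : ℂ} (hz : z ∈ Om N) (hb : z ∉ Bad m N) :
    ∃ n ≤ N, ∃ a < 2 ^ (n + m), ∃ b < 2 ^ m,
      ((cc m n a b).re < z.re ∧ z.re < (cc m n a b).re + cs m n ∧ (cc m n a b).im < z.im ∧
        z.im < (cc m n a b).im + cs m n) ∧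
      ∀ n' ≤ N, ∀ a' < 2 ^ (n' + m), ∀ b' < 2 ^ m, (n', a', b') ≠ (n, a, b) →
        z.re < (cc m n' a' b').re ∨ (cc m n' a' b').re + cs m n' < z.re ∨
          z.im < (cc m n' a' b').im ∨ (cc m n' a' b').im + cs m n' < z.im := by
  obtain ⟨hr0, hr1, hi0, hi1⟩ := hz
  have hre : ∀ n ≤ N, ∀ a : ℕ, a ≤ 2 ^ (n + m) → z.re ≠ (a : ℝ) * cs m n := by
    intro n hn a ha h
    exact hb (Or.inl ⟨n, hn, a, ha, h⟩)
  have him : ∀ n ≤ N, ∀ b : ℕ, b ≤ 2 ^ m → z.im ≠ (1 / 2) ^ n + (b : ℝ) * cs m n := by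
    intro n hn b hb' h
    exact hb (Or.inr ⟨n, hn, b, hb', h⟩)
  -- the band
  have hex : ∃ n, (1 / 2 : ℝ) ^ n < z.im := ⟨N, hi0⟩
  classical
  obtain ⟨n, hnN, hn1, hn2⟩ : ∃ n ≤ N, (1 / 2 : ℝ) ^ n < z.im ∧ z.im < 2 * (1 / 2) ^ n := by
    refine ⟨Nat.find hex, Nat.find_min' hex hi0, Nat.find_spec hex, ?_⟩
    rcases Nat.eq_zero_or_pos (Nat.find hex) with h0 | hpos
    · rw [h0, pow_zero]
      linarith
    · obtain ⟨k, hk⟩ := Nat.exists_eq_succ_of_ne_zero hpos.ne'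
      have hkN : k ≤ N := by
        have := Nat.find_min' hex hi0
        omega
      have h1 : ¬ (1 / 2 : ℝ) ^ k < z.im := Nat.find_min hex (by omega)
      push Not at h1
      have h2 : z.im ≠ (1 / 2) ^ k := by
        have := him k hkN 0 (Nat.zero_le _)
        simpa using this
      have h3 := lt_of_le_of_ne h1 h2
      rw [hk, pow_succ]
      linarith
  have hc := cs_pos m n
  -- the column
  obtain ⟨a, ha, ha1, ha2⟩ : ∃ a : ℕ, a < 2 ^ (n + m) ∧ (a : ℝ) * cs m n < z.re ∧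
      z.re < ((a : ℝ) + 1) * cs m n := by
    have hq : 0 ≤ z.re / cs m n := div_nonneg hr0.le hc.le
    have h1 : (⌊z.re / cs m n⌋₊ : ℝ) ≤ z.re / cs m n := Nat.floor_le hq
    have h2 : z.re / cs m n < (⌊z.re / cs m n⌋₊ : ℝ) + 1 := Nat.lt_floor_add_one _
    rw [le_div_iff₀ hc] at h1
    rw [div_lt_iff₀ hc] at h2
    have h3 : ⌊z.re / cs m n⌋₊ < 2 ^ (n + m) := by
      have h4 : (⌊z.re / cs m n⌋₊ : ℝ) * cs m n < (2 : ℝ) ^ (n + m) * cs m n := by
        rw [Geo1_cs_mul']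
        linarith
      have h5 := lt_of_mul_lt_mul_right h4 hc.le
      exact_mod_cast h5
    refine ⟨_, h3, lt_of_le_of_ne h1 (Ne.symm (hre n hnN _ h3.le)), h2⟩
  -- the row
  obtain ⟨b, hbm, hb1, hb2⟩ : ∃ b : ℕ, b < 2 ^ m ∧ (b : ℝ) * cs m n < z.im - (1 / 2) ^ n ∧
      z.im - (1 / 2) ^ n < ((b : ℝ) + 1) * cs m n := by
    have hq : 0 ≤ (z.im - (1 / 2) ^ n) / cs m n := div_nonneg (by linarith) hc.le
    have h1 : (⌊(z.im - (1 / 2) ^ n) / cs m n⌋₊ : ℝ) ≤ (z.im - (1 / 2) ^ n) / cs m n :=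
      Nat.floor_le hq
    have h2 : (z.im - (1 / 2) ^ n) / cs m n < (⌊(z.im - (1 / 2) ^ n) / cs m n⌋₊ : ℝ) + 1 :=
      Nat.lt_floor_add_one _
    rw [le_div_iff₀ hc] at h1
    rw [div_lt_iff₀ hc] at h2
    have h3 : ⌊(z.im - (1 / 2) ^ n) / cs m n⌋₊ < 2 ^ m := by
      have h4 : (⌊(z.im - (1 / 2) ^ n) / cs m n⌋₊ : ℝ) * cs m n < (2 : ℝ) ^ m * cs m n := by
        rw [Geo1_cs_mul]
        linarith
      have h5 := lt_of_mul_lt_mul_right h4 hc.le
      exact_mod_cast h5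
    refine ⟨_, h3, lt_of_le_of_ne h1 ?_, h2⟩
    intro h
    apply him n hnN _ h3.le
    rw [h]
    ring
  refine ⟨n, hnN, a, ha, b, hbm, ⟨?_, ?_, ?_, ?_⟩, ?_⟩
  · exact ha1
  · have : (cc m n a b).re + cs m n = ((a : ℝ) + 1) * cs m n := by
      change (a : ℝ) * cs m n + cs m n = _
      ring
    rw [this]
    exact ha2
  · change (1 / 2 : ℝ) ^ n + (b : ℝ) * cs m n < z.im
    linarith
  · change z.im < (1 / 2 : ℝ) ^ n + (b : ℝ) * cs m n + cs m n
    linarith
  · intro n' hn' a' ha' b' hb' hne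
    by_contra hno
    push Not at hno
    obtain ⟨k1, k2, k3, k4⟩ := hno
    apply hne
    have hc' := cs_pos m n'
    have e1 : (a' : ℝ) * cs m n' < z.re :=
      lt_of_le_of_ne k1 (Ne.symm (hre n' hn' a' ha'.le))
    have e2 : z.re < ((a' : ℝ) + 1) * cs m n' := by
      have h1 : z.re ≤ ((a' : ℝ) + 1) * cs m n' := by
        have h2 : z.re ≤ (a' : ℝ) * cs m n' + cs m n' := k2
        linarith
      refine lt_of_le_of_ne h1 ?_
      have := hre n' hn' (a' + 1) ha'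
      push_cast at this
      exact this
    have e3 : (b' : ℝ) * cs m n' < z.im - (1 / 2) ^ n' := by
      have h1 : (1 / 2 : ℝ) ^ n' + (b' : ℝ) * cs m n' ≤ z.im := k3
      have h2 := lt_of_le_of_ne h1 (Ne.symm (him n' hn' b' hb'.le))
      linarith
    have e4 : z.im - (1 / 2) ^ n' < ((b' : ℝ) + 1) * cs m n' := by
      have h1 : z.im ≤ (1 / 2 : ℝ) ^ n' + ((b' : ℝ) + 1) * cs m n' := by
        have h2 : z.im ≤ (1 / 2 : ℝ) ^ n' + (b' : ℝ) * cs m n' + cs m n' := k4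
        linarith
      have h3 := him n' hn' (b' + 1) hb'
      push_cast at h3
      have h4 := lt_of_le_of_ne h1 h3
      linarith
    have e5 : (1 / 2 : ℝ) ^ n' < z.im := by
      have : 0 ≤ (b' : ℝ) * cs m n' := by positivity
      linarith
    have e6 : z.im < 2 * (1 / 2 : ℝ) ^ n' := by
      have hb'' : (b' : ℝ) + 1 ≤ 2 ^ m := by exact_mod_cast hb'
      have h5 : ((b' : ℝ) + 1) * cs m n' ≤ 2 ^ m * cs m n' :=
        mul_le_mul_of_nonneg_right hb'' hc'.le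
      rw [Geo1_cs_mul] at h5
      linarith
    have hnn : n = n' := Geo1_band hn1 hn2 e5 e6
    subst hnn
    have haa := Geo1_floor hc ha1 ha2 e1 e2
    have hbb := Geo1_floor hc hb1 hb2 e3 e4
    rw [haa, hbb]

theorem bd_sub_bad {m N n a b : ℕ} (hn : n ≤ N) (ha : a < 2 ^ (n + m)) (hb : b < 2 ^ m) :
    bd m n a b ⊆ Bad m N := by
  rintro z ⟨_, hz⟩
  rcases hz with h | h | h | h
  · exact Or.inl ⟨n, hn, a, ha.le, h⟩
  · exact Or.inl ⟨n, hn, a + 1, ha, by rw [h]; push_cast; ring⟩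
  · exact Or.inr ⟨n, hn, b, hb.le, h⟩
  · exact Or.inr ⟨n, hn, b + 1, hb, by rw [h]; push_cast; ring⟩

theorem Geo1_re_null (c : ℝ) : volume {z : ℂ | z.re = c} = 0 := by
  have h1 : {z : ℂ | z.re = c} = Complex.measurableEquivRealProd ⁻¹' ({c} ×ˢ Set.univ) := by
    ext z
    simp [Complex.measurableEquivRealProd_apply]
  rw [h1, Complex.volume_preserving_equiv_real_prod.measure_preimage]
  · rw [Measure.volume_eq_prod, Measure.prod_prod, Real.volume_singleton, zero_mul]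
  · exact ((measurableSet_singleton c).prod MeasurableSet.univ).nullMeasurableSet

theorem Geo1_im_null (c : ℝ) : volume {z : ℂ | z.im = c} = 0 := by
  have h1 : {z : ℂ | z.im = c} = Complex.measurableEquivRealProd ⁻¹' (Set.univ ×ˢ {c}) := by
    ext z
    simp [Complex.measurableEquivRealProd_apply]
  rw [h1, Complex.volume_preserving_equiv_real_prod.measure_preimage]
  · rw [Measure.volume_eq_prod, Measure.prod_prod, Real.volume_singleton, mul_zero]
  · exact (MeasurableSet.univ.prod (measurableSet_singleton c)).nullMeasurableSet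

theorem bad_null (m N : ℕ) : volume (Bad m N) = 0 := by
  have hsub : Bad m N ⊆
      (⋃ p : ℕ × ℕ, {z : ℂ | z.re = (p.2 : ℝ) * cs m p.1}) ∪
        ⋃ p : ℕ × ℕ, {z : ℂ | z.im = (1 / 2) ^ p.1 + (p.2 : ℝ) * cs m p.1} := by
    rintro z (⟨n, _, a, _, h⟩ | ⟨n, _, b, _, h⟩)
    · exact Or.inl (Set.mem_iUnion.mpr ⟨(n, a), h⟩)
    · exact Or.inr (Set.mem_iUnion.mpr ⟨(n, b), h⟩)
  refine measure_mono_null hsub (measure_union_null ?_ ?_)
  · exact measure_iUnion_null fun p => Geo1_re_null _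
  · exact measure_iUnion_null fun p => Geo1_im_null _

theorem om_open (N : ℕ) : IsOpen (Om N) := by
  have h1 : Om N = {z : ℂ | 0 < z.re} ∩ {z | z.re < 1} ∩ {z | (1 / 2) ^ N < z.im} ∩
      {z | z.im < 2} := by
    ext z
    simp only [Om, Set.mem_ofPred_eq, Set.mem_inter_iff]
    tauto
  rw [h1]
  exact (((isOpen_lt continuous_const Complex.continuous_re).inter
    (isOpen_lt Complex.continuous_re continuous_const)).inter
    (isOpen_lt continuous_const Complex.continuous_im)).inter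
    (isOpen_lt Complex.continuous_im continuous_const)

theorem om_sub (N : ℕ) : Om N ⊆ HP := by
  rintro z ⟨_, _, h, _⟩
  exact lt_trans (by positivity) h

theorem dn_ball {N : ℕ} {z : ℂ} (hz : z ∈ DN N) :
    z ∈ Om N ∧ Metric.closedBall z (z.im / 4) ⊆ Om N := by
  obtain ⟨h1, h2, h3, h4⟩ := hz
  have hp : (0 : ℝ) < (1 / 2) ^ N := by positivity
  have hsub : Metric.closedBall z (z.im / 4) ⊆ Om N := by
    intro w hw
    rw [Metric.mem_closedBall, dist_eq_norm] at hw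
    have hre : |w.re - z.re| ≤ z.im / 4 := by
      have := Complex.abs_re_le_norm (w - z)
      rw [Complex.sub_re] at this
      exact this.trans hw
    have him : |w.im - z.im| ≤ z.im / 4 := by
      have := Complex.abs_im_le_norm (w - z)
      rw [Complex.sub_im] at this
      exact this.trans hw
    rw [abs_le] at hre him
    refine ⟨?_, ?_, ?_, ?_⟩ <;> linarith [hre.1, hre.2, him.1, him.2]
  refine ⟨hsub (Metric.mem_closedBall_self ?_), hsub⟩
  linarith

end Cor
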