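import Pool.Agent.helper45.Cor.Geo1
import Pool.Agent.helper45.Cor.Rect
import Pool.Agent.helper45.Cor.Ker

/-!
Module COR-G2: Cauchy's formula for the piecewise defined function.

PROOF.  `cauchy_sum`: let `(n, a, b)` be the cell of `z` (`find_cell`).  Sum over all cells of
`rInt (cc ..) (cs ..) (cs ..) (fun ζ => (ζ - z)⁻¹ • s (lab ..) ζ)`: the cell of `z` gives
`2 π i • s (lab n a b) z` (`rInt_cauchy`), the others `0` (`rInt_zero`).  By `telescope` (the
functions `(ζ - z)⁻¹ • s (lab ..) ζ` are continuous on `bd`, because `z ∉ Bad`) the sum is `OutB`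
plus the sum over all edges of
`eInt p d s (fun ζ => (ζ - z)⁻¹ • s lp ζ - (ζ - z)⁻¹ • s lm ζ)`, which is zero for the edges with
`lp = lm`; the sum over `EAll m N` splits according to the kind into the three last sums of
`telescope`.
`out_diff`: each edge of the outer boundary is disjoint from `Om N` (`edge_cauchy`).
-/

noncomputable section

open Set Finset

namespace Cor

variable {X : Type*} [NormedAddCommGroup X] [NormedSpace ℂ X] [CompleteSpace X] {Λ : Type*}

/-- `s` is holomorphic near each cell -/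
def CellHol (m N : ℕ) (lab : ℕ → ℕ → ℕ → Λ) (s : Λ → ℂ → X) : Prop :=
  ∀ n ≤ N, ∀ a < 2 ^ (n + m), ∀ b < 2 ^ m, ∃ O : Set ℂ, IsOpen O ∧ cell m n a b ⊆ O ∧
    DifferentiableOn ℂ (s (lab n a b)) O

/-! ### the four sides of a cell -/

theorem Geo2_bot {m n a b : ℕ} {t : ℝ} (ht : t ∈ Icc (0 : ℝ) (cs m n)) :
    cc m n a b + 1 * t ∈ cell m n a b := by
  have h0 := cs_pos m n
  obtain ⟨h1, h2⟩ := ht
  simp only [cell, mem_ofPred_eq, cc, Complex.add_re, Complex.add_im, one_mul, Complex.ofReal_re,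
    Complex.ofReal_im]
  refine ⟨?_, ?_, ?_, ?_⟩ <;> nlinarith

theorem Geo2_top {m n a b : ℕ} {t : ℝ} (ht : t ∈ Icc (0 : ℝ) (cs m n)) :
    cc m n a b + Complex.I * cs m n + 1 * t ∈ cell m n a b := by
  have h0 := cs_pos m n
  obtain ⟨h1, h2⟩ := ht
  simp only [cell, mem_ofPred_eq, cc, Complex.add_re, Complex.add_im, one_mul, Complex.ofReal_re,
    Complex.ofReal_im, Complex.mul_re, Complex.mul_im, Complex.I_re, Complex.I_im]
  refine ⟨?_, ?_, ?_, ?_⟩ <;> nlinarith

theorem Geo2_right {m n a b : ℕ} {t : ℝ} (ht : t ∈ Icc (0 : ℝ) (cs m n)) :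
    cc m n a b + cs m n + Complex.I * t ∈ cell m n a b := by
  have h0 := cs_pos m n
  obtain ⟨h1, h2⟩ := ht
  simp only [cell, mem_ofPred_eq, cc, Complex.add_re, Complex.add_im, Complex.ofReal_re,
    Complex.ofReal_im, Complex.mul_re, Complex.mul_im, Complex.I_re, Complex.I_im]
  refine ⟨?_, ?_, ?_, ?_⟩ <;> nlinarith

theorem Geo2_left {m n a b : ℕ} {t : ℝ} (ht : t ∈ Icc (0 : ℝ) (cs m n)) :
    cc m n a b + Complex.I * t ∈ cell m n a b := by
  have h0 := cs_pos m n
  obtain ⟨h1, h2⟩ := ht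
  simp only [cell, mem_ofPred_eq, cc, Complex.add_re, Complex.add_im, Complex.ofReal_re,
    Complex.ofReal_im, Complex.mul_re, Complex.mul_im, Complex.I_re, Complex.I_im]
  refine ⟨?_, ?_, ?_, ?_⟩ <;> nlinarith

omit [CompleteSpace X] in
/-- continuity along a segment contained in a cell -/
theorem Geo2_cont {m N : ℕ} {lab : ℕ → ℕ → ℕ → Λ} {s : Λ → ℂ → X} (h : CellHol m N lab s)
    {n a b : ℕ} (hn : n ≤ N) (ha : a < 2 ^ (n + m)) (hb : b < 2 ^ m) {p d : ℂ} {l : ℝ}
    (hp : ∀ t ∈ Icc (0 : ℝ) l, p + d * t ∈ cell m n a b) :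
    ContinuousOn (fun t : ℝ => s (lab n a b) (p + d * t)) (Icc 0 l) := by
  obtain ⟨O, hO, hsub, hd⟩ := h n hn a ha b hb
  refine ContinuousOn.comp (g := s (lab n a b)) (t := O) hd.continuousOn
    (f := fun t : ℝ => p + d * t) ?_ fun t ht => hsub (hp t ht)
  exact (continuous_const.add (continuous_const.mul Complex.continuous_ofReal)).continuousOn

theorem Geo2_cs (m n : ℕ) : (2 ^ (n + m) : ℝ) * cs m n = 1 := by
  unfold cs
  rw [← mul_pow]
  norm_num

theorem out_diff {m N : ℕ} {lab : ℕ → ℕ → ℕ → Λ} {s : Λ → ℂ → X} (h : CellHol m N lab s) :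
    DifferentiableOn ℂ (OutB m N lab s) (Om N) := by
  have hcs : ∀ n, 0 ≤ cs m n := fun n => (cs_pos m n).le
  have hone : 1 ≤ 2 ^ m := Nat.one_le_two_pow
  unfold OutB
  refine DifferentiableOn.sub (DifferentiableOn.add (DifferentiableOn.sub ?_ ?_) ?_) ?_
  · refine DifferentiableOn.fun_sum fun a ha => ?_
    rw [Finset.mem_range] at ha
    refine edge_cauchy (hcs N) (Geo2_cont h le_rfl ha (by omega) fun t ht => Geo2_bot ht)
      (om_open N) fun t ht hm => ?_
    have := hm.2.2.1
    simp [cc] at this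
  · refine DifferentiableOn.fun_sum fun a ha => ?_
    rw [Finset.mem_range] at ha
    refine edge_cauchy (hcs 0) (Geo2_cont h (Nat.zero_le _) (by rw [zero_add]; exact ha)
      (by omega) fun t ht => Geo2_top ht) (om_open N) fun t ht hm => ?_
    have h2 := hm.2.2.2
    simp only [cc, Complex.add_im, one_mul, Complex.ofReal_im, Complex.mul_im, Complex.I_re,
      Complex.I_im, Complex.ofReal_re] at h2
    have h3 := Geo2_cs m 0
    rw [zero_add] at h3
    have h4 : ((2 ^ m - 1 : ℕ) : ℝ) = 2 ^ m - 1 := by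
      rw [Nat.cast_sub hone]; push_cast; ring
    rw [h4] at h2
    nlinarith
  · refine DifferentiableOn.fun_sum fun n hn => DifferentiableOn.fun_sum fun b hb => ?_
    rw [Finset.mem_range] at hn hb
    have hone' : 1 ≤ 2 ^ (n + m) := Nat.one_le_two_pow
    refine edge_cauchy (hcs n) (Geo2_cont h (by omega) (by omega) hb
      fun t ht => Geo2_right ht) (om_open N) fun t ht hm => ?_
    have h2 := hm.2.1
    simp only [cc, Complex.add_re, Complex.ofReal_im, Complex.mul_re, Complex.I_re,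
      Complex.I_im, Complex.ofReal_re] at h2
    have h3 := Geo2_cs m n
    have h4 : ((2 ^ (n + m) - 1 : ℕ) : ℝ) = 2 ^ (n + m) - 1 := by
      rw [Nat.cast_sub hone']; push_cast; ring
    rw [h4] at h2
    nlinarith
  · refine DifferentiableOn.fun_sum fun n hn => DifferentiableOn.fun_sum fun b hb => ?_
    rw [Finset.mem_range] at hn hb
    have hone' : 1 ≤ 2 ^ (n + m) := Nat.one_le_two_pow
    refine edge_cauchy (hcs n) (Geo2_cont h (by omega) (by omega) hb
      fun t ht => Geo2_left ht) (om_open N) fun t ht hm => ?_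
    have h2 := hm.1
    simp [cc] at h2

omit [NormedSpace ℂ X] [CompleteSpace X] in
/-- the sum over all edges, by kinds -/
theorem Geo2_sum {m N : ℕ} (T : Fin 3 × ℕ × ℕ × ℕ → X) :
    ∑ e ∈ EAll m N, T e =
      ∑ n ∈ range (N + 1), ∑ a ∈ range (2 ^ (n + m) - 1), ∑ b ∈ range (2 ^ m), T (0, n, a, b) +
      ∑ n ∈ range (N + 1), ∑ a ∈ range (2 ^ (n + m)), ∑ b ∈ range (2 ^ m - 1), T (1, n, a, b) +
      ∑ n ∈ range N, ∑ a ∈ range (2 ^ (n + 1 + m)), T (2, n, a, 0) := by
  have e0 : ∀ {A B : ℕ} (f : ℕ → X), B ≤ A →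
      ∑ a ∈ range A, (if a + 1 < B then f a else 0) = ∑ a ∈ range (B - 1), f a := by
    intro A B f hAB
    rw [← Finset.sum_filter]
    congr 1
    ext a
    simp only [mem_filter, Finset.mem_range]
    omega
  have e1 : ∀ {A B : ℕ} (f : ℕ → X), B ≤ A →
      ∑ a ∈ range A, (if a < B then f a else 0) = ∑ a ∈ range B, f a := by
    intro A B f hAB
    rw [← Finset.sum_filter]
    congr 1
    ext a
    simp only [mem_filter, Finset.mem_range]
    omega
  have hle : ∀ n ∈ range (N + 1), 2 ^ (n + m) ≤ 2 ^ (N + m) := fun n hn =>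
    Nat.pow_le_pow_right (by norm_num) (by have := Finset.mem_range.mp hn; omega)
  have hone : 0 < 2 ^ m := by positivity
  unfold EAll
  rw [sum_filter, sum_product]
  simp only [sum_product, Fin.sum_univ_three]
  refine congrArg₂ (· + ·) (congrArg₂ (· + ·) ?_ ?_) ?_
  · refine sum_congr rfl fun n hn => ?_
    refine (sum_congr rfl fun a _ => ?_).trans (e0 _ (hle n hn))
    by_cases h : a + 1 < 2 ^ (n + m) <;> simp [h]
  · refine sum_congr rfl fun n hn => ?_
    refine (sum_congr rfl fun a _ => ?_).trans (e1 _ (hle n hn))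
    by_cases h : a < 2 ^ (n + m)
    · rw [if_pos h, ← e0 _ (le_refl (2 ^ m))]
      refine sum_congr rfl fun b _ => ?_
      simp [h]
    · simp [h]
  · refine (sum_congr rfl fun n _ => ?_).trans (e1 _ (Nat.le_succ N))
    by_cases h : n < N
    · rw [if_pos h]
      refine (sum_congr rfl fun a _ => ?_).trans (e1 (A := 2 ^ (N + m)) _
        (Nat.pow_le_pow_right (by norm_num) (by omega)))
      by_cases h' : a < 2 ^ (n + 1 + m)
      · rw [if_pos h', sum_eq_single 0]
        · simp [h, h']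
        · intro b _ hb
          simp [hb]
        · intro h0
          exact absurd (Finset.mem_range.mpr hone) h0
      · simp [h']
    · simp [h]

omit [CompleteSpace X] in
theorem Geo2_zero (p d : ℂ) (l : ℝ) : eInt p d l (fun _ => (0 : X)) = 0 := by
  unfold eInt
  simp

theorem cauchy_sum {m N : ℕ} {lab : ℕ → ℕ → ℕ → Λ} {G : Finset Nd} {s : Λ → ℂ → X}
    (h : CellHol m N lab s) {z : ℂ} (hz : z ∈ Om N) (hb : z ∉ Bad m N) {n a b : ℕ} (hn : n ≤ N)
    (ha : a < 2 ^ (n + m)) (hb' : b < 2 ^ m) (hc : z ∈ cell m n a b) :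
    (2 * Real.pi * Complex.I : ℂ) • s (lab n a b) z = OutB m N lab s z +
      ∑ e ∈ EInt m N lab G, eInt (edAll m lab G e).p (edAll m lab G e).d (edAll m lab G e).s
        (fun ζ => (ζ - z)⁻¹ • (s (edAll m lab G e).lp ζ - s (edAll m lab G e).lm ζ)) := by
  have hcs : ∀ n, 0 < cs m n := fun n => cs_pos m n
  -- the cell of `z`
  obtain ⟨n₀, hn₀, a₀, ha₀, b₀, hb₀, hin, hout⟩ := find_cell hz hb
  have heq : (n, a, b) = (n₀, a₀, b₀) := by
    by_contra hne
    have h1 := hout n hn a ha b hb' hne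
    rw [cell_eq] at hc
    obtain ⟨c1, c2, c3, c4⟩ := hc
    rcases h1 with h1 | h1 | h1 | h1 <;> linarith
  have e1 : n₀ = n := (congrArg Prod.fst heq).symm
  have e2 : a₀ = a := (congrArg (fun x => x.2.1) heq).symm
  have e3 : b₀ = b := (congrArg (fun x => x.2.2) heq).symm
  subst e1 e2 e3
  -- continuity on the boundaries
  have hφ : ∀ n ≤ N, ∀ a < 2 ^ (n + m), ∀ b < 2 ^ m,
      ContinuousOn (fun ζ => (ζ - z)⁻¹ • s (lab n a b) ζ) (bd m n a b) := by
    intro n hn a ha b hb''
    obtain ⟨O, hO, hsub, hd⟩ := h n hn a ha b hb''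
    refine ContinuousOn.smul ?_ (hd.continuousOn.mono ?_)
    · refine ContinuousOn.inv₀ (by fun_prop) ?_
      intro ζ hζ h0
      rw [sub_eq_zero] at h0
      subst h0
      exact hb (bd_sub_bad hn ha hb'' hζ)
    · exact Set.inter_subset_left.trans hsub
  have htel := telescope m N (fun n a b ζ => (ζ - z)⁻¹ • s (lab n a b) ζ) hφ
  -- the left side
  have hcell : ∀ n' ≤ N, ∀ a' < 2 ^ (n' + m), ∀ b' < 2 ^ m, (n', a', b') ≠ (n₀, a₀, b₀) →
      rInt (cc m n' a' b') (cs m n') (cs m n') (fun ζ => (ζ - z)⁻¹ • s (lab n' a' b') ζ) = 0 := by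
    intro n' hn' a' ha' b' hb'' hne
    obtain ⟨O, hO, hsub, hd⟩ := h n' hn' a' ha' b' hb''
    rw [cell_eq] at hsub
    exact rInt_zero (hcs n').le (hcs n').le hO hsub hd (hout n' hn' a' ha' b' hb'' hne)
  have hself : rInt (cc m n₀ a₀ b₀) (cs m n₀) (cs m n₀)
      (fun ζ => (ζ - z)⁻¹ • s (lab n₀ a₀ b₀) ζ) =
        (2 * Real.pi * Complex.I : ℂ) • s (lab n₀ a₀ b₀) z := by
    obtain ⟨O, hO, hsub, hd⟩ := h n₀ hn₀ a₀ ha₀ b₀ hb₀
    rw [cell_eq] at hsub
    exact rInt_cauchy hO hsub hd hin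
  have hleft : ∑ n ∈ range (N + 1), ∑ a ∈ range (2 ^ (n + m)), ∑ b ∈ range (2 ^ m),
        rInt (cc m n a b) (cs m n) (cs m n) (fun ζ => (ζ - z)⁻¹ • s (lab n a b) ζ) =
      (2 * Real.pi * Complex.I : ℂ) • s (lab n₀ a₀ b₀) z := by
    rw [sum_eq_single n₀, sum_eq_single a₀, sum_eq_single b₀]
    · exact hself
    · intro b' hb'' hne
      exact hcell n₀ hn₀ a₀ ha₀ b' (Finset.mem_range.mp hb'') (by
        intro he; exact hne (congrArg (fun x => x.2.2) he))
    · intro h0; exact absurd (Finset.mem_range.mpr hb₀) h0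
    · intro a' ha' hne
      refine sum_eq_zero fun b' hb'' => ?_
      exact hcell n₀ hn₀ a' (Finset.mem_range.mp ha') b' (Finset.mem_range.mp hb'') (by
        intro he; exact hne (congrArg (fun x => x.2.1) he))
    · intro h0; exact absurd (Finset.mem_range.mpr ha₀) h0
    · intro n' hn' hne
      refine sum_eq_zero fun a' ha' => sum_eq_zero fun b' hb'' => ?_
      exact hcell n' (by have := Finset.mem_range.mp hn'; omega) a' (Finset.mem_range.mp ha') b'
        (Finset.mem_range.mp hb'') (by intro he; exact hne (congrArg (fun x => x.1) he))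
    · intro h0; exact absurd (Finset.mem_range.mpr (by omega)) h0
  -- the sum over the edges
  have hE : ∑ e ∈ EInt m N lab G, eInt (edAll m lab G e).p (edAll m lab G e).d
        (edAll m lab G e).s
        (fun ζ => (ζ - z)⁻¹ • (s (edAll m lab G e).lp ζ - s (edAll m lab G e).lm ζ)) =
      ∑ e ∈ EAll m N, eInt (edAll m lab G e).p (edAll m lab G e).d (edAll m lab G e).s
        (fun ζ => (ζ - z)⁻¹ • (s (edAll m lab G e).lp ζ - s (edAll m lab G e).lm ζ)) := by
    classical
    refine sum_subset ?_ ?_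
    · intro e he
      unfold EInt at he
      rw [Finset.mem_filter] at he
      exact he.1
    · intro e he hne
      have heq : (edAll m lab G e).lp = (edAll m lab G e).lm := by
        by_contra hcon
        apply hne
        unfold EInt
        rw [Finset.mem_filter]
        exact ⟨he, hcon⟩
      rw [heq]
      simp only [sub_self, smul_zero]
      exact Geo2_zero _ _ _
  rw [hE, Geo2_sum, ← hleft, htel]
  unfold OutB
  have t0 : ∀ n a b, edAll m lab G (0, n, a, b) = edV m lab G n a b := fun n a b => by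
    simp [edAll]
  have t1 : ∀ n a b, edAll m lab G (1, n, a, b) = edH m lab n a b := fun n a b => by
    simp [edAll]
  have t2 : ∀ n a b, edAll m lab G (2, n, a, b) = edL m lab G n a := fun n a b => by
    simp [edAll]
  simp only [t0, t1, t2, edV, edH, edL, smul_sub]
  abel

end Cor
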