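import Pool.Agent.helper45.Cor.Geo1

/-!
Module COR-G3: the edges of the grid.

`edge_in`: the points of an edge of `EAll` lie in (the boundary `bd` of) both adjacent cells
`(n₁, a₁, b₁)` (label `lp`) and `(n₂, a₂, b₂)` (label `lm`).
`edge_good`: for an interface edge the chosen node is in `G` (by `AdjG`) and its box contains one of
the two adjacent cells (`cell_sub_box`), so it contains the edge; the length `cs m n` is at most
`len I` (for the kind `2` with `I = (n, ..)`, `cs m (n+1) ≤ (1/2)^n`).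
`edge_card`: fix `I = (n, j)`.  Kind 0: `a / 2^m = j` or `(a+1) / 2^m = j`: at most `2^m + 1` values
of `a`, `2^m` values of `b`.  Kind 1: at most `2^m * 2^m`.  Kind 2: level `n`: `I = (n' + 1, a/2^m)`
gives `2^m` values of `a`, `I = (n', a/2/2^m)` gives `2 * 2^m` values.  Total at most
`(2^m+1) 2^m + 4^m + 3 * 2^m ≤ 8 * 4^m`.  (Inject the set into a product of ranges.)
-/

noncomputable section

open Set Finset

namespace Cor

variable {Λ : Type*}

/-- the side halves from level to level -/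
theorem Geo3_cs (m n : ℕ) : cs m n = 2 * cs m (n + 1) := by
  unfold cs
  rw [show n + 1 + m = (n + m) + 1 by ring, pow_succ]
  ring

theorem Geo3_cs_pow (m n : ℕ) : (2 : ℝ) ^ m * cs m n = (1 / 2) ^ n := by
  unfold cs
  rw [pow_add, mul_comm ((1 / 2 : ℝ) ^ n), ← mul_assoc, ← mul_pow]
  norm_num

theorem Geo3_cs_le (m n : ℕ) : cs m n ≤ (1 / 2) ^ n := by
  unfold cs
  exact pow_le_pow_of_le_one (by norm_num) (by norm_num) (by omega)

/-- points of a vertical edge -/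
theorem Geo3_ptV (m n a b : ℕ) (t : ℝ) :
    (cc m n a b + (cs m n : ℂ) + Complex.I * (t : ℂ)).re = ((a : ℝ) + 1) * cs m n ∧
      (cc m n a b + (cs m n : ℂ) + Complex.I * (t : ℂ)).im
        = (1 / 2) ^ n + (b : ℝ) * cs m n + t := by
  constructor
  · simp [cc]
    ring
  · simp [cc]

/-- points of a horizontal edge -/
theorem Geo3_ptH (m n a b : ℕ) (t : ℝ) :
    (cc m n a b + 1 * (t : ℂ)).re = (a : ℝ) * cs m n + t ∧
      (cc m n a b + 1 * (t : ℂ)).im = (1 / 2) ^ n + (b : ℝ) * cs m n := by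
  constructor
  · simp [cc]
  · simp [cc]

/-- points of a horizontal edge at the top of a cell -/
theorem Geo3_ptL (m n a b : ℕ) (t : ℝ) :
    (cc m n a b + Complex.I * (cs m n : ℂ) + 1 * (t : ℂ)).re = (a : ℝ) * cs m n + t ∧
      (cc m n a b + Complex.I * (cs m n : ℂ) + 1 * (t : ℂ)).im
        = (1 / 2) ^ n + ((b : ℝ) + 1) * cs m n := by
  constructor
  · simp [cc]
  · simp [cc]
    ring

/-- membership in `EAll` -/
theorem Geo3_mem {m N : ℕ} {e : Fin 3 × ℕ × ℕ × ℕ} (he : e ∈ EAll m N) :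
    (e.1 = 0 ∧ e.2.1 ≤ N ∧ e.2.2.1 + 1 < 2 ^ (e.2.1 + m) ∧ e.2.2.2 < 2 ^ m) ∨
    (e.1 = 1 ∧ e.2.1 ≤ N ∧ e.2.2.1 < 2 ^ (e.2.1 + m) ∧ e.2.2.2 + 1 < 2 ^ m) ∨
    (e.1 = 2 ∧ e.2.1 < N ∧ e.2.2.1 < 2 ^ (e.2.1 + 1 + m) ∧ e.2.2.2 = 0) := by
  obtain ⟨k, n, a, b⟩ := e
  unfold EAll at he
  simp only [mem_filter, mem_product, Finset.mem_univ, true_and, Finset.mem_range] at he
  obtain ⟨⟨h1, h2, h3⟩, h4⟩ := he
  fin_cases k
  · left
    simp at h4
    have h1' : n < N + 1 := h1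
    exact ⟨rfl, Nat.lt_succ_iff.mp h1', h4, h3⟩
  · right; left
    simp at h4
    have h1' : n < N + 1 := h1
    exact ⟨rfl, Nat.lt_succ_iff.mp h1', h4.1, h4.2⟩
  · right; right
    simp at h4
    exact ⟨rfl, h4.1, h4.2.1, h4.2.2⟩

theorem Geo3_pick (G : Finset Nd) (p q : Nd) (h : p ∈ G ∨ q ∈ G) :
    pick G p q ∈ G ∧ (pick G p q = p ∨ pick G p q = q) := by
  unfold pick
  split_ifs with hp
  · exact ⟨hp, Or.inl rfl⟩
  · exact ⟨h.resolve_left hp, Or.inr rfl⟩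

theorem Geo3_pick' (G : Finset Nd) (p q : Nd) : pick G p q = p ∨ pick G p q = q := by
  unfold pick
  split_ifs with hp
  · exact Or.inl rfl
  · exact Or.inr rfl

/-- vertical edges lie in the boundaries of the two cells -/
theorem Geo3_inV {m : ℕ} {lab : ℕ → ℕ → ℕ → Λ} {G : Finset Nd} (n a b : ℕ) (t : ℝ)
    (ht : t ∈ Icc (0 : ℝ) (cs m n)) :
    (edV m lab G n a b).pt t ∈ bd m n a b ∧ (edV m lab G n a b).pt t ∈ bd m n (a + 1) b := by
  obtain ⟨hr, hi⟩ := Geo3_ptV m n a b t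
  obtain ⟨h0, h1⟩ := ht
  have hc := cs_pos m n
  unfold Edge.pt edV bd cell
  simp only [Set.mem_inter_iff, Set.mem_setOf_eq]
  rw [hr, hi]
  push_cast
  refine ⟨⟨⟨?_, ?_, ?_, ?_⟩, Or.inr (Or.inl rfl)⟩, ⟨⟨?_, ?_, ?_, ?_⟩, Or.inl rfl⟩⟩ <;> nlinarith

theorem Geo3_inH {m : ℕ} {lab : ℕ → ℕ → ℕ → Λ} (n a b : ℕ) (t : ℝ)
    (ht : t ∈ Icc (0 : ℝ) (cs m n)) :
    (edH m lab n a b).pt t ∈ bd m n a (b + 1) ∧ (edH m lab n a b).pt t ∈ bd m n a b := by
  obtain ⟨hr, hi⟩ := Geo3_ptH m n a (b + 1) t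
  obtain ⟨h0, h1⟩ := ht
  have hc := cs_pos m n
  unfold Edge.pt edH bd cell
  simp only [Set.mem_inter_iff, Set.mem_setOf_eq]
  rw [hr, hi]
  push_cast
  refine ⟨⟨⟨?_, ?_, ?_, ?_⟩, Or.inr (Or.inr (Or.inl rfl))⟩,
    ⟨⟨?_, ?_, ?_, ?_⟩, Or.inr (Or.inr (Or.inr rfl))⟩⟩ <;> nlinarith

theorem Geo3_inL {m : ℕ} {lab : ℕ → ℕ → ℕ → Λ} {G : Finset Nd} (n a : ℕ) (t : ℝ)
    (ht : t ∈ Icc (0 : ℝ) (cs m (n + 1))) :
    (edL m lab G n a).pt t ∈ bd m n (a / 2) 0 ∧
      (edL m lab G n a).pt t ∈ bd m (n + 1) a (2 ^ m - 1) := by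
  obtain ⟨hr, hi⟩ := Geo3_ptL m (n + 1) a (2 ^ m - 1) t
  obtain ⟨h0, h1⟩ := ht
  have hc := cs_pos m (n + 1)
  have hpow : (((2 ^ m - 1 : ℕ) : ℝ) + 1) = 2 ^ m := by
    have : 1 ≤ 2 ^ m := Nat.one_le_two_pow
    push_cast [Nat.cast_sub this]
    ring
  have himv : (1 / 2 : ℝ) ^ (n + 1) + (((2 ^ m - 1 : ℕ) : ℝ) + 1) * cs m (n + 1)
      = (1 / 2) ^ n := by
    rw [hpow, Geo3_cs_pow, pow_succ]
    ring
  have hcs := Geo3_cs m n
  have ha1 : (((a / 2 : ℕ)) : ℝ) * 2 ≤ a := by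
    have : a / 2 * 2 ≤ a := Nat.div_mul_le_self a 2
    exact_mod_cast this
  have ha2 : (a : ℝ) + 1 ≤ (((a / 2 : ℕ)) : ℝ) * 2 + 2 := by
    have : a + 1 ≤ a / 2 * 2 + 2 := by omega
    exact_mod_cast this
  unfold Edge.pt edL bd cell
  simp only [Set.mem_inter_iff, Set.mem_setOf_eq]
  rw [hr, hi]
  refine ⟨⟨⟨?_, ?_, ?_, ?_⟩, Or.inr (Or.inr (Or.inl ?_))⟩,
    ⟨⟨?_, ?_, ?_, ?_⟩, Or.inr (Or.inr (Or.inr rfl))⟩⟩
  · rw [hcs]; nlinarith
  · rw [hcs]; nlinarith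
  · rw [himv, Nat.cast_zero]; linarith
  · rw [himv, Nat.cast_zero, hcs]; linarith
  · rw [himv, Nat.cast_zero]; ring
  · linarith
  · nlinarith
  · nlinarith
  · exact le_rfl

theorem edge_in {m N : ℕ} {lab : ℕ → ℕ → ℕ → Λ} {G : Finset Nd} {e : Fin 3 × ℕ × ℕ × ℕ}
    (he : e ∈ EAll m N) : ∃ n₁ a₁ b₁ n₂ a₂ b₂ : ℕ, n₁ ≤ N ∧ n₂ ≤ N ∧ a₁ < 2 ^ (n₁ + m) ∧
      a₂ < 2 ^ (n₂ + m) ∧ b₁ < 2 ^ m ∧ b₂ < 2 ^ m ∧
      (edAll m lab G e).lp = lab n₁ a₁ b₁ ∧ (edAll m lab G e).lm = lab n₂ a₂ b₂ ∧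
      ∀ t ∈ Icc (0 : ℝ) (edAll m lab G e).s, (edAll m lab G e).pt t ∈ bd m n₁ a₁ b₁ ∧
        (edAll m lab G e).pt t ∈ bd m n₂ a₂ b₂ := by
  have h2m : 0 < 2 ^ m := Nat.two_pow_pos m
  obtain ⟨k, n, a, b⟩ := e
  rcases Geo3_mem he with ⟨h1, h2, h3, h4⟩ | ⟨h1, h2, h3, h4⟩ | ⟨h1, h2, h3, h4⟩
  · simp only at h1 h2 h3 h4
    subst h1
    have hed : edAll m lab G ((0 : Fin 3), n, a, b) = edV m lab G n a b := by simp [edAll]
    refine ⟨n, a, b, n, a + 1, b, h2, h2, by omega, h3, h4, h4, ?_, ?_, ?_⟩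
    · rw [hed]; rfl
    · rw [hed]; rfl
    · rw [hed]
      intro t ht
      exact Geo3_inV n a b t ht
  · simp only at h1 h2 h3 h4
    subst h1
    have hed : edAll m lab G ((1 : Fin 3), n, a, b) = edH m lab n a b := by simp [edAll]
    refine ⟨n, a, b + 1, n, a, b, h2, h2, h3, h3, h4, by omega, ?_, ?_, ?_⟩
    · rw [hed]; rfl
    · rw [hed]; rfl
    · rw [hed]
      intro t ht
      exact Geo3_inH n a b t ht
  · simp only at h1 h2 h3 h4
    subst h1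
    have hed : edAll m lab G ((2 : Fin 3), n, a, b) = edL m lab G n a := by simp [edAll]
    have hpw : 2 ^ (n + 1 + m) = 2 * 2 ^ (n + m) := by
      rw [show n + 1 + m = (n + m) + 1 by ring, pow_succ]; ring
    refine ⟨n, a / 2, 0, n + 1, a, 2 ^ m - 1, by omega, by omega, by omega, h3, h2m, by omega,
      ?_, ?_, ?_⟩
    · rw [hed]; rfl
    · rw [hed]; rfl
    · rw [hed]
      intro t ht
      exact Geo3_inL n a t ht

theorem edge_good {m N : ℕ} {lab : ℕ → ℕ → ℕ → Λ} {G : Finset Nd} (h : AdjG m N lab G)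
    {e : Fin 3 × ℕ × ℕ × ℕ} (he : e ∈ EInt m N lab G) : (edAll m lab G e).Good G := by
  classical
  have h2m : 0 < 2 ^ m := Nat.two_pow_pos m
  obtain ⟨k, n, a, b⟩ := e
  unfold EInt at he
  rw [Finset.mem_filter] at he
  obtain ⟨heA, hne⟩ := he
  rcases Geo3_mem heA with ⟨h1, h2, h3, h4⟩ | ⟨h1, h2, h3, h4⟩ | ⟨h1, h2, h3, h4⟩
  · simp only at h1 h2 h3 h4
    subst h1
    have hed : edAll m lab G ((0 : Fin 3), n, a, b) = edV m lab G n a b := by simp [edAll]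
    rw [hed] at hne ⊢
    have hp := Geo3_pick G (n, a / 2 ^ m) (n, (a + 1) / 2 ^ m) (h.V n h2 a b h3 h4 hne)
    refine ⟨Or.inr rfl, (cs_pos m n).le, ?_, hp.1, ?_⟩
    · rcases hp.2 with hq | hq
      · change cs m n ≤ len (pick G (n, a / 2 ^ m) (n, (a + 1) / 2 ^ m))
        rw [hq]
        exact Geo3_cs_le m n
      · change cs m n ≤ len (pick G (n, a / 2 ^ m) (n, (a + 1) / 2 ^ m))
        rw [hq]
        exact Geo3_cs_le m n
    · intro t ht
      obtain ⟨hi1, hi2⟩ := Geo3_inV (lab := lab) (G := G) n a b t ht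
      change (edV m lab G n a b).pt t ∈ box (pick G (n, a / 2 ^ m) (n, (a + 1) / 2 ^ m))
      rcases hp.2 with hq | hq
      · rw [hq]
        exact cell_sub_box h4 hi1.1
      · rw [hq]
        exact cell_sub_box h4 hi2.1
  · simp only at h1 h2 h3 h4
    subst h1
    have hed : edAll m lab G ((1 : Fin 3), n, a, b) = edH m lab n a b := by simp [edAll]
    rw [hed] at hne ⊢
    refine ⟨Or.inl rfl, (cs_pos m n).le, Geo3_cs_le m n, h.H1 n h2 a b h3 h4 (Ne.symm hne), ?_⟩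
    intro t ht
    obtain ⟨hi1, hi2⟩ := Geo3_inH (lab := lab) n a b t ht
    exact cell_sub_box (by omega) hi2.1
  · simp only at h1 h2 h3 h4
    subst h1
    have hed : edAll m lab G ((2 : Fin 3), n, a, b) = edL m lab G n a := by simp [edAll]
    rw [hed] at hne ⊢
    have hp := Geo3_pick G (n + 1, a / 2 ^ m) (n, a / 2 / 2 ^ m)
      (h.H2 n (by omega) a h3 (Ne.symm hne))
    refine ⟨Or.inl rfl, (cs_pos m (n + 1)).le, ?_, hp.1, ?_⟩
    · change cs m (n + 1) ≤ len (pick G (n + 1, a / 2 ^ m) (n, a / 2 / 2 ^ m))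
      rcases hp.2 with hq | hq
      · rw [hq]
        exact Geo3_cs_le m (n + 1)
      · rw [hq]
        have h5 := Geo3_cs m n
        have h6 := Geo3_cs_le m n
        have h7 := cs_pos m (n + 1)
        change cs m (n + 1) ≤ (1 / 2) ^ n
        linarith
    · intro t ht
      obtain ⟨hi1, hi2⟩ := Geo3_inL (lab := lab) (G := G) n a t ht
      change (edL m lab G n a).pt t ∈ box (pick G (n + 1, a / 2 ^ m) (n, a / 2 / 2 ^ m))
      rcases hp.2 with hq | hq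
      · rw [hq]
        exact cell_sub_box (by omega) hi2.1
      · rw [hq]
        exact cell_sub_box h2m hi1.1

theorem edge_card {m N : ℕ} {lab : ℕ → ℕ → ℕ → Λ} {G : Finset Nd} (I : Nd) :
    Nat.card {e // e ∈ EInt m N lab G ∧ (edAll m lab G e).I = I} ≤ 8 * 4 ^ m := by
  classical
  have h2m : 0 < 2 ^ m := Nat.two_pow_pos m
  obtain ⟨n0, j⟩ := I
  set T : Finset (Fin 3 × ℕ × ℕ × ℕ) :=
    ((({0} : Finset (Fin 3)) ×ˢ (({n0} : Finset ℕ) ×ˢ
        (Finset.Ico (j * 2 ^ m - 1) ((j + 1) * 2 ^ m) ×ˢ Finset.range (2 ^ m)))) ∪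
      (({1} : Finset (Fin 3)) ×ˢ (({n0} : Finset ℕ) ×ˢ
        (Finset.Ico (j * 2 ^ m) ((j + 1) * 2 ^ m) ×ˢ Finset.range (2 ^ m))))) ∪
    ((({2} : Finset (Fin 3)) ×ˢ (({n0 - 1} : Finset ℕ) ×ˢ
        (Finset.Ico (j * 2 ^ m) ((j + 1) * 2 ^ m) ×ˢ ({0} : Finset ℕ)))) ∪
      (({2} : Finset (Fin 3)) ×ˢ (({n0} : Finset ℕ) ×ˢ
        (Finset.Ico (j * 2 ^ (m + 1)) ((j + 1) * 2 ^ (m + 1)) ×ˢ ({0} : Finset ℕ))))) with hT
  have hsub : ∀ e : Fin 3 × ℕ × ℕ × ℕ, e ∈ EInt m N lab G ∧ (edAll m lab G e).I = (n0, j) →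
      e ∈ T := by
    rintro ⟨k, n, a, b⟩ ⟨he, hI⟩
    unfold EInt at he
    rw [Finset.mem_filter] at he
    obtain ⟨heA, -⟩ := he
    have hdiv : ∀ x y : ℕ, x / 2 ^ m = y → y * 2 ^ m ≤ x ∧ x < (y + 1) * 2 ^ m := by
      intro x y hxy
      subst hxy
      exact ⟨Nat.div_mul_le_self x _, by
        have h5 := Nat.div_add_mod x (2 ^ m)
        have h6 := Nat.mod_lt x h2m
        nlinarith⟩
    rw [hT]
    simp only [Finset.mem_union, Finset.mem_product, Finset.mem_singleton, Finset.mem_Ico,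
      Finset.mem_range]
    rcases Geo3_mem heA with ⟨h1, h2, h3, h4⟩ | ⟨h1, h2, h3, h4⟩ | ⟨h1, h2, h3, h4⟩
    · simp only at h1 h2 h3 h4
      subst h1
      have hed : edAll m lab G ((0 : Fin 3), n, a, b) = edV m lab G n a b := by simp [edAll]
      rw [hed] at hI
      change pick G (n, a / 2 ^ m) (n, (a + 1) / 2 ^ m) = (n0, j) at hI
      left; left
      rcases Geo3_pick' G (n, a / 2 ^ m) (n, (a + 1) / 2 ^ m) with hq | hq
      · rw [hq, Prod.mk.injEq] at hI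
        obtain ⟨hn, hj⟩ := hI
        obtain ⟨hd1, hd2⟩ := hdiv a j hj
        exact ⟨rfl, hn, ⟨by omega, hd2⟩, h4⟩
      · rw [hq, Prod.mk.injEq] at hI
        obtain ⟨hn, hj⟩ := hI
        obtain ⟨hd1, hd2⟩ := hdiv (a + 1) j hj
        exact ⟨rfl, hn, ⟨by omega, by omega⟩, h4⟩
    · simp only at h1 h2 h3 h4
      subst h1
      have hed : edAll m lab G ((1 : Fin 3), n, a, b) = edH m lab n a b := by simp [edAll]
      rw [hed] at hI
      change (n, a / 2 ^ m) = (n0, j) at hI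
      rw [Prod.mk.injEq] at hI
      obtain ⟨hn, hj⟩ := hI
      obtain ⟨hd1, hd2⟩ := hdiv a j hj
      left; right
      exact ⟨rfl, hn, ⟨hd1, hd2⟩, by omega⟩
    · simp only at h1 h2 h3 h4
      subst h1
      have hed : edAll m lab G ((2 : Fin 3), n, a, b) = edL m lab G n a := by simp [edAll]
      rw [hed] at hI
      change pick G (n + 1, a / 2 ^ m) (n, a / 2 / 2 ^ m) = (n0, j) at hI
      right
      rcases Geo3_pick' G (n + 1, a / 2 ^ m) (n, a / 2 / 2 ^ m) with hq | hq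
      · rw [hq, Prod.mk.injEq] at hI
        obtain ⟨hn, hj⟩ := hI
        obtain ⟨hd1, hd2⟩ := hdiv a j hj
        left
        exact ⟨rfl, by omega, ⟨hd1, hd2⟩, h4⟩
      · rw [hq, Prod.mk.injEq] at hI
        obtain ⟨hn, hj⟩ := hI
        obtain ⟨hd1, hd2⟩ := hdiv (a / 2) j hj
        right
        refine ⟨rfl, hn, ⟨?_, ?_⟩, h4⟩
        · rw [pow_succ]
          have : a / 2 * 2 ≤ a := Nat.div_mul_le_self a 2
          nlinarith
        · rw [pow_succ]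
          have h6 : a < (a / 2) * 2 + 2 := by omega
          have h7 : a / 2 + 1 ≤ (j + 1) * 2 ^ m := hd2
          nlinarith
  have hcard : Nat.card {e // e ∈ EInt m N lab G ∧ (edAll m lab G e).I = (n0, j)} ≤ T.card := by
    have hinj : Function.Injective (fun x : {e // e ∈ EInt m N lab G ∧
        (edAll m lab G e).I = (n0, j)} => (⟨x.1, hsub x.1 x.2⟩ : {e // e ∈ T})) := by
      intro x y hxy
      exact Subtype.ext (congrArg (fun z : {e // e ∈ T} => z.1) hxy)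
    have := Nat.card_le_card_of_injective _ hinj
    rwa [Nat.card_eq_fintype_card (α := {e // e ∈ T}), Fintype.card_coe] at this
  refine hcard.trans ?_
  have hT2 : T.card ≤ ((2 ^ m + 1) * 2 ^ m + 2 ^ m * 2 ^ m) + (2 ^ m + 2 ^ (m + 1)) := by
    rw [hT]
    refine (Finset.card_union_le _ _).trans (add_le_add ((Finset.card_union_le _ _).trans
      (add_le_add ?_ ?_)) ((Finset.card_union_le _ _).trans (add_le_add ?_ ?_)))
    · simp only [Finset.card_product, Finset.card_singleton, one_mul, Nat.card_Ico,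
        Finset.card_range]
      apply Nat.mul_le_mul_right
      rw [add_mul, one_mul]
      omega
    · simp only [Finset.card_product, Finset.card_singleton, one_mul, Nat.card_Ico,
        Finset.card_range]
      apply Nat.mul_le_mul_right
      rw [add_mul, one_mul]
      omega
    · simp only [Finset.card_product, Finset.card_singleton, one_mul, mul_one, Nat.card_Ico]
      rw [add_mul, one_mul]
      omega
    · simp only [Finset.card_product, Finset.card_singleton, one_mul, mul_one, Nat.card_Ico]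
      rw [add_mul, one_mul]
      omega
  refine hT2.trans ?_
  have h4 : 4 ^ m = 2 ^ m * 2 ^ m := by
    rw [← mul_pow]
    norm_num
  rw [h4, pow_succ]
  nlinarith

end Cor
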