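import Pool.Agent.helper45.Cor.Defs

/-!
Module COR-T: telescoping over the grid of cells.

PROOF.  Each `rInt` is bottom + right - top - left.  In a row (fixed `n, b`) the right side of the
cell `a` and the left side of the cell `a + 1` are the same segment
(`cc m n a b + cs m n = cc m n (a + 1) b`), so the sum over `a` of (right - left) is the outermost
right side minus the outermost left side plus the sum over `a < 2^(n+m) - 1` of
`eInt .. (φ a) - eInt .. (φ (a+1)) = eInt .. (φ a - φ (a+1))` (interval integrability from the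
continuity).  In a column of a box (fixed `n, a`) the sum over `b` of (bottom - top) is
bottom of `b = 0` minus top of `b = 2^m - 1` plus the sum of the differences over `b < 2^m - 1`.
Finally the bottoms of `(n, a, 0)`, `n < N`, are cut into two halves which are the tops of the
cells `(n + 1, 2 a, 2^m - 1)` and `(n + 1, 2 a + 1, 2^m - 1)`
(`eInt p 1 (2 s) f = eInt p 1 s f + eInt (p + s) 1 s f`).
-/

noncomputable section

open Set Finset

namespace Cor

variable {X : Type*} [NormedAddCommGroup X] [NormedSpace ℂ X]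

/-- the boundary of a cell -/
def bd (m n a b : ℕ) : Set ℂ :=
  cell m n a b ∩ {z | z.re = (a : ℝ) * cs m n ∨ z.re = ((a : ℝ) + 1) * cs m n ∨
    z.im = (1 / 2) ^ n + (b : ℝ) * cs m n ∨ z.im = (1 / 2) ^ n + ((b : ℝ) + 1) * cs m n}

theorem Tele_sum {X : Type*} [AddCommGroup X] (A : ℕ) (hA : 1 ≤ A) (r l : ℕ → X) :
    ∑ a ∈ range A, r a - ∑ a ∈ range A, l a =
      r (A - 1) - l 0 + ∑ a ∈ range (A - 1), (r a - l (a + 1)) := by
  obtain ⟨k, rfl⟩ : ∃ k, A = k + 1 := ⟨A - 1, by omega⟩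
  rw [Nat.add_sub_cancel, sum_range_succ, sum_range_succ' l, sum_sub_distrib]
  abel

theorem Tele_double {X : Type*} [AddCommGroup X] (K : ℕ) (f : ℕ → X) :
    ∑ i ∈ range (2 * K), f i = ∑ i ∈ range K, (f (2 * i) + f (2 * i + 1)) := by
  induction K with
  | zero => simp
  | succ K ih =>
    rw [sum_range_succ, ← ih, show 2 * (K + 1) = 2 * K + 1 + 1 by ring, sum_range_succ,
      sum_range_succ]
    abel

theorem Tele_cs_pos (m n : ℕ) : 0 < cs m n := by
  unfold cs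
  positivity

omit [NormedSpace ℂ X] in
theorem Tele_int {f : ℂ → X} {S : Set ℂ} (hf : ContinuousOn f S) {p d : ℂ} {s : ℝ} (hs : 0 ≤ s)
    (h : ∀ t ∈ Icc (0 : ℝ) s, p + d * t ∈ S) :
    IntervalIntegrable (fun t : ℝ => f (p + d * t)) MeasureTheory.volume 0 s := by
  apply ContinuousOn.intervalIntegrable
  rw [uIcc_of_le hs]
  refine hf.comp ?_ h
  fun_prop

theorem Tele_sub {f g : ℂ → X} {S T : Set ℂ} (hf : ContinuousOn f S) (hg : ContinuousOn g T)
    {p d : ℂ} {s : ℝ} (hs : 0 ≤ s) (h : ∀ t ∈ Icc (0 : ℝ) s, p + d * t ∈ S)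
    (h' : ∀ t ∈ Icc (0 : ℝ) s, p + d * t ∈ T) :
    eInt p d s f - eInt p d s g = eInt p d s (fun ζ => f ζ - g ζ) := by
  unfold eInt
  rw [← smul_sub, ← intervalIntegral.integral_sub (Tele_int hf hs h) (Tele_int hg hs h')]

theorem Tele_split {f : ℂ → X} {S : Set ℂ} (hf : ContinuousOn f S) {p : ℂ} {s : ℝ} (hs : 0 ≤ s)
    (h : ∀ t ∈ Icc (0 : ℝ) (2 * s), p + 1 * t ∈ S) :
    eInt p 1 (2 * s) f = eInt p 1 s f + eInt (p + s) 1 s f := by
  unfold eInt
  have hi := Tele_int hf (by positivity : (0 : ℝ) ≤ 2 * s) h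
  have hi1 : IntervalIntegrable (fun t : ℝ => f (p + 1 * t)) MeasureTheory.volume 0 s :=
    hi.mono_set (by
      rw [uIcc_of_le hs, uIcc_of_le (by positivity : (0 : ℝ) ≤ 2 * s)]
      exact Icc_subset_Icc le_rfl (by linarith))
  have hi2 : IntervalIntegrable (fun t : ℝ => f (p + 1 * t)) MeasureTheory.volume s (2 * s) :=
    hi.mono_set (by
      rw [uIcc_of_le (by linarith : s ≤ 2 * s), uIcc_of_le (by positivity : (0 : ℝ) ≤ 2 * s)]
      exact Icc_subset_Icc hs le_rfl)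
  rw [← smul_add, ← intervalIntegral.integral_add_adjacent_intervals hi1 hi2]
  congr 2
  have h1 := intervalIntegral.integral_comp_add_right (a := 0) (b := s)
    (fun t : ℝ => f (p + 1 * t)) s
  rw [zero_add, ← two_mul] at h1
  rw [← h1]
  refine intervalIntegral.integral_congr fun t _ => ?_
  show f (p + 1 * ((t + s : ℝ) : ℂ)) = f (p + s + 1 * t)
  congr 1
  push_cast
  ring

theorem Tele_vert (m n a b : ℕ) : cc m n a b + cs m n = cc m n (a + 1) b := by
  apply Complex.ext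
  · simp only [cc, Complex.add_re, Complex.ofReal_re]
    push_cast
    ring
  · simp only [cc, Complex.add_im, Complex.ofReal_im, add_zero]

theorem Tele_hor (m n a b : ℕ) : cc m n a b + Complex.I * cs m n = cc m n a (b + 1) := by
  apply Complex.ext
  · simp only [cc, Complex.add_re, Complex.mul_re, Complex.I_re, Complex.I_im, Complex.ofReal_re,
      Complex.ofReal_im]
    ring
  · simp only [cc, Complex.add_im, Complex.mul_im, Complex.I_re, Complex.I_im, Complex.ofReal_re,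
      Complex.ofReal_im]
    push_cast
    ring

/-- the four sides of a cell lie in its boundary -/
theorem Tele_mem (m n a b : ℕ) {t : ℝ} (ht : t ∈ Icc (0 : ℝ) (cs m n)) :
    cc m n a b + 1 * t ∈ bd m n a b ∧ cc m n a (b + 1) + 1 * t ∈ bd m n a b ∧
    cc m n a b + Complex.I * t ∈ bd m n a b ∧ cc m n (a + 1) b + Complex.I * t ∈ bd m n a b := by
  obtain ⟨h0, h1⟩ := ht
  have hs := Tele_cs_pos m n
  simp only [bd, cell, cc, mem_inter_iff, Set.mem_ofPred_eq, Complex.add_re, Complex.add_im,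
    Complex.mul_re, Complex.mul_im, Complex.one_re, Complex.one_im, Complex.ofReal_re,
    Complex.ofReal_im, Complex.I_re, Complex.I_im, Nat.cast_add, Nat.cast_one]
  refine ⟨⟨⟨?_, ?_, ?_, ?_⟩, Or.inr (Or.inr (Or.inl ?_))⟩,
    ⟨⟨?_, ?_, ?_, ?_⟩, Or.inr (Or.inr (Or.inr ?_))⟩, ⟨⟨?_, ?_, ?_, ?_⟩, Or.inl ?_⟩,
    ⟨⟨?_, ?_, ?_, ?_⟩, Or.inr (Or.inl ?_)⟩⟩ <;> linarith

theorem telescope (m N : ℕ) (φ : ℕ → ℕ → ℕ → ℂ → X)
    (hφ : ∀ n ≤ N, ∀ a < 2 ^ (n + m), ∀ b < 2 ^ m, ContinuousOn (φ n a b) (bd m n a b)) :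
    ∑ n ∈ range (N + 1), ∑ a ∈ range (2 ^ (n + m)), ∑ b ∈ range (2 ^ m),
        rInt (cc m n a b) (cs m n) (cs m n) (φ n a b) =
      ∑ a ∈ range (2 ^ (N + m)), eInt (cc m N a 0) 1 (cs m N) (φ N a 0) -
      ∑ a ∈ range (2 ^ m),
        eInt (cc m 0 a (2 ^ m - 1) + Complex.I * cs m 0) 1 (cs m 0) (φ 0 a (2 ^ m - 1)) +
      ∑ n ∈ range (N + 1), ∑ b ∈ range (2 ^ m),
        eInt (cc m n (2 ^ (n + m) - 1) b + cs m n) Complex.I (cs m n)
          (φ n (2 ^ (n + m) - 1) b) -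
      ∑ n ∈ range (N + 1), ∑ b ∈ range (2 ^ m), eInt (cc m n 0 b) Complex.I (cs m n) (φ n 0 b) +
      ∑ n ∈ range (N + 1), ∑ a ∈ range (2 ^ (n + m) - 1), ∑ b ∈ range (2 ^ m),
        eInt (cc m n a b + cs m n) Complex.I (cs m n) (fun ζ => φ n a b ζ - φ n (a + 1) b ζ) +
      ∑ n ∈ range (N + 1), ∑ a ∈ range (2 ^ (n + m)), ∑ b ∈ range (2 ^ m - 1),
        eInt (cc m n a (b + 1)) 1 (cs m n) (fun ζ => φ n a (b + 1) ζ - φ n a b ζ) +
      ∑ n ∈ range N, ∑ a ∈ range (2 ^ (n + 1 + m)),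
        eInt (cc m (n + 1) a (2 ^ m - 1) + Complex.I * cs m (n + 1)) 1 (cs m (n + 1))
          (fun ζ => φ n (a / 2) 0 ζ - φ (n + 1) a (2 ^ m - 1) ζ) := by
  -- names of the sides
  set B : ℕ → ℕ → ℕ → X := fun n a b => eInt (cc m n a b) 1 (cs m n) (φ n a b) with hB
  set T : ℕ → ℕ → ℕ → X :=
    fun n a b => eInt (cc m n a b + Complex.I * cs m n) 1 (cs m n) (φ n a b) with hT
  set R : ℕ → ℕ → ℕ → X :=
    fun n a b => eInt (cc m n a b + cs m n) Complex.I (cs m n) (φ n a b) with hR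
  set L : ℕ → ℕ → ℕ → X := fun n a b => eInt (cc m n a b) Complex.I (cs m n) (φ n a b) with hL
  have hpow : ∀ k : ℕ, 1 ≤ 2 ^ k := fun k => Nat.one_le_two_pow
  -- horizontal telescoping
  have h1 : ∀ n ≤ N, ∑ b ∈ range (2 ^ m), (∑ a ∈ range (2 ^ (n + m)), R n a b -
      ∑ a ∈ range (2 ^ (n + m)), L n a b) =
      ∑ b ∈ range (2 ^ m), R n (2 ^ (n + m) - 1) b - ∑ b ∈ range (2 ^ m), L n 0 b +
      ∑ a ∈ range (2 ^ (n + m) - 1), ∑ b ∈ range (2 ^ m),
        eInt (cc m n a b + cs m n) Complex.I (cs m n) (fun ζ => φ n a b ζ - φ n (a + 1) b ζ) := by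
    intro n hn
    rw [sum_comm (s := range (2 ^ (n + m) - 1)), ← sum_sub_distrib, ← sum_add_distrib]
    refine sum_congr rfl fun b hb => ?_
    rw [Finset.mem_range] at hb
    rw [Tele_sum _ (hpow _)]
    congr 1
    refine sum_congr rfl fun a ha => ?_
    rw [Finset.mem_range] at ha
    simp only [hR, hL]
    rw [← Tele_vert]
    exact Tele_sub (hφ n hn a (by omega) b hb) (hφ n hn (a + 1) (by omega) b hb)
      (Tele_cs_pos m n).le (fun t ht => by rw [Tele_vert]; exact (Tele_mem m n a b ht).2.2.2)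
      (fun t ht => by rw [Tele_vert]; exact (Tele_mem m n (a + 1) b ht).2.2.1)
  -- vertical telescoping
  have h2 : ∀ n ≤ N, ∑ a ∈ range (2 ^ (n + m)), (∑ b ∈ range (2 ^ m), T n a b -
      ∑ b ∈ range (2 ^ m), B n a b) =
      ∑ a ∈ range (2 ^ (n + m)), T n a (2 ^ m - 1) - ∑ a ∈ range (2 ^ (n + m)), B n a 0 -
      ∑ a ∈ range (2 ^ (n + m)), ∑ b ∈ range (2 ^ m - 1),
        eInt (cc m n a (b + 1)) 1 (cs m n) (fun ζ => φ n a (b + 1) ζ - φ n a b ζ) := by
    intro n hn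
    rw [← sum_sub_distrib, ← sum_sub_distrib]
    refine sum_congr rfl fun a ha => ?_
    rw [Finset.mem_range] at ha
    rw [Tele_sum _ (hpow _), sub_eq_add_neg _ (∑ b ∈ range (2 ^ m - 1), _), ← sum_neg_distrib]
    congr 1
    refine sum_congr rfl fun b hb => ?_
    rw [Finset.mem_range] at hb
    simp only [hB, hT]
    rw [← neg_sub, Tele_hor]
    congr 1
    exact Tele_sub (hφ n hn a ha (b + 1) (by omega)) (hφ n hn a ha b (by omega))
      (Tele_cs_pos m n).le (fun t ht => (Tele_mem m n a (b + 1) ht).1)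
      (fun t ht => (Tele_mem m n a b ht).2.1)
  -- levels
  have h3 : ∀ n, n < N → ∑ a ∈ range (2 ^ (n + m)), B n a 0 -
      ∑ a ∈ range (2 ^ (n + 1 + m)), T (n + 1) a (2 ^ m - 1) =
      ∑ a ∈ range (2 ^ (n + 1 + m)),
        eInt (cc m (n + 1) a (2 ^ m - 1) + Complex.I * cs m (n + 1)) 1 (cs m (n + 1))
          (fun ζ => φ n (a / 2) 0 ζ - φ (n + 1) a (2 ^ m - 1) ζ) := by
    intro n hn
    have hcs : cs m n = 2 * cs m (n + 1) := by
      simp only [cs]
      rw [show n + 1 + m = (n + m) + 1 by ring, pow_succ]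
      ring
    have hpt : ∀ a : ℕ, cc m (n + 1) (2 * a) (2 ^ m - 1) + Complex.I * cs m (n + 1) =
        cc m n a 0 := by
      intro a
      rw [Tele_hor, Nat.sub_add_cancel (hpow m)]
      apply Complex.ext
      · simp only [cc, hcs]
        push_cast
        ring
      · have e1 : (2 : ℝ) ^ m * (1 / 2) ^ (n + 1 + m) = (1 / 2) ^ n / 2 := by
          rw [show n + 1 + m = m + (n + 1) by ring, pow_add, ← mul_assoc, ← mul_pow, pow_succ]
          norm_num
          ring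
        simp only [cc, cs]
        push_cast
        rw [e1, pow_succ]
        ring
    have hpt' : ∀ a : ℕ, cc m (n + 1) (2 * a + 1) (2 ^ m - 1) + Complex.I * cs m (n + 1) =
        cc m n a 0 + cs m (n + 1) := by
      intro a
      rw [← hpt a, ← Tele_vert]
      ring
    have hseg : ∀ a : ℕ, ∀ t ∈ Icc (0 : ℝ) (2 * cs m (n + 1)), cc m n a 0 + 1 * t ∈ bd m n a 0 := by
      intro a t ht
      rw [← hcs] at ht
      exact (Tele_mem m n a 0 ht).1
    have h4 : ∑ a ∈ range (2 ^ (n + m)), B n a 0 = ∑ a ∈ range (2 ^ (n + 1 + m)),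
        eInt (cc m (n + 1) a (2 ^ m - 1) + Complex.I * cs m (n + 1)) 1 (cs m (n + 1))
          (φ n (a / 2) 0) := by
      rw [show 2 ^ (n + 1 + m) = 2 * 2 ^ (n + m) by
        rw [show n + 1 + m = (n + m) + 1 by ring, pow_succ]; ring, Tele_double]
      refine sum_congr rfl fun a ha => ?_
      rw [Finset.mem_range] at ha
      rw [hpt, hpt', Nat.mul_div_cancel_left _ (by norm_num : 0 < 2),
        show (2 * a + 1) / 2 = a by omega]
      simp only [hB]
      rw [hcs]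
      exact Tele_split (hφ n hn.le a ha 0 (hpow m)) (Tele_cs_pos m (n + 1)).le (hseg a)
    rw [h4, ← sum_sub_distrib]
    refine sum_congr rfl fun a ha => ?_
    rw [Finset.mem_range] at ha
    have ha2 : a / 2 < 2 ^ (n + m) := by
      rw [show n + 1 + m = (n + m) + 1 by ring, pow_succ] at ha
      omega
    simp only [hT]
    refine Tele_sub (hφ n hn.le (a / 2) ha2 0 (hpow m))
      (hφ (n + 1) hn a ha (2 ^ m - 1) (by have := hpow m; omega)) (Tele_cs_pos m (n + 1)).le ?_ ?_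
    · intro t ht
      rcases Nat.even_or_odd' a with ⟨c, hc | hc⟩
      · rw [hc, hpt, Nat.mul_div_cancel_left _ (by norm_num : 0 < 2)]
        exact hseg c t ⟨ht.1, by linarith [ht.2, Tele_cs_pos m (n + 1)]⟩
      · rw [hc, hpt', show (2 * c + 1) / 2 = c by omega]
        have h5 := hseg c (cs m (n + 1) + t)
          ⟨by linarith [ht.1, Tele_cs_pos m (n + 1)], by linarith [ht.2]⟩
        have h6 : cc m n c 0 + cs m (n + 1) + 1 * (t : ℂ) =
            cc m n c 0 + 1 * ((cs m (n + 1) + t : ℝ) : ℂ) := by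
          push_cast
          ring
        rw [h6]
        exact h5
    · intro t ht
      rw [Tele_hor]
      exact (Tele_mem m (n + 1) a (2 ^ m - 1) ht).2.1
  have h5 : ∑ n ∈ Finset.range (N + 1), ∑ a ∈ Finset.range (2 ^ (n + m)), B n a 0 -
      ∑ n ∈ Finset.range (N + 1), ∑ a ∈ Finset.range (2 ^ (n + m)), T n a (2 ^ m - 1) =
      ∑ a ∈ Finset.range (2 ^ (N + m)), B N a 0 - ∑ a ∈ Finset.range (2 ^ m), T 0 a (2 ^ m - 1) +
      ∑ n ∈ Finset.range N, ∑ a ∈ Finset.range (2 ^ (n + 1 + m)),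
        eInt (cc m (n + 1) a (2 ^ m - 1) + Complex.I * cs m (n + 1)) 1 (cs m (n + 1))
          (fun ζ => φ n (a / 2) 0 ζ - φ (n + 1) a (2 ^ m - 1) ζ) := by
    rw [Tele_sum (N + 1) (by omega), Nat.add_sub_cancel, Nat.zero_add]
    congr 1
    exact Finset.sum_congr rfl fun n hn => h3 n (Finset.mem_range.1 hn)
  have h6 : ∑ n ∈ Finset.range (N + 1), ∑ a ∈ Finset.range (2 ^ (n + m)),
        ∑ b ∈ Finset.range (2 ^ m), rInt (cc m n a b) (cs m n) (cs m n) (φ n a b) =
      ∑ n ∈ Finset.range (N + 1), (∑ b ∈ Finset.range (2 ^ m),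
        (∑ a ∈ Finset.range (2 ^ (n + m)), R n a b -
        ∑ a ∈ Finset.range (2 ^ (n + m)), L n a b)) -
      ∑ n ∈ Finset.range (N + 1), (∑ a ∈ Finset.range (2 ^ (n + m)),
        (∑ b ∈ Finset.range (2 ^ m), T n a b - ∑ b ∈ Finset.range (2 ^ m), B n a b)) := by
    rw [← Finset.sum_sub_distrib]
    refine Finset.sum_congr rfl fun n _ => ?_
    simp only [← Finset.sum_sub_distrib]
    rw [Finset.sum_comm (s := Finset.range (2 ^ m)), ← Finset.sum_sub_distrib]
    refine Finset.sum_congr rfl fun a _ => ?_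
    rw [← Finset.sum_sub_distrib]
    refine Finset.sum_congr rfl fun b _ => ?_
    simp only [rInt, hB, hT, hR, hL]
    abel
  have h7 : ∑ n ∈ Finset.range (N + 1), (∑ b ∈ Finset.range (2 ^ m),
        (∑ a ∈ Finset.range (2 ^ (n + m)), R n a b -
        ∑ a ∈ Finset.range (2 ^ (n + m)), L n a b)) =
      ∑ n ∈ Finset.range (N + 1), ∑ b ∈ Finset.range (2 ^ m), R n (2 ^ (n + m) - 1) b -
      ∑ n ∈ Finset.range (N + 1), ∑ b ∈ Finset.range (2 ^ m), L n 0 b +
      ∑ n ∈ Finset.range (N + 1), ∑ a ∈ Finset.range (2 ^ (n + m) - 1),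
        ∑ b ∈ Finset.range (2 ^ m),
        eInt (cc m n a b + cs m n) Complex.I (cs m n) (fun ζ => φ n a b ζ - φ n (a + 1) b ζ) := by
    rw [← Finset.sum_sub_distrib, ← Finset.sum_add_distrib]
    exact Finset.sum_congr rfl fun n hn => h1 n (Nat.lt_succ_iff.1 (Finset.mem_range.1 hn))
  have h8 : ∑ n ∈ Finset.range (N + 1), (∑ a ∈ Finset.range (2 ^ (n + m)),
        (∑ b ∈ Finset.range (2 ^ m), T n a b - ∑ b ∈ Finset.range (2 ^ m), B n a b)) =
      ∑ n ∈ Finset.range (N + 1), ∑ a ∈ Finset.range (2 ^ (n + m)), T n a (2 ^ m - 1) -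
      ∑ n ∈ Finset.range (N + 1), ∑ a ∈ Finset.range (2 ^ (n + m)), B n a 0 -
      ∑ n ∈ Finset.range (N + 1), ∑ a ∈ Finset.range (2 ^ (n + m)),
        ∑ b ∈ Finset.range (2 ^ m - 1),
        eInt (cc m n a (b + 1)) 1 (cs m n) (fun ζ => φ n a (b + 1) ζ - φ n a b ζ) := by
    rw [← Finset.sum_sub_distrib, ← Finset.sum_sub_distrib]
    exact Finset.sum_congr rfl fun n hn => h2 n (Nat.lt_succ_iff.1 (Finset.mem_range.1 hn))
  rw [h6, h7, h8]
  clear h1 h2 h3 h6 h7 h8
  have key : ∀ P1 P2 V T1 B1 H BN T0 Lv : X, B1 - T1 = BN - T0 + Lv →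
      P1 - P2 + V - (T1 - B1 - H) = BN - T0 + P1 - P2 + V + H + Lv := by
    intro P1 P2 V T1 B1 H BN T0 Lv h
    have e : P1 - P2 + V - (T1 - B1 - H) = P1 - P2 + V + H + (B1 - T1) := by abel
    rw [e, h]
    abel
  exact key _ _ _ _ _ _ _ _ _ h5

end Cor
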