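import Pool.Agent.helper45.Cor.CoreD
import Pool.Agent.helper45.Cor.Tele

/-!
Definitions for the geometric part: the region, the grid lines, the edges of the grid.
-/

noncomputable section

open Set Finset

namespace Cor

/-- the open rectangle covered by the cells of level `≤ N` -/
def Om (N : ℕ) : Set ℂ := {z | 0 < z.re ∧ z.re < 1 ∧ (1 / 2) ^ N < z.im ∧ z.im < 2}

/-- the smaller region where the solution is bounded -/
def DN (N : ℕ) : Set ℂ := {z | 1 / 4 < z.re ∧ z.re < 3 / 4 ∧ 2 * (1 / 2) ^ N < z.im ∧ z.im < 1}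

/-- the grid lines -/
def Bad (m N : ℕ) : Set ℂ :=
  {z | (∃ n ≤ N, ∃ a : ℕ, a ≤ 2 ^ (n + m) ∧ z.re = (a : ℝ) * cs m n) ∨
    ∃ n ≤ N, ∃ b : ℕ, b ≤ 2 ^ m ∧ z.im = (1 / 2) ^ n + (b : ℝ) * cs m n}

/-- local solutions on the cells: holomorphic near the cell, bounded by `K`, solving the Bezout
equation on the cell -/
def CellSol {X : Type*} [NormedCommRing X] [NormedAlgebra ℂ X] {Λ : Type*} {k : ℕ} (m N : ℕ)
    (K : ℝ) (lab : ℕ → ℕ → ℕ → Λ) (F : Fin k → ℂ → X) (S : Λ → Fin k → ℂ → X) : Prop :=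
  ∀ n ≤ N, ∀ a < 2 ^ (n + m), ∀ b < 2 ^ m, ∃ O : Set ℂ, IsOpen O ∧ cell m n a b ⊆ O ∧
    (∀ j, DifferentiableOn ℂ (S (lab n a b) j) O) ∧
    ∀ z ∈ cell m n a b, (∀ j, ‖S (lab n a b) j z‖ ≤ K) ∧ ∑ j, F j z * S (lab n a b) j z = 1

open Classical in
/-- choose `p` if it is in `G`, otherwise `q` -/
def pick (G : Finset Nd) (p q : Nd) : Nd := if p ∈ G then p else q

variable {Λ : Type*}

/-- vertical edge between `(n, a, b)` and `(n, a + 1, b)` -/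
def edV (m : ℕ) (lab : ℕ → ℕ → ℕ → Λ) (G : Finset Nd) (n a b : ℕ) : Edge Λ :=
  ⟨cc m n a b + cs m n, Complex.I, cs m n, lab n a b, lab n (a + 1) b,
    pick G (n, a / 2 ^ m) (n, (a + 1) / 2 ^ m)⟩

/-- horizontal edge between `(n, a, b)` and `(n, a, b + 1)` -/
def edH (m : ℕ) (lab : ℕ → ℕ → ℕ → Λ) (n a b : ℕ) : Edge Λ :=
  ⟨cc m n a (b + 1), 1, cs m n, lab n a (b + 1), lab n a b, (n, a / 2 ^ m)⟩

/-- horizontal edge between `(n + 1, a, 2 ^ m - 1)` and `(n, a / 2, 0)` -/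
def edL (m : ℕ) (lab : ℕ → ℕ → ℕ → Λ) (G : Finset Nd) (n a : ℕ) : Edge Λ :=
  ⟨cc m (n + 1) a (2 ^ m - 1) + Complex.I * cs m (n + 1), 1, cs m (n + 1), lab n (a / 2) 0,
    lab (n + 1) a (2 ^ m - 1), pick G (n + 1, a / 2 ^ m) (n, a / 2 / 2 ^ m)⟩

/-- all edges, indexed by kind, level, column, row -/
def edAll (m : ℕ) (lab : ℕ → ℕ → ℕ → Λ) (G : Finset Nd) (e : Fin 3 × ℕ × ℕ × ℕ) : Edge Λ :=
  if e.1 = 0 then edV m lab G e.2.1 e.2.2.1 e.2.2.2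
  else if e.1 = 1 then edH m lab e.2.1 e.2.2.1 e.2.2.2
  else edL m lab G e.2.1 e.2.2.1

/-- the index set of the edges -/
def EAll (m N : ℕ) : Finset (Fin 3 × ℕ × ℕ × ℕ) :=
  ((Finset.univ : Finset (Fin 3)) ×ˢ (Finset.range (N + 1) ×ˢ
    (Finset.range (2 ^ (N + m)) ×ˢ Finset.range (2 ^ m)))).filter
    (fun e => if e.1 = 0 then e.2.2.1 + 1 < 2 ^ (e.2.1 + m)
      else if e.1 = 1 then e.2.2.1 < 2 ^ (e.2.1 + m) ∧ e.2.2.2 + 1 < 2 ^ m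
      else e.2.1 < N ∧ e.2.2.1 < 2 ^ (e.2.1 + 1 + m) ∧ e.2.2.2 = 0)

open Classical in
/-- the interface edges -/
def EInt (m N : ℕ) (lab : ℕ → ℕ → ℕ → Λ) (G : Finset Nd) : Finset (Fin 3 × ℕ × ℕ × ℕ) :=
  (EAll m N).filter (fun e => (edAll m lab G e).lp ≠ (edAll m lab G e).lm)

/-- the outer boundary term -/
def OutB {X : Type*} [NormedAddCommGroup X] [NormedSpace ℂ X] (m N : ℕ)
    (lab : ℕ → ℕ → ℕ → Λ) (s : Λ → ℂ → X) (z : ℂ) : X :=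
  ∑ a ∈ range (2 ^ (N + m)), eInt (cc m N a 0) 1 (cs m N)
      (fun ζ => (ζ - z)⁻¹ • s (lab N a 0) ζ) -
    ∑ a ∈ range (2 ^ m),
      eInt (cc m 0 a (2 ^ m - 1) + Complex.I * cs m 0) 1 (cs m 0)
        (fun ζ => (ζ - z)⁻¹ • s (lab 0 a (2 ^ m - 1)) ζ) +
    ∑ n ∈ range (N + 1), ∑ b ∈ range (2 ^ m),
      eInt (cc m n (2 ^ (n + m) - 1) b + cs m n) Complex.I (cs m n)
        (fun ζ => (ζ - z)⁻¹ • s (lab n (2 ^ (n + m) - 1) b) ζ) -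
    ∑ n ∈ range (N + 1), ∑ b ∈ range (2 ^ m), eInt (cc m n 0 b) Complex.I (cs m n)
      (fun ζ => (ζ - z)⁻¹ • s (lab n 0 b) ζ)

end Cor
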