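import Pool.Agent.helper45.Cor.DiscH
import Pool.Agent.helper45.Cor.DiscK

/-!
Functions on the polydisc which are controlled by Hilbert space valued functions of one variable.
-/

noncomputable section

open Set Metric

namespace Cor

/-- the Hilbert space of square summable sequences -/
abbrev L2 : Type := lp (fun _ : ℕ => ℂ) 2

/-- `f` is bounded and holomorphic on the polydisc, and for every `ε > 0` its oscillation is at most
`ε` on the sets where finitely many bounded holomorphic functions `h q i` of the single variables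
`z i`, with values in the Hilbert space `L2`, vary by less than some `ρ > 0` -/
def HC (n : ℕ) (f : (Fin n → ℂ) → ℂ) : Prop :=
  HInf (PD n) f ∧ ∀ ε : ℝ, 0 < ε → ∃ (r : ℕ) (h : Fin r → Fin n → ℂ → L2) (B ρ : ℝ), 0 < ρ ∧
    (∀ q i, DifferentiableOn ℂ (h q i) (ball 0 1)) ∧
    (∀ q i, ∀ w ∈ ball (0 : ℂ) 1, ‖h q i w‖ ≤ B) ∧
    ∀ z ∈ PD n, ∀ w ∈ PD n, (∀ q i, ‖h q i (z i) - h q i (w i)‖ < ρ) → ‖f z - f w‖ ≤ ε

/-- finitely many Hilbert space valued functions are put together -/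
theorem HC_merge {n : ℕ} {κ : Type} [Fintype κ] (h : κ → Fin n → ℂ → L2) (B : κ → ℝ)
    (hh : ∀ j i, DifferentiableOn ℂ (h j i) (ball 0 1))
    (hB : ∀ j i, ∀ w ∈ ball (0 : ℂ) 1, ‖h j i w‖ ≤ B j) :
    ∃ (H : Fin n → ℂ → PiLp 2 (fun _ : κ => L2)) (C : ℝ), 0 ≤ C ∧
      (∀ i, DifferentiableOn ℂ (H i) (ball 0 1)) ∧ (∀ i, ∀ w ∈ ball (0 : ℂ) 1, ‖H i w‖ ≤ C) ∧
      ∀ i z w j, ‖h j i z - h j i w‖ ≤ ‖H i z - H i w‖ := by
  refine ⟨fun i w => WithLp.toLp 2 (fun j => h j i w), Real.sqrt (∑ j, (B j) ^ 2),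
    Real.sqrt_nonneg _, ?_, ?_, ?_⟩
  · intro i
    have h1 : DifferentiableOn ℂ (fun w => (fun j => h j i w : κ → L2)) (ball 0 1) :=
      differentiableOn_pi.2 fun j => hh j i
    exact (PiLp.continuousLinearEquiv 2 ℂ
      (fun _ : κ => L2)).symm.differentiable.comp_differentiableOn h1
  · intro i w hw
    rw [PiLp.norm_eq_of_L2]
    refine Real.sqrt_le_sqrt (Finset.sum_le_sum fun j _ => ?_)
    have := hB j i w hw
    have h0 := norm_nonneg (h j i w)
    show ‖h j i w‖ ^ 2 ≤ B j ^ 2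
    nlinarith
  · intro i z w j
    exact PiLp.norm_apply_le (p := 2) (WithLp.toLp 2 (fun j => h j i z) -
      WithLp.toLp 2 (fun j => h j i w) : PiLp 2 (fun _ : κ => L2)) j

/-- corona theorem: one arbitrary generator, the others controlled by Hilbert space valued
functions of one variable -/
theorem corona_HC {n k : ℕ} (f : Fin k → (Fin n → ℂ) → ℂ) (hf : ∀ j, HInf (PD n) (f j))
    (j₀ : Fin k) (hT : ∀ j, j ≠ j₀ → HC n (f j)) {c : ℝ} (hc : 0 < c)
    (hb : ∀ z ∈ PD n, c ≤ ∑ j, ‖f j z‖) :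
    ∃ g : Fin k → (Fin n → ℂ) → ℂ, (∀ j, HInf (PD n) (g j)) ∧
      ∀ z ∈ PD n, ∑ j, f j z * g j z = 1 := by
  classical
  have hk : 0 < k := Fin.pos j₀
  have hkr : (0 : ℝ) < k := by exact_mod_cast hk
  have hk1 : (1 : ℝ) ≤ k := by exact_mod_cast hk
  set ε : ℝ := c / (4 * k) with hε
  have hε0 : 0 < ε := by positivity
  -- the controls
  have h1 : ∀ j, ∃ (r : ℕ) (h : Fin r → Fin n → ℂ → L2) (B ρ : ℝ), 0 < ρ ∧
      (∀ q i, DifferentiableOn ℂ (h q i) (ball 0 1)) ∧
      (∀ q i, ∀ w ∈ ball (0 : ℂ) 1, ‖h q i w‖ ≤ B) ∧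
      (j ≠ j₀ → ∀ z ∈ PD n, ∀ w ∈ PD n, (∀ q i, ‖h q i (z i) - h q i (w i)‖ < ρ) →
        ‖f j z - f j w‖ ≤ ε) := by
    intro j
    by_cases hj : j = j₀
    · exact ⟨0, fun _ _ _ => 0, 0, 1, one_pos, fun _ _ => differentiableOn_const 0,
        fun _ _ _ _ => by simp, fun h => absurd hj h⟩
    · obtain ⟨r, h, B, ρ, hρ, hd, hB, H⟩ := (hT j hj).2 ε hε0
      exact ⟨r, h, B, ρ, hρ, hd, hB, fun _ => H⟩
  choose κ h B ρ hρ hd hB hH using h1
  obtain ⟨H, C, hC0, hHd, hHC, hHh⟩ := HC_merge (κ := Σ j, Fin (κ j)) (fun p => h p.1 p.2)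
    (fun p => B p.1) (fun p => hd p.1 p.2) (fun p => hB p.1 p.2)
  have hρm : ∃ r : ℝ, 0 < r ∧ ∀ j, r ≤ ρ j := by
    have hne : (Finset.univ : Finset (Fin k)).Nonempty := ⟨j₀, Finset.mem_univ _⟩
    refine ⟨Finset.univ.inf' hne ρ, ?_, fun j => Finset.inf'_le _ (Finset.mem_univ j)⟩
    exact (Finset.lt_inf'_iff hne).2 fun j _ => hρ j
  obtain ⟨r, hr, hrρ⟩ := hρm
  -- a common bound
  have hbd : ∃ M : ℝ, 1 ≤ M ∧ ∀ j, ∀ z ∈ PD n, ‖f j z‖ ≤ M := by
    choose b hb' using fun j => (hf j).2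
    refine ⟨1 + ∑ j, |b j|, ?_, ?_⟩
    · have : 0 ≤ ∑ j, |b j| := Finset.sum_nonneg fun j _ => abs_nonneg _
      linarith
    · intro j z hz
      have h1 : |b j| ≤ ∑ j, |b j| :=
        Finset.single_le_sum (f := fun j => |b j|) (fun i _ => abs_nonneg _) (Finset.mem_univ j)
      have h2 := hb' j z hz
      have h3 := le_abs_self (b j)
      linarith
  obtain ⟨M, hM1, hM⟩ := hbd
  have hM0 : (0 : ℝ) < M := by linarith
  have hMc : (M : ℂ) ≠ 0 := by exact_mod_cast hM0.ne'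
  have hdiv : ∀ {g : (Fin n → ℂ) → ℂ}, DifferentiableOn ℂ g (PD n) →
      DifferentiableOn ℂ (fun z => g z / (M : ℂ)) (PD n) := by
    intro g hg
    simpa only [div_eq_mul_inv] using hg.mul_const ((M : ℂ)⁻¹)
  obtain ⟨C', hC'0, hC'⟩ := discH n k (E := PiLp 2 (fun _ : (Σ j, Fin (κ j)) => L2)) (ρ := r / 2) (B := C)
    (by positivity) hC0 (K := M * ε⁻¹) (by positivity)
  obtain ⟨A, hA, hA1⟩ := hC' (fun j z => f j z / M) (fun j => ⟨hdiv (hf j).1, 1, fun z hz => by
      rw [norm_div, Complex.norm_real, Real.norm_of_nonneg hM0.le]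
      exact (div_le_one hM0).2 (hM j z hz)⟩) (fun j z hz => by
      rw [norm_div, Complex.norm_real, Real.norm_of_nonneg hM0.le]
      exact (div_le_one hM0).2 (hM j z hz)) H hHd hHC (by
    intro c'
    set W : Set (Fin n → ℂ) := {z | z ∈ PD n ∧ ∀ i, ‖H i (z i) - c' i‖ < r / 2} with hW
    have hWs : W ⊆ PD n := fun z hz => hz.1
    have hfin : ∃ A : Fin k → (Fin n → ℂ) → ℂ, (∀ i, DifferentiableOn ℂ (A i) W) ∧
        ∀ z ∈ W, (∀ i, ‖A i z‖ ≤ ε⁻¹) ∧ ∑ i, f i z * A i z = 1 := by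
      by_cases hWe : W = ∅
      · refine ⟨fun _ _ => 0, fun _ => differentiableOn_const 0, ?_⟩
        rw [hWe]
        intro z hz
        exact absurd hz (Set.notMem_empty _)
      obtain ⟨w, hw⟩ := Set.nonempty_iff_ne_empty.2 hWe
      have hosc : ∀ z ∈ W, ∀ j, j ≠ j₀ → ‖f j z - f j w‖ ≤ ε := by
        intro z hz j hj
        refine hH j hj z hz.1 w hw.1 fun q i => ?_
        have e1 : ‖H i (z i) - H i (w i)‖ < r := by
          have e2 : H i (z i) - H i (w i) = (H i (z i) - c' i) - (H i (w i) - c' i) := by abel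
          rw [e2]
          have := norm_sub_le (H i (z i) - c' i) (H i (w i) - c' i)
          have := hz.2 i
          have := hw.2 i
          linarith
        exact ((hHh i _ _ ⟨j, q⟩).trans_lt e1).trans_le (hrρ j)
      by_cases hex : ∃ j, j ≠ j₀ ∧ 2 * ε ≤ ‖f j w‖
      · obtain ⟨j, hj, hj2⟩ := hex
        refine DiscK_loc f hf W hWs j hε0 fun z hz => ?_
        have := hosc z hz j hj
        have := norm_sub_norm_le (f j w) (f j z)
        rw [norm_sub_rev] at this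
        linarith
      · push Not at hex
        refine DiscK_loc f hf W hWs j₀ hε0 fun z hz => ?_
        have h2 := hb z (hWs hz)
        rw [← Finset.add_sum_erase _ _ (Finset.mem_univ j₀)] at h2
        have h3 : ∑ j ∈ Finset.univ.erase j₀, ‖f j z‖ ≤
            ∑ j ∈ (Finset.univ : Finset (Fin k)).erase j₀, 3 * ε := by
          refine Finset.sum_le_sum fun j hj => ?_
          have hj' : j ≠ j₀ := Finset.ne_of_mem_erase hj
          have h4 := hosc z hz j hj'
          have h5 := hex j hj'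
          have h6 := norm_sub_norm_le (f j z) (f j w)
          linarith
        rw [Finset.sum_const, Finset.card_erase_of_mem (Finset.mem_univ _), Finset.card_univ,
          Fintype.card_fin, nsmul_eq_mul, Nat.cast_sub (by omega : 1 ≤ k), Nat.cast_one] at h3
        have h7 : c = 4 * k * ε := by rw [hε]; field_simp
        nlinarith
    obtain ⟨A, hA, hA1⟩ := hfin
    refine ⟨fun j z => M * A j z, fun j => (differentiableOn_const _).mul (hA j), ?_⟩
    intro z hz hzc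
    obtain ⟨h1, h2⟩ := hA1 z ⟨hz, hzc⟩
    constructor
    · intro j
      rw [norm_mul, Complex.norm_real, Real.norm_of_nonneg hM0.le]
      exact mul_le_mul_of_nonneg_left (h1 j) hM0.le
    · rw [← h2]
      refine Finset.sum_congr rfl fun j _ => ?_
      field_simp)
  refine ⟨fun j z => A j z / M, fun j => ⟨hdiv (hA j), C' / M, fun z hz => ?_⟩, fun z hz => ?_⟩
  · rw [norm_div, Complex.norm_real, Real.norm_of_nonneg hM0.le]
    exact div_le_div_of_nonneg_right ((hA1 z hz).1 j) hM0.le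
  · rw [← (hA1 z hz).2]
    refine Finset.sum_congr rfl fun j _ => ?_
    ring

end Cor
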