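import Pool.Agent.helper45.Cor.GP

/-!
Module COR-L: localisation on a product of half planes.

PROOF.  For a finite set `s` of indices and `c` let
`O s c i = HP` if `i ∈ s`, `{t ∈ HP : ∀ q, |h i q t - c i q| < ρ}` otherwise (open sets).  Claim:
`Solv (O s c) F` for all `c`, by induction on `s` (`Finset.induction_on`).  `s = ∅`: hypothesis.
`insert l s`: apply `gp` with the variable `l`, `O := O (insert l s) c`; for `c' : Fin r → ℂ`,
`update (O (insert l s) c) l {t ∈ HP : |h l q t - c' q| < ρ} = O s (update c l c')`, solvable by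
induction.  `SH (fun _ => HP) (F j)` restricts to `SH (O s c) (F j)`.
-/

noncomputable section

open Set

namespace Cor

theorem loc_open_HP : IsOpen HP := isOpen_lt continuous_const Complex.continuous_im

theorem loc_open_cell {r : ℕ} {h : Fin r → ℂ → ℂ} (hh : ∀ q, Unit1 (h q)) (c : Fin r → ℂ) (ρ : ℝ) :
    IsOpen {t : ℂ | t ∈ HP ∧ ∀ q, ‖h q t - c q‖ < ρ} := by
  have h1 : ContinuousOn (fun t : ℂ => fun q => h q t) HP :=
    continuousOn_pi.2 (fun q => (hh q).1.continuousOn)
  have h2 : IsOpen {v : Fin r → ℂ | ∀ q, ‖v q - c q‖ < ρ} := by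
    have : {v : Fin r → ℂ | ∀ q, ‖v q - c q‖ < ρ} = ⋂ q, {v : Fin r → ℂ | ‖v q - c q‖ < ρ} := by
      ext v; simp
    rw [this]
    exact isOpen_iInter_of_finite (fun q => isOpen_lt
      (((continuous_apply q).sub continuous_const).norm) continuous_const)
  exact h1.isOpen_inter_preimage loc_open_HP h2

theorem SH.mono {ι : Type*} [DecidableEq ι] {O O' : ι → Set ℂ} (h : ∀ i, O' i ⊆ O i)
    {f : (ι → ℂ) → ℂ} (hf : SH O f) : SH O' f := by
  obtain ⟨⟨C, hC⟩, h2⟩ := hf
  exact ⟨⟨C, fun z hz => hC z (fun i => h i (hz i))⟩,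
    fun z hz l => (h2 z (fun i => h i (hz i)) l).mono (h l)⟩

theorem loc_HP {ι : Type*} [DecidableEq ι] [Fintype ι] {k : ℕ} {F : Fin k → (ι → ℂ) → ℂ}
    (hF : ∀ j, SH (fun _ => HP) (F j)) {r : ℕ} {h : ι → Fin r → ℂ → ℂ}
    (hh : ∀ i q, Unit1 (h i q)) {ρ : ℝ} (hρ : 0 < ρ)
    (hloc : ∀ c : ι → Fin r → ℂ, Solv (fun i => {t | t ∈ HP ∧ ∀ q, ‖h i q t - c i q‖ < ρ}) F) :
    Solv (fun _ => HP) F := by
  classical
  have key : ∀ s : Finset ι, ∀ c : ι → Fin r → ℂ,
      Solv (fun i => if i ∈ s then HP else {t | t ∈ HP ∧ ∀ q, ‖h i q t - c i q‖ < ρ}) F := by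
    intro s
    induction s using Finset.induction_on with
    | empty =>
      intro c
      simpa using hloc c
    | insert l s hls ih =>
      intro c
      refine gp (l := l) (h := h l) (ρ := ρ) ?_ ?_ ?_ (hh l) hρ ?_
      · intro i
        split_ifs with hi
        · exact loc_open_HP
        · exact loc_open_cell (hh i) (c i) ρ
      · simp
      · intro j
        refine (hF j).mono ?_
        intro i
        split_ifs with hi
        · exact subset_rfl
        · exact fun t ht => ht.1
      · intro c'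
        have e : Function.update (fun i => if i ∈ insert l s then HP else
            {t | t ∈ HP ∧ ∀ q, ‖h i q t - c i q‖ < ρ}) l {t | t ∈ HP ∧ ∀ i, ‖h l i t - c' i‖ < ρ} =
            (fun i => if i ∈ s then HP else
              {t | t ∈ HP ∧ ∀ q, ‖h i q t - (Function.update c l c') i q‖ < ρ}) := by
          funext i
          by_cases hi : i = l
          · subst hi
            simp [hls]
          · simp [hi]
        rw [e]
        exact ih _
  have := key Finset.univ (fun _ _ => 0)
  simpa using this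

end Cor
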