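import Pool.Agent.helper45.Cor.GPH
import Pool.Agent.helper45.Cor.Loc

/-!
Quantitative localisation on a product of half planes, Hilbert space valued controls.
-/

noncomputable section

open Set

namespace Cor

theorem locH_open_cell {E : Type*} [NormedAddCommGroup E] [InnerProductSpace ℂ E]
    {h : ℂ → E} (hh : DifferentiableOn ℂ h HP) (c : E) (ρ : ℝ) :
    IsOpen {t | t ∈ HP ∧ ‖h t - c‖ < ρ} := by
  have h1 : {t | t ∈ HP ∧ ‖h t - c‖ < ρ} = HP ∩ (fun t => ‖h t - c‖) ⁻¹' Iio ρ := rfl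
  rw [h1]
  exact ContinuousOn.isOpen_inter_preimage ((hh.continuousOn.sub continuousOn_const).norm)
    loc_open_HP isOpen_Iio

theorem locH {ι : Type*} [DecidableEq ι] [Fintype ι] {E : Type*} [NormedAddCommGroup E]
    [InnerProductSpace ℂ E] [CompleteSpace E] (k : ℕ) {ρ B : ℝ} (hρ : 0 < ρ) (hB : 0 ≤ B) {K : ℝ}
    (hK : 0 ≤ K) :
    ∃ C : ℝ, 0 ≤ C ∧ ∀ F : Fin k → (ι → ℂ) → ℂ, (∀ j, SH (fun _ => HP) (F j)) →
      (∀ j, ∀ z ∈ Pr (fun _ => HP), ‖F j z‖ ≤ 1) →
      ∀ h : ι → ℂ → E, (∀ i, DifferentiableOn ℂ (h i) HP) → (∀ i, ∀ z ∈ HP, ‖h i z‖ ≤ B) →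
      (∀ c : ι → E, SolvK K (fun i => {t | t ∈ HP ∧ ‖h i t - c i‖ < ρ}) F) →
      SolvK C (fun _ => HP) F := by
  classical
  have key : ∀ s : Finset ι, ∃ C : ℝ, 0 ≤ C ∧ ∀ F : Fin k → (ι → ℂ) → ℂ,
      (∀ j, SH (fun _ => HP) (F j)) → (∀ j, ∀ z ∈ Pr (fun _ => HP), ‖F j z‖ ≤ 1) →
      ∀ h : ι → ℂ → E, (∀ i, DifferentiableOn ℂ (h i) HP) → (∀ i, ∀ z ∈ HP, ‖h i z‖ ≤ B) →
      (∀ c : ι → E, SolvK K (fun i => {t | t ∈ HP ∧ ‖h i t - c i‖ < ρ}) F) →
      ∀ c : ι → E,
        SolvK C (fun i => if i ∈ s then HP else {t | t ∈ HP ∧ ‖h i t - c i‖ < ρ}) F := by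
    intro s
    induction s using Finset.induction_on with
    | empty =>
      refine ⟨K, hK, ?_⟩
      intro F _ _ h _ _ hloc c
      simpa using hloc c
    | insert l s hls ih =>
      obtain ⟨C, hC, hCF⟩ := ih
      obtain ⟨C', hC', hgp⟩ := gpH (ι := ι) (E := E) k hρ hB hC
      refine ⟨C', hC', ?_⟩
      intro F hF hF1 h hh hhB hloc c
      have hsub : ∀ i, (if i ∈ insert l s then HP else
          {t | t ∈ HP ∧ ‖h i t - c i‖ < ρ}) ⊆ HP := by
        intro i
        split_ifs with hi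
        · exact subset_rfl
        · exact fun t ht => ht.1
      refine hgp l (fun i => if i ∈ insert l s then HP else
          {t | t ∈ HP ∧ ‖h i t - c i‖ < ρ}) ?_ ?_ F ?_ ?_ (h l) (hh l) (hhB l) ?_
      · intro i
        show IsOpen (if i ∈ insert l s then HP else {t | t ∈ HP ∧ ‖h i t - c i‖ < ρ})
        split_ifs with hi
        · exact loc_open_HP
        · exact locH_open_cell (hh i) (c i) ρ
      · simp
      · intro j
        exact (hF j).mono hsub
      · intro j z hz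
        exact hF1 j z (fun i => hsub i (hz i))
      · intro c'
        have e : Function.update (fun i => if i ∈ insert l s then HP else
            {t | t ∈ HP ∧ ‖h i t - c i‖ < ρ}) l {t | t ∈ HP ∧ ‖h l t - c'‖ < ρ} =
            (fun i => if i ∈ s then HP else
              {t | t ∈ HP ∧ ‖h i t - (Function.update c l c') i‖ < ρ}) := by
          funext i
          by_cases hi : i = l
          · subst hi
            simp [hls]
          · simp [hi]
        rw [e]
        exact hCF F hF hF1 h hh hhB hloc _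
  obtain ⟨C, hC, hCF⟩ := key Finset.univ
  refine ⟨C, hC, ?_⟩
  intro F hF hF1 h hh hhB hloc
  have := hCF F hF hF1 h hh hhB hloc (fun _ => 0)
  simpa using this

end Cor
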