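import Pool.Agent.helper45.Cor.GPQ
import Pool.Agent.helper45.Cor.Loc

/-!
Module COR-LK: quantitative localisation on a product of half planes.

PROOF.  As `loc_HP`, with `gpK`.  For each `p` there is a constant `C_p ≥ 0` (depending only on
`k, r, ρ, K` and `p`: `C_0 = K`, `C_{p+1}` = the constant of `gpK` for `C_p`) such that for all
admissible `F, h`, all finite sets `s` with `card s = p` and all `c`:
`SolvK C_p (O s c) F`, where `O s c i = HP` for `i ∈ s` and
`{t ∈ HP : ∀ q, |h i q t - c i q| < ρ}` otherwise.  Take `s = univ`.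
-/

noncomputable section

open Set

namespace Cor

theorem locK {ι : Type*} [DecidableEq ι] [Fintype ι] (k r : ℕ) {ρ : ℝ} (hρ : 0 < ρ) {K : ℝ}
    (hK : 0 ≤ K) :
    ∃ C : ℝ, 0 ≤ C ∧ ∀ F : Fin k → (ι → ℂ) → ℂ, (∀ j, SH (fun _ => HP) (F j)) →
      (∀ j, ∀ z ∈ Pr (fun _ => HP), ‖F j z‖ ≤ 1) →
      ∀ h : ι → Fin r → ℂ → ℂ, (∀ i q, Unit1 (h i q)) →
      (∀ c : ι → Fin r → ℂ, SolvK K (fun i => {t | t ∈ HP ∧ ∀ q, ‖h i q t - c i q‖ < ρ}) F) →
      SolvK C (fun _ => HP) F := by
  classical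
  have key : ∀ s : Finset ι, ∃ C : ℝ, 0 ≤ C ∧ ∀ F : Fin k → (ι → ℂ) → ℂ,
      (∀ j, SH (fun _ => HP) (F j)) → (∀ j, ∀ z ∈ Pr (fun _ => HP), ‖F j z‖ ≤ 1) →
      ∀ h : ι → Fin r → ℂ → ℂ, (∀ i q, Unit1 (h i q)) →
      (∀ c : ι → Fin r → ℂ, SolvK K (fun i => {t | t ∈ HP ∧ ∀ q, ‖h i q t - c i q‖ < ρ}) F) →
      ∀ c : ι → Fin r → ℂ,
        SolvK C (fun i => if i ∈ s then HP else {t | t ∈ HP ∧ ∀ q, ‖h i q t - c i q‖ < ρ}) F := by
    intro s
    induction s using Finset.induction_on with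
    | empty =>
      refine ⟨K, hK, ?_⟩
      intro F _ _ h _ hloc c
      simpa using hloc c
    | insert l s hls ih =>
      obtain ⟨C, hC, hCF⟩ := ih
      obtain ⟨C', hC', hgp⟩ := gpK (ι := ι) k r hρ hC
      refine ⟨C', hC', ?_⟩
      intro F hF hF1 h hh hloc c
      have hsub : ∀ i, (if i ∈ insert l s then HP else
          {t | t ∈ HP ∧ ∀ q, ‖h i q t - c i q‖ < ρ}) ⊆ HP := by
        intro i
        split_ifs with hi
        · exact subset_rfl
        · exact fun t ht => ht.1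
      refine hgp l (fun i => if i ∈ insert l s then HP else
          {t | t ∈ HP ∧ ∀ q, ‖h i q t - c i q‖ < ρ}) ?_ ?_ F ?_ ?_ (h l) (hh l) ?_
      · intro i
        show IsOpen (if i ∈ insert l s then HP else {t | t ∈ HP ∧ ∀ q, ‖h i q t - c i q‖ < ρ})
        split_ifs with hi
        · exact loc_open_HP
        · exact loc_open_cell (hh i) (c i) ρ
      · simp
      · intro j
        exact (hF j).mono hsub
      · intro j z hz
        exact hF1 j z (fun i => hsub i (hz i))
      · intro c'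
        have e : Function.update (fun i => if i ∈ insert l s then HP else
            {t | t ∈ HP ∧ ∀ q, ‖h i q t - c i q‖ < ρ}) l {t | t ∈ HP ∧ ∀ i, ‖h l i t - c' i‖ < ρ} =
            (fun i => if i ∈ s then HP else
              {t | t ∈ HP ∧ ∀ q, ‖h i q t - (Function.update c l c') i q‖ < ρ}) := by
          funext i
          by_cases hi : i = l
          · subst hi
            simp [hls]
          · simp [hi]
        rw [e]
        exact hCF F hF hF1 h hh hloc _
  obtain ⟨C, hC, hCF⟩ := key Finset.univ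
  refine ⟨C, hC, ?_⟩
  intro F hF hF1 h hh hloc
  have := hCF F hF hF1 h hh hloc (fun _ _ => 0)
  simpa using this

end Cor
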