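import Pool.Agent.helper45.Cor.DiscK

/-!
Module COR-TP: no restriction on the other generators if the generators contain the products
`g i (z i) * g i' (z i')` (`i ≠ i'`) of thin functions of one variable.

`pd z a` is the pseudohyperbolic distance in the unit disc.  `ThinC g`: for every `η > 0` there is
`ε > 0` such that every connected component of `{|g| < ε}` has pseudohyperbolic diameter at most `η`
(finite products of interpolating Blaschke products have this property).

PROOF of `thin_pairs`.  Scale so that `|f j| ≤ 1` on the polydisc and `|g i| ≤ 1` on the disc (all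
`f j` are divided by `M ^ 2`, all `g i` by `M`, where `M ≥ 1` is large).  Let `δ` be the lower bound
of `∑ |f j|`, `C₁` the constant of `carlesonK k (δ / 4)`.  Choose `η > 0` with `2 n k η ≤ δ / 4`
and `2 n k η C₁ ≤ 1 / 2`, let `ε > 0` be the constant of `ThinC` for `η` (common for all `g i`, and
`ε ≤ 1`).  Apply `discK` with `r = 1`, `h i 0 = g i`, `ρ = ε / 4`, `K = max (16 / ε ^ 2) (2 C₁)`.
Let `c` be given, `W` the set of the `z ∈ PD n` with `|h i 0 (z i) - c i 0| < ρ` for all `i`.
If `|c i 0| ≥ ε / 2` and `|c i' 0| ≥ ε / 2` for some `i ≠ i'`, then `|g i (z i)| ≥ ε / 4` and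
`|g i' (z i')| ≥ ε / 4` on `W`, so `|f j| ≥ ε ^ 2 / 16` on `W` for the index `j` of the pair: local
solution `1 / f j` in the place `j`, `0` elsewhere.
Otherwise there is `i₀` with `|c i 0| < ε / 2`, hence `|g i (z i)| < ε` on `W`, for all `i ≠ i₀`.
Let `a i t` be a chosen point of the connected component of `t` in `{|g i| < ε}`; `a i` is locally
constant on this open set and `pd t (a i t) < η`.  For `z ∈ W` and `w` in the unit disc let `z' w` be
the point with `z' i = a i (z i)` (`i ≠ i₀`) and `z' i₀ = w`.  By the Schwarz-Pick lemma, one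
variable after the other, `|f j z - f j (z' (z i₀))| ≤ 2 n η`, and, for `z''` = `z` with the
coordinate `i₀` replaced by `w`, also `|f j z'' - f j (z' w)| ≤ 2 n η`.  So
`∑_j |f j (z' w)| ≥ δ - 2 n k η ≥ δ / 4` for all `w`.  For each family `b = (b i)` of points of the
disc with `∑_j |f j (b with b i₀ = w)| ≥ δ / 4` for all `w`, let `ψ^b j` be solutions of
`carlesonK` for `w ↦ f j (b with b i₀ = w)`.  Put `A j z = ψ^{a(z)} j (z i₀) / E z`,
`E z = ∑ j, f j z * ψ^{a(z)} j (z i₀)`, `|E z - 1| ≤ 2 n k η C₁ ≤ 1 / 2` (`A j` is holomorphic on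
`W` since `a` is locally constant).
-/

noncomputable section

open Set Metric

namespace Cor

/-- pseudohyperbolic distance of the unit disc -/
def pdist (z a : ℂ) : ℝ := ‖z - a‖ / ‖1 - (starRingEnd ℂ) a * z‖

/-- thin functions: `g` is bounded and holomorphic on the unit disc and for every `η > 0` there is
`ε > 0` such that any two points in the same connected component of `{|g| < ε}` have
pseudohyperbolic distance less than `η` -/
def ThinC (g : ℂ → ℂ) : Prop :=
  H1 g ∧ ∀ η : ℝ, 0 < η → ∃ ε : ℝ, 0 < ε ∧ ∀ w ∈ {t : ℂ | ‖t‖ < 1 ∧ ‖g t‖ < ε},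
    ∀ z ∈ connectedComponentIn {t : ℂ | ‖t‖ < 1 ∧ ‖g t‖ < ε} w, pdist z w < η

theorem thin_pairs {n k : ℕ} (hn : 0 < n) (f : Fin k → (Fin n → ℂ) → ℂ) (hf : ∀ j, HInf (PD n) (f j))
    (g : Fin n → ℂ → ℂ) (hg : ∀ i, ThinC (g i))
    (hp : ∀ i i' : Fin n, i ≠ i' → ∃ j, ∀ z ∈ PD n, f j z = g i (z i) * g i' (z i')) {δ : ℝ}
    (hδ : 0 < δ) (hb : ∀ z ∈ PD n, δ ≤ ∑ j, ‖f j z‖) :
    ∃ A : Fin k → (Fin n → ℂ) → ℂ, (∀ j, HInf (PD n) (A j)) ∧
      ∀ z ∈ PD n, ∑ j, f j z * A j z = 1 := by
  sorry

end Cor
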