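import Pool.Agent.helper45.Cor.Core3
import Pool.Agent.helper45.Cor.Geo2
import Pool.Agent.helper45.Cor.Geo3

/-!
Module COR-TR: the truncated patching theorem.

PROOF.  Apply `core` with `E = EInt m N lab G`, `ed = edAll m lab G`, `Cn = 8 * 4 ^ m`,
`Ω = Om N`, `Bad = Bad m N`, `Out j = OutB m N lab (fun l => S l j)`, `lam z` = the label of the
cell of `z` (`find_cell`, by choice; arbitrary label `lab 0 0 0` elsewhere), and `dn_ball`.
`EdgeSol` follows from `edge_in` and `CellSol` (`bd ⊆ cell`), `bd ⊆ Bad` gives that `z` is not on an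
edge.
-/

noncomputable section

open Set Finset

namespace Cor

variable {X : Type*} [NormedCommRing X] [NormedAlgebra ℂ X] [CompleteSpace X]

omit [CompleteSpace X] in
theorem Trunc_cellHol {k m N : ℕ} {K : ℝ} {Λ : Type*} {lab : ℕ → ℕ → ℕ → Λ}
    {F : Fin k → ℂ → X} {S : Λ → Fin k → ℂ → X} (hS : CellSol m N K lab F S) (j : Fin k) :
    CellHol m N lab (fun l => S l j) := by
  intro n hn a ha b hb
  obtain ⟨O, hO, hsub, hd, _⟩ := hS n hn a ha b hb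
  exact ⟨O, hO, hsub, hd j⟩

theorem Trunc_pt_cont {Λ : Type*} (e : Edge Λ) : Continuous e.pt := by
  unfold Edge.pt
  fun_prop

omit [CompleteSpace X] in
theorem Trunc_edgeSol {k m N : ℕ} {K : ℝ} {G : Finset Nd} {Λ : Type*} {lab : ℕ → ℕ → ℕ → Λ}
    {F : Fin k → ℂ → X} {S : Λ → Fin k → ℂ → X} (hS : CellSol m N K lab F S)
    {e : Fin 3 × ℕ × ℕ × ℕ} (he : e ∈ EAll m N) : EdgeSol K F S (edAll m lab G e) := by
  obtain ⟨n₁, a₁, b₁, n₂, a₂, b₂, hn₁, hn₂, ha₁, ha₂, hb₁, hb₂, hlp, hlm, hpt⟩ :=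
    edge_in (lab := lab) (G := G) he
  obtain ⟨O₁, _, hsub₁, hd₁, hs₁⟩ := hS n₁ hn₁ a₁ ha₁ b₁ hb₁
  obtain ⟨O₂, _, hsub₂, hd₂, hs₂⟩ := hS n₂ hn₂ a₂ ha₂ b₂ hb₂
  have hc₁ : ∀ t ∈ Icc (0 : ℝ) (edAll m lab G e).s, (edAll m lab G e).pt t ∈ cell m n₁ a₁ b₁ :=
    fun t ht => (hpt t ht).1.1
  have hc₂ : ∀ t ∈ Icc (0 : ℝ) (edAll m lab G e).s, (edAll m lab G e).pt t ∈ cell m n₂ a₂ b₂ :=
    fun t ht => (hpt t ht).2.1
  have hcont := Trunc_pt_cont (edAll m lab G e)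
  refine ⟨?_, ?_, ?_, ?_, ?_, ?_⟩
  · intro j
    rw [hlp]
    exact (hd₁ j).continuousOn.comp hcont.continuousOn fun t ht => hsub₁ (hc₁ t ht)
  · intro j
    rw [hlm]
    exact (hd₂ j).continuousOn.comp hcont.continuousOn fun t ht => hsub₂ (hc₂ t ht)
  · intro j t ht
    rw [hlp]
    exact (hs₁ _ (hc₁ t ht)).1 j
  · intro j t ht
    rw [hlm]
    exact (hs₂ _ (hc₂ t ht)).1 j
  · intro t ht
    rw [hlp]
    exact (hs₁ _ (hc₁ t ht)).2
  · intro t ht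
    rw [hlm]
    exact (hs₂ _ (hc₂ t ht)).2

theorem trunc {k m N : ℕ} {T K : ℝ} (hK : 0 ≤ K) {G : Finset Nd}
    (hT : ∀ z ∈ HP, ∑ p ∈ G, om z (cen p) ≤ T) {Λ : Type*} {lab : ℕ → ℕ → ℕ → Λ}
    (hadj : AdjG m N lab G) {F : Fin k → ℂ → X} (hF : ∀ j, DifferentiableOn ℂ (F j) HP)
    (hF1 : ∀ j, ∀ z ∈ HP, ‖F j z‖ ≤ 1) {S : Λ → Fin k → ℂ → X}
    (hS : CellSol m N K lab F S) :
    ∃ A : Fin k → ℂ → X, (∀ j, DifferentiableOn ℂ (A j) (DN N)) ∧
      (∀ j, ∀ z ∈ DN N,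
        ‖A j z‖ ≤ K + 400 * k * K ^ 2 * (8 * 4 ^ m : ℕ) * Real.exp (5 / 3 * T)) ∧
      ∀ z ∈ DN N, ∑ j, F j z * A j z = 1 := by
  classical
  -- the label of a point off the grid lines
  let Pz : ℂ → Λ → Prop := fun z l => ∃ n a b : ℕ, n ≤ N ∧ a < 2 ^ (n + m) ∧ b < 2 ^ m ∧
    z ∈ cell m n a b ∧ l = lab n a b
  let lam : ℂ → Λ := fun z => if h : ∃ l, Pz z l then h.choose else lab 0 0 0
  have hlamP : ∀ z ∈ Om N, z ∉ Bad m N → Pz z (lam z) := by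
    intro z hz hb
    have hex : ∃ l, Pz z l := by
      obtain ⟨n, hn, a, ha, b, hb', hin, _⟩ := find_cell hz hb
      refine ⟨lab n a b, n, a, b, hn, ha, hb', ?_, rfl⟩
      rw [cell_eq]
      exact ⟨hin.1.le, hin.2.1.le, hin.2.2.1.le, hin.2.2.2.le⟩
    have h1 : lam z = hex.choose := dif_pos hex
    rw [h1]
    exact hex.choose_spec
  have hEA : ∀ e ∈ EInt m N lab G, e ∈ EAll m N := fun e he => (Finset.mem_filter.1 he).1
  obtain ⟨A, hAd, hAs, hAb⟩ := core (Cn := 8 * 4 ^ m) hK hT (EInt m N lab G) (edAll m lab G)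
    (fun e he => edge_good hadj he) (fun I _ => edge_card I) hF hF1
    (fun e he => Trunc_edgeSol hS (hEA e he)) (om_open N) (om_sub N)
    (Out := fun j => OutB m N lab (fun l => S l j))
    (fun j => out_diff (Trunc_cellHol hS j)) (bad_null m N) (lam := lam) (by
      intro z hz
      obtain ⟨n, a, b, hn, ha, hb, hc, hl⟩ := hlamP z hz.1 hz.2
      obtain ⟨O, _, _, _, hs⟩ := hS n hn a ha b hb
      refine ⟨?_, ?_, ?_, ?_⟩
      · intro e he t ht hpz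
        obtain ⟨n₁, a₁, b₁, n₂, a₂, b₂, hn₁, hn₂, ha₁, ha₂, hb₁, hb₂, hlp, hlm, hpt⟩ :=
          edge_in (lab := lab) (G := G) (hEA e he)
        apply hz.2
        have h1 := bd_sub_bad hn₁ ha₁ hb₁ (hpt t ht).1
        rwa [hpz] at h1
      · intro j
        rw [hl]
        exact (hs z hc).1 j
      · rw [hl]
        exact (hs z hc).2
      · intro j
        rw [hl]
        exact cauchy_sum (Trunc_cellHol hS j) hz.1 hz.2 hn ha hb hc)
  have hDN : DN N ⊆ Om N := fun z hz => (dn_ball hz).1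
  refine ⟨A, fun j => (hAd j).mono hDN, fun j z hz => ?_, fun z hz => hAs z (hDN hz)⟩
  exact hAb z (hDN hz) (dn_ball hz).2 j

end Cor
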